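import Pool.Agent.VB.B
import Mathlib.Topology.Baire.BaireMeasurable
import Mathlib.Topology.Baire.LocallyCompactRegular

/-!
# UNE [DEC]: decoding with second-order invariants

In a scattered class there is no continuous family of substructures `X f` of a countable structure,
`f : ℕ → Bool`, such that `X f` and `X f'` are isomorphic only for `f = f'`. The proof uses Baire
category on the plane.
-/

set_option autoImplicit false

namespace UNE

open Set Filter Topology Pool.Agent.Helper5.DU Pool.Agent.Helper6.Str Pool.Agent.Helper79.VC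

/-! ## Kuratowski-Ulam, the easy half -/

theorem meagre_slices {A B : Type} [TopologicalSpace A] [TopologicalSpace B]
    [SecondCountableTopology B] {N : Set (A × B)} (h : IsMeagre N) :
    ∃ Z : Set A, IsMeagre Z ∧ ∀ a ∉ Z, IsMeagre {b | (a, b) ∈ N} := by
  rw [isMeagre_iff_countable_union_isNowhereDense] at h
  obtain ⟨F, hF1, hF2, hF3⟩ := h
  let W : Set (A × B) → Set B → Set A := fun D V => {a | ∀ b ∈ V, (a, b) ∈ closure D}
  have hB := TopologicalSpace.countable_countableBasis B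
  refine ⟨⋃ D ∈ F, ⋃ V ∈ TopologicalSpace.countableBasis B, W D V, ?_, fun a ha => ?_⟩
  · refine isMeagre_biUnion hF2 fun D hD => isMeagre_biUnion hB fun V hV => ?_
    have hVo := TopologicalSpace.isOpen_of_mem_countableBasis hV
    have hVn : V.Nonempty := TopologicalSpace.nonempty_of_mem_countableBasis hV
    have hcl : IsClosed (W D V) := by
      have : W D V = ⋂ b ∈ V, (fun a => (a, b)) ⁻¹' closure D := by
        ext a; simp [W]
      rw [this]
      exact isClosed_biInter fun b _ => isClosed_closure.preimage (by fun_prop)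
    refine IsNowhereDense.isMeagre ?_
    rw [IsNowhereDense, hcl.closure_eq, eq_empty_iff_forall_notMem]
    intro a ha
    obtain ⟨b, hb⟩ := hVn
    have h1 : (a, b) ∈ interior (closure D) := by
      rw [mem_interior]
      refine ⟨interior (W D V) ×ˢ V, ?_, isOpen_interior.prod hVo, ha, hb⟩
      rintro ⟨a', b'⟩ ⟨h2, h3⟩
      exact interior_subset h2 b' h3
    have h2 := hF1 D hD
    rw [IsNowhereDense] at h2
    rw [h2] at h1
    exact h1
  · simp only [mem_iUnion, not_exists] at ha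
    have h1 : {b | (a, b) ∈ N} ⊆ ⋃ D ∈ F, {b | (a, b) ∈ closure D} := by
      intro b hb
      obtain ⟨D, hD, hb'⟩ := mem_sUnion.mp (hF3 hb)
      exact mem_biUnion hD (subset_closure hb')
    refine IsMeagre.mono h1 (isMeagre_biUnion hF2 fun D hD => ?_)
    have hcl : IsClosed {b | (a, b) ∈ closure D} := isClosed_closure.preimage (by fun_prop)
    refine IsNowhereDense.isMeagre ?_
    rw [IsNowhereDense, hcl.closure_eq, eq_empty_iff_forall_notMem]
    intro b hb
    obtain ⟨V, hV, hbV, hV2⟩ := (TopologicalSpace.isBasis_countableBasis B).exists_subset_of_mem_open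
      hb isOpen_interior
    refine ha D hD V hV fun b' hb' => ?_
    have h4 : b' ∈ {b | (a, b) ∈ closure D} := interior_subset (hV2 hb')
    exact h4

theorem meagre_congr {A : Type} [TopologicalSpace A] {s t : Set A} (h : s =ᵇ t)
    (hs : IsMeagre s) : IsMeagre t := by
  rw [IsMeagre] at hs ⊢
  filter_upwards [hs, Filter.eventuallyEq_set.mp h] with x hx hx'
  exact fun h => hx (hx'.mpr h)

/-! ## The sets of pairs of a given level -/

abbrev Cc : Type := ℕ → Bool

variable {L : FirstOrder.Language.{0, 0}} {M : Type} {S : L.Structure M} {X : Cc → Set M}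

/-- the pairs for which the substructures are equivalent of level `γ` -/
def EE (S : L.Structure M) (X : Cc → Set M) (γ : Ordinal.{0}) (p : Set (M × M)) :
    Set (Cc × Cc) := {z | BFR S S (X z.1) (X z.2) γ p}

theorem EE_baire [Countable M] (hX : ∀ x, IsClopen {f | x ∈ X f}) {γ : Ordinal.{0}}
    (hγ : γ < om1) : ∀ p : Set (M × M), BaireMeasurableSet (EE S X γ p) := by
  induction γ using WellFoundedLT.induction with
  | _ γ ih =>
    intro p
    have hc : Countable (Iio γ) := (countable_Iio hγ).to_subtype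
    have h1 : ∀ x, BaireMeasurableSet {z : Cc × Cc | x ∈ X z.1} := fun x =>
      ((hX x).isOpen.preimage continuous_fst).baireMeasurableSet
    have h2 : ∀ x, BaireMeasurableSet {z : Cc × Cc | x ∈ X z.2} := fun x =>
      ((hX x).isOpen.preimage continuous_snd).baireMeasurableSet
    have h0 : BaireMeasurableSet {z : Cc × Cc | AtEq S S p} := by
      by_cases h : AtEq S S p
      · have : {z : Cc × Cc | AtEq S S p} = univ := by simp [h]
        rw [this]; exact isOpen_univ.baireMeasurableSet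
      · have : {z : Cc × Cc | AtEq S S p} = ∅ := by simp [h]
        rw [this]; exact isOpen_empty.baireMeasurableSet
    have : EE S X γ p = {z | AtEq S S p} ∩ ⋂ β : Iio γ,
        ((⋂ x : M, ({z : Cc × Cc | x ∈ X z.1}ᶜ ∪
            ⋃ y : M, ({z : Cc × Cc | y ∈ X z.2} ∩ EE S X β.1 (insert (x, y) p)))) ∩
        (⋂ y : M, ({z : Cc × Cc | y ∈ X z.2}ᶜ ∪
            ⋃ x : M, ({z : Cc × Cc | x ∈ X z.1} ∩ EE S X β.1 (insert (x, y) p))))) := by
      ext z
      simp only [EE, mem_ofPred_eq, mem_inter_iff, mem_iInter, mem_union, mem_compl_iff, mem_iUnion]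
      rw [BFR.def]
      simp only [Subtype.forall, mem_Iio, imp_iff_not_or]
    rw [this]
    refine h0.inter (BaireMeasurableSet.iInter fun β => ?_)
    have h3 := ih β.1 β.2 (lt_trans β.2 hγ)
    exact (BaireMeasurableSet.iInter fun x => (h1 x).compl.union
      (BaireMeasurableSet.iUnion fun y => (h2 y).inter (h3 _))).inter
      (BaireMeasurableSet.iInter fun y => (h2 y).compl.union
      (BaireMeasurableSet.iUnion fun x => (h1 x).inter (h3 _)))

theorem EE_mono {γ β : Ordinal.{0}} (h : β ≤ γ) (p : Set (M × M)) : EE S X γ p ⊆ EE S X β p :=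
  fun _ hz => BFR.mono h hz

/-- for all but countably many `γ` almost nothing is lost in the step from `γ` to `γ + 1` -/
theorem countable_loss [Countable M] (hX : ∀ x, IsClopen {f | x ∈ X f}) (p : Set (M × M)) :
    {γ : Ordinal.{0} | γ < om1 ∧ ¬ IsMeagre (EE S X γ p \ EE S X (γ + 1) p)}.Countable := by
  have h1 : ∀ γ : Ordinal.{0}, ∃ u : Set (Cc × Cc), γ < om1 →
      IsOpen u ∧ (EE S X γ p \ EE S X (γ + 1) p : Set (Cc × Cc)) =ᵇ u := by
    intro γ
    by_cases hγ : γ < om1
    · obtain ⟨u, hu, hu'⟩ := ((EE_baire (S := S) hX hγ p).diff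
        (EE_baire (S := S) hX (add_one_lt_om1 hγ) p)).residualEq_isOpen
      exact ⟨u, fun _ => ⟨hu, hu'⟩⟩
    · exact ⟨∅, fun h => absurd h hγ⟩
  choose u hu using h1
  refine Set.PairwiseDisjoint.countable_of_isOpen (s := u) ?_ (fun γ hγ => (hu γ hγ.1).1) ?_
  · intro γ hγ β hβ hne
    rw [Function.onFun, disjoint_iff_inter_eq_empty]
    by_contra hcon
    have hne' := nonempty_iff_ne_empty.mpr hcon
    refine not_isMeagre_of_isOpen ((hu γ hγ.1).1.inter (hu β hβ.1).1) hne' ?_
    have h2 : (EE S X γ p \ EE S X (γ + 1) p) ∩ (EE S X β p \ EE S X (β + 1) p) = ∅ := by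
      rw [eq_empty_iff_forall_notMem]
      rintro z ⟨⟨h3, h4⟩, h5, h6⟩
      rcases lt_or_gt_of_ne hne with h | h
      · exact h4 (EE_mono (Order.add_one_le_of_lt h) p h5)
      · exact h6 (EE_mono (Order.add_one_le_of_lt h) p h3)
    have h3 := (hu γ hγ.1).2.inter (hu β hβ.1).2
    rw [h2] at h3
    exact meagre_congr h3 IsMeagre.empty
  · intro γ hγ
    rw [nonempty_iff_ne_empty]
    intro hcon
    refine hγ.2 ?_
    have h3 := (hu γ hγ.1).2
    rw [hcon] at h3
    exact meagre_congr h3.symm IsMeagre.empty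

/-- a level above a countable set of levels -/
theorem exists_level {Z : Set Ordinal.{0}} (hZ : Z.Countable) (h : ∀ γ ∈ Z, γ < om1) :
    ∃ γ < om1, γ ∉ Z := by
  rcases Z.eq_empty_or_nonempty with rfl | hne
  · exact ⟨0, Ordinal.omega_pos 1, notMem_empty _⟩
  · obtain ⟨e, rfl⟩ := hZ.exists_eq_range hne
    refine ⟨(⨆ n, e n) + 1, add_one_lt_om1 (iSup_lt_om1 fun n => h _ (mem_range_self n)), ?_⟩
    rintro ⟨n, hn⟩
    have h1 : e n ≤ ⨆ n, e n := Ordinal.le_iSup e n
    rw [hn] at h1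
    exact absurd h1 (not_le.mpr (Order.lt_add_one_iff.mpr le_rfl))

/-- a level at which almost all pairs are stable -/
theorem exists_stable [Countable M] (hX : ∀ x, IsClopen {f | x ∈ X f}) :
    ∃ γ < om1, ∃ N : Set (Cc × Cc), IsMeagre N ∧ ∀ z ∉ N, ∀ p : Set (M × M), p.Finite →
      BFR S S (X z.1) (X z.2) γ p → BFR S S (X z.1) (X z.2) (γ + 1) p := by
  have h1 : (⋃ p : Finset (M × M), {γ : Ordinal.{0} | γ < om1 ∧
      ¬ IsMeagre (EE S X γ (p : Set (M × M)) \ EE S X (γ + 1) p)}).Countable :=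
    countable_iUnion fun p => countable_loss hX _
  obtain ⟨γ, hγ, hγ'⟩ := exists_level h1 (by
    intro γ hγ
    obtain ⟨p, hp⟩ := mem_iUnion.mp hγ
    exact hp.1)
  simp only [mem_iUnion, not_exists] at hγ'
  refine ⟨γ, hγ, ⋃ p : Finset (M × M), EE S X γ (p : Set (M × M)) \ EE S X (γ + 1) p,
    isMeagre_iUnion fun p => ?_, fun z hz p hp h => ?_⟩
  · by_contra h
    exact hγ' p ⟨hγ, h⟩
  · by_contra hcon
    refine hz (mem_iUnion.mpr ⟨hp.toFinset, ?_⟩)
    rw [hp.coe_toFinset]
    exact ⟨h, hcon⟩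

/-! ## The theorem -/

variable [∀ n, IsEmpty (L.Functions n)]

omit [∀ n, IsEmpty (L.Functions n)] in
/-- a back-and-forth system gives an isomorphism which extends a given position -/
theorem iso_of_system_from {T T' : L.Structure ℕ} (J : Set (ℕ × ℕ) → Prop)
    (hJ : ∀ p, J p → AtEq T T' p)
    (h1 : ∀ p : Set (ℕ × ℕ), p.Finite → J p → ∀ x, ∃ y, J (insert (x, y) p))
    (h2 : ∀ p : Set (ℕ × ℕ), p.Finite → J p → ∀ y, ∃ x, J (insert (x, y) p))
    (p₀ : Set (ℕ × ℕ)) (hp₀ : p₀.Finite) (h0 : J p₀) :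
    ∃ e : ℕ ≃ ℕ, RelIso T T' e ∧ ∀ z ∈ p₀, e z.1 = z.2 := by
  have hstep : ∀ (k : ℕ) (q : {q : Set (ℕ × ℕ) // q.Finite ∧ J q}),
      ∃ q' : {q : Set (ℕ × ℕ) // q.Finite ∧ J q}, q.1 ⊆ q'.1 ∧ (∃ y, (k, y) ∈ q'.1) ∧
        ∃ x, (x, k) ∈ q'.1 := by
    rintro k ⟨q, hq, hqJ⟩
    obtain ⟨y, hy⟩ := h1 q hq hqJ k
    obtain ⟨x, hx⟩ := h2 _ (hq.insert _) hy k
    exact ⟨⟨_, (hq.insert _).insert _, hx⟩, (subset_insert _ _).trans (subset_insert _ _),
      ⟨y, mem_insert_of_mem _ (mem_insert _ _)⟩, ⟨x, mem_insert _ _⟩⟩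
  choose nx hnx1 hnx2 hnx3 using hstep
  let s : ℕ → {q : Set (ℕ × ℕ) // q.Finite ∧ J q} := fun n =>
    n.rec ⟨p₀, hp₀, h0⟩ (fun k q => nx k q)
  have hs : ∀ n, s (n + 1) = nx n (s n) := fun n => rfl
  have hmono : ∀ n m, n ≤ m → (s n).1 ⊆ (s m).1 := by
    intro n m hnm
    induction m, hnm using Nat.le_induction with
    | base => exact Subset.rfl
    | succ m _ ih => rw [hs]; exact ih.trans (hnx1 m (s m))
  have hf : ∀ x : ℕ, ∃ y, (x, y) ∈ (s (x + 1)).1 := by
    intro x
    rw [hs]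
    exact hnx2 x (s x)
  choose f hf using hf
  have hat : ∀ n, AtEq T T' (s n).1 := fun n => hJ _ (s n).2.2
  have hinj : Function.Injective f := by
    intro a b hab
    have ha := hmono _ (max (a + 1) (b + 1)) (le_max_left _ _) (hf a)
    have hb := hmono _ (max (a + 1) (b + 1)) (le_max_right _ _) (hf b)
    exact ((hat _).1 _ ha _ hb).mpr hab
  have hsurj : Function.Surjective f := by
    intro y
    have h3 := hnx3 y (s y)
    rw [← hs] at h3
    obtain ⟨x, hx⟩ := h3
    refine ⟨x, ?_⟩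
    have ha := hmono _ (max (x + 1) (y + 1)) (le_max_left _ _) (hf x)
    have hb := hmono _ (max (x + 1) (y + 1)) (le_max_right _ _) hx
    exact ((hat _).1 _ ha _ hb).mp rfl
  refine ⟨Equiv.ofBijective f ⟨hinj, hsurj⟩, fun n R v => ?_, fun z hz => ?_⟩
  · let m := Finset.univ.sup fun i => v i + 1
    have hm : ∀ i, (v i, f (v i)) ∈ (s m).1 := fun i =>
      hmono _ m (Finset.le_sup (f := fun i => v i + 1) (Finset.mem_univ i)) (hf (v i))
    exact (hat m).2 n R (fun i => (v i, f (v i))) hm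
  · have h4 : z ∈ (s 0).1 := hz
    have h3 : z ∈ (s (z.1 + 1)).1 := hmono 0 (z.1 + 1) (Nat.zero_le _) h4
    exact ((hat (z.1 + 1)).1 (z.1, f z.1) (hf z.1) z h3).mp rfl

/-- a back-and-forth system between two countable infinite subsets gives an isomorphism -/
theorem iso_of_system_sub {A B : Set M} (hA : A.Countable) (hA' : A.Infinite) (hB : B.Countable)
    (hB' : B.Infinite) {G : Set M} (hG : G.Finite) (hGA : G ⊆ A) (hGB : G ⊆ B) {γ : Ordinal.{0}}
    (h : ∀ p : Set (M × M), p.Finite → BFR S S A B γ p → BFR S S A B (γ + 1) p)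
    (h0 : BFR S S A B γ ((fun a => (a, a)) '' G)) :
    ∃ g : A ≃ B, (∀ (x : A), (x : M) ∈ G → (g x : M) = x) ∧
      ∀ (n : ℕ) (R : L.Relations n) (v : Fin n → A),
        S.RelMap R (fun i => (v i : M)) ↔ S.RelMap R (fun i => (g (v i) : M)) := by
  have := hA.to_subtype
  have := hA'.to_subtype
  have := hB.to_subtype
  have := hB'.to_subtype
  obtain ⟨e⟩ := nonempty_equiv_of_countable (α := ℕ) (β := A)
  obtain ⟨e'⟩ := nonempty_equiv_of_countable (α := ℕ) (β := B)
  let im : ℕ × ℕ → M × M := fun z => ((e z.1 : M), (e' z.2 : M))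
  have hinj : Function.Injective im := by
    rintro ⟨a, b⟩ ⟨c, d⟩ hab
    simp only [im, Prod.mk.injEq, Subtype.val_inj, e.injective.eq_iff, e'.injective.eq_iff] at hab
    rw [hab.1, hab.2]
  let p₀ : Set (ℕ × ℕ) := im ⁻¹' ((fun a => (a, a)) '' G)
  have hp₀ : p₀.Finite := (hG.image _).preimage hinj.injOn
  have hJ1 : ∀ p : Set (ℕ × ℕ), BFR S S A B γ (im '' p) →
      AtEq (pl S fun n => (e n : M)) (pl S fun n => (e' n : M)) p := by
    intro p hp
    have h1 := hp.atEq
    refine ⟨fun z hz w hw => ?_, fun n R v hv => ?_⟩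
    · have h2 := h1.1 _ (mem_image_of_mem _ hz) _ (mem_image_of_mem _ hw)
      simpa only [im, Subtype.val_inj, e.injective.eq_iff, e'.injective.eq_iff] using h2
    · exact h1.2 n R (fun i => im (v i)) fun i => mem_image_of_mem _ (hv i)
  have hJ2 : ∀ p : Set (ℕ × ℕ), p.Finite → BFR S S A B γ (im '' p) → ∀ x, ∃ y,
      BFR S S A B γ (im '' insert (x, y) p) := by
    intro p hp hpJ x
    obtain ⟨y, hy, h1⟩ := (h _ (hp.image _) hpJ).forth (Order.lt_add_one_iff.mpr le_rfl) (e x).2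
    refine ⟨e'.symm ⟨y, hy⟩, ?_⟩
    rw [image_insert_eq]
    simpa [im] using h1
  have hJ3 : ∀ p : Set (ℕ × ℕ), p.Finite → BFR S S A B γ (im '' p) → ∀ y, ∃ x,
      BFR S S A B γ (im '' insert (x, y) p) := by
    intro p hp hpJ y
    obtain ⟨x, hx, h1⟩ := (h _ (hp.image _) hpJ).back (Order.lt_add_one_iff.mpr le_rfl) (e' y).2
    refine ⟨e.symm ⟨x, hx⟩, ?_⟩
    rw [image_insert_eq]
    simpa [im] using h1
  obtain ⟨u, hu1, hu2⟩ := iso_of_system_from (fun p => BFR S S A B γ (im '' p)) hJ1 hJ2 hJ3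
    p₀ hp₀ (h0.anti (image_preimage_subset _ _))
  refine ⟨e.symm.trans (u.trans e'), fun x hx => ?_, fun n R v => ?_⟩
  · have h1 : (e.symm x, e'.symm ⟨x, hGB hx⟩) ∈ p₀ := ⟨x, hx, by simp [im]⟩
    have h2 := hu2 _ h1
    simp only [Equiv.trans_apply]
    rw [h2]
    simp
  · have h1 : S.RelMap R (fun i => (e (e.symm (v i)) : M)) ↔
        S.RelMap R (fun i => (e' (u (e.symm (v i))) : M)) := hu1 n R fun i => e.symm (v i)
    simp only [Equiv.apply_symm_apply] at h1
    exact h1

/-- Decoding with second-order invariants. -/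
theorem dec2 {K : Set (L.Structure ℕ)} (hK : Scat K) [Countable M]
    (hX : ∀ x, IsClopen {f | x ∈ X f}) (hXi : ∀ f, (X f).Infinite) {G : Set M} (hG : G.Finite)
    (hGX : ∀ f, G ⊆ X f)
    (hmem : ∀ f, ∀ e : ℕ → M, Function.Injective e → range e = X f → pl S e ∈ K) :
    ∃ f f' : Cc, f ≠ f' ∧ ∃ g : X f ≃ X f', (∀ (x : X f), (x : M) ∈ G → (g x : M) = x) ∧
      ∀ (n : ℕ) (R : L.Relations n) (v : Fin n → X f),
        S.RelMap R (fun i => (v i : M)) ↔ S.RelMap R (fun i => (g (v i) : M)) := by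
  obtain ⟨γ, hγ, N, hN, hst⟩ := exists_stable (S := S) hX
  let p₀ : Set (M × M) := (fun a => (a, a)) '' G
  suffices h : ∃ f f' : Cc, f ≠ f' ∧ (f, f') ∉ N ∧ BFR S S (X f) (X f') γ p₀ by
    obtain ⟨f, f', hne, hnN, h⟩ := h
    refine ⟨f, f', hne, iso_of_system_sub (to_countable _) (hXi f) (to_countable _) (hXi f') hG
      (hGX f) (hGX f') (hst _ hnN) h⟩
  -- countably many classes
  obtain ⟨c, hc⟩ : ∃ c : Cc → ℕ, ∀ f f', c f = c f' → BFR S S (X f) (X f') γ p₀ := by
    classical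
    have he : ∀ f, ∃ e : ℕ → M, Function.Injective e ∧ range e = X f := by
      intro f
      have := (hXi f).to_subtype
      obtain ⟨e⟩ := nonempty_equiv_of_countable (α := ℕ) (β := X f)
      refine ⟨fun n => (e n : M), fun a b hab => e.injective (Subtype.ext hab), ?_⟩
      ext x
      constructor
      · rintro ⟨n, rfl⟩
        exact (e n).2
      · intro hx
        exact ⟨e.symm ⟨x, hx⟩, by simp⟩
    choose e he1 he2 using he
    let E := hG.toFinset.equivFin
    let c : Fin hG.toFinset.card → M := fun i => (E.symm i : M)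
    have hc : ∀ i, c i ∈ G := fun i => hG.mem_toFinset.mp (E.symm i).2
    have hcs : ∀ x ∈ G, ∃ i, c i = x := fun x hx =>
      ⟨E ⟨x, hG.mem_toFinset.mpr hx⟩, by simp [c]⟩
    have hv : ∀ f, ∀ i, ∃ n, e f n = c i := by
      intro f i
      have h1 : c i ∈ range (e f) := by
        rw [he2]
        exact hGX f (hc i)
      exact h1
    choose v hv using hv
    obtain ⟨ρ, hρ⟩ := hK γ hγ hG.toFinset.card
    have hm : ∀ f, ∃ m, BFR (pl S (e f)) (ρ m).1 univ univ γ (pr (v f) (ρ m).2) := by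
      intro f
      obtain ⟨m, -, hm⟩ := hρ _ (hmem f (e f) (he1 f) (he2 f)) (v f)
      exact ⟨m, hm⟩
    choose m hm using hm
    refine ⟨m, fun f g hfg => ?_⟩
    have h1 : ∀ f, BFR S (ρ (m f)).1 (X f) univ γ (range fun i => (c i, (ρ (m f)).2 i)) := by
      intro f
      have h2 : BFR (pl S (e f)) S univ (X f) γ (range fun i => (v f i, c i)) := by
        have := BFR_pl (S := S) (he1 f) γ (p := range fun i => (v f i, c i)) (by
          rintro _ ⟨i, rfl⟩
          exact (hv f i).symm)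
        rwa [he2] at this
      have h3 : BFR S (pl S (e f)) (X f) univ γ (range fun i => (c i, v f i)) := by
        refine h2.symm ?_
        rintro _ ⟨i, rfl⟩
        exact ⟨i, rfl⟩
      refine h3.trans (hm f) ?_
      rintro _ ⟨i, rfl⟩
      exact ⟨v f i, ⟨i, rfl⟩, ⟨i, rfl⟩⟩
    have h4 : BFR S (ρ (m f)).1 (X g) univ γ (range fun i => (c i, (ρ (m f)).2 i)) := by
      rw [hfg]
      exact h1 g
    have h5 : BFR (ρ (m f)).1 S univ (X g) γ (range fun i => ((ρ (m f)).2 i, c i)) := by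
      refine h4.symm ?_
      rintro _ ⟨i, rfl⟩
      exact ⟨i, rfl⟩
    refine (h1 f).trans h5 ?_
    rintro _ ⟨x, hx, rfl⟩
    obtain ⟨i, rfl⟩ := hcs x hx
    exact ⟨(ρ (m f)).2 i, ⟨i, rfl⟩, ⟨i, rfl⟩⟩
  -- one of them is not meagre
  obtain ⟨f₀, hf₀⟩ : ∃ f₀ : Cc, ¬ IsMeagre {f | BFR S S (X f₀) (X f) γ p₀} := by
    by_contra hcon
    push Not at hcon
    have h1 : IsMeagre (⋃ m : ℕ, {f : Cc | c f = m}) := by
      refine isMeagre_iUnion fun m => ?_
      by_cases h : ∃ f₀, c f₀ = m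
      · obtain ⟨f₀, rfl⟩ := h
        exact IsMeagre.mono (fun f hf => hc _ _ hf.symm) (hcon f₀)
      · refine IsMeagre.mono (s := ∅) (fun f hf => absurd ⟨f, hf⟩ h) IsMeagre.empty
    have h2 : (⋃ m : ℕ, {f : Cc | c f = m}) = univ := by
      ext f; simp
    rw [h2] at h1
    exact not_isMeagre_of_isOpen isOpen_univ univ_nonempty h1
  have htr : ∀ f f', BFR S S (X f₀) (X f) γ p₀ → BFR S S (X f₀) (X f') γ p₀ →
      BFR S S (X f) (X f') γ p₀ := by
    intro f f' h1 h2
    have h3 : BFR S S (X f) (X f₀) γ p₀ := by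
      refine h1.symm ?_
      rintro _ ⟨a, ha, rfl⟩
      exact ⟨a, ha, rfl⟩
    refine h3.trans h2 ?_
    rintro _ ⟨a, ha, rfl⟩
    exact ⟨a, ⟨a, ha, rfl⟩, ⟨a, ha, rfl⟩⟩
  obtain ⟨Z, hZ, hZ'⟩ := meagre_slices hN
  obtain ⟨f, hf, hfZ⟩ : ∃ f, BFR S S (X f₀) (X f) γ p₀ ∧ f ∉ Z := by
    by_contra hcon
    push Not at hcon
    exact hf₀ (IsMeagre.mono (fun f hf => hcon f hf) hZ)
  have hsing : IsMeagre ({f} : Set Cc) := by
    refine IsNowhereDense.isMeagre ?_
    rw [IsNowhereDense, isClosed_singleton.closure_eq, eq_empty_iff_forall_notMem]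
    intro g hg
    have hgf : g = f := mem_singleton_iff.mp (interior_subset hg)
    subst hgf
    have h1 : Tendsto (fun n : ℕ => Function.update g n (!g n)) atTop (𝓝 g) := by
      rw [tendsto_pi_nhds]
      intro k
      refine tendsto_const_nhds.congr' ?_
      filter_upwards [eventually_gt_atTop k] with n hn
      rw [Function.update_of_ne hn.ne]
    obtain ⟨n, hn⟩ := (h1.eventually (mem_interior_iff_mem_nhds.mp hg)).exists
    have h2 := congrFun (mem_singleton_iff.mp hn) n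
    simp at h2
  obtain ⟨f', hf', hne, hfN⟩ : ∃ f', BFR S S (X f₀) (X f') γ p₀ ∧ f' ≠ f ∧ (f, f') ∉ N := by
    by_contra hcon
    push Not at hcon
    refine hf₀ (IsMeagre.mono (s := {f} ∪ {b | (f, b) ∈ N}) (fun f' hf' => ?_)
      (hsing.union (hZ' f hfZ)))
    by_cases h : f' = f
    · exact Or.inl h
    · exact Or.inr (hcon f' hf' h)
  exact ⟨f, f', hne.symm, hfN, htr f f' hf hf'⟩

end UNE
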