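import Pool.Agent.UNE.StA

/-!
# UNE [BLK]: blocks
-/

set_option autoImplicit false
set_option linter.unusedVariables false

namespace UNE

open Set UN

/-- Blocks. -/
theorem thm_BLK (hGRA : St_GRA) (hSWP : St_SWP) (hINT : St_INT) : St_BLK := by
  classical
  intro G M I S lab hC Λ X
  obtain ⟨-, -, g3, g4, -, -, -, -, -, -, -⟩ := hGRA G M I S lab hC Λ X
  obtain ⟨s1, -, s3, -⟩ := hSWP G M I S lab hC Λ X
  have hint := hINT G M I S lab hC Λ X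
  -- (1)
  have p1 : ∀ B, Gs S lab Λ X B → B ⊆ X := by
    rintro B ⟨-, -, h⟩
    obtain ⟨w', a, -, hs⟩ := h ∅ finite_empty
    exact (s1 _ _ _ hs).2.1
  -- (2)
  have p2 : ∀ i, Gx S lab Λ X i → Gs S lab Λ X (Bl S lab Λ X i) ∧ i ∈ Bl S lab Λ X i := by
    rintro i ⟨w, hw, hiw⟩
    have hex : ∃ n : ℕ, ∃ B, Gs S lab Λ X B ∧ i ∈ B ∧ B.ncard = n := ⟨_, w, hw, hiw, rfl⟩
    obtain ⟨B, hB, hiB, hn⟩ := Nat.find_spec hex
    have hmin : ∀ B', Gs S lab Λ X B' → i ∈ B' → B ⊆ B' := by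
      intro B' hB' hi'
      have h1 : Gs S lab Λ X (B ∩ B') := (hint B B' hB hB').1 ⟨i, hiB, hi'⟩
      have h2 : B.ncard ≤ (B ∩ B').ncard := by
        rw [hn]
        exact Nat.find_min' hex ⟨_, h1, ⟨hiB, hi'⟩, rfl⟩
      have h3 : B ∩ B' = B := Set.eq_of_subset_of_ncard_le inter_subset_left h2 hB.1
      exact fun x hx => (h3.symm ▸ hx : x ∈ B ∩ B').2
    have hBl : Bl S lab Λ X i = B := by
      refine Subset.antisymm (fun j hj => hj B hB hiB) fun j hj w' hw' hi' => hmin w' hw' hi' hj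
    rw [hBl]
    exact ⟨hB, hiB⟩
  -- (3)
  have p3 : ∀ i j, Gx S lab Λ X i → j ∈ Bl S lab Λ X i →
      Gx S lab Λ X j ∧ Bl S lab Λ X j = Bl S lab Λ X i := by
    intro i j hi hj
    obtain ⟨hBi, hii⟩ := p2 i hi
    have hgj : Gx S lab Λ X j := ⟨_, hBi, hj⟩
    obtain ⟨hBj, hjj⟩ := p2 j hgj
    refine ⟨hgj, Subset.antisymm (fun k hk => hk _ hBi hj) ?_⟩
    have hij : i ∈ Bl S lab Λ X j := by
      by_contra h
      have h1 : Gs S lab Λ X (Bl S lab Λ X i \ Bl S lab Λ X j) :=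
        (hint _ _ hBi hBj).2 ⟨i, hii, h⟩
      exact (hj _ h1 ⟨hii, h⟩).2 hjj
    exact fun k hk => hk _ hBj hij
  -- (4)
  have p4 : ∀ a B, Am S lab Λ X a → Gs S lab Λ X B → Gs S lab Λ X (a.1 '' B) := by
    rintro a B ha ⟨hf, hn, h⟩
    refine ⟨hf.image _, hn.image _, fun Z hZ => ?_⟩
    obtain ⟨w', s, hd, hs⟩ := h (a.1 ⁻¹' Z) (hZ.preimage (a.1.injective.injOn))
    refine ⟨a.1 '' w', a * s * a⁻¹, ?_, s3 _ _ _ _ hs ha⟩
    rw [Set.disjoint_left] at hd ⊢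
    rintro _ ⟨k, hk, rfl⟩ hkZ
    exact hd hk hkZ
  -- (5)
  have p5 : ∀ a i, Am S lab Λ X a → Gx S lab Λ X i →
      Gx S lab Λ X (a.1 i) ∧ Bl S lab Λ X (a.1 i) = a.1 '' Bl S lab Λ X i := by
    intro a i ha hi
    obtain ⟨hBi, hii⟩ := p2 i hi
    have hB := p4 a _ ha hBi
    refine ⟨⟨_, hB, mem_image_of_mem _ hii⟩,
      Subset.antisymm (fun k hk => hk _ hB (mem_image_of_mem _ hii)) ?_⟩
    rintro _ ⟨k, hk, rfl⟩ w hw hiw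
    have h1 := p4 a⁻¹ w (g3 a ha) hw
    have h2 : i ∈ (a⁻¹).1 '' w := ⟨a.1 i, hiw, by simp⟩
    obtain ⟨m, hm, hmk⟩ := hk _ h1 h2
    have h3 : m = a.1 k := by rw [← hmk]; simp
    exact h3 ▸ hm
  -- (6)
  have p6 : ∀ Λ' ⊆ Λ, ∀ B, Gs S lab Λ X B → Gs S lab Λ' X B := by
    rintro Λ' hΛ B ⟨hf, hn, h⟩
    refine ⟨hf, hn, fun Z hZ => ?_⟩
    obtain ⟨w', s, hd, hs⟩ := h Z hZ
    exact ⟨w', s, hd, g4 s Λ' hΛ hs.1, hs.2⟩
  refine ⟨p1, p2, p3, p4, p5, fun Λ' hΛ => ⟨p6 Λ' hΛ, fun i hi => ?_⟩,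
    fun B hB i hi k hk => hk B hB hi, fun i j hi hj => ?_⟩
  · obtain ⟨hBi, hii⟩ := p2 i hi
    have h1 := p6 Λ' hΛ _ hBi
    exact ⟨⟨_, h1, hii⟩, fun k hk => hk _ h1 hii⟩
  · by_cases h : Disjoint (Bl S lab Λ X i) (Bl S lab Λ X j)
    · exact Or.inr h
    · obtain ⟨k, hk1, hk2⟩ := Set.not_disjoint_iff.1 h
      exact Or.inl ((p3 i k hi hk1).2.symm.trans (p3 j k hj hk2).2)

end UNE
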