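import Pool.Agent.UNE.StA

/-!
# UNE [CNJ]: conjugate good sets can be exchanged
-/

set_option autoImplicit false
set_option linter.unusedVariables false

namespace UNE

open Set UN

theorem thm_CNJ (hG : St_GRA) (hS : St_SWP) : St_CNJ := by
  intro G M I S lab hC Λ X B a hB ha hd
  obtain ⟨gone, gmul, ginv, gsub, gY, gprop, gSm, gSi, gSc, gPh, gcom⟩ := hG G M I S lab hC Λ X
  obtain ⟨s1, s2, s3, s4⟩ := hS G M I S lab hC Λ X
  obtain ⟨hBf, hBn, hB'⟩ := hB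
  have hZ : (Sp lab a ∪ B ∪ a.1 '' B).Finite := (ha.2.union hBf).union (hBf.image _)
  obtain ⟨B'', s, hdis, hs⟩ := hB' _ hZ
  have hd1 : ∀ j ∈ B'', j ∉ Sp lab a := fun j hj hh =>
    Set.disjoint_left.1 hdis hj (Or.inl (Or.inl hh))
  have hd2 : ∀ j ∈ B'', j ∉ a.1 '' B := fun j hj hh => Set.disjoint_left.1 hdis hj (Or.inr hh)
  have hfix : ∀ j ∈ B'', a.1 j = j := fun j hj => (gprop a ha.1).2.1 j (hd1 j hj)
  have him : a.1 '' B'' = B'' := by
    ext j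
    constructor
    · rintro ⟨k, hk, rfl⟩
      rw [hfix k hk]
      exact hk
    · intro hj
      exact ⟨j, hj, hfix j hj⟩
  have ht := s3 B B'' s a hs ha.1
  rw [him] at ht
  have ht' := (s1 _ _ _ ht).1
  have hs' := (s1 _ _ _ hs).1
  have hres := s4 B'' B (a.1 '' B) s (a * s * a⁻¹) hs' ht' hd.symm
  refine ⟨_, hres, ?_⟩
  intro x i hx hi
  obtain ⟨-, -, -, -, -, hsi, -, hss, -⟩ := s1 _ _ _ hs
  have hlsx : lab (s.2 x) = some (s.1 i) := by
    rw [hs.1.lb, hx]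
    rfl
  have h1 : a.2 (s.2 x) = s.2 x := by
    by_contra hcon
    exact hd1 _ (hsi i hi) ⟨_, hlsx, hcon⟩
  have h2 : a.2.symm (s.2 x) = s.2 x := by
    rw [Equiv.symm_apply_eq]
    exact h1.symm
  have hlax : lab (a.2 x) = some (a.1 i) := by
    rw [ha.1.lb, hx]
    rfl
  have h3 : s.2 (a.2 x) = a.2 x := by
    apply hs.2.out _ _ hlax
    · intro hh
      exact Set.disjoint_left.1 hd ⟨i, hi, rfl⟩ hh
    · intro hh
      exact hd2 _ hh ⟨i, hi, rfl⟩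
  show s.2 (a.2 (s.2 (a.2.symm (s.2 x)))) = a.2 x
  rw [h2, hss, h3]

end UNE
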