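import Pool.Agent.UNE.StB

/-!
# UNE, module CPC: the components of the extension
-/

set_option autoImplicit false
set_option linter.unusedVariables false

namespace UNE

open Set UN

private theorem CPC_map_inj {I J : Type} {a b : Option I}
    (h : a.map (Sum.inl : I → I ⊕ J) = b.map Sum.inl) : a = b :=
  Option.map_injective Sum.inl_injective h

theorem thm_CPC : St_CPC := by
  intro G M I T S lab Λ E S' hS hC
  refine ⟨?_, ?_, ?_, ?_⟩
  · rintro f (x | ⟨⟨t, x⟩, h⟩)
    · rw [hC.fl, labC_inl, labC_inl]
      rcases hS.fn f x with h | h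
      · exact Or.inl (by rw [h]; rfl)
      · exact Or.inr (by rw [h])
    · obtain ⟨i, hi, hx⟩ := id h
      dsimp only at hi hx
      rcases hS.fn f x with hf | hf
      · left
        rw [hC.fn f t x h hf, labC_inl, hf]
        rfl
      · right
        rw [hx] at hf
        rw [hC.fr f t x h ⟨i, hi, hf⟩, labC_inr lab E t _ i _ hf hi, labC_inr lab E t x i h hx hi]
  · rintro (i | ⟨⟨t, i⟩, hE⟩)
    · obtain ⟨x, hx⟩ := hS.ne i
      exact ⟨.inl x, (labC_some_inl lab E _ i).2 ⟨x, rfl, hx⟩⟩
    · obtain ⟨x, hx⟩ := hS.ne i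
      exact ⟨.inr ⟨(t, x), ⟨i, hE, hx⟩⟩, labC_inr lab E t x i _ hx hE⟩
  · rintro (i | ⟨⟨t, i⟩, hE⟩)
    · refine ((hS.ctb i).image (Sum.inl : M → MC lab E)).mono ?_
      intro x hx
      obtain ⟨y, rfl, hy⟩ := (labC_some_inl lab E x i).1 hx
      exact ⟨y, hy, rfl⟩
    · have := (hS.ctb i).to_subtype
      refine (countable_range fun y : {x | lab x = some i} =>
        (Sum.inr ⟨(t, y.1), ⟨i, hE, y.2⟩⟩ : MC lab E)).mono ?_
      intro x hx
      obtain ⟨y, h, rfl, hy⟩ := (labC_some_inr lab E x t i hE).1 hx
      exact ⟨⟨y, hy⟩, rfl⟩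
  · rintro (x | ⟨⟨t, x⟩, h⟩) (y | ⟨⟨t', y⟩, h'⟩) hx hxy
    · rw [labC_inl] at hx
      rw [labC_inl, labC_inl] at hxy
      have hxy' := CPC_map_inj hxy
      have hx' : lab x ≠ none := fun h0 => hx (by rw [h0]; rfl)
      refine Relation.ReflTransGen.lift (p := Adj S' (labC lab E)) (Sum.inl : M → MC lab E) ?_
        x y (hS.con x y hx' hxy')
      rintro a b ⟨ha, hb, f, hf⟩
      refine ⟨?_, ?_, f, ?_⟩
      · rw [labC_inl]
        exact fun h0 => ha (Option.map_eq_none_iff.1 h0)
      · rw [labC_inl]
        exact fun h0 => hb (Option.map_eq_none_iff.1 h0)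
      · rw [hC.fl, hC.fl]
        rcases hf with hf | hf
        · exact Or.inl (by rw [hf])
        · exact Or.inr (by rw [hf])
    · obtain ⟨j, hj, hyj⟩ := id h'
      dsimp only at hj hyj
      rw [labC_inr lab E t' y j h' hyj hj] at hxy
      obtain ⟨z, hz, hz', -⟩ := (labC_some_inr lab E _ t' j hj).1 hxy
      exact absurd hz' Sum.inl_ne_inr
    · obtain ⟨j, hj, hxj⟩ := id h
      dsimp only at hj hxj
      rw [labC_inr lab E t x j h hxj hj] at hxy
      obtain ⟨z, hz, hz', -⟩ := (labC_some_inr lab E _ t j hj).1 hxy.symm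
      exact absurd hz' Sum.inl_ne_inr
    · obtain ⟨i, hi, hxi⟩ := id h
      dsimp only at hi hxi
      rw [labC_inr lab E t x i h hxi hi] at hxy
      obtain ⟨z, hz, hz', hyz⟩ := (labC_some_inr lab E _ t i hi).1 hxy.symm
      have h2 := Subtype.mk.inj (Sum.inr_injective hz')
      rw [Prod.mk.injEq] at h2
      obtain ⟨rfl, rfl⟩ := h2
      have key : ∀ z, Relation.ReflTransGen (Adj S lab) x z → ∃ hz : lab z = some i,
          Relation.ReflTransGen (Adj S' (labC lab E)) (Sum.inr ⟨(t', x), h⟩)
            (Sum.inr ⟨(t', z), ⟨i, hi, hz⟩⟩) := by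
        intro z hz
        induction hz with
        | refl => exact ⟨hxi, Relation.ReflTransGen.refl⟩
        | tail _ hab ih =>
          rename_i a b _
          obtain ⟨ha, hpath⟩ := ih
          obtain ⟨-, hb0, f, hf⟩ := hab
          have hb : lab b = some i := by
            rcases hf with hf | hf
            · rcases hS.fn f a with h1 | h1
              · exact absurd (by rw [hf]; exact h1) hb0
              · rw [hf, h1, ha]
            · rcases hS.fn f b with h1 | h1
              · rw [← hf, ha] at h1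
                exact absurd h1 (by simp)
              · rw [← h1, ← hf, ha]
          refine ⟨hb, hpath.tail ⟨?_, ?_, f, ?_⟩⟩
          · rw [labC_inr lab E t' a i _ ha hi]
            simp
          · rw [labC_inr lab E t' b i _ hb hi]
            simp
          · rcases hf with hf | hf
            · left
              subst hf
              exact (hC.fr f t' a _ _).symm
            · right
              subst hf
              exact (hC.fr f t' b _ _).symm
      obtain ⟨_, hp⟩ := key _ (hS.con x _ (by rw [hxi]; simp) (hxi.trans hyz.symm))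
      exact hp

end UNE
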