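import Pool.Agent.UNE.StC

/-!
# UNE: module CPD, the original is dense in the extension
-/

set_option autoImplicit false
set_option linter.unusedVariables false

namespace UNE

open Set UN

private theorem CPD_cp_finite {I T : Type} (E : T → Set I) (t : T) (w : Set I) (hw : w.Finite) :
    (cp E t w).Finite := by
  classical
  refine (hw.image fun i => if h : i ∈ E t then (Sum.inr ⟨(t, i), h⟩ : IC E) else Sum.inl i).subset ?_
  rintro c ⟨i, h, hi, rfl⟩
  exact ⟨i, hi, by simp only [h, dif_pos]⟩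

private theorem CPD_cp_inl {I T : Type} (E : T → Set I) (t : T) (w : Set I) (s : Set (IC E))
    (hs : s ⊆ range Sum.inl) : Disjoint (cp E t w) s := by
  rw [Set.disjoint_left]
  rintro c ⟨i, h, hi, rfl⟩ hc
  obtain ⟨j, hj⟩ := hs hc
  exact absurd hj (by simp)

private theorem CPD_exC_sq {M I T : Type} (lab : M → Option I) (E : T → Set I) (a : Gp I M)
    (ha : a * a = 1) : exC lab E a * exC lab E a = 1 := by
  have h1 : ∀ i, a.1 (a.1 i) = i := fun i => by
    have h := congrArg (fun b : Gp I M => b.1 i) ha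
    exact h
  have h2 : ∀ x, a.2 (a.2 x) = x := fun x => by
    have h := congrArg (fun b : Gp I M => b.2 x) ha
    exact h
  refine Prod.ext (Equiv.ext fun c => ?_) (Equiv.ext fun x => ?_)
  · rcases c with i | c
    · show (Sum.inl (a.1 (a.1 i)) : IC E) = Sum.inl i
      rw [h1]
    · rfl
  · rcases x with y | c
    · show (Sum.inl (a.2 (a.2 y)) : MC lab E) = Sum.inl y
      rw [h2]
    · rfl

private theorem CPD_exC_ex {M I T : Type} (lab : M → Option I) (E : T → Set I) (w w' : Set I)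
    (a : Gp I M) (ha : Ex lab w w' a) :
    Ex (labC lab E) (Sum.inl '' w) (Sum.inl '' w') (exC lab E a) := by
  refine ⟨?_, CPD_exC_sq lab E a ha.inv, ?_, ?_⟩
  · exact (Set.disjoint_image_iff Sum.inl_injective).2 ha.dis
  · rw [← ha.img]
    ext c
    constructor
    · rintro ⟨_, ⟨i, hi, rfl⟩, rfl⟩
      exact ⟨a.1 i, ⟨i, hi, rfl⟩, rfl⟩
    · rintro ⟨_, ⟨i, hi, rfl⟩, rfl⟩
      exact ⟨Sum.inl i, ⟨i, hi, rfl⟩, rfl⟩
  · intro x c hx h1 h2
    rcases x with y | y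
    · rw [labC_inl, Option.map_eq_some_iff] at hx
      obtain ⟨i, hi, rfl⟩ := hx
      have h3 : a.2 y = y := ha.out y i hi (fun h => h1 ⟨i, h, rfl⟩) fun h => h2 ⟨i, h, rfl⟩
      show (Sum.inl (a.2 y) : MC lab E) = Sum.inl y
      rw [h3]
    · rfl

theorem thm_CPD (hSWP : St_SWP) (hBLK : St_BLK) (hCPC : St_CPC) (hCPI : St_CPI)
    (hCPS : St_CPS) : St_CPD := by
  intro G M I T S lab Λ E S' hc hL hE hC n D hD hDr
  have hc' : Cp S' (labC lab E) := hCPC G M I T S lab Λ E S' hc hC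
  obtain ⟨-, hB2, hB3, -, -, -, -, hB8⟩ := hBLK G M I S lab hc (Λ n) univ
  obtain ⟨-, hS2, -, -⟩ := hSWP G M I S lab hc (Λ n) univ
  obtain ⟨-, -, -, hS4⟩ := hSWP G (MC lab E) (IC E) S' (labC lab E) hc' (Λ n) univ
  refine ⟨subset_univ _, hDr, {B | ∃ t, ∃ i ∈ E t, B = cp E t (Bl S lab (Λ n) univ i)},
    ?_, ?_, ?_, ?_⟩
  · rintro B ⟨t, i, hi, rfl⟩
    exact ⟨CPD_cp_finite E t _ (hB2 i (hE n t i hi).1).1.1, CPD_cp_inl E t _ _ (Subset.refl _)⟩
  · rintro B ⟨t, i, hi, rfl⟩ B' ⟨t', i', hi', rfl⟩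
    by_cases htt : t = t'
    · subst htt
      rcases hB8 i i' (hE n t i hi).1 (hE n t i' hi').1 with h | h
      · exact Or.inl (by rw [h])
      · refine Or.inr (Set.disjoint_left.2 ?_)
        rintro c ⟨j, hj, hj1, rfl⟩ ⟨j', hj', hj1', hjj⟩
        have h1 := Subtype.mk.inj (Sum.inr_injective hjj)
        rw [Prod.mk.injEq] at h1
        obtain ⟨-, rfl⟩ := h1
        exact Set.disjoint_left.1 h hj1 hj1'
    · refine Or.inr (Set.disjoint_left.2 ?_)
      rintro c ⟨j, hj, hj1, rfl⟩ ⟨j', hj', hj1', hjj⟩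
      have h1 := Subtype.mk.inj (Sum.inr_injective hjj)
      rw [Prod.mk.injEq] at h1
      exact htt h1.1
  · intro c _ hc1
    rcases c with i | ⟨⟨t, i⟩, hi⟩
    · exact absurd ⟨i, rfl⟩ hc1
    · exact ⟨_, ⟨t, i, hi, rfl⟩, i, hi, (hB2 i (hE n t i hi).1).2, rfl⟩
  · rintro B ⟨t, i, hi, rfl⟩ Z hZ
    have hG := (hB2 i (hE n t i hi).1).1
    have hfin : {j : I | (Sum.inl j : IC E) ∈ Z ∪ D}.Finite :=
      Set.Finite.preimage (Sum.inl_injective.injOn) (hZ.union hD)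
    obtain ⟨w', s, hw', hs⟩ := hG.2.2 _ hfin
    obtain ⟨hw'f, hsP⟩ := hS2 _ _ _ hG.1 hs
    have h1 := hCPI G M I T S lab Λ E S' hc hL hE hC n s hsP
    have h2 : Sw S' (labC lab E) (Λ n) univ (Sum.inl '' Bl S lab (Λ n) univ i)
        (Sum.inl '' w') (exC lab E s) := ⟨h1.1, CPD_exC_ex lab E _ _ s hs.2⟩
    obtain ⟨e, -, he⟩ := hCPS G M I T S lab Λ E S' hc hL hE hC t (Bl S lab (Λ n) univ i)
      (hE n t i hi).2
    have h3 := he n fun j hj => by
      rw [(hB3 i j (hE n t i hi).1 hj).2]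
    have h4 : (Sum.inl '' w' : Set (IC E)) ⊆ range Sum.inl := Set.image_subset_range _ _
    refine ⟨Sum.inl '' w', e * exC lab E s * e, h4, ?_, ?_⟩
    · rw [Set.disjoint_left]
      rintro _ ⟨j, hj, rfl⟩ hj2
      exact Set.disjoint_left.1 hw' hj hj2
    · exact hS4 _ _ _ e (exC lab E s) h3 h2 (CPD_cp_inl E t _ _ h4)

end UNE
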