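import Pool.Agent.UNE.StB

/-!
# UNE, module CPE: the exchange of a union of blocks and its copy is an automorphism
-/

set_option autoImplicit false
set_option linter.unusedVariables false

namespace UNE

open Set UN

variable {G : Sg} {M I T : Type}

section aux

variable {lab : M → Option I} {E : T → Set I} {t : T} {w : Set I} {a : Gp (IC E) (MC lab E)}

theorem CPE_inv2 (h : XC lab E t w a) (x : MC lab E) : a.2 (a.2 x) = x := by
  have h1 : (a * a).2 x = (1 : Gp (IC E) (MC lab E)).2 x := by rw [h.inv]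
  exact h1

theorem CPE_inv1 (h : XC lab E t w a) (c : IC E) : a.1 (a.1 c) = c := by
  have h1 : (a * a).1 c = (1 : Gp (IC E) (MC lab E)).1 c := by rw [h.inv]
  exact h1

theorem CPE_root (h : XC lab E t w a) (x : MC lab E) (hx : labC lab E x = none) : a.2 x = x :=
  h.oe x fun c hc => absurd (hx.symm.trans hc) (by simp)

theorem CPE_inl (h : XC lab E t w a) (x : M) (hx : ∀ i, lab x = some i → i ∉ w) :
    a.2 (Sum.inl x) = Sum.inl x := by
  refine h.oe _ fun c hc => ?_
  rw [labC_inl, Option.map_eq_some_iff] at hc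
  obtain ⟨i, hi, rfl⟩ := hc
  constructor
  · rintro ⟨j, hj, hji⟩
    rw [Sum.inl_injective hji] at hj
    exact hx i hi hj
  · rintro ⟨j, hj, -, hji⟩
    exact absurd hji (by simp)

theorem CPE_inr (h : XC lab E t w a) (t' : T) (x : M) (i : I) (hx : ∃ j ∈ E t', lab x = some j)
    (hi : lab x = some i) (hn : t' = t → i ∉ w) :
    a.2 (Sum.inr ⟨(t', x), hx⟩) = Sum.inr ⟨(t', x), hx⟩ := by
  obtain ⟨j, hj, hxj⟩ := hx
  have hji : j = i := Option.some_injective _ (hxj.symm.trans hi)
  subst hji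
  refine h.oe _ fun c hc => ?_
  rw [labC_inr lab E t' x j ⟨j, hj, hxj⟩ hi hj] at hc
  have hc' := Option.some_injective _ hc
  subst hc'
  constructor
  · rintro ⟨k, hk, hkc⟩
    exact absurd hkc (by simp)
  · rintro ⟨k, hk, hkw, hkc⟩
    have h2 := Subtype.mk.inj (Sum.inr_injective hkc)
    rw [Prod.mk.injEq] at h2
    obtain ⟨h3, h4⟩ := h2
    exact hn h3 (h4 ▸ hkw)

theorem CPE_back (h : XC lab E t w a) (x : M) (i : I) (hx : ∃ j ∈ E t, lab x = some j)
    (hi : lab x = some i) (hw : i ∈ w) : a.2 (Sum.inr ⟨(t, x), hx⟩) = Sum.inl x := by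
  rw [← h.el i x hx hw hi, CPE_inv2 h]

end aux

theorem thm_CPE (hSWP : St_SWP) (hBLK : St_BLK) (hRSX : St_RSX) (hPLX : St_PLX) : St_CPE := by
  classical
  intro G M I T S lab Λ E S' hC hL hE hS' n t w a hwE hwB hX hlab
  have hdec : ∀ o : Option I, o = none ∨ ∃ i, o = some i := fun o => by
    cases o with
    | none => exact Or.inl rfl
    | some i => exact Or.inr ⟨i, rfl⟩
  refine ⟨hlab, fun x hx => CPE_root hX x hx, fun x i _ hi => absurd (mem_univ i) hi, ?_, ?_⟩
  · -- functions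
    intro f x
    rcases x with y | ⟨⟨t', y⟩, hy⟩
    · rw [hS'.fl]
      rcases hdec (lab y) with h0 | ⟨i, hi⟩
      · have h1 : lab (S.fn f y) = none := by
          rcases hC.fn f y with h | h
          · exact h
          · rw [h, h0]
        rw [CPE_inl hX y (fun i hi => absurd (h0.symm.trans hi) (by simp)), hS'.fl,
          CPE_inl hX _ (fun i hi => absurd (h1.symm.trans hi) (by simp))]
      · by_cases hw : i ∈ w
        · have hy : ∃ j ∈ E t, lab y = some j := ⟨i, hwE hw, hi⟩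
          rw [hX.el i y hy hw hi]
          rcases hC.fn f y with h1 | h1
          · rw [hS'.fn f t y hy h1,
              CPE_inl hX _ (fun j hj => absurd (h1.symm.trans hj) (by simp))]
          · have hi' : lab (S.fn f y) = some i := h1.trans hi
            have hy' : ∃ j ∈ E t, lab (S.fn f y) = some j := ⟨i, hwE hw, hi'⟩
            rw [hS'.fr f t y hy hy', hX.el i _ hy' hw hi']
        · rw [CPE_inl hX y (fun j hj hjw => hw (by
            rwa [Option.some_injective _ (hj.symm.trans hi)] at hjw)), hS'.fl]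
          refine CPE_inl hX _ fun j hj hjw => ?_
          rcases hC.fn f y with h1 | h1
          · exact absurd (h1.symm.trans hj) (by simp)
          · rw [h1, hi] at hj
            exact hw (Option.some_injective _ hj ▸ hjw)
    · obtain ⟨i, hiE, hi⟩ := hy
      have hy : ∃ j ∈ E t', lab y = some j := ⟨i, hiE, hi⟩
      by_cases hc : t' = t ∧ i ∈ w
      · obtain ⟨rfl, hw⟩ := hc
        rw [CPE_back hX y i hy hi hw, hS'.fl]
        rcases hC.fn f y with h1 | h1
        · rw [hS'.fn f t' y hy h1,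
            CPE_inl hX _ (fun j hj => absurd (h1.symm.trans hj) (by simp))]
        · have hi' : lab (S.fn f y) = some i := h1.trans hi
          have hy' : ∃ j ∈ E t', lab (S.fn f y) = some j := ⟨i, hiE, hi'⟩
          rw [hS'.fr f t' y hy hy', CPE_back hX _ i hy' hi' hw]
      · have hn : t' = t → i ∉ w := fun h1 h2 => hc ⟨h1, h2⟩
        rw [CPE_inr hX t' y i hy hi hn]
        rcases hC.fn f y with h1 | h1
        · rw [hS'.fn f t' y hy h1,
            CPE_inl hX _ (fun j hj => absurd (h1.symm.trans hj) (by simp))]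
        · have hi' : lab (S.fn f y) = some i := h1.trans hi
          have hy' : ∃ j ∈ E t', lab (S.fn f y) = some j := ⟨i, hiE, hi'⟩
          rw [hS'.fr f t' y hy hy', CPE_inr hX t' _ i hy' hi' hn]
  · -- relations
    intro R hR v _
    obtain ⟨-, hB2, hB3, -, -, -, -, -⟩ := hBLK G M I S lab hC (Λ n) univ
    set Z₀ : Set (IC E) := {c | ∃ k, labC lab E (v k) = some c} with hZ₀
    have hZ₀f : Z₀.Finite := by
      refine ((Set.finite_range fun k => labC lab E (v k)).preimage
        (Option.some_injective (IC E)).injOn).subset ?_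
      rintro c ⟨k, hk⟩
      exact ⟨k, hk⟩
    set Z : Set (IC E) := Z₀ ∪ a.1 '' Z₀ with hZ
    have hZf : Z.Finite := hZ₀f.union (hZ₀f.image _)
    have hcm : ∀ i (h : i ∈ E t), i ∈ w → (Sum.inr ⟨(t, i), h⟩ : IC E) ∈ Z →
        (Sum.inl i : IC E) ∈ Z := by
      intro i h hw hz
      have h1 := hX.cm i h hw
      rcases hz with hz | ⟨c, hc, hcz⟩
      · exact Or.inr ⟨_, hz, by rw [← h1, CPE_inv1 hX]⟩
      · rw [← h1] at hcz
        exact Or.inl (a.1.injective hcz ▸ hc)
    have hcm' : ∀ i (h : i ∈ E t), i ∈ w → (Sum.inl i : IC E) ∈ Z →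
        (Sum.inr ⟨(t, i), h⟩ : IC E) ∈ Z := by
      intro i h hw hz
      have h1 := hX.cm i h hw
      rcases hz with hz | ⟨c, hc, hcz⟩
      · exact Or.inr ⟨_, hz, h1⟩
      · refine Or.inl ?_
        have h2 : c = Sum.inr ⟨(t, i), h⟩ := by
          rw [← CPE_inv1 hX c, hcz, h1]
        exact h2 ▸ hc
    have hGx : ∀ t', ∀ i ∈ E t', Gx S lab (Λ n) univ i := fun t' i hi => (hE n t' i hi).1
    set Q : Set I := ⋃ i ∈ {i | i ∈ w ∧ (Sum.inl i : IC E) ∈ Z}, Bl S lab (Λ n) univ i with hQ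
    have hQf : Q.Finite := by
      refine Set.Finite.biUnion ?_ fun i hi => (hB2 i (hGx t i (hwE hi.1))).1.1
      exact (hZf.preimage Sum.inl_injective.injOn).subset fun i hi => hi.2
    have hQw : Q ⊆ w := iUnion₂_subset fun i hi => hwB i hi.1
    have hQT : Q ⊆ Tc S lab (Λ n) E Z t := by
      refine iUnion₂_subset fun i hi j hj => ?_
      exact ⟨i, hwE hi.1, hcm' i (hwE hi.1) hi.1 hi.2, hj⟩
    have hQB : ∀ i ∈ Q, Gx S lab (Λ n) univ i ∧ Bl S lab (Λ n) univ i ⊆ Q := by
      intro i hi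
      obtain ⟨i₀, hi₀, hii⟩ := mem_iUnion₂.1 hi
      obtain ⟨h1, h2⟩ := hB3 i₀ i (hGx t i₀ (hwE hi₀.1)) hii
      refine ⟨h1, ?_⟩
      rw [h2]
      exact subset_biUnion_of_mem (u := fun i => Bl S lab (Λ n) univ i) hi₀
    have hQmem : ∀ i, i ∈ w → (Sum.inl i : IC E) ∈ Z → i ∈ Q := fun i hw hz =>
      mem_iUnion₂.2 ⟨i, ⟨hw, hz⟩, (hB2 i (hGx t i (hwE hw))).2⟩
    obtain ⟨σ, W, hσ, hW⟩ := hPLX G M I T S lab (Λ n) E Z (Q ∪ {i | (Sum.inl i : IC E) ∈ Z}) hC
      (hE n) hZf (hQf.union (hZf.preimage Sum.inl_injective.injOn))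
    have hEx : Sw S lab (Λ n) univ (Tc S lab (Λ n) E Z t) (W t) (σ t) :=
      ⟨(hσ.ph t).1, (hW t).1⟩
    have hTf : (Tc S lab (Λ n) E Z t).Finite := by
      refine Set.Finite.of_finite_image ?_ (σ t).1.injective.injOn
      rw [(hW t).1.img]
      exact (hW t).2.1
    obtain ⟨b, hb, hb1, hb2⟩ := hRSX G M I S lab (Λ n) univ (Tc S lab (Λ n) E Z t) (W t) Q (σ t)
      hC hTf hEx hQT hQB
    have hbinv : ∀ x, b.2 (b.2 x) = x := by
      intro x
      have h1 : (b * b).2 x = (1 : Gp I M).2 x := by rw [hb.2.inv]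
      exact h1
    have hσW : ∀ t' i, i ∈ Tc S lab (Λ n) E Z t' → (σ t').1 i ∈ W t' := by
      intro t' i hi
      rw [← (hW t').1.img]
      exact ⟨i, hi, rfl⟩
    have hσQ : ∀ i, i ∈ (σ t).1 '' Q → i ∈ W t := by
      rintro _ ⟨j, hj, rfl⟩
      exact hσW t j (hQT hj)
    have hWQ : ∀ t' i, i ∈ W t' → i ∉ Q := fun t' i hi hiQ =>
      Set.disjoint_left.1 (hW t').2.2.1 hi (Or.inl hiQ)
    -- the key identity
    have key : ∀ k, pm lab E σ (a.2 (v k)) = b.2 (pm lab E σ (v k)) := by
      intro k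
      have hk : ∀ c, labC lab E (v k) = some c → c ∈ Z := fun c hc => Or.inl ⟨k, hc⟩
      generalize v k = x at hk
      rcases x with y | ⟨⟨t', y⟩, hy⟩
      · rcases hdec (lab y) with h0 | ⟨i, hi⟩
        · rw [CPE_inl hX y (fun i hi => absurd (h0.symm.trans hi) (by simp))]
          show y = b.2 y
          rw [hb.1.root y h0]
        · have hiZ : (Sum.inl i : IC E) ∈ Z := hk _ (by rw [labC_inl, hi]; rfl)
          by_cases hw : i ∈ w
          · have hy : ∃ j ∈ E t, lab y = some j := ⟨i, hwE hw, hi⟩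
            rw [hX.el i y hy hw hi]
            show (σ t).2 y = b.2 y
            rw [hb1 y i hi (hQmem i hw hiZ)]
          · rw [CPE_inl hX y (fun j hj hjw => hw (by
              rwa [Option.some_injective _ (hj.symm.trans hi)] at hjw))]
            show y = b.2 y
            rw [hb.2.out y i hi (fun h => hw (hQw h)) (fun h =>
              Set.disjoint_left.1 (hW t).2.2.1 (hσQ i h) (Or.inr hiZ))]
      · obtain ⟨i, hiE, hi⟩ := hy
        have hy : ∃ j ∈ E t', lab y = some j := ⟨i, hiE, hi⟩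
        have hiZ : (Sum.inr ⟨(t', i), hiE⟩ : IC E) ∈ Z := hk _ (labC_inr lab E t' y i hy hi hiE)
        have hiT : i ∈ Tc S lab (Λ n) E Z t' := ⟨i, hiE, hiZ, (hB2 i (hGx t' i hiE)).2⟩
        have hl : lab ((σ t').2 y) = some ((σ t').1 i) := by
          rw [(hσ.ph t').1.lb, hi]
          rfl
        by_cases hc : t' = t
        · subst hc
          by_cases hw : i ∈ w
          · rw [CPE_back hX y i hy hi hw]
            show y = b.2 ((σ t').2 y)
            rw [← hb1 y i hi (hQmem i hw (hcm i hiE hw hiZ)), hbinv]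
          · rw [CPE_inr hX t' y i hy hi (fun _ => hw)]
            show (σ t').2 y = b.2 ((σ t').2 y)
            rw [hb.2.out _ _ hl (hWQ t' _ (hσW t' i hiT)) ?_]
            rintro ⟨j, hj, hji⟩
            rw [(σ t').1.injective hji] at hj
            exact hw (hQw hj)
        · rw [CPE_inr hX t' y i hy hi (fun h => absurd h hc)]
          show (σ t').2 y = b.2 ((σ t').2 y)
          rw [hb.2.out _ _ hl (hWQ t' _ (hσW t' i hiT)) ?_]
          intro h
          exact Set.disjoint_left.1 ((hW t').2.2.2.2 t hc) (hσW t' i hiT) (hσQ _ h)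
    have hv : ∀ k, v k ∈ Sx (labC lab E) Z := fun k c hc => Or.inl ⟨k, hc⟩
    have hav : ∀ k, a.2 (v k) ∈ Sx (labC lab E) Z := by
      intro k c hc
      rw [hlab, Option.map_eq_some_iff] at hc
      obtain ⟨c₀, hc₀, rfl⟩ := hc
      exact Or.inr ⟨c₀, ⟨k, hc₀⟩, rfl⟩
    rw [hS'.pl n Z σ hZf hσ R hR v hv, hS'.pl n Z σ hZf hσ R hR (fun k => a.2 (v k)) hav]
    have h1 : (fun k => pm lab E σ (a.2 (v k))) = fun k => b.2 (pm lab E σ (v k)) := funext key
    rw [h1]
    exact hb.1.rel R hR (fun k => pm lab E σ (v k)) fun k i _ => mem_univ i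

end UNE
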