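import Pool.Agent.UNE.StC

/-!
# UNE: good sets and blocks of the extension

Theorem `thm_CPG (h1 : St_BLK) (h2 : St_DNB) (h3 : St_CPC) (h4 : St_CPR) (h5 : St_CPS) (h6 : St_CPD)
(h7 : St_ISB) : St_CPG`.
-/

set_option autoImplicit false
set_option linter.unusedVariables false

namespace UNE

open Set UN

variable {G : Sg} {M I T : Type} {S : Sys G M} {lab : M → Option I} {E : T → Set I}
  {S' : Sys G (MC lab E)}

theorem CPG_isx (h4 : St_CPR) {Λ : ℕ → Set G.Rl} (hC : Cp S lab) (hΛ : Lvl Λ)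
    (hE : ∀ n, EB S lab (Λ n) E) (hS : Cpy S lab Λ E S') :
    Isx S lab univ S' (labC lab E) (range Sum.inl) (eI E) (gM lab E) := by
  refine ⟨rfl, rfl, ?_, (Sx_range_inl lab E).symm, fun x _ => rfl, fun f x _ => (hS.fl f x).symm,
    fun R v _ => (h4 G M I T S lab Λ E S' hC hΛ hE hS).2 0 R v⟩
  ext x
  exact ⟨fun _ i _ => mem_univ i, fun _ => mem_univ x⟩

/-- exchanges of finite sets have finite support -/
theorem CPG_ph {M I : Type} {S : Sys G M} {lab : M → Option I} {Λ : Set G.Rl} {X w w' : Set I}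
    {a : Gp I M} (hw : w.Finite) (h : Sw S lab Λ X w w' a) : Ph S lab Λ X a := by
  refine ⟨h.1, ?_⟩
  have h5 : w'.Finite := by
    rw [← h.2.img]
    exact hw.image _
  refine (hw.union h5).subset ?_
  rintro i ⟨x, hx, hne⟩
  by_contra hcon
  rw [mem_union, not_or] at hcon
  exact hne (h.2.out x i hx hcon.1 hcon.2)

theorem thm_CPG (h1 : St_BLK) (h2 : St_DNB) (h3 : St_CPC) (h4 : St_CPR) (h5 : St_CPS)
    (h6 : St_CPD) (h7 : St_ISB) : St_CPG := by
  intro G M I T S lab Λ E S' hC hΛ hE hS n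
  have hC' : Cp S' (labC lab E) := h3 G M I T S lab Λ E S' hC hS
  have hI := CPG_isx h4 hC hΛ hE hS
  obtain ⟨i1, i2⟩ := h7 G M (MC lab E) I (IC E) S lab univ S' (labC lab E) (range Sum.inl)
    (eI E) (gM lab E) hC hC' hI (Λ n)
  obtain ⟨-, d2, d3⟩ := h2 G (MC lab E) (IC E) S' (labC lab E) hC' (Λ n) (range Sum.inl) univ
    fun D hD hD' => h6 G M I T S lab Λ E S' hC hΛ hE hS n D hD hD'
  have himg : ∀ w : Set I, (eI E : I → IC E) '' w = Sum.inl '' w := fun w => rfl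
  have hsub : ∀ w : Set I, (Sum.inl '' w : Set (IC E)) ⊆ range Sum.inl :=
    fun w => image_subset_range _ _
  have r1 : ∀ w, Gs S lab (Λ n) univ w ↔ Gs S' (labC lab E) (Λ n) univ (Sum.inl '' w) := by
    intro w
    rw [i1 w (subset_univ _), himg]
    constructor
    · intro h
      exact (d2 _ h.1 (hsub w)).1 h
    · intro h
      exact (d2 _ h.1 (hsub w)).2 h
  have r2 : ∀ i, (Gx S' (labC lab E) (Λ n) univ (Sum.inl i) ↔ Gx S lab (Λ n) univ i) ∧
      (Gx S lab (Λ n) univ i →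
        Bl S' (labC lab E) (Λ n) univ (Sum.inl i) = Sum.inl '' Bl S lab (Λ n) univ i) := by
    intro i
    obtain ⟨j1, j2⟩ := i2 i (mem_univ _)
    obtain ⟨e1, e2⟩ := d3 (Sum.inl i) ⟨i, rfl⟩
    have j1' : Gx S lab (Λ n) univ i ↔
      Gx S' (labC lab E) (Λ n) (range Sum.inl) (Sum.inl i) := j1
    refine ⟨e1.symm.trans j1'.symm, fun h => ?_⟩
    rw [← e2 (e1.1 (j1'.1 h))]
    exact j2 h
  refine ⟨r1, r2, ?_⟩
  intro t i h
  obtain ⟨g1, g2⟩ := hE n t i h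
  obtain ⟨-, b2, b3, -⟩ := h1 G M I S lab hC (Λ n) univ
  obtain ⟨-, -, -, -, c5, -⟩ := h1 G (MC lab E) (IC E) S' (labC lab E) hC' (Λ n) univ
  obtain ⟨a, ha1, ha2⟩ := h5 G M I T S lab Λ E S' hC hΛ hE hS t (Bl S lab (Λ n) univ i) g2
  have hsw := ha2 n fun j hj => by
    rw [(b3 i j g1 hj).2]
  obtain ⟨hii, hio⟩ := ha1 i h (b2 i g1).2
  have hph := CPG_ph ((b2 i g1).1.1.image _) hsw
  obtain ⟨k1, k2⟩ := c5 a (Sum.inl i) hsw.1 ((r2 i).1.2 g1)
  rw [hii] at k1 k2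
  refine ⟨k1, ?_, a, hph, hio⟩
  rw [k2, (r2 i).2 g1]
  exact hsw.2.img

end UNE
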