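import Pool.Agent.UNE.StB

/-!
# UNE [CPI]: automorphisms with finite support extend by the identity on the copies
-/

set_option autoImplicit false
set_option linter.unusedVariables false

namespace UNE

open Set UN

private lemma CPI_fin {A B : Type} (n : ℕ) (v : Fin n → A) (l : A → Option B) :
    {c | ∃ k, l (v k) = some c}.Finite := by
  have h : {c | ∃ k, l (v k) = some c} = some ⁻¹' (range fun k => l (v k)) := by
    ext c
    simp only [mem_preimage, mem_range]
    rfl
  rw [h]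
  exact (finite_range _).preimage (Option.some_injective _).injOn

theorem thm_CPI (hP : St_PLX) : St_CPI := by
  intro G M I T S lab Λ E S' hC hL hE hS n a ha
  have lb : ∀ x, labC lab E ((exC lab E a).2 x) = (labC lab E x).map (exC lab E a).1 := by
    intro x
    rcases x with x | c
    · show (lab (a.2 x)).map Sum.inl = ((lab x).map Sum.inl).map (Equiv.sumCongr a.1 1)
      rw [ha.1.lb, Option.map_map, Option.map_map]
      rfl
    · rfl
  refine ⟨⟨lb, ?_, ?_, ?_, ?_⟩, ?_⟩
  · intro x hx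
    obtain ⟨y, rfl, hy⟩ := (labC_none lab E x).1 hx
    show Sum.inl (a.2 y) = _
    rw [ha.1.root y hy]
  · intro x i _ hi
    exact absurd (mem_univ _) hi
  · intro f x
    rcases x with x | ⟨⟨t, x⟩, h⟩
    · rw [hS.fl]
      show Sum.inl (a.2 (S.fn f x)) = S'.fn f (Sum.inl (a.2 x))
      rw [hS.fl, ha.1.fn]
    · have h0 : (exC lab E a).2 (Sum.inr ⟨(t, x), h⟩) = Sum.inr ⟨(t, x), h⟩ := rfl
      rw [h0]
      rcases hC.fn f x with h1 | h1
      · rw [hS.fn f t x h h1]
        show Sum.inl (a.2 (S.fn f x)) = _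
        rw [ha.1.root _ h1]
      · have h' : ∃ i ∈ E t, lab (S.fn f x) = some i := by
          rw [h1]
          exact h
        rw [hS.fr f t x h h']
        rfl
  · intro R hR v _
    obtain ⟨Z, hZ⟩ : ∃ Z : Set (IC E), Z = {c | ∃ k, labC lab E (v k) = some c} := ⟨_, rfl⟩
    have hZf : Z.Finite := by
      rw [hZ]
      exact CPI_fin _ v _
    obtain ⟨Z', hZ'⟩ : ∃ Z' : Set (IC E), Z' = Z ∪ (exC lab E a).1 '' Z := ⟨_, rfl⟩
    have hZ'f : Z'.Finite := by
      rw [hZ']
      exact hZf.union (hZf.image _)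
    obtain ⟨σ, W, hσ, hW⟩ := hP G M I T S lab (Λ n) E Z' (Sp lab a) hC (hE n) hZ'f ha.2
    have hv : ∀ k, v k ∈ Sx (labC lab E) Z' := by
      intro k c hc
      rw [hZ', hZ]
      exact Or.inl ⟨k, hc⟩
    have hv' : ∀ k, (exC lab E a).2 (v k) ∈ Sx (labC lab E) Z' := by
      intro k c hc
      rw [lb, Option.map_eq_some_iff] at hc
      obtain ⟨c0, hc0, rfl⟩ := hc
      rw [hZ']
      refine Or.inr ⟨c0, ?_, rfl⟩
      rw [hZ]
      exact ⟨k, hc0⟩
    have key : ∀ k, pm lab E σ ((exC lab E a).2 (v k)) = a.2 (pm lab E σ (v k)) := by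
      intro k
      have hk := hv k
      rcases hvk : v k with x | ⟨⟨t, x⟩, i, hi, hx⟩
      · rfl
      · rw [hvk] at hk
        show (σ t).2 x = a.2 ((σ t).2 x)
        have h1 : (Sum.inr ⟨(t, i), hi⟩ : IC E) ∈ Z' :=
          hk _ (labC_inr lab E t x i ⟨i, hi, hx⟩ hx hi)
        have h2 : i ∈ Tc S lab (Λ n) E Z' t := ⟨i, hi, h1, fun w _ hw => hw⟩
        have h3 : (σ t).1 i ∈ W t := by
          rw [← (hW t).1.img]
          exact ⟨i, h2, rfl⟩
        have h4 : lab ((σ t).2 x) = some ((σ t).1 i) := by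
          rw [(hσ.ph t).1.lb, hx]
          rfl
        by_contra hcon
        exact Set.disjoint_left.1 (hW t).2.2.1 h3 ⟨_, h4, fun h5 => hcon h5.symm⟩
    rw [hS.pl n Z' σ hZ'f hσ R hR _ hv', hS.pl n Z' σ hZ'f hσ R hR _ hv]
    simp only [key]
    exact ha.1.rel R hR _ (fun k i _ => mem_univ _)
  · refine (ha.2.image (Sum.inl : I → IC E)).subset ?_
    rintro c ⟨x, hx, hax⟩
    rcases x with x | c'
    · have h1 : a.2 x ≠ x := fun h => hax (by
        show Sum.inl (a.2 x) = _
        rw [h])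
      rw [labC_inl, Option.map_eq_some_iff] at hx
      obtain ⟨i, hi, rfl⟩ := hx
      exact ⟨i, ⟨x, hi, h1⟩, rfl⟩
    · exact absurd rfl hax

end UNE
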