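import Pool.Agent.UNE.StC

/-!
# UNE [CPQ]: infinity blocks of the extension
-/

set_option autoImplicit false
set_option linter.unusedVariables false

namespace UNE

open Set UN

theorem thm_CPQ (h1 : St_EBI) (h2 : St_CPG) : St_CPQ := by
  intro G M I T S lab Λ E S' hc hL hE hS'
  have hEB : ∀ n, EB S lab (Λ n) E := by
    intro n t i hi
    obtain ⟨-, -, -, h3, -⟩ := h1 G M I S lab Λ univ hc hL (E t) (hE t)
    exact ⟨(h3 i hi).1 n, (h3 i hi).2.2 n⟩
  constructor
  · intro i
    constructor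
    · intro h n
      exact (((h2 G M I T S lab Λ E S' hc hL hEB hS' n).2.1 i).1).1 (h n)
    · intro h n
      exact (((h2 G M I T S lab Λ E S' hc hL hEB hS' n).2.1 i).1).2 (h n)
  · intro t i h
    constructor
    · intro n
      exact ((h2 G M I T S lab Λ E S' hc hL hEB hS' n).2.2 t i h).1
    · obtain ⟨-, -, -, h3, -⟩ := h1 G M I S lab Λ univ hc hL (E t) (hE t)
      have h4 : ⋃ n, Bl S lab (Λ n) univ i = E t := (h3 i h).2.1
      have h5 : ∀ n, Bl S' (labC lab E) (Λ n) univ (Sum.inr ⟨(t, i), h⟩)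
          = cp E t (Bl S lab (Λ n) univ i) := fun n =>
        ((h2 G M I T S lab Λ E S' hc hL hEB hS' n).2.2 t i h).2.1
      show ⋃ n, Bl S' (labC lab E) (Λ n) univ (Sum.inr ⟨(t, i), h⟩) = cp E t (E t)
      rw [iUnion_congr h5]
      ext c
      constructor
      · intro hx
        obtain ⟨n, j, hj, hjn, rfl⟩ := mem_iUnion.1 hx
        exact ⟨j, hj, hj, rfl⟩
      · rintro ⟨j, hj, hj', rfl⟩
        rw [← h4] at hj'
        obtain ⟨n, hn⟩ := mem_iUnion.1 hj'
        exact mem_iUnion.2 ⟨n, j, hj, hn, rfl⟩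

end UNE
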