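import Pool.Agent.UNE.StB

/-!
# UNE [CPR]: automorphisms of the extension which are the identity on the copies
-/

set_option autoImplicit false
set_option linter.unusedVariables false

namespace UNE

open Set UN

private lemma CPR_fin {A B : Type} (n : ℕ) (v : Fin n → A) (l : A → Option B) :
    {c | ∃ k, l (v k) = some c}.Finite := by
  have h : {c | ∃ k, l (v k) = some c} = some ⁻¹' (range fun k => l (v k)) := by
    ext c
    simp only [mem_preimage, mem_range]
    rfl
  rw [h]
  exact (finite_range _).preimage (Option.some_injective _).injOn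

private lemma CPR_split {A B : Type} (a : Equiv.Perm (A ⊕ B)) (h : ∀ b, a (Sum.inr b) = Sum.inr b) :
    ∃ s : Equiv.Perm A, a = Equiv.sumCongr s 1 := by
  have h1 : ∀ x, ∃ y, a (Sum.inl x) = Sum.inl y := by
    intro x
    rcases hx : a (Sum.inl x) with y | b
    · exact ⟨y, rfl⟩
    · have h2 := a.injective (hx.trans (h b).symm)
      exact absurd h2 (by simp)
  have h2 : ∀ x, ∃ y, a.symm (Sum.inl x) = Sum.inl y := by
    intro x
    rcases hx : a.symm (Sum.inl x) with y | b
    · exact ⟨y, rfl⟩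
    · rw [Equiv.symm_apply_eq, h] at hx
      exact absurd hx (by simp)
  choose f hf using h1
  choose g hg using h2
  refine ⟨⟨f, g, fun x => ?_, fun x => ?_⟩, ?_⟩
  · apply Sum.inl_injective (β := B)
    rw [← hg, ← hf, Equiv.symm_apply_apply]
  · apply Sum.inl_injective (β := B)
    rw [← hf, ← hg, Equiv.apply_symm_apply]
  · ext x
    rcases x with x | b
    · rw [hf]
      rfl
    · rw [h]
      rfl

theorem thm_CPR (hP : St_PLX) : St_CPR := by
  intro G M I T S lab Λ E S' hC hL hE hS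
  have second : ∀ (R : G.Rl) (v : Fin (G.ar R) → M), S'.rel R (Sum.inl ∘ v) ↔ S.rel R v := by
    intro R v
    obtain ⟨m, hm⟩ := hL.all R
    have hZf : {c | ∃ k, labC lab E ((Sum.inl ∘ v : Fin (G.ar R) → MC lab E) k) = some c}.Finite :=
      CPR_fin _ _ _
    obtain ⟨σ, W, hσ, -⟩ := hP G M I T S lab (Λ m) E _ ∅ hC (hE m) hZf finite_empty
    exact hS.pl m _ σ hZf hσ R hm (Sum.inl ∘ v) (fun k c hc => ⟨k, hc⟩)
  refine ⟨?_, fun _ => second⟩
  intro n a ha
  have h2 : ∀ c, a.2 (Sum.inr c) = Sum.inr c := by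
    intro c
    obtain ⟨⟨t, x⟩, i, hi, hx⟩ := c
    refine ha.out _ _ (labC_inr lab E t x i ⟨i, hi, hx⟩ hx hi) ?_
    rintro ⟨j, hj⟩
    exact absurd hj (by simp)
  have h1 : ∀ c, a.1 (Sum.inr c) = Sum.inr c := by
    intro c
    obtain ⟨⟨t, i⟩, hi⟩ := c
    obtain ⟨x, hx⟩ := hC.ne i
    have h3 := ha.lb (Sum.inr ⟨(t, x), ⟨i, hi, hx⟩⟩)
    rw [h2, labC_inr lab E t x i ⟨i, hi, hx⟩ hx hi] at h3
    exact (Option.some_injective _ h3).symm
  obtain ⟨r, hr⟩ := CPR_split a.1 h1
  obtain ⟨s, hs⟩ := CPR_split a.2 h2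
  have hs' : ∀ x, a.2 (Sum.inl x) = Sum.inl (s x) := by
    intro x
    rw [hs]
    rfl
  refine ⟨(r, s), Prod.ext hr hs, ?_, ?_, ?_, ?_, ?_⟩
  · intro x
    have h3 := ha.lb (Sum.inl x)
    rw [hs', labC_inl, labC_inl, hr, Option.map_map] at h3
    apply Option.map_injective (Sum.inl_injective (α := I) (β := {c : T × I // c.2 ∈ E c.1}))
    show (lab (s x)).map Sum.inl = ((lab x).map r).map Sum.inl
    rw [h3, Option.map_map]
    rfl
  · intro x hx
    have h3 := ha.root (Sum.inl x) (by rw [labC_inl, hx]; rfl)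
    rw [hs'] at h3
    exact Sum.inl_injective h3
  · intro x i _ hi
    exact absurd (mem_univ _) hi
  · intro f x
    have h3 := ha.fn f (Sum.inl x)
    rw [hS.fl, hs', hs', hS.fl] at h3
    exact Sum.inl_injective h3
  · intro R hR v _
    have h3 := ha.rel R hR (Sum.inl ∘ v) (by
      intro k c hc
      rw [Function.comp_apply, labC_inl, Option.map_eq_some_iff] at hc
      obtain ⟨i, -, rfl⟩ := hc
      exact ⟨i, rfl⟩)
    have h4 : (fun k => a.2 ((Sum.inl ∘ v : Fin (G.ar R) → MC lab E) k)) =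
        Sum.inl ∘ (fun k => s (v k)) := by
      funext k
      exact hs' (v k)
    rw [h4, second, second] at h3
    exact h3

end UNE
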