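import Pool.Agent.UNE.StC

/-!
# UNE, module CPS: the exchange of a union of blocks and its copy
-/

set_option autoImplicit false
set_option linter.unusedVariables false

namespace UNE

open Set UN

theorem thm_CPS (hXCE : St_XCE) (hCPE : St_CPE) : St_CPS := by
  intro G M I T S lab Λ E S' hc hl hEB hC t w hw
  obtain ⟨a, hX, hlab⟩ := hXCE M I T lab E t w hw
  have hinv : ∀ c, a.1 (a.1 c) = c := by
    intro c
    have h := congrArg Prod.fst hX.inv
    exact Equiv.ext_iff.1 h c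
  refine ⟨a, fun i h hi => ⟨hX.cm i h hi, ?_⟩, fun n hn =>
    ⟨hCPE G M I T S lab Λ E S' hc hl hEB hC n t w a hw hn hX hlab, ⟨?_, hX.inv, ?_, ?_⟩⟩⟩
  · rw [← hX.cm i h hi, hinv]
  · rw [Set.disjoint_left]
    rintro _ ⟨i, -, rfl⟩ ⟨j, h, -, hj⟩
    exact Sum.inl_ne_inr hj
  · ext c
    constructor
    · rintro ⟨_, ⟨i, hi, rfl⟩, rfl⟩
      exact ⟨i, hw hi, hi, hX.cm i (hw hi) hi⟩
    · rintro ⟨i, h, hi, rfl⟩
      exact ⟨_, ⟨i, hi, rfl⟩, hX.cm i h hi⟩
  · intro x c hx h1 h2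
    refine hX.oe x fun c' hc' => ?_
    rw [hx] at hc'
    obtain rfl := Option.some_injective _ hc'
    exact ⟨h1, h2⟩

end UNE
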