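import Pool.Agent.UNE.StC

/-!
# UNE [CPX]: exchangeable copies
-/

set_option autoImplicit false
set_option linter.unusedVariables false

namespace UNE

open Set UN

private lemma CPX_dis {I T : Type} (E : T → Set I) (t t' : T) (h : t ≠ t') (w w' : Set I) :
    Disjoint (cp E t w) (cp E t' w') := by
  rw [Set.disjoint_left]
  rintro c ⟨i, hi, -, rfl⟩ ⟨j, hj, -, h1⟩
  have h2 := congrArg (fun c => (c : T × I).1) (Subtype.mk.inj (Sum.inr_injective h1))
  exact h h2

private lemma CPX_fix {A : Type} (f : Equiv.Perm A) (w : Set A) (h : ∀ i ∈ w, f i = i) :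
    f '' w = w := by
  ext j
  constructor
  · rintro ⟨k, hk, rfl⟩
    rw [h k hk]
    exact hk
  · intro hj
    exact ⟨j, hj, h j hj⟩

private lemma CPX_inj {M I T : Type} (lab : M → Option I) (E : T → Set I) (a b : Gp I M)
    (h : exC lab E a = exC lab E b) : a = b := by
  apply Prod.ext
  · ext i
    have h1 := congrArg (fun g : Gp (IC E) (MC lab E) => g.1 (Sum.inl i)) h
    exact Sum.inl_injective h1
  · ext x
    have h1 := congrArg (fun g : Gp (IC E) (MC lab E) => g.2 (Sum.inl x)) h
    exact Sum.inl_injective h1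

theorem thm_CPX (hG : St_GRA) (hW : St_SWP) (hI : St_EBI) (hCC : St_CPC) (hR : St_CPR)
    (hS : St_CPS) : St_CPX := by
  intro G M I T S lab Λ E S' hC hL hE hcp t t' htt
  have hEB : ∀ n, EB S lab (Λ n) E := by
    intro n t i hi
    obtain ⟨-, -, -, h1, -⟩ := hI G M I S lab Λ univ hC hL (E t) (hE t)
    obtain ⟨h2, -, h3⟩ := h1 i hi
    exact ⟨h2 n, h3 n⟩
  have hC' : Cp S' (labC lab E) := hCC G M I T S lab Λ E S' hC hcp
  have key : ∀ t, ∃ a : Gp (IC E) (MC lab E), ∀ n,
      Sw S' (labC lab E) (Λ n) univ (Sum.inl '' E t) (cp E t (E t)) a := by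
    intro t
    obtain ⟨a, -, ha⟩ := hS G M I T S lab Λ E S' hC hL hEB hcp t (E t) subset_rfl
    exact ⟨a, fun n => ha n fun i hi => (hEB n t i hi).2⟩
  obtain ⟨a, ha⟩ := key t
  obtain ⟨a', ha'⟩ := key t'
  have hdis := CPX_dis E t t' htt (E t) (E t')
  constructor
  · intro hs
    rcases hs with hs | ⟨s, hs, hse⟩
    · exfalso
      obtain ⟨-, ⟨i, hi⟩, -⟩ := hI G M I S lab Λ univ hC hL (E t) (hE t)
      have h1 : (Sum.inr ⟨(t, i), hi⟩ : IC E) ∈ cp E t (E t) := ⟨i, hi, hi, rfl⟩
      have h2 := h1
      rw [hs] at h2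
      exact Set.disjoint_left.1 hdis h1 h2
    · obtain ⟨-, -, -, -, h1⟩ := hI G M I S lab Λ univ hC hL (E t) (hE t)
      rcases h1 (E t') (hE t') with h1 | h1
      · exact Or.inl h1
      right
      have hC1 : ∀ n, Sw S' (labC lab E) (Λ n) univ (Sum.inl '' E t) (Sum.inl '' E t')
          ((a' * a) * s * (a' * a)⁻¹) := by
        intro n
        obtain ⟨w1, -, w3, -⟩ := hW G _ _ S' (labC lab E) hC' (Λ n) univ
        obtain ⟨gone, gmul, -⟩ := hG G _ _ S' (labC lab E) hC' (Λ n) univ
        have h2 := w3 _ _ s (a' * a) ⟨hs n, hse⟩ (gmul _ _ (ha' n).1 (ha n).1)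
        obtain ⟨b1, -, -, -, b5, -⟩ := w1 _ _ _ (ha n)
        obtain ⟨c1, -, -, -, c5, -⟩ := w1 _ _ _ (ha' n)
        have h3 : (a' * a).1 '' cp E t (E t) = Sum.inl '' E t := by
          have h4 : (a' * a).1 '' cp E t (E t) = a'.1 '' (a.1 '' cp E t (E t)) := by
            rw [← Set.image_comp]
            rfl
          rw [h4, b1.2.img]
          apply CPX_fix
          rintro c ⟨i, hi, rfl⟩
          apply c5
          · rintro ⟨j, hj, h5⟩
            obtain rfl := Sum.inl_injective h5
            exact Set.disjoint_left.1 h1 hi hj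
          · rintro ⟨j, hj, -, h5⟩
            exact absurd h5 (by simp)
        have h3' : (a' * a).1 '' cp E t' (E t') = Sum.inl '' E t' := by
          have h4 : (a' * a).1 '' cp E t' (E t') = a'.1 '' (a.1 '' cp E t' (E t')) := by
            rw [← Set.image_comp]
            rfl
          have h5 : a.1 '' cp E t' (E t') = cp E t' (E t') := by
            apply CPX_fix
            intro c hc
            apply b5
            · rintro ⟨j, hj, rfl⟩
              obtain ⟨i, hi, -, h6⟩ := hc
              exact absurd h6 (by simp)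
            · intro h6
              exact Set.disjoint_left.1 hdis h6 hc
          rw [h4, h5, c1.2.img]
        rw [h3, h3'] at h2
        exact h2
      have hC2 : ∀ n, Am S' (labC lab E) (Λ n) (range (Sum.inl : I → IC E))
          ((a' * a) * s * (a' * a)⁻¹) := by
        intro n
        obtain ⟨w1, -⟩ := hW G _ _ S' (labC lab E) hC' (Λ n) univ
        obtain ⟨-, -, -, -, gY, -⟩ := hG G _ _ S' (labC lab E) hC' (Λ n) univ
        obtain ⟨-, -, -, h2, -⟩ := w1 _ _ _ (hC1 n)
        refine gY _ _ (subset_univ _) (hC1 n).1 (h2.trans ?_)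
        rintro c (⟨i, -, rfl⟩ | ⟨i, -, rfl⟩)
        · exact ⟨i, rfl⟩
        · exact ⟨i, rfl⟩
      obtain ⟨r1, -⟩ := hR G M I T S lab Λ E S' hC hL hEB hcp
      obtain ⟨b, hb, -⟩ := r1 0 _ (hC2 0)
      have hSw := (hC1 0).2
      rw [hb] at hSw
      refine ⟨b, ?_, h1, ?_, ?_, ?_⟩
      · intro n
        obtain ⟨b', hb', hb2⟩ := r1 n _ (hC2 n)
        rw [hb] at hb'
        rw [CPX_inj lab E b b' hb']
        exact hb2
      · apply CPX_inj lab E
        have h2 : exC lab E (b * b) = exC lab E b * exC lab E b := by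
          apply Prod.ext
          · ext c
            rcases c with i | c <;> rfl
          · ext x
            rcases x with i | c <;> rfl
        have h3 : exC lab E (1 : Gp I M) = 1 := by
          apply Prod.ext
          · ext c
            rcases c with i | c <;> rfl
          · ext x
            rcases x with i | c <;> rfl
        rw [h2, h3]
        exact hSw.inv
      · apply (Sum.inl_injective (α := I) (β := {c : T × I // c.2 ∈ E c.1})).image_injective
        show Sum.inl '' (b.1 '' E t) = Sum.inl '' E t'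
        rw [← hSw.img, ← Set.image_comp, ← Set.image_comp]
        rfl
      · intro x i hx hi hi'
        have h2 := hSw.out (Sum.inl x) (Sum.inl i) (by rw [labC_inl, hx]; rfl)
          (by
            rintro ⟨j, hj, h3⟩
            exact hi (Sum.inl_injective h3 ▸ hj))
          (by
            rintro ⟨j, hj, h3⟩
            exact hi' (Sum.inl_injective h3 ▸ hj))
        exact Sum.inl_injective h2
  · intro hEE
    right
    have h1 : (Sum.inl '' E t' : Set (IC E)) = Sum.inl '' E t := by rw [hEE]
    rw [h1] at ha'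
    have h2 : ∀ n, Sw S' (labC lab E) (Λ n) univ (cp E t (E t)) (cp E t' (E t'))
        (a * a' * a) := by
      intro n
      obtain ⟨-, -, -, w4⟩ := hW G _ _ S' (labC lab E) hC' (Λ n) univ
      exact w4 _ _ _ a a' (ha n) (ha' n) hdis
    exact ⟨a * a' * a, fun n => (h2 n).1, (h2 0).2⟩

end UNE
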