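import Pool.Agent.UNE.StB

/-!
# UNE: the extension by the copies is a member of the class

Theorem `thm_CPY (h1 : St_PLX) (h2 : St_PLU) (h3 : St_PLM) : St_CPY`.
-/

set_option autoImplicit false
set_option linter.unusedVariables false

namespace UNE

open Set UN

variable {G : Sg} {M I T κ : Type} {S : Sys G M} {lab : M → Option I}
  {E : T → Set I}

/-- the components of the elements of a family -/
def CPY_Z (lab : M → Option I) (E : T → Set I) (v : κ → MC lab E) : Set (IC E) :=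
  {c | ∃ k, labC lab E (v k) = some c}

theorem CPY_Z_finite [Finite κ] (v : κ → MC lab E) : (CPY_Z lab E v).Finite := by
  have h1 : (range fun k => labC lab E (v k)).Finite := finite_range _
  refine (h1.preimage (f := fun c : IC E => some c)
    (fun c _ c' _ h => Option.some_injective _ h)).subset ?_
  rintro c ⟨k, hk⟩
  exact ⟨k, hk⟩

theorem CPY_mem_Z (v : κ → MC lab E) (k : κ) : v k ∈ Sx (labC lab E) (CPY_Z lab E v) :=
  fun c hc => ⟨k, hc⟩

theorem CPY_Tc {Λ : Set G.Rl} {Z : Set (IC E)} {t : T} {j : I} (hj : j ∈ E t)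
    (h : (Sum.inr ⟨(t, j), hj⟩ : IC E) ∈ Z) : j ∈ Tc S lab Λ E Z t :=
  ⟨j, hj, h, fun w _ hw => hw⟩

/-- two placements give the same atoms -/
theorem CPY_ind (h2 : St_PLU) {Λ : Set G.Rl} (hC : Cp S lab) (hE : EB S lab Λ E)
    {Z : Set (IC E)} (hZ : Z.Finite) {σ σ' : T → Gp I M} (hσ : Plc S lab Λ E Z σ)
    (hσ' : Plc S lab Λ E Z σ') {R : G.Rl} (hR : R ∈ Λ) (v : Fin (G.ar R) → MC lab E)
    (hv : ∀ k, v k ∈ Sx (labC lab E) Z) (h : S.rel R fun k => pm lab E σ (v k)) :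
    S.rel R fun k => pm lab E σ' (v k) := by
  obtain ⟨g, hg1, hg2, hg3⟩ := h2 G M I T S lab Λ E Z σ σ' hC hE hZ hσ hσ'
  have h8 : ∀ y ∈ Sx (labC lab E) Z, pm lab E σ' y = g.2 (pm lab E σ y) := by
    intro y h6
    rcases y with x | c
    · show x = g.2 x
      cases hx : lab x with
      | none => exact (hg1.1.root x hx).symm
      | some i =>
        refine (hg2 x i hx (h6 _ ?_)).symm
        rw [labC_inl, hx]
        rfl
    · obtain ⟨⟨t, x⟩, j, hj, hx⟩ := c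
      have h7 : (Sum.inr ⟨(t, j), hj⟩ : IC E) ∈ Z :=
        h6 _ (labC_inr lab E t x j ⟨j, hj, hx⟩ hx hj)
      exact (hg3 t x j hx (CPY_Tc hj h7)).symm
  have h5 : (fun k => pm lab E σ' (v k)) = fun k => g.2 (pm lab E σ (v k)) := by
    funext k
    exact h8 _ (hv k)
  rw [h5]
  exact (hg1.1.rel R hR _ fun k i _ => mem_univ _).2 h

open Classical in
/-- the extension -/
noncomputable def CPY_S (S : Sys G M) (lab : M → Option I) (Λ : ℕ → Set G.Rl) (E : T → Set I) :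
    Sys G (MC lab E) where
  fn f
    | .inl x => .inl (S.fn f x)
    | .inr c => if h : ∃ j ∈ E c.1.1, lab (S.fn f c.1.2) = some j then
        .inr ⟨(c.1.1, S.fn f c.1.2), h⟩ else .inl (S.fn f c.1.2)
  rel R v := ∃ (n : ℕ) (σ : T → Gp I M), R ∈ Λ n ∧ Plc S lab (Λ n) E (CPY_Z lab E v) σ ∧
    S.rel R fun k => pm lab E σ (v k)

theorem CPY_cpy (h2 : St_PLU) (h3 : St_PLM) {Λ : ℕ → Set G.Rl} (hC : Cp S lab) (hΛ : Lvl Λ)
    (hE : ∀ n, EB S lab (Λ n) E) : Cpy S lab Λ E (CPY_S S lab Λ E) := by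
  refine ⟨fun f x => rfl, ?_, ?_, ?_⟩
  · intro f t x h hn
    refine dif_neg ?_
    rintro ⟨j, -, hj⟩
    have hj' : lab (S.fn f x) = some j := hj
    rw [hn] at hj'
    exact absurd hj' (by simp)
  · intro f t x h h'
    exact dif_pos h'
  · intro n Z σ hZ hσ R hR v hv
    have hsub : CPY_Z lab E v ⊆ Z := by
      rintro c ⟨k, hk⟩
      exact hv k c hk
    constructor
    · rintro ⟨m, σ', hR', hσ', h⟩
      have hl : R ∈ Λ (min m n) ∧ Λ (min m n) ⊆ Λ m ∧ Λ (min m n) ⊆ Λ n := by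
        refine ⟨?_, hΛ.mono _ _ (min_le_left _ _), hΛ.mono _ _ (min_le_right _ _)⟩
        rcases le_total m n with h | h
        · rwa [min_eq_left h]
        · rwa [min_eq_right h]
      exact CPY_ind h2 hC (hE (min m n)) (CPY_Z_finite v)
        (h3 G M I T S lab _ _ E _ _ σ' hl.2.1 Subset.rfl hσ')
        (h3 G M I T S lab _ _ E _ _ σ hl.2.2 hsub hσ) hl.1 v (CPY_mem_Z v) h
    · intro h
      exact ⟨n, σ, hR, h3 G M I T S lab _ _ E _ _ σ Subset.rfl hsub hσ, h⟩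

theorem CPY_fn {Λ : ℕ → Set G.Rl} (hC : Cp S lab) {S' : Sys G (MC lab E)}
    (hS : Cpy S lab Λ E S') {n : ℕ} {Z : Set (IC E)} {σ : T → Gp I M}
    (hσ : Plc S lab (Λ n) E Z σ) (f : G.Fn) (y : MC lab E) (hy : y ∈ Sx (labC lab E) Z) :
    S'.fn f y ∈ Sx (labC lab E) Z ∧ pm lab E σ (S'.fn f y) = S.fn f (pm lab E σ y) := by
  rcases y with x | c
  · rw [hS.fl]
    refine ⟨fun c hc => ?_, rfl⟩
    rw [labC_inl] at hc
    rcases hC.fn f x with h | h
    · rw [h] at hc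
      exact absurd hc (by simp)
    · rw [h] at hc
      exact hy c hc
  · obtain ⟨⟨t, x⟩, j, hj, hx⟩ := c
    have hx' : lab x = some j := hx
    have hj' : j ∈ E t := hj
    rcases hC.fn f x with h | h
    · rw [hS.fn f t x _ h]
      refine ⟨fun c hc => ?_, ?_⟩
      · rw [labC_inl, h] at hc
        exact absurd hc (by simp)
      · show S.fn f x = S.fn f ((σ t).2 x)
        rw [← (hσ.ph t).1.fn, (hσ.ph t).1.root _ h]
    · rw [hx'] at h
      rw [hS.fr f t x _ ⟨j, hj', h⟩]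
      refine ⟨fun c hc => ?_, ?_⟩
      · rw [labC_inr lab E t _ j _ h hj'] at hc
        refine hy c ?_
        rw [← hc]
        exact labC_inr lab E t x j _ hx' hj'
      · exact (hσ.ph t).1.fn f x

theorem CPY_w {Λ : ℕ → Set G.Rl} (hC : Cp S lab) {S' : Sys G (MC lab E)}
    (hS : Cpy S lab Λ E S') {n : ℕ} {Z : Set (IC E)} {σ : T → Gp I M}
    (hσ : Plc S lab (Λ n) E Z σ) (l : List G.Fn) (y : MC lab E)
    (hy : y ∈ Sx (labC lab E) Z) :
    S'.w l y ∈ Sx (labC lab E) Z ∧ pm lab E σ (S'.w l y) = S.w l (pm lab E σ y) := by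
  induction l with
  | nil => exact ⟨hy, rfl⟩
  | cons f l ih =>
    obtain ⟨h5, h6⟩ := CPY_fn hC hS hσ f _ ih.1
    refine ⟨h5, ?_⟩
    show pm lab E σ (S'.fn f (S'.w l y)) = S.fn f (S.w l (pm lab E σ y))
    rw [h6, ih.2]

theorem CPY_inj {Λ : Set G.Rl} {Z : Set (IC E)} {σ : T → Gp I M}
    (hσ : Plc S lab Λ E Z σ) : InjOn (pm lab E σ) (Sx (labC lab E) Z) := by
  -- the component of the image of a copy
  have key : ∀ (t : T) (x : M) (h : ∃ j ∈ E t, lab x = some j),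
      (Sum.inr ⟨(t, x), h⟩ : MC lab E) ∈ Sx (labC lab E) Z →
      ∃ j, j ∈ Tc S lab Λ E Z t ∧ lab ((σ t).2 x) = some ((σ t).1 j) := by
    rintro t x ⟨j, hj, hx⟩ h
    refine ⟨j, CPY_Tc hj (h _ (labC_inr lab E t x j ⟨j, hj, hx⟩ hx hj)), ?_⟩
    rw [(hσ.ph t).1.lb, hx]
    rfl
  have hmix : ∀ (x : M) (t : T) (x' : M) (h : ∃ j ∈ E t, lab x' = some j),
      (Sum.inl x : MC lab E) ∈ Sx (labC lab E) Z →
      (Sum.inr ⟨(t, x'), h⟩ : MC lab E) ∈ Sx (labC lab E) Z → x ≠ (σ t).2 x' := by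
    intro x t x' h h5 h6 h7
    obtain ⟨j, hj, hl⟩ := key t x' h h6
    refine hσ.off t j hj (h5 _ ?_)
    rw [labC_inl, h7, hl]
    rfl
  intro y hy y' hy' hyy
  rcases y with x | ⟨⟨t, x⟩, h⟩ <;> rcases y' with x' | ⟨⟨t', x'⟩, h'⟩
  · exact congrArg Sum.inl hyy
  · exact absurd hyy (hmix x t' x' h' hy hy')
  · exact absurd hyy.symm (hmix x' t x h hy' hy)
  · have hyy' : (σ t).2 x = (σ t').2 x' := hyy
    obtain ⟨j, hj, hl⟩ := key t x h hy
    obtain ⟨j', hj', hl'⟩ := key t' x' h' hy'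
    by_cases htt : t = t'
    · subst htt
      have h5 := (σ t).2.injective hyy'
      subst h5
      rfl
    · exfalso
      rw [hyy', hl'] at hl
      have h5 := Option.some_injective _ hl
      exact disjoint_left.1 (hσ.dis t t' htt) ⟨j, hj, rfl⟩ ⟨j', hj', h5⟩

theorem thm_CPY (h1 : St_PLX) (h2 : St_PLU) (h3 : St_PLM) : St_CPY := by
  intro G U M I T S lab Λ E hU hS hC hΛ hE
  have hcp := CPY_cpy (E := E) h2 h3 hC hΛ hE
  refine ⟨CPY_S S lab Λ E, hcp, ?_⟩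
  set S' := CPY_S S lab Λ E with hS'
  obtain ⟨x0⟩ := hU.ne M S hS
  refine hU.loc _ S' ⟨Sum.inl x0⟩ ?_
  intro n v D hD
  -- the level
  choose ℓ hℓ using hΛ.all
  let r : At G (Fin n) → ℕ := fun a => match a with
    | .eq _ _ => 0
    | .rel R _ => ℓ R
  obtain ⟨m, hm⟩ := (hD.image r).bddAbove
  have hm' : ∀ a ∈ D, r a ≤ m := fun a ha => hm ⟨a, ha, rfl⟩
  obtain ⟨σ, W, hσ, -⟩ := h1 G M I T S lab (Λ m) E (CPY_Z lab E v) ∅ hC (hE m)
    (CPY_Z_finite v) finite_empty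
  refine ⟨M, S, hS, fun k => pm lab E σ (v k), ?_⟩
  have hw := fun l k => CPY_w hC hcp hσ l (v k) (CPY_mem_Z v k)
  intro a ha
  have hra := hm' a ha
  cases a with
  | eq s t =>
    show S'.w s.1 (v s.2) = S'.w t.1 (v t.2) ↔
      S.w s.1 (pm lab E σ (v s.2)) = S.w t.1 (pm lab E σ (v t.2))
    rw [← (hw s.1 s.2).2, ← (hw t.1 t.2).2]
    exact ⟨fun h => congrArg _ h, fun h => CPY_inj hσ (hw s.1 s.2).1 (hw t.1 t.2).1 h⟩
  | rel R t =>
    show (S'.rel R fun k => S'.w (t k).1 (v (t k).2)) ↔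
      S.rel R fun k => S.w (t k).1 (pm lab E σ (v (t k).2))
    have hR : R ∈ Λ m := hΛ.mono _ _ hra (hℓ R)
    rw [hcp.pl m _ σ (CPY_Z_finite v) hσ R hR _ fun k => (hw (t k).1 (t k).2).1]
    have h5 : (fun k => pm lab E σ (S'.w (t k).1 (v (t k).2))) =
        fun k => S.w (t k).1 (pm lab E σ (v (t k).2)) := by
      funext k
      exact (hw (t k).1 (t k).2).2
    rw [h5]

end UNE
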