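import Pool.Agent.UNE.StC

/-!
# UNE [CS1]: countably many classes of infinity blocks: the structure is not large
-/

set_option autoImplicit false
set_option linter.unusedVariables false

namespace UNE

open Set UN Pool.Agent.Helper5.DU Pool.Agent.Helper6.Str Pool.Agent.Helper79.VC

private theorem CS1_sub {α : Type} (s : Set α) : ∃ t ⊆ s, t.Countable ∧
    (s.Countable → t = s) ∧ (¬ s.Countable → t.Infinite) := by
  by_cases hs : s.Countable
  · exact ⟨s, Subset.rfl, hs, fun _ => rfl, fun h => absurd hs h⟩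
  · have hinf : s.Infinite := fun h => hs h.countable
    refine ⟨range fun n => (Set.Infinite.natEmbedding s hinf n : α), ?_, countable_range _,
      fun h => absurd h hs, fun _ => ?_⟩
    · rintro _ ⟨n, rfl⟩
      exact (Set.Infinite.natEmbedding s hinf n).2
    · exact infinite_range_of_injective
        (Subtype.val_injective.comp (Set.Infinite.natEmbedding s hinf).injective)

private theorem CS1_w {G : Sg} {M : Type} {S : Sys G M} {σ : M → M}
    (h : ∀ f x, σ (S.fn f x) = S.fn f (σ x)) (l : List G.Fn) (x : M) :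
    σ (S.w l x) = S.w l (σ x) := by
  induction l with
  | nil => rfl
  | cons f l ih => rw [w_cons, w_cons, h, ih]

private theorem CS1_eqv {G : Sg} {M I : Type} {S : Sys G M} {lab : M → Option I}
    {Λ : ℕ → Set G.Rl} (hL : Lvl Λ) {a : Gp I M} (h : ∀ n, Am S lab (Λ n) univ a) :
    Eqv S id S a.2 := by
  have hw := CS1_w (S := S) (σ := a.2) (h 0).fn
  intro b
  cases b with
  | eq s t =>
    show S.w s.1 s.2 = S.w t.1 t.2 ↔ S.w s.1 (a.2 s.2) = S.w t.1 (a.2 t.2)
    rw [← hw, ← hw]
    exact a.2.injective.eq_iff.symm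
  | rel R t =>
    show (S.rel R fun k => S.w (t k).1 (t k).2) ↔ (S.rel R fun k => S.w (t k).1 (a.2 (t k).2))
    obtain ⟨n, hn⟩ := hL.all R
    have h1 := (h n).rel R hn (fun k => S.w (t k).1 (t k).2) fun k i _ => mem_univ _
    simp only [hw] at h1
    exact h1.symm

/-- Countably many classes of infinity blocks: the structure is not large. -/
theorem thm_CS1 (hSWP : St_SWP) (hEBI : St_EBI) (hEQX : St_EQX) : St_CS1 := by
  classical
  intro G M I S lab Λ hC hL hroot hGic hKK hNo
  obtain ⟨KK, hKKc, hKKs, hKK⟩ := hKK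
  have hE := hEBI G M I S lab Λ univ hC hL
  obtain ⟨-, q2⟩ := hEQX G M I S lab Λ univ hC hL
  choose K hK1 hK2 hK3 hK4 using fun w : Set I =>
    CS1_sub {w' | w' ∈ IB S lab Λ univ ∧ Eqx S lab Λ univ w w'}
  set X : Set I := {i | ¬ Gi S lab Λ univ i} ∪ ⋃ w ∈ KK, ⋃ w' ∈ K w, w' with hX
  have hXc : X.Countable := hGic.union (hKKc.biUnion fun w _ => (hK2 w).biUnion fun w' hw' =>
    (hE w' (hK1 w hw').1).1)
  have hAc : (Sx lab X).Countable := by
    refine (hroot.union (hXc.biUnion fun i _ => hC.ctb i)).mono ?_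
    intro x hx
    rcases hl : lab x with _ | i
    · exact Or.inl hl
    · exact Or.inr (mem_biUnion (hx i hl) hl)
  have hsubX : ∀ w ∈ KK, ∀ w' ∈ K w, w' ⊆ X := fun w hw w' hw' i hi =>
    Or.inr (mem_biUnion hw (mem_biUnion hw' hi))
  refine hNo ⟨Sx lab X, hAc, fun F hF c => ?_⟩
  by_cases hc : c ∈ Sx lab X
  · refine ⟨c, hc, fun γ _ => BFR.refl _ _ _ ?_⟩
    rintro a (rfl | ⟨b, -, rfl⟩)
    · exact ⟨mem_univ _, rfl⟩
    · exact ⟨mem_univ _, rfl⟩
  · obtain ⟨i, hi, hiX⟩ : ∃ i, lab c = some i ∧ i ∉ X := by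
      by_contra h
      push Not at h
      exact hc fun i hi => h i hi
    have hGi : Gi S lab Λ univ i := by
      by_contra h
      exact hiX (Or.inl h)
    set E : Set I := Bi S lab Λ univ i with hEdef
    have hEI : E ∈ IB S lab Λ univ := ⟨i, mem_univ _, hGi, rfl⟩
    have hiE : i ∈ E := mem_iUnion.2 ⟨0, fun w _ hw => hw⟩
    obtain ⟨w, hw, hwE⟩ := hKK E hEI
    have hEK : E ∉ K w := fun h => hiX (hsubX w hw E h hiE)
    have hnc : ¬ {w' | w' ∈ IB S lab Λ univ ∧ Eqx S lab Λ univ w w'}.Countable := fun h => by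
      apply hEK
      rw [hK3 w h]
      exact ⟨hEI, hwE⟩
    have hinf := hK4 w hnc
    -- a member without labels of elements of `F`
    obtain ⟨E', hE'K, hE'F⟩ : ∃ E' ∈ K w, ∀ x ∈ F, ∀ j, lab x = some j → j ∉ E' := by
      by_contra hcon
      push Not at hcon
      have hLF : {j | ∃ x ∈ F, lab x = some j}.Finite := by
        have h1 : {j | ∃ x ∈ F, lab x = some j} ⊆ some ⁻¹' (lab '' (F : Set M)) := by
          rintro j ⟨x, hx, hj⟩
          exact ⟨x, hx, hj⟩
        exact ((F.finite_toSet.image lab).preimage (Option.some_injective I).injOn).subset h1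
      refine hinf ((hLF.image fun j => Bi S lab Λ univ j).subset ?_)
      intro E' hE'
      obtain ⟨x, hx, j, hj, hjE⟩ := hcon E' hE'
      exact ⟨j, ⟨x, hx, hj⟩, ((hE E' (hK1 w hE').1).2.2.2.1 j hjE).2.1⟩
    have hE'I : E' ∈ IB S lab Λ univ := (hK1 w hE'K).1
    have hE'X : E' ⊆ X := hsubX w hw E' hE'K
    have hEE' := q2 w (hKKs hw) E hEI E' hE'I hwE (hK1 w hE'K).2
    have hne : E ≠ E' := fun h => hiX (hE'X (h ▸ hiE))
    obtain ⟨a, ha1, ha2⟩ := hEE'.resolve_left hne
    have hσ := CS1_eqv hL ha1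
    refine ⟨a.2 c, ?_, fun γ _ => ?_⟩
    · intro j hj
      rw [(ha1 0).lb c, hi] at hj
      have hj' : a.1 i = j := Option.some_injective _ hj
      rw [← hj']
      refine hE'X ?_
      rw [← ha2.img]
      exact mem_image_of_mem _ hiE
    · refine BFR.of_relIso (e := a.2) (fun n R v => ?_) γ ?_
      · exact hσ.comp v R
      · rintro b (rfl | ⟨x, hx, rfl⟩)
        · rfl
        · show x = a.2 x
          symm
          rcases hl : lab x with _ | j
          · exact (ha1 0).root x hl
          · refine ha2.out x j hl (fun hjE => ?_) (hE'F x hx j hl)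
            have hjX : j ∈ X := hF hx j hl
            have hj1 := (hE E hEI).2.2.2.1 j hjE
            rcases hjX with h | h
            · exact h hj1.1
            · obtain ⟨w₁, hw₁, h2⟩ := mem_iUnion₂.1 h
              obtain ⟨w', hw', hjw'⟩ := mem_iUnion₂.1 h2
              have hj2 := (hE w' (hK1 w₁ hw').1).2.2.2.1 j hjw'
              have h3 : w' = E := hj2.2.1.symm.trans hj1.2.1
              exact hiX (hsubX w₁ hw₁ w' hw' (h3 ▸ hiE))

end UNE
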