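import Pool.Agent.UNE.StC

/-!
# UNE: countably many classes of infinity blocks
-/

set_option autoImplicit false
set_option linter.unusedVariables false

namespace UNE

open Set UN Pool.Agent.Helper5.DU Pool.Agent.Helper6.Str Pool.Agent.Helper79.VC

variable {G : Sg} {M I T : Type}

theorem CS2_mem_Bi (S : Sys G M) (lab : M → Option I) (Λ : ℕ → Set G.Rl) (X : Set I) (i : I) :
    i ∈ Bi S lab Λ X i := mem_iUnion.2 ⟨0, fun _ _ h => h⟩

theorem CS2_Cj_symm (h1 : St_GRA) {S : Sys G M} {lab : M → Option I} (hC : Cp S lab)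
    {Λ : Set G.Rl} {X : Set I} {i j : I} (h : Cj S lab Λ X i j) : Cj S lab Λ X j i := by
  obtain ⟨a, ha, rfl⟩ := h
  obtain ⟨-, -, -, -, -, -, -, -, -, g, -⟩ := h1 G M I S lab hC Λ X
  exact ⟨a⁻¹, g.2.2 a ha, a.1.symm_apply_apply i⟩

theorem CS2_Cj_trans (h1 : St_GRA) {S : Sys G M} {lab : M → Option I} (hC : Cp S lab)
    {Λ : Set G.Rl} {X : Set I} {i j k : I} (h : Cj S lab Λ X i j) (h' : Cj S lab Λ X j k) :
    Cj S lab Λ X i k := by
  obtain ⟨a, ha, rfl⟩ := h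
  obtain ⟨b, hb, rfl⟩ := h'
  obtain ⟨-, -, -, -, -, -, -, -, -, g, -⟩ := h1 G M I S lab hC Λ X
  exact ⟨b * a, g.2.1 b a hb ha, rfl⟩

/-- (1) a sequence of infinity blocks which is dense -/
theorem CS2_dense (h1 : St_GRA) {S : Sys G M} {lab : M → Option I} (hC : Cp S lab)
    {Λ : ℕ → Set G.Rl}
    (hK : ∀ n, ∃ K : Set I, K.Countable ∧
      ∀ i, Gx S lab (Λ n) univ i → ∃ j ∈ K, Cj S lab (Λ n) univ i j)
    {i₀ : I} (hi₀ : Gi S lab Λ univ i₀) :
    ∃ E' : ℕ → Set I, (∀ l, E' l ∈ IB S lab Λ univ) ∧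
      ∀ n i, Gi S lab Λ univ i → ∃ l, ∃ j ∈ E' l, Cj S lab (Λ n) univ i j := by
  classical
  choose K hKc hKd using hK
  have e1 : ∀ (n : ℕ) (j : I), ∃ i, Gi S lab Λ univ i ∧
      ((∃ i, Gi S lab Λ univ i ∧ Cj S lab (Λ n) univ j i) → Cj S lab (Λ n) univ j i) := by
    intro n j
    by_cases h : ∃ i, Gi S lab Λ univ i ∧ Cj S lab (Λ n) univ j i
    · obtain ⟨i, hi, hi'⟩ := h
      exact ⟨i, hi, fun _ => hi'⟩
    · exact ⟨i₀, hi₀, fun h' => absurd h' h⟩
  choose c hc hc' using e1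
  have e2 : (⋃ n, (fun j => Bi S lab Λ univ (c n j)) '' K n ∪ {Bi S lab Λ univ i₀}).Countable :=
    countable_iUnion fun n => ((hKc n).image _).union (countable_singleton _)
  obtain ⟨E', hE'⟩ := e2.exists_eq_range ⟨Bi S lab Λ univ i₀, mem_iUnion.2 ⟨0, Or.inr rfl⟩⟩
  refine ⟨E', ?_, ?_⟩
  · intro l
    have h2 : E' l ∈ ⋃ n, (fun j => Bi S lab Λ univ (c n j)) '' K n ∪ {Bi S lab Λ univ i₀} := by
      rw [hE']
      exact ⟨l, rfl⟩
    obtain ⟨n, ⟨j, hj, hj'⟩ | h3⟩ := mem_iUnion.1 h2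
    · exact ⟨c n j, mem_univ _, hc n j, hj'.symm⟩
    · exact ⟨i₀, mem_univ _, hi₀, h3⟩
  · intro n i hi
    obtain ⟨j, hj, hij⟩ := hKd n i (hi n)
    have h2 : Bi S lab Λ univ (c n j) ∈
        ⋃ n, (fun j => Bi S lab Λ univ (c n j)) '' K n ∪ {Bi S lab Λ univ i₀} :=
      mem_iUnion.2 ⟨n, Or.inl ⟨j, hj, rfl⟩⟩
    rw [hE'] at h2
    obtain ⟨l, hl⟩ := h2
    refine ⟨l, c n j, ?_, ?_⟩
    · rw [hl]
      exact CS2_mem_Bi S lab Λ univ _
    · exact CS2_Cj_trans h1 hC hij (hc' n j ⟨i, hi, CS2_Cj_symm h1 hC hij⟩)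

theorem CS2_w {S : Sys G M} {lab : M → Option I} {Λ : ℕ → Set G.Rl} {E : T → Set I}
    {S' : Sys G (MC lab E)} (h : Cpy S lab Λ E S') (l : List G.Fn) (x : M) :
    S'.w l (.inl x) = .inl (S.w l x) := by
  induction l with
  | nil => rfl
  | cons f l ih => rw [w_cons, w_cons, ih, h.fl]

/-- elements of `M` in the substructures -/
theorem CS2_inl {S : Sys G M} {lab : M → Option I} {Λ : ℕ → Set G.Rl} {E : T → Set I}
    (P : Set T) (x : M) : (Sum.inl x : MC lab E) ∈ Sx (labC lab E) (NP S lab Λ E P) ↔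
      ∀ i, lab x = some i → ¬ Gi S lab Λ univ i := by
  constructor
  · intro h i hi
    have h2 := h (Sum.inl i) (by rw [labC_inl, hi]; rfl)
    rcases h2 with ⟨j, hj, hj'⟩ | ⟨t, ht, j, hj, hj', hj''⟩
    · rw [Sum.inl_injective hj]
      exact hj'
    · exact absurd hj'' (by simp)
  · intro h c hc
    rw [labC_inl, Option.map_eq_some_iff] at hc
    obtain ⟨i, hi, rfl⟩ := hc
    exact Or.inl ⟨i, rfl, h i hi⟩

/-- elements of the copies in the substructures -/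
theorem CS2_inr {S : Sys G M} {lab : M → Option I} {Λ : ℕ → Set G.Rl} {E : T → Set I}
    (P : Set T) (t : T) (x : M) (h : ∃ i ∈ E t, lab x = some i) :
    (Sum.inr ⟨(t, x), h⟩ : MC lab E) ∈ Sx (labC lab E) (NP S lab Λ E P) ↔ t ∈ P := by
  obtain ⟨i, hi, hx⟩ := id h
  have h0 := labC_inr lab E t x i h hx hi
  constructor
  · intro h1
    have h2 := h1 _ h0
    rcases h2 with ⟨j, hj, -⟩ | ⟨t', ht', j, hj, hj', hj''⟩
    · exact absurd hj (by simp)
    · have h3 := Subtype.mk.inj (Sum.inr_injective hj'')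
      rw [Prod.mk.injEq] at h3
      rw [h3.1]
      exact ht'
  · intro ht c hc
    rw [h0] at hc
    rw [← Option.some_injective _ hc]
    exact Or.inr ⟨t, ht, i, hi, hi, rfl⟩

/-- the sizes -/
def CS2_m (f : ℕ → Bool) (k : ℕ) : ℕ := 2 * k + 1 + (if f k then 1 else 0)

theorem CS2_m_inj {f f' : ℕ → Bool} (h : range (CS2_m f) = range (CS2_m f')) : f = f' := by
  funext k
  have h1 : CS2_m f k ∈ range (CS2_m f') := by
    rw [← h]
    exact ⟨k, rfl⟩
  obtain ⟨j, hj⟩ := h1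
  unfold CS2_m at hj
  have h2 : j = k := by
    split_ifs at hj <;> omega
  subst h2
  cases h3 : f j <;> cases h4 : f' j <;> simp [h3, h4] at hj ⊢

theorem CS2_clopen {lab : M → Option I} {S : Sys G M} {Λ : ℕ → Set G.Rl} {E' E₀ : ℕ → Set I}
    (x : MC lab (ET E' E₀)) : IsClopen {f : ℕ → Bool | x ∈ Sx (labC lab (ET E' E₀))
      (NP S lab Λ (ET E' E₀) (PT (CS2_m f)))} := by
  rcases x with x | ⟨⟨t, x⟩, h⟩
  · have e1 : {f : ℕ → Bool | (Sum.inl x : MC lab (ET E' E₀)) ∈ Sx (labC lab (ET E' E₀))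
      (NP S lab Λ (ET E' E₀) (PT (CS2_m f)))} =
        {f | ∀ i, lab x = some i → ¬ Gi S lab Λ univ i} := by
      ext f
      exact CS2_inl _ x
    rw [e1]
    by_cases h : ∀ i, lab x = some i → ¬ Gi S lab Λ univ i
    · have e2 : {f : ℕ → Bool | ∀ i, lab x = some i → ¬ Gi S lab Λ univ i} = univ :=
        eq_univ_of_forall fun _ => h
      rw [e2]
      exact isClopen_univ
    · have e2 : {f : ℕ → Bool | ∀ i, lab x = some i → ¬ Gi S lab Λ univ i} = ∅ :=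
        eq_empty_of_forall_notMem fun _ h' => h h'
      rw [e2]
      exact isClopen_empty
  · have e1 : {f : ℕ → Bool | (Sum.inr ⟨(t, x), h⟩ : MC lab (ET E' E₀)) ∈
        Sx (labC lab (ET E' E₀)) (NP S lab Λ (ET E' E₀) (PT (CS2_m f)))} =
        {f | t ∈ PT (CS2_m f)} := by
      ext f
      exact CS2_inr _ t x h
    rw [e1]
    rcases t with t | ⟨k, s⟩
    · have e2 : {f : ℕ → Bool | (Sum.inl t : (ℕ × ℕ) ⊕ (ℕ × ℕ)) ∈ PT (CS2_m f)} = univ :=
        eq_univ_of_forall fun f c hc => absurd hc (by simp)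
      rw [e2]
      exact isClopen_univ
    · have e2 : {f : ℕ → Bool | (Sum.inr (k, s) : (ℕ × ℕ) ⊕ (ℕ × ℕ)) ∈ PT (CS2_m f)} =
          (fun f : ℕ → Bool => f k) ⁻¹' {b : Bool | s < 2 * k + 1 + (if b then 1 else 0)} := by
        ext f
        constructor
        · intro hf
          exact hf (k, s) rfl
        · intro hf c hc
          rw [← Sum.inr_injective hc]
          exact hf
      rw [e2]
      exact (isClopen_discrete _).preimage (continuous_apply k)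

theorem thm_CS2 (h1 : St_GRA) (h2 : St_EBI) (h3 : St_EQX) (h4 : St_CPY) (h5 : St_CPC)
    (h6 : St_ISC) (h7 : St_ISD) (h8 : St_NMZ) (h9 : St_DEX) : St_CS2 := by
  classical
  intro G U M I Q S lab Λ q hG hU hSc hS hC hL hQ hroot hng hK
  by_cases h0 : ∃ i, Gi S lab Λ univ i
  swap
  · refine ⟨∅, countable_empty, empty_subset _, ?_⟩
    rintro w ⟨i, -, hi, -⟩
    exact absurd ⟨i, hi⟩ h0
  obtain ⟨i₀, hi₀⟩ := h0
  obtain ⟨E', hE'B, hE'd⟩ := CS2_dense h1 hC hK hi₀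
  by_contra hne
  -- the sequence `E₀`
  have e1 : ∀ KK : Set (Set I), KK.Countable → KK ⊆ IB S lab Λ univ →
      ∃ w ∈ IB S lab Λ univ, ∀ w' ∈ KK, ¬ Eqx S lab Λ univ w' w := by
    intro KK hc hs
    by_contra h
    apply hne
    refine ⟨KK, hc, hs, fun w hw => ?_⟩
    by_contra h'
    apply h
    exact ⟨w, hw, fun w' hw' hE => h' ⟨w', hw', hE⟩⟩
  obtain ⟨E₀, hE₀, hE₀r⟩ := exists_seq_of_forall_finset_exists
    (fun w : Set I => w ∈ IB S lab Λ univ ∧ ∀ l, ¬ Eqx S lab Λ univ (E' l) w)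
    (fun w w' => ¬ Eqx S lab Λ univ w w') (by
      intro s hs
      obtain ⟨w, hw, hw'⟩ := e1 (range E' ∪ ↑s) ((countable_range E').union s.countable_toSet) (by
        rintro w (⟨l, rfl⟩ | hw)
        · exact hE'B l
        · exact (hs w hw).1)
      exact ⟨w, ⟨hw, fun l => hw' _ (Or.inl ⟨l, rfl⟩)⟩, fun w' hw'' => hw' w' (Or.inr hw'')⟩)
  have hE₀n : ∀ j k, j ≠ k → ¬ Eqx S lab Λ univ (E₀ j) (E₀ k) := by
    intro j k hjk
    rcases lt_or_gt_of_ne hjk with h | h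
    · exact hE₀r j k h
    · exact fun h' => hE₀r k j h ((h3 G M I S lab Λ univ hC hL).1 _ _ h')
  have hEIB : ∀ t, ET E' E₀ t ∈ IB S lab Λ univ := by
    rintro (c | c)
    · exact hE'B c.1
    · exact (hE₀ c.1).1
  have hEc : ∀ t, (ET E' E₀ t).Countable := fun t => (h2 G M I S lab Λ univ hC hL _ (hEIB t)).1
  have hEB : ∀ n, EB S lab (Λ n) (ET E' E₀) := by
    intro n t i hi
    obtain ⟨-, -, -, g1, -⟩ := h2 G M I S lab Λ univ hC hL _ (hEIB t)
    exact ⟨(g1 i hi).1 n, (g1 i hi).2.2 n⟩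
  obtain ⟨S', hS', hUS'⟩ := h4 G U M I _ S lab Λ (ET E' E₀) hU hS hC hL hEB
  have hC' : Cp S' (labC lab (ET E' E₀)) := h5 G M I _ S lab Λ (ET E' E₀) S' hC hS'
  let q' : Q → MC lab (ET E' E₀) := fun c => .inl (q c)
  let X : (ℕ → Bool) → Set (MC lab (ET E' E₀)) := fun f =>
    Sx (labC lab (ET E' E₀)) (NP S lab Λ (ET E' E₀) (PT (CS2_m f)))
  have hqn : ∀ c, lab (q c) = none := fun c => (hroot _).2 ⟨c, Gn.refl _⟩
  -- the union is countable
  have hX1 : (⋃ f, X f).Countable := by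
    have c1 : {x | lab x = none}.Countable := by
      have h : {x | lab x = none} = cl S (range q) := by
        ext x
        rw [mem_cl_range]
        exact hroot x
      rw [h]
      exact cl_countable (countable_range q)
    have c2 : {i | ¬ Gi S lab Λ univ i}.Countable := by
      have h : {i | ¬ Gi S lab Λ univ i} = ⋃ n, {i | ¬ Gx S lab (Λ n) univ i} := by
        ext i
        rw [mem_iUnion]
        exact not_forall
      rw [h]
      exact countable_iUnion hng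
    have c3 : {x | ∃ i, lab x = some i ∧ ¬ Gi S lab Λ univ i}.Countable := by
      refine (c2.biUnion fun i _ => hC.ctb i).mono ?_
      rintro x ⟨i, hi, hi'⟩
      exact mem_biUnion hi' hi
    have c4 : {c : ((ℕ × ℕ) ⊕ (ℕ × ℕ)) × M | ∃ i ∈ ET E' E₀ c.1, lab c.2 = some i}.Countable := by
      have h : (⋃ t, ⋃ i ∈ ET E' E₀ t, (fun x => (t, x)) '' {x | lab x = some i}).Countable :=
        countable_iUnion fun t => (hEc t).biUnion fun i _ => (hC.ctb i).image _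
      refine h.mono ?_
      rintro ⟨t, x⟩ ⟨i, hi, hx⟩
      exact mem_iUnion.2 ⟨t, mem_biUnion hi ⟨x, hx, rfl⟩⟩
    have c5 : (range (Sum.inr : {c : ((ℕ × ℕ) ⊕ (ℕ × ℕ)) × M //
        ∃ i ∈ ET E' E₀ c.1, lab c.2 = some i} → MC lab (ET E' E₀))).Countable := by
      have : Countable {c : ((ℕ × ℕ) ⊕ (ℕ × ℕ)) × M //
        ∃ i ∈ ET E' E₀ c.1, lab c.2 = some i} := c4.to_subtype
      exact countable_range _
    refine (((c1.image Sum.inl).union (c3.image Sum.inl)).union c5).mono ?_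
    intro x hx
    obtain ⟨f, hf⟩ := mem_iUnion.1 hx
    rcases x with x | c
    · have h := (CS2_inl _ x).1 hf
      cases hl : lab x with
      | none => exact Or.inl (Or.inl ⟨x, hl, rfl⟩)
      | some i => exact Or.inl (Or.inr ⟨x, ⟨i, hl, h i hl⟩, rfl⟩)
    · exact Or.inr ⟨c, rfl⟩
  have hX2 : ∀ f, (X f).Infinite ∧ range q' ⊆ X f ∧ Cl S' (X f) := by
    intro f
    refine ⟨?_, ?_, fun g x hx => Sx_fn hC' _ g x hx⟩
    · obtain ⟨-, ⟨i₁, hi₁⟩, -⟩ := h2 G M I S lab Λ univ hC hL _ (hE'B 0)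
      obtain ⟨x₁, hx₁⟩ := hC.ne i₁
      refine infinite_of_injective_forall_mem (f := fun s : ℕ =>
        (Sum.inr ⟨(Sum.inl (0, s), x₁), ⟨i₁, hi₁, hx₁⟩⟩ : MC lab (ET E' E₀))) ?_ ?_
      · intro s s' hss
        have h := Subtype.mk.inj (Sum.inr_injective hss)
        rw [Prod.mk.injEq] at h
        have h' := Sum.inl_injective h.1
        rw [Prod.mk.injEq] at h'
        exact h'.2
      · intro s
        exact (CS2_inr _ _ x₁ _).2 fun c hc => absurd hc (by simp)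
    · rintro _ ⟨c, rfl⟩
      exact (CS2_inl _ (q c)).2 fun i hi => by
        rw [hqn c] at hi
        exact absurd hi (by simp)
  obtain ⟨f, f', hff, g, hg1, hg2⟩ := h9 G U _ Q S' q' X hU hSc hUS' hQ hX1 hX2
    fun x => CS2_clopen x
  have hroot' : ∀ x, labC lab (ET E' E₀) x = none ↔ ∃ c, Gn S' (q' c) x := by
    intro x
    rw [labC_none]
    constructor
    · rintro ⟨y, rfl, hy⟩
      obtain ⟨c, l, hl⟩ := (hroot y).1 hy
      exact ⟨c, l, by rw [CS2_w hS', hl]⟩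
    · rintro ⟨c, l, hl⟩
      rw [CS2_w hS'] at hl
      exact ⟨S.w l (q c), hl, (hroot _).2 ⟨c, l, rfl⟩⟩
  obtain ⟨e, h, hI⟩ := h7 G _ _ Q S' (labC lab (ET E' E₀)) q' _ _ g hC' ⟨Sum.inl i₀⟩ hroot' hg1 hg2
  have hs := h6 G _ _ _ _ S' _ _ S' _ _ e h hC' hC' hI Λ hL
  have hm : ∀ f : ℕ → Bool, Siz S' (labC lab (ET E' E₀)) Λ
      (NP S lab Λ (ET E' E₀) (PT (CS2_m f))) = range (CS2_m f) := fun f =>
    h8 G M I S lab Λ E' E₀ S' hC hL hE'B (fun k => (hE₀ k).1) hS' hE₀n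
      (fun l k => (hE₀ k).2 l) hE'd (CS2_m f) fun k => by
        unfold CS2_m
        omega
  rw [hm f, hm f'] at hs
  exact hff (CS2_m_inj hs)

end UNE
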