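import Pool.Agent.UNE.StC

/-!
# UNE: the dichotomy for universal classes (DCI)
-/

set_option autoImplicit false
set_option linter.unusedVariables false

namespace UNE

open Set Filter UN Pool.Agent.Helper5.DU Pool.Agent.Helper6.Str Pool.Agent.Helper79.VC
  Pool.Agent.Helper97.LO Pool.Agent.Helper97.VC

private lemma DCI_ctbl (G : Sg) (hF : Countable G.Fn) (hR : Countable G.Rl) (n : ℕ) :
    Countable (At G (Fin n)) := by
  let f : At G (Fin n) →
      ((List G.Fn × Fin n) × (List G.Fn × Fin n)) ⊕
        ((R : G.Rl) × (Fin (G.ar R) → List G.Fn × Fin n)) :=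
    fun a => match a with
      | .eq s t => Sum.inl (s, t)
      | .rel R t => Sum.inr ⟨R, t⟩
  have hf : Function.Injective f := by
    intro a b hab
    cases a with
    | eq s t =>
      cases b with
      | eq s' t' =>
        have h := Prod.mk.inj (Sum.inl.inj hab)
        rw [h.1, h.2]
      | rel R' t' => exact absurd hab (by simp [f])
    | rel R t =>
      cases b with
      | eq s' t' => exact absurd hab (by simp [f])
      | rel R' t' =>
        have h := Sum.inr.inj hab
        obtain ⟨h1, h2⟩ := Sigma.mk.inj h
        subst h1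
        rw [eq_of_heq h2]
  exact hf.countable

/-- the dichotomy for universal classes -/
theorem thm_DCI (h1 : UN.St_KWM) (h2 : UN.St_LEV) (h4 : St_ENI) : St_DCI := by
  intro G U hF hR hU
  haveI : ∀ n, Countable ((LW G).Relations n) := fun n => DCI_ctbl G hF hR n
  by_cases hP : PerfK (KU U)
  · exact Or.inr hP
  · refine Or.inl ?_
    by_contra hC
    obtain ⟨hK, hcl⟩ := h1 G U hF hR hU
    have hS := scat_of_not_perf hK hP
    obtain ⟨M, A, hlev, hNT⟩ := exists_model hK hS omega_lt_om1 hcl hC
    obtain ⟨S, hS1, rfl⟩ := h2 G U hU M A hlev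
    exact h4 G U hF hR hU hS M S hS1 hNT

end UNE
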