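import Pool.Agent.UNE.DEC
import Pool.Agent.UN.PGU

/-!
# UNE [DEC2]: decoding with second-order invariants, for universal classes of systems
-/

set_option autoImplicit false
set_option linter.unusedVariables false

namespace UNE

open Set UN Pool.Agent.Helper5.DU Pool.Agent.Helper6.Str Pool.Agent.Helper79.VC
  Pool.Agent.Helper97.LO Pool.Agent.Helper97.VC

/-- In a scattered universal class there is no continuous family `X f`, `f : ℕ → Bool`, of closed
infinite subsets of a countable member such that `X f`, `X f'` are isomorphic over `q` only for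
`f = f'`. (Proved, no other module; the isomorphism preserves all atoms.) -/
theorem dec2U {G : Sg} {U : ∀ M : Type, Sys G M → Prop}
    (hU : IsU U) (hK : Scat (KU U)) {M : Type} {S : Sys G M} (hS : U M S)
    (hM : Countable M) {Q : Type} [Finite Q] (q : Q → M) (X : (ℕ → Bool) → Set M)
    (hX : ∀ f, (X f).Infinite ∧ range q ⊆ X f ∧ Cl S (X f))
    (hc : ∀ x, IsClopen {f | x ∈ X f}) :
    ∃ f f', f ≠ f' ∧ ∃ g : X f ≃ X f', (∀ c (h : q c ∈ X f), (g ⟨q c, h⟩ : M) = q c) ∧
      Eqv S (fun x : X f => (x : M)) S (fun x : X f => (g x : M)) := by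
  obtain ⟨f, f', hne, g, hg1, hg2⟩ := dec2 (S := WS S) hK hc (fun f => (hX f).1)
    (finite_range q) (fun f => (hX f).2.1) (fun f e he1 he2 => by
      refine PGU_mem hU hS he1 ?_
      rw [he2]
      exact (hX f).2.2)
  refine ⟨f, f', hne, g, fun c h => hg1 ⟨q c, h⟩ ⟨c, rfl⟩, ?_⟩
  refine Eqv.of_fin fun n h _ a => ?_
  exact hg2 n (a : At G (Fin n)) h

end UNE
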