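import Pool.Agent.UNE.StC
import Pool.Agent.UNE.DEC2

/-!
# UNE [DEX]: decoding for members of any size
-/

set_option autoImplicit false
set_option linter.unusedVariables false

namespace UNE

open Set UN Pool.Agent.Helper5.DU Pool.Agent.Helper6.Str Pool.Agent.Helper79.VC

variable {G : Sg} {M ι : Type}

private def DEX_S (S : Sys G M) (Y : Set M) (hY : Cl S Y) : Sys G Y where
  fn := fun f y => ⟨S.fn f y, hY f y y.2⟩
  rel := fun R v => S.rel R fun k => (v k : M)

private theorem DEX_w (S : Sys G M) (Y : Set M) (hY : Cl S Y) (l : List G.Fn) (y : Y) :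
    (((DEX_S S Y hY).w l y : Y) : M) = S.w l y := by
  induction l with
  | nil => rfl
  | cons f l ih =>
    show S.fn f (((DEX_S S Y hY).w l y : Y) : M) = S.fn f (S.w l y)
    rw [ih]

private theorem DEX_tr (S : Sys G M) (Y : Set M) (hY : Cl S Y) (v : ι → Y) (a : At G ι) :
    Tr (DEX_S S Y hY) v a ↔ Tr S (fun i => (v i : M)) a := by
  cases a with
  | eq s t =>
    show (DEX_S S Y hY).w s.1 (v s.2) = (DEX_S S Y hY).w t.1 (v t.2) ↔
      S.w s.1 (v s.2 : M) = S.w t.1 (v t.2 : M)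
    rw [← DEX_w S Y hY, ← DEX_w S Y hY]
    exact Subtype.ext_iff
  | rel R t =>
    show (S.rel R fun k => (((DEX_S S Y hY).w (t k).1 (v (t k).2) : Y) : M)) ↔
      S.rel R fun k => S.w (t k).1 (v (t k).2 : M)
    have h : (fun k => (((DEX_S S Y hY).w (t k).1 (v (t k).2) : Y) : M))
        = fun k => S.w (t k).1 (v (t k).2 : M) := funext fun k => DEX_w S Y hY _ _
    rw [h]

private def DEX_e (Y X : Set M) (h : X ⊆ Y) : {y : Y | (y : M) ∈ X} ≃ X where
  toFun := fun y => ⟨((y : Y) : M), y.2⟩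
  invFun := fun x => ⟨⟨x, h x.2⟩, x.2⟩
  left_inv := fun _ => rfl
  right_inv := fun _ => rfl

theorem thm_DEX : St_DEX := by
  intro G U M Q S q X hU hK hS hQ hct hX hcl
  have hYc : Cl S (⋃ f, X f) := by
    intro f x hx
    obtain ⟨g, hg⟩ := mem_iUnion.1 hx
    exact mem_iUnion.2 ⟨g, (hX g).2.2 f x hg⟩
  have hsub : ∀ f, X f ⊆ ⋃ f, X f := fun f => subset_iUnion X f
  generalize hYd : (⋃ f, X f) = Y at hYc hct hsub
  have hq : ∀ c, q c ∈ Y := fun c => hsub (fun _ => false) ((hX _).2.1 ⟨c, rfl⟩)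
  have hM : Countable Y := hct.to_subtype
  have hmem : U Y (DEX_S S Y hYc) := by
    refine hU.loc Y _ ?_ ?_
    · obtain ⟨x, hx⟩ := (hX fun _ => false).1.nonempty
      exact ⟨⟨x, hsub _ hx⟩⟩
    · intro n v D _
      exact ⟨M, S, hS, fun i => (v i : M), fun a _ => DEX_tr S Y hYc v a⟩
  have hfin : Finite Q := hQ
  obtain ⟨f, f', hne, g, hg1, hg2⟩ := dec2U hU hK hmem hM (fun c => (⟨q c, hq c⟩ : Y))
    (fun f => {y : Y | (y : M) ∈ X f}) (fun f => by
      refine ⟨?_, ?_, ?_⟩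
      · intro hfn
        refine (hX f).1 ?_
        have h1 : ((fun y : Y => (y : M)) '' {y : Y | (y : M) ∈ X f}).Finite := hfn.image _
        refine h1.subset ?_
        intro x hx
        exact ⟨⟨x, hsub f hx⟩, hx, rfl⟩
      · rintro _ ⟨c, rfl⟩
        exact (hX f).2.1 ⟨c, rfl⟩
      · intro f₁ x hx
        exact (hX f).2.2 f₁ x hx) (fun x => hcl x)
  refine ⟨f, f', hne, ?_⟩
  refine ⟨((DEX_e Y (X f) (hsub f)).symm.trans g).trans (DEX_e Y (X f') (hsub f')), ?_, ?_⟩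
  · intro c h
    show (((g ⟨⟨q c, hsub f h⟩, h⟩ : _) : Y) : M) = q c
    rw [hg1 c h]
  · intro a
    have h1 := hg2 (a.map (DEX_e Y (X f) (hsub f)).symm)
    rw [DEX_tr, DEX_tr] at h1
    rw [Tr_map, Tr_map] at h1
    exact h1

end UNE
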