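import Pool.Agent.UNE.StA

/-!
# UNE: module DMV

Moving finitely many components into a dense set.
-/

set_option autoImplicit false
set_option linter.unusedVariables false

namespace UNE

open Set UN

private theorem DMV_claim {G : Sg} {M I : Type} {S : Sys G M} {lab : M → Option I}
    (hGRA : St_GRA) (hSWP : St_SWP) (hC : Cp S lab) {Λ : Set G.Rl} {X Y D : Set I}
    {BB : Set (Set I)} (c1 : ∀ B ∈ BB, B.Finite ∧ Disjoint B X)
    (c3 : ∀ j ∈ Y, j ∉ X → ∃ B ∈ BB, j ∈ B)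
    (c4 : ∀ B ∈ BB, ∀ Z : Set I, Z.Finite → ∃ w' a, w' ⊆ X ∧ Disjoint w' (Z ∪ D) ∧
      Sw S lab Λ Y B w' a) :
    ∀ (n : ℕ) (W : Set I), W.Finite → W.ncard = n → W ⊆ Y → (∀ j ∈ W, j ∉ X) →
      ∀ Z : Set I, Z.Finite → W ⊆ Z → ∃ g, Ph S lab Λ Y g ∧ (∀ j ∈ W, g.1 j ∈ X) ∧
        ∀ i ∈ Sp lab g, (∃ B ∈ BB, i ∈ B ∧ (B ∩ W).Nonempty) ∨ (i ∈ X ∧ i ∉ D ∧ i ∉ Z) := by
  obtain ⟨-, -, -, -, -, g6, g7, -, -, ⟨p1, p2, -⟩, -⟩ := hGRA G M I S lab hC Λ Y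
  obtain ⟨s1, s2, -, -⟩ := hSWP G M I S lab hC Λ Y
  intro n
  induction n using Nat.strong_induction_on with
  | _ n ih =>
    intro W hW hn hWY hWX Z hZ hWZ
    rcases W.eq_empty_or_nonempty with h0 | ⟨j, hj⟩
    · refine ⟨1, p1, fun j hj => ?_, ?_⟩
      · rw [h0] at hj
        exact absurd hj (notMem_empty j)
      · rintro i ⟨x, -, hx⟩
        exact absurd rfl hx
    · obtain ⟨B, hB, hjB⟩ := c3 j (hWY hj) (hWX j hj)
      obtain ⟨w', a, hw'X, hw'd, hsw⟩ := c4 B hB Z hZ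
      obtain ⟨hw'f, hPa⟩ := s2 B w' a (c1 B hB).1 hsw
      obtain ⟨-, -, -, a4, a5, a6, -⟩ := s1 B w' a hsw
      have hlt : (W \ B).ncard < n := by
        rw [← hn]
        refine Set.ncard_lt_ncard ⟨diff_subset, fun h => ?_⟩ hW
        exact (h hj).2 hjB
      obtain ⟨g', hg', hgX, hgS⟩ := ih _ hlt (W \ B) (hW.subset diff_subset) rfl
        (fun i hi => hWY hi.1) (fun i hi => hWX i hi.1) (Z ∪ w') (hZ.union hw'f)
        (fun i hi => Or.inl (hWZ hi.1))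
      refine ⟨g' * a, p2 g' a hg' hPa, fun j' hj' => ?_, fun i hi => ?_⟩
      · change g'.1 (a.1 j') ∈ X
        by_cases hb : j' ∈ B
        · have h1 : a.1 j' ∈ w' := a6 j' hb
          have h2 : a.1 j' ∉ Sp lab g' := by
            intro h3
            rcases hgS _ h3 with ⟨B', hB', h4, -⟩ | ⟨-, -, h4⟩
            · exact Set.disjoint_left.1 (c1 B' hB').2 h4 (hw'X h1)
            · exact h4 (Or.inr h1)
          rw [(g6 g' hg'.1).2.1 _ h2]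
          exact hw'X h1
        · rw [a5 j' hb fun h => hWX j' hj' (hw'X h)]
          exact hgX j' ⟨hj', hb⟩
      · rcases g7 g' a hi with h1 | h1
        · rcases hgS i h1 with ⟨B', hB', h2, b, hb, hbW⟩ | ⟨h2, h3, h4⟩
          · exact Or.inl ⟨B', hB', h2, b, hb, hbW.1⟩
          · exact Or.inr ⟨h2, h3, fun h => h4 (Or.inl h)⟩
        · rcases a4 h1 with h2 | h2
          · exact Or.inl ⟨B, hB, h2, j, hjB, hj⟩
          · have h3 := Set.disjoint_left.1 hw'd h2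
            exact Or.inr ⟨hw'X h2, fun h => h3 (Or.inr h), fun h => h3 (Or.inl h)⟩

theorem thm_DMV (hGRA : St_GRA) (hSWP : St_SWP) : St_DMV := by
  intro G M I S lab hC Λ X Y D Z hD hZ hZY
  obtain ⟨BB, c1, -, c3, c4⟩ := hD.cov
  obtain ⟨g, hg, hgX, hgS⟩ := DMV_claim hGRA hSWP hC (D := D) c1 c3 c4 _ {j | j ∈ Z ∧ j ∉ X}
    (hZ.subset fun j hj => hj.1) rfl (fun j hj => hZY hj.1) (fun j hj => hj.2) Z hZ
    (fun j hj => hj.1)
  have g6 := (hGRA G M I S lab hC Λ Y).2.2.2.2.2.1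
  have hfix : ∀ i ∈ Z, i ∈ X → i ∉ Sp lab g ∧ g.1 i = i := by
    intro i hi hiX
    have h1 : i ∉ Sp lab g := by
      intro h2
      rcases hgS i h2 with ⟨B', hB', h3, -⟩ | ⟨-, -, h3⟩
      · exact Set.disjoint_left.1 (c1 B' hB').2 h3 hiX
      · exact h3 hi
    exact ⟨h1, (g6 g hg.1).2.1 i h1⟩
  refine ⟨g, hg, fun i hi => ?_, ?_, hfix⟩
  · by_cases hiX : i ∈ X
    · rw [(hfix i hi hiX).2]
      exact hiX
    · exact hgX i ⟨hi, hiX⟩
  · rw [Set.disjoint_left]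
    intro i hi hiD
    rcases hgS i hi with ⟨B', hB', h3, -⟩ | ⟨-, h3, -⟩
    · exact Set.disjoint_left.1 (c1 B' hB').2 h3 (hD.sd hiD)
    · exact h3 hiD

end UNE
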