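import Pool.Agent.UNE.StA

/-!
# UNE, DNB: good sets and blocks of a dense set
-/

set_option autoImplicit false
set_option linter.unusedVariables false

namespace UNE

open Set UN

variable {G : Sg} {M I : Type}

/-- first part: automorphisms with finite support -/
private theorem DNB_ph (h1 : St_GRA) (h5 : St_DNA) (S : Sys G M) (lab : M → Option I)
    (hc : Cp S lab) (Λ : Set G.Rl) (X Y : Set I)
    (hd : ∀ D : Set I, D.Finite → D ⊆ X → Den S lab Λ X Y D) (a : Gp I M) :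
    Ph S lab Λ X a ↔ Ph S lab Λ Y a ∧ Sp lab a ⊆ X := by
  obtain ⟨-, -, -, -, g5, g6, -⟩ := h1 G M I S lab hc Λ X
  obtain ⟨-, -, -, -, g5', -⟩ := h1 G M I S lab hc Λ Y
  have hXY : X ⊆ Y := (hd ∅ finite_empty (empty_subset _)).sub
  constructor
  · rintro ⟨ha, hf⟩
    have hs : Sp lab a ⊆ X := (g6 a ha).2.2.2.2
    exact ⟨⟨h5 G M I S lab hc Λ X Y (Sp lab a) a (hd _ hf hs) ha subset_rfl, hf⟩, hs⟩
  · rintro ⟨⟨ha, hf⟩, hs⟩
    exact ⟨g5' a X hXY ha hs, hf⟩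

/-- second part: good sets -/
private theorem DNB_gs (h1 : St_GRA) (h2 : St_SWP) (h4 : St_DMV) (h5 : St_DNA) (S : Sys G M)
    (lab : M → Option I) (hc : Cp S lab) (Λ : Set G.Rl) (X Y : Set I)
    (hd : ∀ D : Set I, D.Finite → D ⊆ X → Den S lab Λ X Y D) (w : Set I) (hw : w.Finite)
    (hwX : w ⊆ X) : Gs S lab Λ X w ↔ Gs S lab Λ Y w := by
  have hph := DNB_ph h1 h5 S lab hc Λ X Y hd
  have hXY : X ⊆ Y := (hd ∅ finite_empty (empty_subset _)).sub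
  constructor
  · rintro ⟨-, hn, hp⟩
    refine ⟨hw, hn, fun Z hZ => ?_⟩
    obtain ⟨w', a, hdis, hsw⟩ := hp Z hZ
    obtain ⟨-, s2, -⟩ := h2 G M I S lab hc Λ X
    have h := (hph a).1 (s2 w w' a hw hsw).2
    exact ⟨w', a, hdis, h.1.1, hsw.2⟩
  · rintro ⟨-, hn, hp⟩
    refine ⟨hw, hn, fun Z hZ => ?_⟩
    obtain ⟨w', s, hdis, hsw⟩ := hp Z hZ
    obtain ⟨s1, s2, s3, -⟩ := h2 G M I S lab hc Λ Y
    obtain ⟨hsym, hwY, hw'Y, hsps, hfix, hmap, hinv, hinv2, hinv3⟩ := s1 w w' s hsw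
    have hw' : w'.Finite := (s2 w w' s hw hsw).1
    have hDf : (w ∪ (Z ∩ X)).Finite := hw.union (hZ.subset inter_subset_left)
    have hDX : w ∪ (Z ∩ X) ⊆ X := union_subset hwX inter_subset_right
    obtain ⟨g, hg, hgX, hgd, hgf⟩ := h4 G M I S lab hc Λ X Y (w ∪ (Z ∩ X)) (w ∪ w') (hd _ hDf hDX)
      (hw.union hw') (union_subset hwY hw'Y)
    have hgw : g.1 '' w = w := by
      ext i
      constructor
      · rintro ⟨j, hj, rfl⟩
        rw [(hgf j (Or.inl hj) (hwX hj)).2]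
        exact hj
      · intro hi
        exact ⟨i, hi, (hgf i (Or.inl hi) (hwX hi)).2⟩
    have hgw'X : g.1 '' w' ⊆ X := by
      rintro _ ⟨j, hj, rfl⟩
      exact hgX j (Or.inr hj)
    have hconj := s3 w w' s g hsw hg.1
    rw [hgw] at hconj
    obtain ⟨-, -, -, hsp, -⟩ := s1 _ _ _ hconj
    obtain ⟨-, -, -, -, g5, g6, -⟩ := h1 G M I S lab hc Λ Y
    have hAm : Am S lab Λ X (g * s * g⁻¹) :=
      g5 _ X hXY hconj.1 (hsp.trans (union_subset hwX hgw'X))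
    refine ⟨g.1 '' w', g * s * g⁻¹, ?_, hAm, hconj.2⟩
    rw [Set.disjoint_left]
    rintro _ ⟨j, hj, rfl⟩ hjZ
    by_cases hjX : j ∈ X
    · rw [(hgf j (Or.inr hj) hjX).2] at hjZ
      exact Set.disjoint_left.1 hdis hj hjZ
    · have hgj : g.1 j ∈ X := hgX j (Or.inr hj)
      have hgjD : g.1 j ∈ w ∪ (Z ∩ X) := Or.inr ⟨hjZ, hgj⟩
      have hnsp : g.1 j ∉ Sp lab g := fun h => Set.disjoint_left.1 hgd h hgjD
      have h3 := (g6 g hg.1).2.1 _ hnsp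
      have h4 : g.1 j = j := g.1.injective h3
      exact hjX (h4 ▸ hgj)

theorem thm_DNB (h1 : St_GRA) (h2 : St_SWP) (h3 : St_BLK) (h4 : St_DMV) (h5 : St_DNA) :
    St_DNB := by
  intro G M I S lab hc Λ X Y hd
  have hph := DNB_ph h1 h5 S lab hc Λ X Y hd
  have hgs := DNB_gs h1 h2 h4 h5 S lab hc Λ X Y hd
  refine ⟨hph, hgs, fun i hiX => ?_⟩
  have hXY : X ⊆ Y := (hd ∅ finite_empty (empty_subset _)).sub
  obtain ⟨BB, hBf, hBd, hBc, hBp⟩ := (hd ∅ finite_empty (empty_subset _)).cov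
  obtain ⟨bY1, bY2, bY3, -, -, -, bY7, -⟩ := h3 G M I S lab hc Λ Y
  obtain ⟨bX1, bX2, -⟩ := h3 G M I S lab hc Λ X
  -- the nonempty members of the family are good
  have hBg : ∀ B ∈ BB, B.Nonempty → Gs S lab Λ Y B := by
    intro B hB hne
    refine ⟨(hBf B hB).1, hne, fun Z hZ => ?_⟩
    obtain ⟨w', a, -, hdis, hsw⟩ := hBp B hB Z hZ
    exact ⟨w', a, hdis.mono_right subset_union_left, hsw⟩
  have hxy : Gx S lab Λ X i → Gx S lab Λ Y i := by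
    rintro ⟨w, hw, hiw⟩
    exact ⟨w, (hgs w hw.1 (bX1 w hw)).1 hw, hiw⟩
  have key : Gx S lab Λ Y i → Bl S lab Λ Y i ⊆ X := by
    intro hY j hj
    by_contra hjX
    obtain ⟨hgB, hiB⟩ := bY2 i hY
    have hjY : j ∈ Y := bY1 _ hgB hj
    obtain ⟨B, hB, hjB⟩ := hBc j hjY hjX
    have hBgood := hBg B hB ⟨j, hjB⟩
    have hsub := bY7 B hBgood j hjB
    rw [(bY3 i j hY hj).2] at hsub
    exact Set.disjoint_left.1 (hBf B hB).2 (hsub hiB) hiX
  have hyx : Gx S lab Λ Y i → Gs S lab Λ X (Bl S lab Λ Y i) := by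
    intro hY
    have hg := (bY2 i hY).1
    exact (hgs _ hg.1 (key hY)).2 hg
  refine ⟨⟨hxy, fun hY => ⟨_, hyx hY, (bY2 i hY).2⟩⟩, fun hY => ?_⟩
  have hX : Gx S lab Λ X i := ⟨_, hyx hY, (bY2 i hY).2⟩
  apply Set.Subset.antisymm
  · intro j hj
    exact hj _ (hyx hY) (bY2 i hY).2
  · intro j hj
    obtain ⟨hg, hi⟩ := bX2 i hX
    exact hj _ ((hgs _ hg.1 (bX1 _ hg)).1 hg) hi

end UNE
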