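import Pool.Agent.UNE.StC

/-!
# UNE [EBI]: infinity blocks
-/

set_option autoImplicit false
set_option linter.unusedVariables false

namespace UNE

open Set UN

theorem thm_EBI (h1 : St_BIN) : St_EBI := by
  intro G M I S lab Λ X hc hL w hw
  obtain ⟨i, hiX, hi, rfl⟩ := hw
  obtain ⟨h2, h3, h4, h5, h6, h7, h8⟩ := h1 G M I S lab hc Λ hL X i hi
  refine ⟨h3, ⟨i, h2⟩, h4, ?_, ?_⟩
  · intro j hj
    exact ⟨(h5 j hj).1, (h5 j hj).2, fun n => h7 n j hj⟩
  · rintro _ ⟨j, hjX, hj, rfl⟩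
    exact h6 j hj

end UNE
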