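import Pool.Agent.UNE.StC

/-!
# UNE: the members of a scattered universal class are not large (ENI)
-/

set_option autoImplicit false
set_option linter.unusedVariables false

namespace UNE

open Set Filter UN Pool.Agent.Helper5.DU Pool.Agent.Helper6.Str Pool.Agent.Helper79.VC
  Pool.Agent.Helper97.LO Pool.Agent.Helper97.VC

/-- **module ENI** -/
theorem thm_ENI (hP : UN.St_PGU) (hL : St_LVU) (h2 : St_CS2) (h1 : St_CS1) : St_ENI := by
  intro G U hF hR hU hK M S hS
  obtain ⟨I, Q, lab, q, Λ, hQ, hc, hl, hroot, hR1, hR2⟩ :=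
    hL G U hF hR hU hK (hP G U hF hR hU hK) M S hS
  have hkk := h2 G U M I Q S lab Λ q hF hU hK hS hc hl hQ hroot hR1 hR2
  refine h1 G M I S lab Λ hc hl ?_ ?_ hkk
  · have h3 : {x | lab x = none} ⊆ ⋃ c : Q, ⋃ l : List G.Fn, {S.w l (q c)} := by
      intro x hx
      obtain ⟨c, l, hl⟩ := (hroot x).1 hx
      exact mem_iUnion.2 ⟨c, mem_iUnion.2 ⟨l, hl⟩⟩
    exact (countable_iUnion fun c => countable_iUnion fun l => countable_singleton _).mono h3
  · have h3 : {i | ¬ Gi S lab Λ univ i} ⊆ ⋃ n, {i | ¬ Gx S lab (Λ n) univ i} := by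
      intro i hi
      have h4 : ¬ ∀ n, Gx S lab (Λ n) univ i := hi
      rw [not_forall] at h4
      exact mem_iUnion.2 h4
    exact (countable_iUnion hR1).mono h3

end UNE
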