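import Pool.Agent.UNE.StC

/-!
# UNE [EQX]: exchangeable infinity blocks
-/

set_option autoImplicit false
set_option linter.unusedVariables false

namespace UNE

open Set UN

theorem thm_EQX (h1 : St_SWP) (h2 : St_EBI) : St_EQX := by
  intro G M I S lab Λ X hc hL
  have hsym : ∀ w₁ w₂, Eqx S lab Λ X w₁ w₂ → Eqx S lab Λ X w₂ w₁ := by
    rintro w₁ w₂ (rfl | ⟨a, ha, he⟩)
    · exact Or.inl rfl
    · have h3 := (h1 G M I S lab hc (Λ 0) X).1 w₁ w₂ a ⟨ha 0, he⟩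
      exact Or.inr ⟨a, ha, h3.1.2⟩
  refine ⟨hsym, ?_⟩
  intro w₁ hw₁ w₂ hw₂ w₃ hw₃ h12 h13
  rcases h12 with rfl | ⟨s, hs, hse⟩
  · exact h13
  · rcases h13 with rfl | ⟨t, ht, hte⟩
    · exact hsym _ _ (Or.inr ⟨s, hs, hse⟩)
    · rcases (h2 G M I S lab Λ X hc hL w₂ hw₂).2.2.2.2 w₃ hw₃ with h | h
      · exact Or.inl h
      · refine Or.inr ⟨s * t * s, fun n => ?_, ?_⟩
        · exact ((h1 G M I S lab hc (Λ n) X).2.2.2 w₁ w₂ w₃ s t ⟨hs n, hse⟩ ⟨ht n, hte⟩ h).1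
        · exact ((h1 G M I S lab hc (Λ 0) X).2.2.2 w₁ w₂ w₃ s t ⟨hs 0, hse⟩ ⟨ht 0, hte⟩ h).2

end UNE
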