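import Pool.Agent.UNE.StC
import Pool.Agent.UN.FNU

/-!
# UNE, module FNI: the theorem for universal theories
-/

set_option autoImplicit false
set_option linter.unusedVariables false

namespace UNE

open Set Filter UN Pool.Agent.Helper5.DU Pool.Agent.Helper6.Str Pool.Agent.Helper79.VC
  Pool.Agent.Helper97.LO Pool.Agent.Helper97.VC

/-- **module FNI** -/
theorem thm_FNI (hU : UN.St_UTU) (hD : St_DCI) : St_FNI := by
  classical
  intro L hL hE T hT
  have cF : Countable (sgL L).Fn := by
    have hinj : Function.Injective (fun f : (sgL L).Fn =>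
        (Sum.elim (fun c => Sum.inl ⟨0, c⟩) (fun g => Sum.inl ⟨1, g⟩) f : L.Symbols)) := by
      rintro (c | g) (c' | g') h
      · simp only [Sum.elim_inl, Sum.inl.injEq, Sigma.mk.injEq, heq_eq_eq, true_and] at h
        rw [h]
      · simp at h
      · simp at h
      · simp only [Sum.elim_inr, Sum.inl.injEq, Sigma.mk.injEq, heq_eq_eq, true_and] at h
        rw [h]
    exact hinj.countable
  have cR : Countable (sgL L).Rl := by
    have hinj : Function.Injective (fun R : (sgL L).Rl => (Sum.inr R : L.Symbols)) :=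
      Sum.inr_injective
    exact hinj.countable
  rcases hD (sgL L) (UT T) cF cR (hU L hE T hT) with ⟨g, hg⟩ | ⟨f, hfK, hiso, hcl⟩
  · obtain ⟨g', hg'⟩ : ∃ g' : ℕ → L.Structure ℕ, ∀ n,
        (∃ A : L.Structure ℕ, Iso (WS (sy A)) (g n)) → Iso (WS (sy (g' n))) (g n) := by
      refine ⟨fun n => if h : ∃ A : L.Structure ℕ, Iso (WS (sy A)) (g n) then h.choose
        else ⟨fun _ _ => 0, fun _ _ => False⟩, fun n h => ?_⟩
      simp only [dif_pos h]
      exact h.choose_spec
    refine Or.inl ⟨g', ?_⟩
    intro S hS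
    obtain ⟨n, hn⟩ := hg (WS (sy S)) ⟨sy S, ⟨⟨0⟩, S, rfl, hS⟩, rfl⟩
    exact ⟨n, (FNU_equiv hE S _).1 (hn.trans (hg' n ⟨S, hn⟩).symm)⟩
  · choose S hSU hfS using hfK
    choose A hSA hAT using fun x => (hSU x).2
    have hfA : ∀ x, f x = WS (sy (A x)) := fun x => by rw [hfS x, hSA x]
    refine Or.inr ⟨A, hAT, ?_, ?_, ?_⟩
    · intro x y h
      refine hiso x y ?_
      rw [hfA x, hfA y]
      exact (FNU_equiv hE _ _).2 h
    · intro n R a
      have h1 := hcl n (At.rel (G := sgL L) ⟨n, R⟩ fun k => ([], k) : At (sgL L) (Fin n)) a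
      have h2 : {x : ℕ → Bool | (f x).RelMap
          (At.rel (G := sgL L) ⟨n, R⟩ fun k => ([], k) : At (sgL L) (Fin n)) a} =
          {x : ℕ → Bool | @FirstOrder.Language.Structure.RelMap L ℕ (A x) n R a} := by
        ext x
        change (f x).RelMap _ a ↔ _
        rw [hfA x]
        exact Iff.rfl
      rw [← h2]
      exact h1
    · intro n F a b
      match n, F with
      | 0, F =>
        have h1 := hcl 2 (At.eq (G := sgL L) ([Sum.inl F], 0) ([], 1) : At (sgL L) (Fin 2)) ![b, b]
        have ha : a = ![] := Subsingleton.elim _ _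
        have h2 : {x : ℕ → Bool | (f x).RelMap
            (At.eq (G := sgL L) ([Sum.inl F], 0) ([], 1) : At (sgL L) (Fin 2)) ![b, b]} =
            {x : ℕ → Bool | @FirstOrder.Language.Structure.funMap L ℕ (A x) 0 F a = b} := by
          ext x
          change (f x).RelMap _ ![b, b] ↔ _
          rw [hfA x, ha]
          exact Iff.rfl
        rw [← h2]
        exact h1.2
      | 1, F =>
        have h1 := hcl 2 (At.eq (G := sgL L) ([Sum.inr F], 0) ([], 1) : At (sgL L) (Fin 2))
          ![a 0, b]
        have ha : a = ![a 0] := by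
          funext i
          fin_cases i
          rfl
        have h2 : {x : ℕ → Bool | (f x).RelMap
            (At.eq (G := sgL L) ([Sum.inr F], 0) ([], 1) : At (sgL L) (Fin 2)) ![a 0, b]} =
            {x : ℕ → Bool | @FirstOrder.Language.Structure.funMap L ℕ (A x) 1 F a = b} := by
          ext x
          change (f x).RelMap _ ![a 0, b] ↔ _
          rw [hfA x]
          change ((A x).funMap F ![a 0] = b) ↔ (A x).funMap F a = b
          rw [← ha]
        rw [← h2]
        exact h1.2
      | n + 2, F => exact (hE n).elim F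

end UNE
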