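import Pool.Agent.UNE.StA

/-!
# UNE: the group of automorphisms
-/

set_option autoImplicit false
set_option linter.unusedVariables false

namespace UNE

open Set UN

variable {G : Sg} {M I : Type} {S : Sys G M} {lab : M → Option I} {Λ : Set G.Rl} {X : Set I}

theorem GRA_mul (a b : Gp I M) (x : M) : (a * b).2 x = a.2 (b.2 x) := rfl

theorem GRA_mul' (a b : Gp I M) (i : I) : (a * b).1 i = a.1 (b.1 i) := rfl

theorem GRA_inv (a : Gp I M) (x : M) : a.2 (a⁻¹.2 x) = x := a.2.apply_symm_apply x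

theorem GRA_inv' (a : Gp I M) (x : M) : a⁻¹.2 (a.2 x) = x := a.2.symm_apply_apply x

theorem GRA_invl (a : Gp I M) (i : I) : a.1 (a⁻¹.1 i) = i := a.1.apply_symm_apply i

theorem GRA_invl' (a : Gp I M) (i : I) : a⁻¹.1 (a.1 i) = i := a.1.symm_apply_apply i

theorem GRA_fixX (hC : Cp S lab) {a : Gp I M} (ha : Am S lab Λ X a) {i : I} (hi : i ∉ X) :
    a.1 i = i := by
  obtain ⟨y, hy⟩ := hC.ne i
  have h1 := ha.lb y
  rw [ha.out y i hy hi, hy, Option.map_some] at h1
  exact (Option.some.inj h1).symm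

theorem GRA_fixS (hC : Cp S lab) {a : Gp I M} (ha : Am S lab Λ X a) {i : I}
    (hi : i ∉ Sp lab a) : a.1 i = i := by
  obtain ⟨y, hy⟩ := hC.ne i
  have h1 := ha.lb y
  have h2 : a.2 y = y := by
    by_contra h3
    exact hi ⟨y, hy, h3⟩
  rw [h2, hy, Option.map_some] at h1
  exact (Option.some.inj h1).symm

theorem GRA_memX (hC : Cp S lab) {a : Gp I M} (ha : Am S lab Λ X a) (i : I) :
    a.1 i ∈ X ↔ i ∈ X := by
  constructor
  · intro h
    by_contra h2
    rw [GRA_fixX hC ha h2] at h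
    exact h2 h
  · intro h
    by_contra h2
    have h3 := GRA_fixX hC ha h2
    have h4 : a.1 i = i := a.1.injective h3
    rw [h4] at h2
    exact h2 h

theorem GRA_memSx (hC : Cp S lab) {a : Gp I M} (ha : Am S lab Λ X a) (x : M) :
    a.2 x ∈ Sx lab X ↔ x ∈ Sx lab X := by
  constructor
  · intro h i hi
    have h1 := ha.lb x
    rw [hi, Option.map_some] at h1
    exact (GRA_memX hC ha i).1 (h _ h1)
  · intro h i hi
    have h1 := ha.lb x
    rw [hi] at h1
    obtain ⟨j, hj, hj'⟩ := Option.map_eq_some_iff.1 h1.symm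
    rw [← hj']
    exact (GRA_memX hC ha j).2 (h j hj)

theorem GRA_SpX {a : Gp I M} (ha : Am S lab Λ X a) : Sp lab a ⊆ X := by
  rintro i ⟨x, hx, hx'⟩
  by_contra h
  exact hx' (ha.out x i hx h)

theorem GRA_one : Am S lab Λ X 1 where
  lb x := by
    cases h : lab x with
    | none => exact h
    | some i => exact h
  root x _ := rfl
  out x i _ _ := rfl
  fn f x := rfl
  rel R _ v _ := Iff.rfl

theorem GRA_Am_mul (hC : Cp S lab) {a b : Gp I M} (ha : Am S lab Λ X a) (hb : Am S lab Λ X b) :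
    Am S lab Λ X (a * b) where
  lb x := by
    rw [GRA_mul, ha.lb, hb.lb, Option.map_map]
    rfl
  root x hx := by rw [GRA_mul, hb.root x hx, ha.root x hx]
  out x i hx hi := by rw [GRA_mul, hb.out x i hx hi, ha.out x i hx hi]
  fn f x := by rw [GRA_mul, GRA_mul, hb.fn, ha.fn]
  rel R hR v hv := by
    have h1 := ha.rel R hR (fun k => b.2 (v k)) fun k => (GRA_memSx hC hb (v k)).2 (hv k)
    exact h1.trans (hb.rel R hR v hv)

theorem GRA_Am_inv (hC : Cp S lab) {a : Gp I M} (ha : Am S lab Λ X a) : Am S lab Λ X a⁻¹ where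
  lb x := by
    have h1 := ha.lb (a⁻¹.2 x)
    rw [GRA_inv] at h1
    rw [h1, Option.map_map]
    have h2 : (a⁻¹.1 : I → I) ∘ (a.1 : I → I) = id := funext fun i => GRA_invl' a i
    rw [h2, Option.map_id]
    rfl
  root x hx := by
    have h1 := congrArg a⁻¹.2 (ha.root x hx)
    rw [GRA_inv'] at h1
    exact h1.symm
  out x i hx hi := by
    have h1 := congrArg a⁻¹.2 (ha.out x i hx hi)
    rw [GRA_inv'] at h1
    exact h1.symm
  fn f x := by
    apply a.2.injective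
    rw [GRA_inv, ha.fn, GRA_inv]
  rel R hR v hv := by
    have h0 : ∀ k, a⁻¹.2 (v k) ∈ Sx lab X := fun k => by
      rw [← GRA_memSx hC ha, GRA_inv]
      exact hv k
    have h1 := ha.rel R hR (fun k => a⁻¹.2 (v k)) h0
    have h2 : (fun k => a.2 (a⁻¹.2 (v k))) = v := funext fun k => GRA_inv a (v k)
    rw [h2] at h1
    exact h1.symm

theorem GRA_Sp_mul (a b : Gp I M) : Sp lab (a * b) ⊆ Sp lab a ∪ Sp lab b := by
  rintro i ⟨x, hx, hx'⟩
  by_cases h : b.2 x = x
  · refine Or.inl ⟨x, hx, ?_⟩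
    rwa [GRA_mul, h] at hx'
  · exact Or.inr ⟨x, hx, h⟩

theorem GRA_Sp_inv (a : Gp I M) : Sp lab a⁻¹ = Sp lab a := by
  ext i
  constructor
  · rintro ⟨x, hx, hx'⟩
    refine ⟨x, hx, fun h => hx' ?_⟩
    have h1 := congrArg a⁻¹.2 h
    rw [GRA_inv'] at h1
    exact h1.symm
  · rintro ⟨x, hx, hx'⟩
    refine ⟨x, hx, fun h => hx' ?_⟩
    have h1 := congrArg a.2 h
    rw [GRA_inv] at h1
    exact h1.symm

theorem GRA_Sp_map {a : Gp I M} (ha : Am S lab Λ X a) {i : I} (hi : i ∈ Sp lab a) :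
    a.1 i ∈ Sp lab a := by
  obtain ⟨x, hx, hx'⟩ := hi
  refine ⟨a.2 x, ?_, fun h => hx' (a.2.injective h)⟩
  rw [ha.lb, hx, Option.map_some]

theorem GRA_comm_el (hC : Cp S lab) {Λ' : Set G.Rl} {X' : Set I} {a b : Gp I M}
    (ha : Am S lab Λ X a) (hb : Am S lab Λ' X' b) (hd : Disjoint (Sp lab a) (Sp lab b)) {x : M}
    {i : I} (hx : lab x = some i) (hi : i ∈ Sp lab b) : a.2 (b.2 x) = b.2 (a.2 x) := by
  have h1 : a.2 x = x := by
    by_contra h
    exact disjoint_left.1 hd ⟨x, hx, h⟩ hi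
  have h2 : a.2 (b.2 x) = b.2 x := by
    by_contra h
    have h3 : lab (b.2 x) = some (b.1 i) := by rw [hb.lb, hx, Option.map_some]
    exact disjoint_left.1 hd ⟨b.2 x, h3, h⟩ (GRA_Sp_map hb hi)
  rw [h2, h1]

theorem GRA_comm_co (hC : Cp S lab) {Λ' : Set G.Rl} {X' : Set I} {a b : Gp I M}
    (ha : Am S lab Λ X a) (hb : Am S lab Λ' X' b) (hd : Disjoint (Sp lab a) (Sp lab b))
    {i : I} (hi : i ∈ Sp lab b) : a.1 (b.1 i) = b.1 (a.1 i) := by
  have h1 : a.1 i = i := GRA_fixS hC ha fun h => disjoint_left.1 hd h hi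
  have h2 : a.1 (b.1 i) = b.1 i :=
    GRA_fixS hC ha fun h => disjoint_left.1 hd h (GRA_Sp_map hb hi)
  rw [h2, h1]

theorem thm_GRA : St_GRA := by
  intro G M I S lab hC Λ X
  refine ⟨GRA_one, fun a b ha hb => GRA_Am_mul hC ha hb, fun a ha => GRA_Am_inv hC ha, ?_, ?_, ?_,
    GRA_Sp_mul, GRA_Sp_inv, ?_, ?_, ?_⟩
  · intro a Λ' hL ha
    exact ⟨ha.lb, ha.root, ha.out, ha.fn, fun R hR => ha.rel R (hL hR)⟩
  · intro a Y hY ha hS
    refine ⟨ha.lb, ha.root, ?_, ha.fn, ?_⟩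
    · intro x i hx hi
      by_contra h
      exact hi (hS ⟨x, hx, h⟩)
    · intro R hR v hv
      exact ha.rel R hR v fun k i hi => hY (hv k i hi)
  · intro a ha
    exact ⟨fun i hi => GRA_fixX hC ha hi, fun i hi => GRA_fixS hC ha hi, GRA_memX hC ha,
      GRA_memSx hC ha, GRA_SpX ha⟩
  · rintro a b ha hb i ⟨x, hx, hx'⟩
    have h1 : lab x = (lab (b⁻¹.2 x)).map b.1 := by
      rw [← hb.lb, GRA_inv]
    rw [hx] at h1
    obtain ⟨j, hj, hj'⟩ := Option.map_eq_some_iff.1 h1.symm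
    refine ⟨j, ⟨b⁻¹.2 x, hj, fun h => hx' ?_⟩, hj'⟩
    rw [GRA_mul, GRA_mul, h, GRA_inv]
  · refine ⟨⟨GRA_one, ?_⟩, ?_, ?_⟩
    · have h1 : Sp lab (1 : Gp I M) = ∅ := by
        refine eq_empty_of_forall_notMem ?_
        rintro i ⟨x, hx, hx'⟩
        exact hx' rfl
      rw [h1]
      exact finite_empty
    · rintro a b ⟨ha, ha'⟩ ⟨hb, hb'⟩
      exact ⟨GRA_Am_mul hC ha hb, (ha'.union hb').subset (GRA_Sp_mul a b)⟩
    · rintro a ⟨ha, ha'⟩
      refine ⟨GRA_Am_inv hC ha, ?_⟩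
      rw [GRA_Sp_inv]
      exact ha'
  · intro Λ' X' a b ha hb hd
    refine Prod.ext (Equiv.ext fun i => ?_) (Equiv.ext fun x => ?_)
    · rw [GRA_mul', GRA_mul']
      by_cases h1 : i ∈ Sp lab b
      · exact GRA_comm_co hC ha hb hd h1
      · by_cases h2 : i ∈ Sp lab a
        · exact (GRA_comm_co hC hb ha hd.symm h2).symm
        · rw [GRA_fixS hC hb h1, GRA_fixS hC ha h2, GRA_fixS hC hb h1]
    · rw [GRA_mul, GRA_mul]
      cases hx : lab x with
      | none =>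
        have h1 : lab (a.2 x) = none := by rw [ha.lb, hx]; rfl
        have h2 : lab (b.2 x) = none := by rw [hb.lb, hx]; rfl
        rw [hb.root x hx, ha.root x hx, hb.root x hx]
      | some i =>
        by_cases h1 : i ∈ Sp lab b
        · exact GRA_comm_el hC ha hb hd hx h1
        · by_cases h2 : i ∈ Sp lab a
          · exact (GRA_comm_el hC hb ha hd.symm hx h2).symm
          · have h3 : a.2 x = x := by
              by_contra h
              exact h2 ⟨x, hx, h⟩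
            have h4 : b.2 x = x := by
              by_contra h
              exact h1 ⟨x, hx, h⟩
            rw [h4, h3, h4]

end UNE
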