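import Pool.Agent.UNE.StA

/-!
# UNE: intersection and difference of good sets
-/

set_option autoImplicit false
set_option linter.unusedVariables false

namespace UNE

open Set UN

variable {G : Sg} {M I : Type} {S : Sys G M} {lab : M → Option I}

private theorem INT_fix {Λ : Set G.Rl} {X w w' : Set I} {a : Gp I M}
    (h : Sw S lab Λ X w w' a) (x : M) (hx : ∀ i, lab x = some i → i ∉ w ∧ i ∉ w') :
    a.2 x = x := by
  cases hl : lab x with
  | none => exact h.1.root x hl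
  | some i => exact h.2.out x i hl (hx i hl).1 (hx i hl).2

private theorem INT_lab {Λ : Set G.Rl} {X w w' : Set I} {a : Gp I M}
    (h : Sw S lab Λ X w w' a) {x : M} {i : I} (hx : lab x = some i) :
    lab (a.2 x) = some (a.1 i) := by
  rw [h.1.lb, hx]
  rfl

/-- the product of the two exchanges is a cycle of length three -/
private theorem INT_cyc (h2 : St_SWP) (hS : Cp S lab) {Λ : Set G.Rl} {X B B' B₁ C : Set I}
    {s t : Gp I M} (hs : Sw S lab Λ X B B₁ s) (ht : Sw S lab Λ X B' C t)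
    (hB₁ : Disjoint B₁ B') (hC : Disjoint C (B ∪ B₁)) :
    (∀ y i, lab y = some i → i ∈ B → i ∈ B' → (s * t * s * t).2 y = s.2 y ∧
      (s * t * s * t).2 (s.2 y) = t.2 y ∧ (s * t * s * t).2 (t.2 y) = y) ∧
    ∀ x, (∀ i, lab x = some i → ¬ (i ∈ B ∧ i ∈ B') ∧ i ∉ s.1 '' (B ∩ B') ∧ i ∉ C) →
      (s * t * s * t).2 x = x := by
  obtain ⟨hsw, -, -, -⟩ := h2 G M I S lab hS Λ X
  obtain ⟨-, -, -, -, -, s5, s6, s7, -⟩ := hsw B B₁ s hs
  obtain ⟨-, -, -, -, -, t5, t6, t7, -⟩ := hsw B' C t ht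
  have hc : ∀ x, (s * t * s * t).2 x = s.2 (t.2 (s.2 (t.2 x))) := fun x => rfl
  have hBB₁ : ∀ i, i ∈ B → i ∉ B₁ := fun i h h' => disjoint_left.1 hs.2.dis h h'
  have hB'C : ∀ i, i ∈ B' → i ∉ C := fun i h h' => disjoint_left.1 ht.2.dis h h'
  have hB₁B' : ∀ i, i ∈ B₁ → i ∉ B' := fun i h h' => disjoint_left.1 hB₁ h h'
  have hCB : ∀ i, i ∈ C → i ∉ B := fun i h h' => disjoint_left.1 hC h (Or.inl h')
  have hCB₁ : ∀ i, i ∈ C → i ∉ B₁ := fun i h h' => disjoint_left.1 hC h (Or.inr h')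
  refine ⟨?_, ?_⟩
  · intro y i hy hi hi'
    have e1 : s.2 (t.2 y) = t.2 y := by
      refine INT_fix hs _ fun j hj => ?_
      rw [INT_lab ht hy] at hj
      obtain rfl := Option.some.inj hj
      exact ⟨hCB _ (t5 i hi'), hCB₁ _ (t5 i hi')⟩
    have e2 : t.2 (s.2 y) = s.2 y := by
      refine INT_fix ht _ fun j hj => ?_
      rw [INT_lab hs hy] at hj
      obtain rfl := Option.some.inj hj
      exact ⟨hB₁B' _ (s5 i hi), fun h => hCB₁ _ h (s5 i hi)⟩
    refine ⟨?_, ?_, ?_⟩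
    · rw [hc, e1, t7]
    · rw [hc, e2, s7, e1]
    · rw [hc, t7, e2, s7]
  · intro x hx
    rw [hc]
    cases hl : lab x with
    | none =>
      rw [ht.1.root x hl, hs.1.root x hl, ht.1.root x hl, hs.1.root x hl]
    | some i =>
      obtain ⟨h3, h4, h5⟩ := hx i hl
      by_cases hB : i ∈ B
      · have hB' : i ∉ B' := fun h => h3 ⟨hB, h⟩
        have e1 : t.2 x = x := ht.2.out x i hl hB' h5
        have e2 : t.2 (s.2 x) = s.2 x := by
          refine INT_fix ht _ fun j hj => ?_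
          rw [INT_lab hs hl] at hj
          obtain rfl := Option.some.inj hj
          exact ⟨hB₁B' _ (s5 i hB), fun h => hCB₁ _ h (s5 i hB)⟩
        rw [e1, e2, s7]
      · by_cases hi1 : i ∈ B₁
        · have e1 : t.2 x = x := ht.2.out x i hl (hB₁B' i hi1) h5
          have hsi : s.1 i ∈ B := by
            rw [← hs.2.img] at hi1
            obtain ⟨j, hj, rfl⟩ := hi1
            rw [s6]
            exact hj
          have e2 : t.2 (s.2 x) = s.2 x := by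
            refine INT_fix ht _ fun j hj => ?_
            rw [INT_lab hs hl] at hj
            obtain rfl := Option.some.inj hj
            exact ⟨fun h => h4 ⟨s.1 i, ⟨hsi, h⟩, s6 i⟩, fun h => hCB _ h hsi⟩
          rw [e1, e2, s7]
        · have e0 : s.2 x = x := hs.2.out x i hl hB hi1
          by_cases hB' : i ∈ B'
          · have e1 : s.2 (t.2 x) = t.2 x := by
              refine INT_fix hs _ fun j hj => ?_
              rw [INT_lab ht hl] at hj
              obtain rfl := Option.some.inj hj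
              exact ⟨hCB _ (t5 i hB'), hCB₁ _ (t5 i hB')⟩
            rw [e1, t7, e0]
          · have e1 : t.2 x = x := ht.2.out x i hl hB' h5
            rw [e1, e0, e1, e0]

/-- the restriction of an exchange of `B` to the intersection with another good set -/
private theorem INT_res (h1 : St_GRA) (h2 : St_SWP) (h3 : St_RES) (hS : Cp S lab)
    {Λ : Set G.Rl} {X B B' B₁ : Set I} (hBf : B.Finite) (hB' : Gs S lab Λ X B') {s : Gp I M}
    (hs : Sw S lab Λ X B B₁ s) (hB₁ : Disjoint B₁ B') :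
    ∃ e : Gp I M, Am S lab Λ X e ∧ e * e = 1 ∧
      (∀ i, s.1 i ∈ B ∩ B' ∪ s.1 '' (B ∩ B') ↔ i ∈ B ∩ B' ∪ s.1 '' (B ∩ B')) ∧
      (∀ x i, lab x = some i → i ∈ B ∩ B' ∪ s.1 '' (B ∩ B') → e.2 x = s.2 x) ∧
      (∀ x i, lab x = some i → i ∉ B ∩ B' ∪ s.1 '' (B ∩ B') → e.2 x = x) ∧
      (∀ i ∈ B ∩ B' ∪ s.1 '' (B ∩ B'), e.1 i = s.1 i) ∧
      ∀ i ∉ B ∩ B' ∪ s.1 '' (B ∩ B'), e.1 i = i := by
  obtain ⟨g1, g2, g3, g4, -⟩ := h1 G M I S lab hS Λ X
  obtain ⟨hsw, hsf, -, -⟩ := h2 G M I S lab hS Λ X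
  obtain ⟨-, -, -, -, -, s5, s6, s7, s8⟩ := hsw B B₁ s hs
  obtain ⟨r1, r2⟩ := h3 G M I S lab hS X
  have hBB₁ : ∀ i, i ∈ B → i ∉ B₁ := fun i h h' => disjoint_left.1 hs.2.dis h h'
  have hQ : ∀ i, s.1 i ∈ B ∩ B' ∪ s.1 '' (B ∩ B') ↔ i ∈ B ∩ B' ∪ s.1 '' (B ∩ B') := by
    intro i
    constructor
    · rintro (h | ⟨j, hj, hji⟩)
      · exact Or.inr ⟨s.1 i, h, s6 i⟩
      · rw [← s.1.injective hji]
        exact Or.inl hj
    · rintro (h | ⟨j, hj, rfl⟩)
      · exact Or.inr ⟨i, h, rfl⟩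
      · rw [s6]
        exact Or.inl hj
  obtain ⟨e, e1, e2, e3, e4, e5, e6⟩ := r1 s (B ∩ B' ∪ s.1 '' (B ∩ B'))
    (g4 s ∅ (empty_subset _) hs.1) hs.2.inv hQ
  refine ⟨e, ?_, e2, hQ, e3, e4, e5, e6⟩
  refine r2 Λ e e1 fun R hR v hv => ?_
  have hVf : {i | ∃ k, lab (v k) = some i}.Finite := by
    have h5 : {i | ∃ k, lab (v k) = some i} ⊆
        ⋃ k, {i | lab (v k) = some i} := fun i ⟨k, hk⟩ => mem_iUnion.2 ⟨k, hk⟩
    refine (finite_iUnion fun k => ?_).subset h5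
    refine Set.Subsingleton.finite fun i hi j hj => ?_
    exact Option.some.inj ((hi : lab (v k) = some i).symm.trans hj)
  obtain ⟨hB₁f, -⟩ := hsf B B₁ s hBf hs
  obtain ⟨C, t, hCd, ht⟩ := hB'.2.2 (B ∪ B₁ ∪ {i | ∃ k, lab (v k) = some i})
    ((hBf.union hB₁f).union hVf)
  obtain ⟨hCf, -⟩ := hsf B' C t hB'.1 ht
  obtain ⟨C', t', hCd', ht'⟩ := hB'.2.2 (B ∪ B₁ ∪ {i | ∃ k, lab (v k) = some i} ∪ C)
    (((hBf.union hB₁f).union hVf).union hCf)
  obtain ⟨c1, c2⟩ := INT_cyc h2 hS hs ht hB₁ (hCd.mono_right subset_union_left)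
  obtain ⟨d1, d2⟩ := INT_cyc h2 hS hs ht' hB₁
    (hCd'.mono_right (subset_union_left.trans subset_union_left))
  have hcA : Am S lab Λ X (s * t * s * t) := g2 _ _ (g2 _ _ (g2 _ _ hs.1 ht.1) hs.1) ht.1
  have hcA' : Am S lab Λ X (s * t' * s * t') := g2 _ _ (g2 _ _ (g2 _ _ hs.1 ht'.1) hs.1) ht'.1
  obtain ⟨-, -, -, -, -, t5, -, -, -⟩ := hsw B' C t ht
  refine ⟨(s * t * s * t) * (s * t' * s * t')⁻¹ * (s * t * s * t),
    g2 _ _ (g2 _ _ hcA (g3 _ hcA')) hcA, fun k => ?_⟩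
  have hb : ∀ x, ((s * t * s * t) * (s * t' * s * t')⁻¹ * (s * t * s * t)).2 x =
      (s * t * s * t).2 ((s * t' * s * t').2⁻¹ ((s * t * s * t).2 x)) := fun x => rfl
  have hinv : ∀ x y, (s * t' * s * t').2 x = y → (s * t' * s * t').2⁻¹ y = x := by
    intro x y h
    rw [← h]
    exact Equiv.symm_apply_apply _ _
  rw [hb]
  cases hl : lab (v k) with
  | none =>
    have h5 : ∀ i, lab (v k) = some i → ¬ (i ∈ B ∧ i ∈ B') ∧ i ∉ s.1 '' (B ∩ B') ∧ i ∉ C := by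
      intro i hi
      rw [hl] at hi
      cases hi
    have h6 : ∀ i, lab (v k) = some i → ¬ (i ∈ B ∧ i ∈ B') ∧ i ∉ s.1 '' (B ∩ B') ∧ i ∉ C' := by
      intro i hi
      rw [hl] at hi
      cases hi
    rw [c2 _ h5, hinv _ _ (d2 _ h6), c2 _ h5]
    exact (e1.root _ hl).symm
  | some i =>
    have hiV : i ∈ {i | ∃ k, lab (v k) = some i} := ⟨k, hl⟩
    have hiC : i ∉ C := fun h => disjoint_left.1 hCd h (Or.inr hiV)
    have hiC' : i ∉ C' := fun h => disjoint_left.1 hCd' h (Or.inl (Or.inr hiV))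
    by_cases hP : i ∈ B ∩ B'
    · rw [e3 _ i hl (Or.inl hP)]
      obtain ⟨p1, p2, p3⟩ := c1 _ i hl hP.1 hP.2
      obtain ⟨q1, q2, q3⟩ := d1 _ i hl hP.1 hP.2
      rw [p1, hinv _ _ q1, p1]
    · by_cases hP₁ : i ∈ s.1 '' (B ∩ B')
      · rw [e3 _ i hl (Or.inr hP₁)]
        -- `y = s x`
        have hly : lab (s.2 (v k)) = some (s.1 i) := INT_lab hs hl
        have hsi : s.1 i ∈ B ∩ B' := by
          obtain ⟨j, hj, rfl⟩ := hP₁
          rw [s6]
          exact hj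
        obtain ⟨p1, p2, p3⟩ := c1 _ _ hly hsi.1 hsi.2
        rw [s7] at p2
        have h7 : (s * t' * s * t').2 (t.2 (s.2 (v k))) = t.2 (s.2 (v k)) := by
          refine d2 _ fun j hj => ?_
          rw [INT_lab ht hly] at hj
          obtain rfl := Option.some.inj hj
          have h8 : t.1 (s.1 i) ∈ C := t5 _ hsi.2
          refine ⟨fun h => disjoint_left.1 hCd h8 (Or.inl (Or.inl h.1)), ?_,
            fun h => disjoint_left.1 hCd' h (Or.inr h8)⟩
          rintro ⟨j', hj', hjj⟩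
          refine disjoint_left.1 hCd h8 (Or.inl (Or.inr ?_))
          rw [← hjj]
          exact s5 j' hj'.1
        rw [p2, hinv _ _ h7, p3]
      · have hQi : i ∉ B ∩ B' ∪ s.1 '' (B ∩ B') := fun h => h.elim hP hP₁
        rw [e4 _ i hl hQi]
        have h5 : ∀ j, lab (v k) = some j →
            ¬ (j ∈ B ∧ j ∈ B') ∧ j ∉ s.1 '' (B ∩ B') ∧ j ∉ C := by
          intro j hj
          rw [hl] at hj
          obtain rfl := Option.some.inj hj
          exact ⟨hP, hP₁, hiC⟩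
        have h6 : ∀ j, lab (v k) = some j →
            ¬ (j ∈ B ∧ j ∈ B') ∧ j ∉ s.1 '' (B ∩ B') ∧ j ∉ C' := by
          intro j hj
          rw [hl] at hj
          obtain rfl := Option.some.inj hj
          exact ⟨hP, hP₁, hiC'⟩
        rw [c2 _ h5, hinv _ _ (d2 _ h6), c2 _ h5]

theorem thm_INT (h1 : St_GRA) (h2 : St_SWP) (h3 : St_RES) : St_INT := by
  intro G M I S lab hS Λ X B B' hB hB'
  obtain ⟨g1, g2, g3, g4, -⟩ := h1 G M I S lab hS Λ X
  obtain ⟨hsw, hsf, -, -⟩ := h2 G M I S lab hS Λ X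
  refine ⟨fun hne => ⟨hB.1.subset inter_subset_left, hne, fun Z hZ => ?_⟩,
    fun hne => ⟨hB.1.subset sdiff_subset, hne, fun Z hZ => ?_⟩⟩
  · obtain ⟨B₁, s, hd, hs⟩ := hB.2.2 (Z ∪ B') (hZ.union hB'.1)
    obtain ⟨-, -, -, -, -, s5, s6, s7, s8⟩ := hsw B B₁ s hs
    obtain ⟨e, e1, e2, -, e3, e4, e5, e6⟩ := INT_res h1 h2 h3 hS hB.1 hB' hs
      (hd.mono_right subset_union_right)
    have hsub : s.1 '' (B ∩ B') ⊆ B₁ := by
      rintro _ ⟨j, hj, rfl⟩
      exact s5 j hj.1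
    refine ⟨s.1 '' (B ∩ B'), e, (hd.mono_right subset_union_left).mono_left hsub, e1,
      hs.2.dis.mono inter_subset_left hsub, e2, ?_, ?_⟩
    · ext i
      constructor
      · rintro ⟨j, hj, rfl⟩
        exact ⟨j, hj, (e5 j (Or.inl hj)).symm⟩
      · rintro ⟨j, hj, rfl⟩
        exact ⟨j, hj, e5 j (Or.inl hj)⟩
    · intro x i hx hi hi'
      exact e4 x i hx fun h => h.elim hi hi'
  · obtain ⟨B₁, s, hd, hs⟩ := hB.2.2 (Z ∪ B') (hZ.union hB'.1)
    obtain ⟨-, -, -, -, -, s5, s6, s7, s8⟩ := hsw B B₁ s hs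
    obtain ⟨e, e1, e2, hQ, e3, e4, e5, e6⟩ := INT_res h1 h2 h3 hS hB.1 hB' hs
      (hd.mono_right subset_union_right)
    have hsub : s.1 '' (B \ B') ⊆ B₁ := by
      rintro _ ⟨j, hj, rfl⟩
      exact s5 j hj.1
    have hBB₁ : ∀ i, i ∈ B → i ∉ B₁ := fun i h h' => disjoint_left.1 hs.2.dis h h'
    refine ⟨s.1 '' (B \ B'), s * e, (hd.mono_right subset_union_left).mono_left hsub,
      g2 _ _ hs.1 e1, hs.2.dis.mono sdiff_subset hsub, ?_, ?_, ?_⟩
    · refine Prod.ext (Equiv.ext fun i => ?_) (Equiv.ext fun x => ?_)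
      · change s.1 (e.1 (s.1 (e.1 i))) = i
        by_cases hi : i ∈ B ∩ B' ∪ s.1 '' (B ∩ B')
        · rw [e5 i hi, s6, e5 i hi, s6]
        · rw [e6 i hi, e6 _ (fun h => hi ((hQ i).1 h)), s6]
      · change s.2 (e.2 (s.2 (e.2 x))) = x
        cases hl : lab x with
        | none =>
          rw [e1.root x hl, hs.1.root x hl, e1.root x hl, hs.1.root x hl]
        | some i =>
          by_cases hi : i ∈ B ∩ B' ∪ s.1 '' (B ∩ B')
          · rw [e3 x i hl hi, s7, e3 x i hl hi, s7]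
          · rw [e4 x i hl hi, e4 _ (s.1 i) (INT_lab hs hl) (fun h => hi ((hQ i).1 h)), s7]
    · have h5 : ∀ j ∈ B \ B', e.1 j = j := by
        intro j hj
        refine e6 j ?_
        rintro (h | ⟨j', hj', h⟩)
        · exact hj.2 h.2
        · apply hBB₁ j hj.1
          rw [← h]
          exact s5 j' hj'.1
      ext i
      constructor
      · rintro ⟨j, hj, rfl⟩
        exact ⟨j, hj, congrArg s.1 (h5 j hj).symm⟩
      · rintro ⟨j, hj, rfl⟩
        exact ⟨j, hj, congrArg s.1 (h5 j hj)⟩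
    · intro x i hl hi hi'
      change s.2 (e.2 x) = x
      by_cases hQi : i ∈ B ∩ B' ∪ s.1 '' (B ∩ B')
      · rw [e3 x i hl hQi, s7]
      · rw [e4 x i hl hQi]
        refine hs.2.out x i hl ?_ ?_
        · intro h
          apply hi
          exact ⟨h, fun h' => hQi (Or.inl ⟨h, h'⟩)⟩
        · intro h
          rw [← hs.2.img] at h
          obtain ⟨j, hj, rfl⟩ := h
          by_cases hj' : j ∈ B'
          · exact hQi (Or.inr ⟨j, ⟨hj, hj'⟩, rfl⟩)
          · exact hi' ⟨j, ⟨hj, hj'⟩, rfl⟩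

end UNE
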