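import Pool.Agent.UNE.StC

/-!
# UNE [ISA]: isomorphisms transfer automorphisms
-/

set_option autoImplicit false
set_option linter.unusedVariables false

namespace UNE

open Set UN

private lemma ISA_perm {A B : Type} (e : PartialEquiv A B) (a : Equiv.Perm A)
    (ha : ∀ i, a i ∈ e.source ↔ i ∈ e.source) :
    ∃ b : Equiv.Perm B, (∀ i ∈ e.source, b (e i) = e (a i)) ∧ ∀ j, j ∉ e.target → b j = j := by
  classical
  have ha' : ∀ i, a.symm i ∈ e.source ↔ i ∈ e.source := by
    intro i
    rw [← ha, Equiv.apply_symm_apply]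
  have key : ∀ a : Equiv.Perm A, (∀ i, a i ∈ e.source ↔ i ∈ e.source) → ∀ j,
      (if (if j ∈ e.target then e (a (e.symm j)) else j) ∈ e.target then
        e (a.symm (e.symm (if j ∈ e.target then e (a (e.symm j)) else j))) else
        (if j ∈ e.target then e (a (e.symm j)) else j)) = j := by
    intro a ha j
    by_cases hj : j ∈ e.target
    · have h1 : e.symm j ∈ e.source := e.map_target hj
      have h2 : a (e.symm j) ∈ e.source := (ha _).2 h1
      rw [if_pos hj, if_pos (e.map_source h2), e.left_inv h2, Equiv.symm_apply_apply,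
        e.right_inv hj]
    · rw [if_neg hj, if_neg hj]
  refine ⟨⟨fun j => if j ∈ e.target then e (a (e.symm j)) else j,
    fun j => if j ∈ e.target then e (a.symm (e.symm j)) else j, key a ha, ?_⟩, ?_, ?_⟩
  · intro j
    have h := key a.symm ha' j
    rw [Equiv.symm_symm] at h
    exact h
  · intro i hi
    show (if e i ∈ e.target then e (a (e.symm (e i))) else e i) = _
    rw [if_pos (e.map_source hi), e.left_inv hi]
  · intro j hj
    show (if j ∈ e.target then e (a (e.symm j)) else j) = _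
    rw [if_neg hj]

theorem thm_ISA (hG : St_GRA) : St_ISA := by
  intro G M N I J S lab X S₂ lab₂ Y e g hC hC₂ h a ha
  obtain ⟨-, -, -, -, -, gprop, -⟩ := hG G M I S lab hC ∅ X
  obtain ⟨-, -, ga, gs, -⟩ := gprop a ha
  obtain ⟨b₁, hb₁, hb₁'⟩ := ISA_perm e a.1 (by rw [h.es]; exact ga)
  obtain ⟨b₂, hb₂, hb₂'⟩ := ISA_perm g a.2 (by rw [h.gs]; exact gs)
  rw [h.es] at hb₁
  rw [h.et] at hb₁'
  rw [h.gs] at hb₂
  rw [h.gt] at hb₂'
  have hsur : ∀ y ∈ Sx lab₂ Y, ∃ x ∈ Sx lab X, g x = y := by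
    intro y hy
    refine ⟨g.symm y, ?_, g.right_inv (by rw [h.gt]; exact hy)⟩
    rw [← h.gs]
    exact g.map_target (by rw [h.gt]; exact hy)
  have hmem : ∀ x ∈ Sx lab X, a.2 x ∈ Sx lab X := fun x hx => (gs x).2 hx
  have hlb : ∀ y, lab₂ (b₂ y) = (lab₂ y).map b₁ := by
    intro y
    by_cases hy : y ∈ Sx lab₂ Y
    · obtain ⟨x, hx, rfl⟩ := hsur y hy
      rw [hb₂ x hx, h.lb _ (hmem x hx), h.lb x hx, ha.lb]
      rcases hl : lab x with _ | i
      · rfl
      · show some (e (a.1 i)) = some (b₁ (e i))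
        rw [hb₁ i (hx i hl)]
    · rw [hb₂' y hy]
      rcases hl : lab₂ y with _ | j
      · rfl
      · show some j = some (b₁ j)
        rw [hb₁' j]
        intro hj
        apply hy
        intro j' hj'
        rw [hl] at hj'
        rw [← Option.some_injective _ hj']
        exact hj
  have hroot : ∀ y, lab₂ y = none → b₂ y = y := by
    intro y hy
    have hy' : y ∈ Sx lab₂ Y := by
      intro j hj
      rw [hy] at hj
      exact absurd hj (by simp)
    obtain ⟨x, hx, rfl⟩ := hsur y hy'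
    rw [hb₂ x hx]
    rw [h.lb x hx, Option.map_eq_none_iff] at hy
    rw [ha.root x hy]
  have hout : ∀ y j, lab₂ y = some j → j ∉ Y → b₂ y = y := by
    intro y j hy hj
    apply hb₂'
    intro hh
    exact hj (hh j hy)
  have hfn : ∀ f y, b₂ (S₂.fn f y) = S₂.fn f (b₂ y) := by
    intro f y
    by_cases hy : y ∈ Sx lab₂ Y
    · obtain ⟨x, hx, rfl⟩ := hsur y hy
      rw [← h.fn f x hx, hb₂ _ (Sx_fn hC X f x hx), hb₂ x hx, ha.fn, h.fn f _ (hmem x hx)]
    · rw [hb₂' y hy]
      rcases hC₂.fn f y with h1 | h1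
      · exact hroot _ h1
      · apply hb₂'
        intro hh
        apply hy
        intro j hj
        exact hh j (by rw [h1]; exact hj)
  refine ⟨(b₁, b₂), ?_, hb₁, hb₂, ?_⟩
  · intro Λ haΛ
    refine ⟨hlb, hroot, hout, hfn, ?_⟩
    intro R hR v hv
    choose x hx hxv using fun k => hsur (v k) (hv k)
    have h1 : (fun k => b₂ (v k)) = fun k => g (a.2 (x k)) := by
      funext k
      rw [← hxv k, hb₂ _ (hx k)]
    have h2 : v = fun k => g (x k) := by
      funext k
      rw [hxv k]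
    show S₂.rel R (fun k => b₂ (v k)) ↔ S₂.rel R v
    rw [h1, h.rel R _ (fun k => hmem _ (hx k)), h2, h.rel R _ hx]
    exact haΛ.rel R hR x hx
  · intro w w' hw hw' hex
    have hinj : ∀ i ∈ X, ∀ j ∈ X, e i = e j → i = j := by
      intro i hi j hj hij
      have h1 := e.left_inv (x := i) (by rw [h.es]; exact hi)
      rw [hij, e.left_inv (by rw [h.es]; exact hj)] at h1
      exact h1.symm
    have haa1 : ∀ i, a.1 (a.1 i) = i := fun i => congrArg (fun g : Gp I M => g.1 i) hex.inv
    have haa2 : ∀ x, a.2 (a.2 x) = x := fun x => congrArg (fun g : Gp I M => g.2 x) hex.inv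
    refine ⟨?_, ?_, ?_, ?_⟩
    · rw [Set.disjoint_left]
      rintro _ ⟨i, hi, rfl⟩ ⟨j, hj, hij⟩
      rw [hinj j (hw' hj) i (hw hi) hij] at hj
      exact Set.disjoint_left.1 hex.dis hi hj
    · apply Prod.ext
      · ext j
        show b₁ (b₁ j) = j
        by_cases hj : j ∈ Y
        · obtain ⟨i, hi, rfl⟩ : ∃ i ∈ X, e i = j := by
            refine ⟨e.symm j, ?_, e.right_inv (by rw [h.et]; exact hj)⟩
            rw [← h.es]
            exact e.map_target (by rw [h.et]; exact hj)
          rw [hb₁ i hi, hb₁ _ ((ga i).2 hi), haa1]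
        · rw [hb₁' j hj, hb₁' j hj]
      · ext y
        show b₂ (b₂ y) = y
        by_cases hy : y ∈ Sx lab₂ Y
        · obtain ⟨x, hx, rfl⟩ := hsur y hy
          rw [hb₂ x hx, hb₂ _ (hmem x hx), haa2]
        · rw [hb₂' y hy, hb₂' y hy]
    · rw [← hex.img]
      ext j
      constructor
      · rintro ⟨_, ⟨i, hi, rfl⟩, rfl⟩
        exact ⟨a.1 i, ⟨i, hi, rfl⟩, (hb₁ i (hw hi)).symm⟩
      · rintro ⟨_, ⟨i, hi, rfl⟩, rfl⟩
        exact ⟨e i, ⟨i, hi, rfl⟩, hb₁ i (hw hi)⟩
    · intro y j hy hj hj'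
      by_cases hjY : j ∈ Y
      · have hyS : y ∈ Sx lab₂ Y := by
          intro j' hj'
          rw [hy] at hj'
          rw [← Option.some_injective _ hj']
          exact hjY
        obtain ⟨x, hx, rfl⟩ := hsur y hyS
        rw [h.lb x hx, Option.map_eq_some_iff] at hy
        obtain ⟨i, hi, rfl⟩ := hy
        show b₂ (g x) = g x
        rw [hb₂ x hx, hex.out x i hi (fun hh => hj ⟨i, hh, rfl⟩) fun hh => hj' ⟨i, hh, rfl⟩]
      · exact hout y j hy hjY

end UNE
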