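import Pool.Agent.UNE.StC

/-!
# UNE: isomorphisms transfer good sets and blocks

Theorem `thm_ISB (h1 : St_SWP) (h2 : St_BLK) (h3 : St_ISA) : St_ISB`.
-/

set_option autoImplicit false
set_option linter.unusedVariables false

namespace UNE

open Set UN

variable {G : Sg} {M N I J : Type} {S : Sys G M} {lab : M → Option I} {X : Set I} {S₂ : Sys G N}
  {lab₂ : N → Option J} {Y : Set J} {e : PartialEquiv I J} {g : PartialEquiv M N}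

theorem ISB_gs (h1 : St_SWP) (h3 : St_ISA) (hc : Cp S lab) (hc₂ : Cp S₂ lab₂)
    (h : Isx S lab X S₂ lab₂ Y e g) (Λ : Set G.Rl) {w : Set I} (hw : w ⊆ X)
    (hg : Gs S lab Λ X w) : Gs S₂ lab₂ Λ Y (e '' w) := by
  obtain ⟨hf, hn, hp⟩ := hg
  refine ⟨hf.image _, hn.image _, fun Z hZ => ?_⟩
  obtain ⟨w', a, hd, ha⟩ := hp (e.symm '' Z) (hZ.image _)
  obtain ⟨s1, -⟩ := h1 G M I S lab hc Λ X
  have hw' : w' ⊆ X := (s1 _ _ _ ha).2.2.1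
  obtain ⟨b, hb, -, -, hx⟩ := h3 G M N I J S lab X S₂ lab₂ Y e g hc hc₂ h a
    ⟨ha.1.lb, ha.1.root, ha.1.out, ha.1.fn, fun R hR => hR.elim⟩
  refine ⟨e '' w', b, ?_, hb Λ ha.1, hx w w' hw hw' ha.2⟩
  rw [disjoint_left]
  rintro _ ⟨i, hi, rfl⟩ hj
  refine disjoint_left.1 hd hi ⟨_, hj, ?_⟩
  exact e.left_inv (by rw [h.es]; exact hw' hi)

theorem ISB_gs' (h1 : St_SWP) (h3 : St_ISA) (hc : Cp S lab) (hc₂ : Cp S₂ lab₂)
    (h : Isx S lab X S₂ lab₂ Y e g) (Λ : Set G.Rl) {w : Set I} (hw : w ⊆ X)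
    (hg : Gs S₂ lab₂ Λ Y (e '' w)) : Gs S lab Λ X w := by
  have h5 : e '' w ⊆ Y := by
    rintro _ ⟨i, hi, rfl⟩
    rw [← h.et]
    exact e.map_source (by rw [h.es]; exact hw hi)
  have h6 := ISB_gs h1 h3 hc₂ hc (h.symm hc) Λ h5 hg
  rwa [e.symm_image_image_of_subset_source (by rw [h.es]; exact hw)] at h6

theorem ISB_gx (h1 : St_SWP) (h2 : St_BLK) (h3 : St_ISA) (hc : Cp S lab) (hc₂ : Cp S₂ lab₂)
    (h : Isx S lab X S₂ lab₂ Y e g) (Λ : Set G.Rl) {i : I} (hg : Gx S lab Λ X i) :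
    Gx S₂ lab₂ Λ Y (e i) := by
  obtain ⟨w, hw, hi⟩ := hg
  obtain ⟨b1, -⟩ := h2 G M I S lab hc Λ X
  exact ⟨e '' w, ISB_gs h1 h3 hc hc₂ h Λ (b1 w hw) hw, ⟨i, hi, rfl⟩⟩

theorem thm_ISB (h1 : St_SWP) (h2 : St_BLK) (h3 : St_ISA) : St_ISB := by
  intro G M N I J S lab X S₂ lab₂ Y e g hc hc₂ h Λ
  refine ⟨fun w hw => ⟨ISB_gs h1 h3 hc hc₂ h Λ hw, ISB_gs' h1 h3 hc hc₂ h Λ hw⟩, ?_⟩
  intro i hi
  have hli : e.symm (e i) = i := e.left_inv (by rw [h.es]; exact hi)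
  refine ⟨⟨ISB_gx h1 h2 h3 hc hc₂ h Λ, fun hg => ?_⟩, fun hg => ?_⟩
  · have h5 := ISB_gx h1 h2 h3 hc₂ hc (h.symm hc) Λ hg
    rwa [hli] at h5
  · obtain ⟨b1, b2, -⟩ := h2 G M I S lab hc Λ X
    obtain ⟨c1, c2, -⟩ := h2 G N J S₂ lab₂ hc₂ Λ Y
    obtain ⟨g1, g2⟩ := b2 i hg
    obtain ⟨g3, g4⟩ := c2 (e i) (ISB_gx h1 h2 h3 hc hc₂ h Λ hg)
    apply Subset.antisymm
    · exact fun j hj => hj _ (ISB_gs h1 h3 hc hc₂ h Λ (b1 _ g1) g1) ⟨i, g2, rfl⟩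
    · have h5 := c1 _ g3
      have h6 := ISB_gs h1 h3 hc₂ hc (h.symm hc) Λ h5 g3
      have h7 : Bl S lab Λ X i ⊆ e.symm '' Bl S₂ lab₂ Λ Y (e i) :=
        fun j hj => hj _ h6 ⟨e i, g4, hli⟩
      have h8 := image_mono (f := e) h7
      rwa [e.image_symm_image_of_subset_target (by rw [h.et]; exact h5)] at h8

end UNE
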