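import Pool.Agent.UNE.StC

/-!
# UNE: the sizes of the classes are invariant

Theorem `thm_ISC (h1 : St_ISA) (h2 : St_ISB) (h3 : St_EBI) : St_ISC`.
-/

set_option autoImplicit false
set_option linter.unusedVariables false

namespace UNE

open Set UN

variable {G : Sg} {M N I J : Type} {S : Sys G M} {lab : M → Option I} {X : Set I} {S₂ : Sys G N}
  {lab₂ : N → Option J} {Y : Set J} {e : PartialEquiv I J} {g : PartialEquiv M N}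

theorem ISC_sub (h : Isx S lab X S₂ lab₂ Y e g) {w : Set I} (hw : w ⊆ X) : e '' w ⊆ Y := by
  rintro _ ⟨i, hi, rfl⟩
  rw [← h.et]
  exact e.map_source (by rw [h.es]; exact hw hi)

theorem ISC_back (h : Isx S lab X S₂ lab₂ Y e g) {w : Set I} (hw : w ⊆ X) :
    e.symm '' (e '' w) = w :=
  e.symm_image_image_of_subset_source (by rw [h.es]; exact hw)

theorem ISC_bi (h2 : St_ISB) (hc : Cp S lab) (hc₂ : Cp S₂ lab₂)
    (h : Isx S lab X S₂ lab₂ Y e g) {Λ : ℕ → Set G.Rl} {i : I} (hi : i ∈ X)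
    (hg : Gi S lab Λ X i) : Gi S₂ lab₂ Λ Y (e i) ∧
      Bi S₂ lab₂ Λ Y (e i) = e '' Bi S lab Λ X i := by
  have h5 := fun n => (h2 G M N I J S lab X S₂ lab₂ Y e g hc hc₂ h (Λ n)).2 i hi
  refine ⟨fun n => (h5 n).1.1 (hg n), ?_⟩
  unfold Bi
  rw [image_iUnion]
  exact iUnion_congr fun n => (h5 n).2 (hg n)

theorem ISC_ib (h2 : St_ISB) (hc : Cp S lab) (hc₂ : Cp S₂ lab₂)
    (h : Isx S lab X S₂ lab₂ Y e g) {Λ : ℕ → Set G.Rl} {w : Set I} (hw : w ∈ IB S lab Λ X) :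
    e '' w ∈ IB S₂ lab₂ Λ Y := by
  obtain ⟨i, hi, hg, rfl⟩ := hw
  obtain ⟨h5, h6⟩ := ISC_bi h2 hc hc₂ h hi hg
  refine ⟨e i, ?_, h5, h6.symm⟩
  rw [← h.et]
  exact e.map_source (by rw [h.es]; exact hi)

theorem ISC_eqx (h1 : St_ISA) (hc : Cp S lab) (hc₂ : Cp S₂ lab₂)
    (h : Isx S lab X S₂ lab₂ Y e g) {Λ : ℕ → Set G.Rl} {w w' : Set I} (hw : w ⊆ X)
    (hw' : w' ⊆ X) (hx : Eqx S lab Λ X w w') : Eqx S₂ lab₂ Λ Y (e '' w) (e '' w') := by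
  rcases hx with rfl | ⟨a, ha, hex⟩
  · exact Or.inl rfl
  · right
    have ha0 := ha 0
    obtain ⟨b, hb, -, -, hx⟩ := h1 G M N I J S lab X S₂ lab₂ Y e g hc hc₂ h a
      ⟨ha0.lb, ha0.root, ha0.out, ha0.fn, fun R hR => hR.elim⟩
    exact ⟨b, fun n => hb _ (ha n), hx w w' hw hw' hex⟩

theorem ISC_cls (h1 : St_ISA) (h2 : St_ISB) (h3 : St_EBI) (hc : Cp S lab) (hc₂ : Cp S₂ lab₂)
    (h : Isx S lab X S₂ lab₂ Y e g) {Λ : ℕ → Set G.Rl} (hΛ : Lvl Λ) {w : Set I}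
    (hw : w ∈ IB S lab Λ X) :
    Cls S₂ lab₂ Λ Y (e '' w) = (fun v => e '' v) '' Cls S lab Λ X w := by
  have hX : ∀ v ∈ IB S lab Λ X, v ⊆ X := fun v hv =>
    (h3 G M I S lab Λ X hc hΛ v hv).2.2.1
  have hY : ∀ v ∈ IB S₂ lab₂ Λ Y, v ⊆ Y := fun v hv =>
    (h3 G N J S₂ lab₂ Λ Y hc₂ hΛ v hv).2.2.1
  apply Subset.antisymm
  · rintro v ⟨hv, hx⟩
    have h5 := ISC_ib h2 hc₂ hc (h.symm hc) hv
    have h6 : e '' (e.symm '' v) = v :=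
      e.image_symm_image_of_subset_target (by rw [h.et]; exact hY v hv)
    refine ⟨e.symm '' v, ⟨h5, ?_⟩, h6⟩
    have h7 := ISC_eqx h1 hc₂ hc (h.symm hc) (ISC_sub h (hX w hw)) (hY v hv) hx
    rwa [ISC_back h (hX w hw)] at h7
  · rintro _ ⟨v, ⟨hv, hx⟩, rfl⟩
    exact ⟨ISC_ib h2 hc hc₂ h hv, ISC_eqx h1 hc hc₂ h (hX w hw) (hX v hv) hx⟩

theorem ISC_le (h1 : St_ISA) (h2 : St_ISB) (h3 : St_EBI) (hc : Cp S lab) (hc₂ : Cp S₂ lab₂)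
    (h : Isx S lab X S₂ lab₂ Y e g) {Λ : ℕ → Set G.Rl} (hΛ : Lvl Λ) :
    Siz S lab Λ X ⊆ Siz S₂ lab₂ Λ Y := by
  rintro k ⟨w, hw, hf, rfl⟩
  have h5 := ISC_cls h1 h2 h3 hc hc₂ h hΛ hw
  refine ⟨e '' w, ISC_ib h2 hc hc₂ h hw, ?_, ?_⟩
  · rw [h5]
    exact hf.image _
  · rw [h5]
    refine InjOn.ncard_image ?_
    intro v hv v' hv' hvv
    have hX : ∀ v ∈ IB S lab Λ X, v ⊆ X := fun v hv =>
      (h3 G M I S lab Λ X hc hΛ v hv).2.2.1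
    have h6 : e '' v = e '' v' := hvv
    rw [← ISC_back h (hX v hv.1), ← ISC_back h (hX v' hv'.1), h6]

theorem thm_ISC (h1 : St_ISA) (h2 : St_ISB) (h3 : St_EBI) : St_ISC := by
  intro G M N I J S lab X S₂ lab₂ Y e g hc hc₂ h Λ hΛ
  exact Subset.antisymm (ISC_le h1 h2 h3 hc hc₂ h hΛ)
    (ISC_le h1 h2 h3 hc₂ hc (h.symm hc) hΛ)

end UNE
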