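import Pool.Agent.UNE.StC

/-!
# UNE, module ISD: isomorphisms over the generators of the root respect the components
-/

set_option autoImplicit false
set_option linter.unusedVariables false

namespace UNE

open Set UN

/-- adjacent elements have the same component -/
theorem isd_adj {G : Sg} {M I : Type} {S : Sys G M} {lab : M → Option I} (hc : Cp S lab) {x y : M}
    (h : Adj S lab x y) : lab x = lab y := by
  obtain ⟨h1, h2, f, h3 | h3⟩ := h
  · subst h3
    exact ((hc.fn f x).resolve_left h2).symm
  · subst h3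
    exact (hc.fn f y).resolve_left h1

/-- an isomorphism respects the components -/
theorem isd_con {G : Sg} {M I : Type} {S : Sys G M} {lab : M → Option I} (hc : Cp S lab)
    {X : Set I} (g : Sx lab X → M)
    (hr : ∀ x : Sx lab X, lab (g x) = none → lab x = none)
    (hf : ∀ f (x : Sx lab X), g ⟨S.fn f x, Sx_fn hc X f x x.2⟩ = S.fn f (g x))
    (x y : Sx lab X) (hx : lab x ≠ none) (hxy : lab x = lab y) : lab (g x) = lab (g y) := by
  have key : ∀ z : M, Relation.ReflTransGen (Adj S lab) (x : M) z →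
      ∃ h : z ∈ Sx lab X, lab z ≠ none ∧ lab (g ⟨z, h⟩) = lab (g x) := by
    intro z hz
    induction hz with
    | refl => exact ⟨x.2, hx, rfl⟩
    | tail hab h ih =>
      rename_i b c
      obtain ⟨hb, hb1, hb2⟩ := ih
      have hbc : lab b = lab c := isd_adj hc h
      have hcX : c ∈ Sx lab X := fun i hi => hb i (hbc.trans hi)
      have hc1 : lab c ≠ none := fun h' => hb1 (hbc.trans h')
      refine ⟨hcX, hc1, ?_⟩
      rw [← hb2]
      obtain ⟨-, -, f, h3 | h3⟩ := h
      · subst h3
        have e1 := hf f ⟨b, hb⟩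
        have e2 : lab (g ⟨S.fn f b, hcX⟩) ≠ none := fun h' => hc1 (hr _ h')
        have e3 : g ⟨S.fn f b, hcX⟩ = S.fn f (g ⟨b, hb⟩) := e1
        rw [e3] at e2 ⊢
        exact (hc.fn f _).resolve_left e2
      · subst h3
        have e1 := hf f ⟨c, hcX⟩
        have e2 : lab (g ⟨S.fn f c, hb⟩) ≠ none := fun h' => hb1 (hr _ h')
        have e3 : g ⟨S.fn f c, hb⟩ = S.fn f (g ⟨c, hcX⟩) := e1
        rw [e3] at e2 ⊢
        exact ((hc.fn f _).resolve_left e2).symm
  obtain ⟨h, -, h2⟩ := key y (hc.con x y hx hxy)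
  exact h2.symm

theorem thm_ISD : St_ISD := by
  intro G M I Q S lab q X Y g hc hI hq hg he
  -- the values of functions and relations
  have hfn : ∀ f (x : Sx lab X), (g ⟨S.fn f x, Sx_fn hc X f x x.2⟩ : M) = S.fn f (g x) := by
    intro f x
    have h1 := he (.eq ([], ⟨S.fn f x, Sx_fn hc X f x x.2⟩) ([f], x))
    exact h1.1 rfl
  have hrel : ∀ R (v : Fin (G.ar R) → Sx lab X),
      S.rel R (fun k => (g (v k) : M)) ↔ S.rel R fun k => (v k : M) := fun R v =>
    (he (.rel R fun k => ([], v k))).symm
  -- the root is fixed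
  have hroot : ∀ x : Sx lab X, lab x = none → (g x : M) = x := by
    intro x hx
    obtain ⟨c, l, hl⟩ := (hq x).1 hx
    have hqc : q c ∈ Sx lab X := by
      intro i hi
      have h1 : lab (q c) = none := (hq (q c)).2 ⟨c, [], rfl⟩
      rw [h1] at hi
      exact absurd hi (by simp)
    have h1 := (he (.eq ([], x) (l, ⟨q c, hqc⟩))).1 hl
    have h2 : (g x : M) = S.w l (g ⟨q c, hqc⟩) := h1
    rw [h2, hg c hqc, ← hl]
  have hroot' : ∀ x : Sx lab X, lab (g x : M) = none → lab (x : M) = none := by
    intro x hx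
    have h1 : ((g x : M)) ∈ Sx lab X := by
      intro i hi
      rw [hx] at hi
      exact absurd hi (by simp)
    have h2 : (g ⟨(g x : M), h1⟩ : M) = g x := hroot ⟨(g x : M), h1⟩ hx
    have h3 : (⟨(g x : M), h1⟩ : Sx lab X) = x := g.injective (Subtype.ext h2)
    have h4 : (g x : M) = x := congrArg Subtype.val h3
    rw [← h4]
    exact hx
  -- the same for the inverse
  have hfn' : ∀ f (y : Sx lab Y), (g.symm ⟨S.fn f y, Sx_fn hc Y f y y.2⟩ : M) =
      S.fn f (g.symm y) := by
    intro f y
    have h1 := hfn f (g.symm y)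
    rw [g.apply_symm_apply] at h1
    have h2 : (⟨S.fn f y, Sx_fn hc Y f y y.2⟩ : Sx lab Y) =
        g ⟨S.fn f (g.symm y), Sx_fn hc X f _ (g.symm y).2⟩ := Subtype.ext h1.symm
    rw [h2, g.symm_apply_apply]
  have hrootS : ∀ y : Sx lab Y, lab (g.symm y : M) = none → lab (y : M) = none := by
    intro y hy
    have h1 := hroot _ hy
    rw [g.apply_symm_apply] at h1
    rw [h1]
    exact hy
  have hcon : ∀ x y : Sx lab X, lab (x : M) ≠ none → lab (x : M) = lab y →
      lab (g x : M) = lab (g y : M) :=
    isd_con hc (fun x => (g x : M)) hroot' hfn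
  have hconS : ∀ x y : Sx lab Y, lab (x : M) ≠ none → lab (x : M) = lab y →
      lab (g.symm x : M) = lab (g.symm y : M) :=
    isd_con hc (fun x => (g.symm x : M)) hrootS hfn'
  -- representatives
  choose r hr using hc.ne
  have hrX : ∀ i ∈ X, r i ∈ Sx lab X := by
    intro i hi j hj
    rw [hr i] at hj
    rw [← Option.some_injective _ hj]
    exact hi
  have hrY : ∀ i ∈ Y, r i ∈ Sx lab Y := by
    intro i hi j hj
    rw [hr i] at hj
    rw [← Option.some_injective _ hj]
    exact hi
  -- the images of the components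
  have hγ : ∀ i (hi : i ∈ X), ∃ j ∈ Y, lab (g ⟨r i, hrX i hi⟩ : M) = some j := by
    intro i hi
    rcases hl : lab (g ⟨r i, hrX i hi⟩ : M) with _ | j
    · have h1 := hroot' _ hl
      rw [hr i] at h1
      exact absurd h1 (by simp)
    · exact ⟨j, (g ⟨r i, hrX i hi⟩).2 j hl, rfl⟩
  have hδ : ∀ i (hi : i ∈ Y), ∃ j ∈ X, lab (g.symm ⟨r i, hrY i hi⟩ : M) = some j := by
    intro i hi
    rcases hl : lab (g.symm ⟨r i, hrY i hi⟩ : M) with _ | j
    · have h1 := hrootS _ hl
      rw [hr i] at h1
      exact absurd h1 (by simp)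
    · exact ⟨j, (g.symm ⟨r i, hrY i hi⟩).2 j hl, rfl⟩
  choose γ hγY hγl using hγ
  choose δ hδX hδl using hδ
  have hγx : ∀ (x : Sx lab X) (i : I) (hx : lab (x : M) = some i),
      lab (g x : M) = some (γ i (x.2 i hx)) := by
    intro x i hx
    have h1 := hcon x ⟨r i, hrX i (x.2 i hx)⟩ (by rw [hx]; simp) (by rw [hx]; exact (hr i).symm)
    rw [h1]
    exact hγl i (x.2 i hx)
  have hδx : ∀ (y : Sx lab Y) (j : I) (hy : lab (y : M) = some j),
      lab (g.symm y : M) = some (δ j (y.2 j hy)) := by
    intro y j hy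
    have h1 := hconS y ⟨r j, hrY j (y.2 j hy)⟩ (by rw [hy]; simp) (by rw [hy]; exact (hr j).symm)
    rw [h1]
    exact hδl j (y.2 j hy)
  have hδγ : ∀ i (hi : i ∈ X), δ (γ i hi) (hγY i hi) = i := by
    intro i hi
    have h1 := hδx (g ⟨r i, hrX i hi⟩) (γ i hi) (hγl i hi)
    rw [g.symm_apply_apply] at h1
    have h2 : lab (r i) = some (δ (γ i hi) (hγY i hi)) := h1
    rw [hr i] at h2
    exact (Option.some_injective _ h2).symm
  have hγδ : ∀ j (hj : j ∈ Y), γ (δ j hj) (hδX j hj) = j := by
    intro j hj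
    have h1 := hγx (g.symm ⟨r j, hrY j hj⟩) (δ j hj) (hδl j hj)
    rw [g.apply_symm_apply] at h1
    have h2 : lab (r j) = some (γ (δ j hj) (hδX j hj)) := h1
    rw [hr j] at h2
    exact (Option.some_injective _ h2).symm
  classical
  let e : PartialEquiv I I :=
    { toFun := fun i => if hi : i ∈ X then γ i hi else i
      invFun := fun i => if hi : i ∈ Y then δ i hi else i
      source := X
      target := Y
      map_source' := fun i hi => by
        simp only [dif_pos hi]
        exact hγY i hi
      map_target' := fun j hj => by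
        simp only [dif_pos hj]
        exact hδX j hj
      left_inv' := fun i hi => by
        simp only [dif_pos hi]
        rw [dif_pos (hγY i hi)]
        exact hδγ i hi
      right_inv' := fun j hj => by
        simp only [dif_pos hj]
        rw [dif_pos (hδX j hj)]
        exact hγδ j hj }
  let h : PartialEquiv M M :=
    { toFun := fun x => if hx : x ∈ Sx lab X then (g ⟨x, hx⟩ : M) else x
      invFun := fun x => if hx : x ∈ Sx lab Y then (g.symm ⟨x, hx⟩ : M) else x
      source := Sx lab X
      target := Sx lab Y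
      map_source' := fun x hx => by
        simp only [dif_pos hx]
        exact (g ⟨x, hx⟩).2
      map_target' := fun y hy => by
        simp only [dif_pos hy]
        exact (g.symm ⟨y, hy⟩).2
      left_inv' := fun x hx => by
        simp only [dif_pos hx]
        rw [dif_pos (g ⟨x, hx⟩).2]
        simp
      right_inv' := fun y hy => by
        simp only [dif_pos hy]
        rw [dif_pos (g.symm ⟨y, hy⟩).2]
        simp }
  have hh : ∀ x (hx : x ∈ Sx lab X), h x = (g ⟨x, hx⟩ : M) := fun x hx => dif_pos hx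
  have hee : ∀ i (hi : i ∈ X), e i = γ i hi := fun i hi => dif_pos hi
  refine ⟨e, h, rfl, rfl, rfl, rfl, ?_, ?_, ?_⟩
  · intro x hx
    rw [hh x hx]
    rcases hl : lab x with _ | i
    · rw [hroot ⟨x, hx⟩ hl]
      exact hl
    · show _ = some (e i)
      rw [hee i (hx i hl)]
      exact hγx ⟨x, hx⟩ i hl
  · intro f x hx
    rw [hh x hx, hh _ (Sx_fn hc X f x hx)]
    exact hfn f ⟨x, hx⟩
  · intro R v hv
    have h1 := hrel R fun k => ⟨v k, hv k⟩
    have h2 : (fun k => h (v k)) = fun k => (g ⟨v k, hv k⟩ : M) := funext fun k => hh _ (hv k)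
    rw [h2]
    exact h1

end UNE
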