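import Pool.Agent.UN.Defs

/-!
# UNE: universal theories with unary functions, levels and end game, definitions

`S : Sys G M` is a system, `lab : M → Option I` gives the component of an element (`none`: the element
is in the root). Automorphisms are elements `a` of the group `Equiv.Perm I × Equiv.Perm M`: `a.1` acts on
the components, `a.2` on the elements. `Λ` is a set of relation symbols (a level).
-/

set_option autoImplicit false
set_option linter.unusedVariables false

namespace UNE

open Set UN

variable {G : Sg} {M N I J : Type}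

/-- the group of the pairs of permutations of the components and of the elements -/
abbrev Gp (I M : Type) : Type := Equiv.Perm I × Equiv.Perm M

/-- Levels: finite sets of relation symbols, increasing, every symbol is in some level. -/
structure Lvl (Λ : ℕ → Set G.Rl) : Prop where
  mono : ∀ m n, m ≤ n → Λ m ⊆ Λ n
  fin : ∀ n, (Λ n).Finite
  all : ∀ R, ∃ n, R ∈ Λ n

/-- `x` and `y` are outside of the root and one is a value of a function at the other -/
def Adj (S : Sys G M) (lab : M → Option I) (x y : M) : Prop :=
  lab x ≠ none ∧ lab y ≠ none ∧ ∃ f, y = S.fn f x ∨ x = S.fn f y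

/-- `lab` gives the components of `S` outside of the root: they are countable, not empty and
connected, a value of a function is in the same component or in the root. -/
structure Cp (S : Sys G M) (lab : M → Option I) : Prop where
  fn : ∀ f x, lab (S.fn f x) = none ∨ lab (S.fn f x) = lab x
  ne : ∀ i, ∃ x, lab x = some i
  ctb : ∀ i, {x | lab x = some i}.Countable
  con : ∀ x y, lab x ≠ none → lab x = lab y → Relation.ReflTransGen (Adj S lab) x y

/-- the root and the components in `X` -/
def Sx (lab : M → Option I) (X : Set I) : Set M := {x | ∀ i, lab x = some i → i ∈ X}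

/-- `a` is an automorphism of the structure on `Sx lab X` with the functions and the relations in
`Λ`; it is the identity on the root and outside of `X`. -/
structure Am (S : Sys G M) (lab : M → Option I) (Λ : Set G.Rl) (X : Set I) (a : Gp I M) : Prop
    where
  lb : ∀ x, lab (a.2 x) = (lab x).map a.1
  root : ∀ x, lab x = none → a.2 x = x
  out : ∀ x i, lab x = some i → i ∉ X → a.2 x = x
  fn : ∀ f x, a.2 (S.fn f x) = S.fn f (a.2 x)
  rel : ∀ R ∈ Λ, ∀ v : Fin (G.ar R) → M, (∀ k, v k ∈ Sx lab X) →
    (S.rel R (fun k => a.2 (v k)) ↔ S.rel R v)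

/-- the support: the components on which `a` is not the identity -/
def Sp (lab : M → Option I) (a : Gp I M) : Set I := {i | ∃ x, lab x = some i ∧ a.2 x ≠ x}

/-- the automorphisms with finite support -/
def Ph (S : Sys G M) (lab : M → Option I) (Λ : Set G.Rl) (X : Set I) (a : Gp I M) : Prop :=
  Am S lab Λ X a ∧ (Sp lab a).Finite

/-- `a` exchanges the disjoint sets `w` and `w'` of components, it is the identity elsewhere. -/
structure Ex (lab : M → Option I) (w w' : Set I) (a : Gp I M) : Prop where
  dis : Disjoint w w'
  inv : a * a = 1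
  img : a.1 '' w = w'
  out : ∀ x i, lab x = some i → i ∉ w → i ∉ w' → a.2 x = x

/-- the exchange `a` of `w` and `w'` is an automorphism -/
def Sw (S : Sys G M) (lab : M → Option I) (Λ : Set G.Rl) (X : Set I) (w w' : Set I)
    (a : Gp I M) : Prop := Am S lab Λ X a ∧ Ex lab w w' a

/-- Good sets: finite nonempty sets `w` of components which have partners `w'` off every finite
set. -/
def Gs (S : Sys G M) (lab : M → Option I) (Λ : Set G.Rl) (X : Set I) (w : Set I) : Prop :=
  w.Finite ∧ w.Nonempty ∧ ∀ Z : Set I, Z.Finite → ∃ w' a, Disjoint w' Z ∧ Sw S lab Λ X w w' a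

/-- good components -/
def Gx (S : Sys G M) (lab : M → Option I) (Λ : Set G.Rl) (X : Set I) (i : I) : Prop :=
  ∃ w, Gs S lab Λ X w ∧ i ∈ w

/-- blocks: the smallest good set which contains `i` -/
def Bl (S : Sys G M) (lab : M → Option I) (Λ : Set G.Rl) (X : Set I) (i : I) : Set I :=
  {j | ∀ w, Gs S lab Λ X w → i ∈ w → j ∈ w}

/-- the components which are good at all levels -/
def Gi (S : Sys G M) (lab : M → Option I) (Λ : ℕ → Set G.Rl) (X : Set I) (i : I) : Prop :=
  ∀ n, Gx S lab (Λ n) X i

/-- the infinity block of `i` -/
def Bi (S : Sys G M) (lab : M → Option I) (Λ : ℕ → Set G.Rl) (X : Set I) (i : I) : Set I :=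
  ⋃ n, Bl S lab (Λ n) X i

/-- `X` is dense in `Y` off `D ⊆ X`: the components in `Y` outside of `X` are covered by a family of
pairwise disjoint finite sets `B`, disjoint from `X`, which have partners in `X` off `D` and off every
finite set. -/
structure Den (S : Sys G M) (lab : M → Option I) (Λ : Set G.Rl) (X Y D : Set I) : Prop where
  sub : X ⊆ Y
  sd : D ⊆ X
  cov : ∃ BB : Set (Set I), (∀ B ∈ BB, B.Finite ∧ Disjoint B X) ∧
    (∀ B ∈ BB, ∀ B' ∈ BB, B = B' ∨ Disjoint B B') ∧ (∀ j ∈ Y, j ∉ X → ∃ B ∈ BB, j ∈ B) ∧
    ∀ B ∈ BB, ∀ Z : Set I, Z.Finite → ∃ w' a, w' ⊆ X ∧ Disjoint w' (Z ∪ D) ∧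
      Sw S lab Λ Y B w' a

/-- `i` and `j` are conjugate under the automorphisms with finite support -/
def Cj (S : Sys G M) (lab : M → Option I) (Λ : Set G.Rl) (X : Set I) (i j : I) : Prop :=
  ∃ a, Ph S lab Λ X a ∧ a.1 i = j

end UNE
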