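import Pool.Agent.UNE.StC
import Pool.Agent.UN.StF

/-!
# UNE, module LVI: levels from `UN.St_LVE`
-/

set_option autoImplicit false
set_option linter.unusedVariables false

namespace UNE

open Set Filter UN Pool.Agent.Helper5.DU Pool.Agent.Helper6.Str Pool.Agent.Helper79.VC
  Pool.Agent.Helper97.LO Pool.Agent.Helper97.VC

private theorem LVI_lvl {G : Sg} (hR : Countable G.Rl) : ∃ Λ : ℕ → Set G.Rl, Lvl Λ := by
  obtain ⟨f, hf⟩ := exists_injective_nat G.Rl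
  refine ⟨fun n => {R | f R < n}, ?_, ?_, ?_⟩
  · intro m n hmn R hR
    exact lt_of_lt_of_le hR hmn
  · intro n
    exact (finite_Iio n).preimage hf.injOn
  · intro R
    exact ⟨f R + 1, Nat.lt_succ_self _⟩

/-- **module LVI** -/
theorem thm_LVI (hG : St_GRA) (hL : UN.St_LVE) : St_LVU := by
  intro G U hF hR hU hK hP M S hS
  obtain ⟨Q, I, q, lab, hQ, hroot, hc, hJ⟩ := hL G U hF hR hU hP M S hS
  obtain ⟨Λ, hΛ⟩ := LVI_lvl hR
  refine ⟨I, Q, lab, q, Λ, hQ, hc, hΛ, ?_, ?_, ?_⟩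
  · intro x
    rw [hroot]
    constructor
    · rintro ⟨_, ⟨c, rfl⟩, hg⟩
      exact ⟨c, hg⟩
    · rintro ⟨c, hg⟩
      exact ⟨q c, ⟨c, rfl⟩, hg⟩
  · intro n
    obtain ⟨J, hJc, hJ1, -⟩ := hJ (Λ n) (hΛ.fin n)
    refine hJc.mono fun i hi => ?_
    by_contra h
    exact hi (hJ1 i h)
  · intro n
    obtain ⟨J, hJc, -, hJ2⟩ := hJ (Λ n) (hΛ.fin n)
    refine ⟨J, hJc, fun i _ => ?_⟩
    obtain ⟨j, hj, a, ha, hai⟩ := hJ2 i
    refine ⟨j, hj, a⁻¹, (hG G M I S lab hc (Λ n) univ).2.2.2.2.2.2.2.2.2.1.2.2 a ha, ?_⟩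
    show a.1⁻¹ i = j
    rw [← hai]
    exact a.1.symm_apply_apply j

end UNE
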