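import Pool.Agent.UNE.StC

/-!
# UNE: the substructures `NP` are dense in the extension
-/

set_option autoImplicit false
set_option linter.unusedVariables false

namespace UNE

open Set UN Pool.Agent.Helper5.DU Pool.Agent.Helper6.Str Pool.Agent.Helper79.VC

variable {G : Sg} {M I T : Type}

/-- the indices of the copies which meet `Z` -/
def NMD_T (E : T → Set I) (Z : Set (IC E)) : Set T :=
  {t | ∃ (i : I) (h : i ∈ E t), (Sum.inr ⟨(t, i), h⟩ : IC E) ∈ Z}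

theorem NMD_T_finite (E : T → Set I) {Z : Set (IC E)} (hZ : Z.Finite) : (NMD_T E Z).Finite := by
  let f : IC E → Option T := Sum.elim (fun _ => none) fun c => some c.1.1
  refine ((hZ.image f).preimage ((Option.some_injective T).injOn)).subset ?_
  rintro t ⟨i, h, hi⟩
  exact ⟨_, hi, rfl⟩

theorem NMD_cp {E : T → Set I} {t : T} {w : Set I} {c : IC E} (hc : c ∈ cp E t w) :
    ∃ (i : I) (h : i ∈ E t), i ∈ w ∧ c = Sum.inr ⟨(t, i), h⟩ := hc

theorem NMD_cp_T {E : T → Set I} {t : T} {w : Set I} {c : IC E} {Z : Set (IC E)}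
    (hc : c ∈ cp E t w) (hZ : c ∈ Z) : t ∈ NMD_T E Z := by
  obtain ⟨i, h, -, rfl⟩ := hc
  exact ⟨i, h, hZ⟩

theorem NMD_cp_eq {E : T → Set I} {t t' : T} {w w' : Set I} {c : IC E} (hc : c ∈ cp E t w)
    (hc' : c ∈ cp E t' w') : t = t' := by
  obtain ⟨i, h, -, rfl⟩ := hc
  obtain ⟨i', h', -, he⟩ := hc'
  have h2 := Subtype.mk.inj (Sum.inr_injective he)
  exact (Prod.mk.inj h2).1

theorem NMD_inl {E : T → Set I} {t : T} {w : Set I} {i : I} (hc : Sum.inl i ∈ cp E t w) :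
    False := by
  obtain ⟨i', h, -, he⟩ := hc
  exact absurd he (by simp)

/-- [NMD] -/
theorem thm_NMD (h1 : St_GRA) (h2 : St_SWP) (h3 : St_BLK) (h4 : St_CNJ) (h5 : St_EBI)
    (h6 : St_CPC) (h7 : St_CPI) (h8 : St_CPG) : St_NMD := by
  intro G M I T S lab Λ E S' P hcp hL hE hC hD n D F hDX hF hDF
  have hEB : ∀ n, EB S lab (Λ n) E := by
    intro n t i hi
    obtain ⟨-, -, -, hw, -⟩ := h5 G M I S lab Λ univ hcp hL (E t) (hE t)
    exact ⟨(hw i hi).1 n, (hw i hi).2.2 n⟩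
  have hGE : ∀ t, ∀ i ∈ E t, Gi S lab Λ univ i := by
    intro t i hi
    obtain ⟨-, -, -, hw, -⟩ := h5 G M I S lab Λ univ hcp hL (E t) (hE t)
    exact (hw i hi).1
  have hcp' : Cp S' (labC lab E) := h6 G M I T S lab Λ E S' hcp hC
  obtain ⟨-, hB2, -, -, hB5, -, -, hB8⟩ := h3 G _ _ S' (labC lab E) hcp' (Λ n) univ
  obtain ⟨-, -, -, -, -, -, -, -, -, ⟨hP1, hPm, hPi⟩, -⟩ := h1 G _ _ S' (labC lab E) hcp' (Λ n) univ
  obtain ⟨-, hG2, hG3⟩ := h8 G M I T S lab Λ E S' hcp hL hEB hC n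
  -- components outside of `X`
  have hA : ∀ c, c ∉ NP S lab Λ E P → Gx S' (labC lab E) (Λ n) univ c ∧
      Disjoint (Bl S' (labC lab E) (Λ n) univ c) (NP S lab Λ E P) ∧
      ∃ i g₁, Gi S lab Λ univ i ∧ Ph S' (labC lab E) (Λ n) univ g₁ ∧ g₁.1 c = Sum.inl i := by
    intro c hc
    rcases c with i | ⟨⟨t, i⟩, h⟩
    · have hi : Gi S lab Λ univ i := by
        by_contra hcon
        exact hc (Or.inl ⟨i, rfl, hcon⟩)
      refine ⟨(hG2 i).1.2 (hi n), ?_, i, 1, hi, hP1, rfl⟩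
      rw [(hG2 i).2 (hi n), Set.disjoint_left]
      rintro _ ⟨j, hj, rfl⟩ hX
      rcases hX with ⟨i', he, hi'⟩ | ⟨t, -, ht⟩
      · obtain rfl := Sum.inl_injective he
        obtain ⟨-, -, -, hw, -⟩ := h5 G M I S lab Λ univ hcp hL (Bi S lab Λ univ i)
          ⟨i, mem_univ _, hi, rfl⟩
        exact hi' (hw j (mem_iUnion.2 ⟨n, hj⟩)).1
      · exact NMD_inl ht
    · have h' : i ∈ E t := h
      obtain ⟨hg1, hg2, a, ha, hai⟩ := hG3 t i h'
      refine ⟨hg1, ?_, i, a, hGE t i h', ha, hai⟩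
      have ht : t ∉ P := fun hp => hc (Or.inr ⟨t, hp, i, h', h', rfl⟩)
      rw [hg2, Set.disjoint_left]
      rintro d hd hX
      rcases hX with ⟨i', rfl, -⟩ | ⟨t', ht', hd'⟩
      · exact NMD_inl hd
      · exact ht (by rw [NMD_cp_eq hd hd']; exact ht')
  refine ⟨subset_univ _, hDX, {B | ∃ c, c ∉ NP S lab Λ E P ∧
    B = Bl S' (labC lab E) (Λ n) univ c}, ?_, ?_, ?_, ?_⟩
  · rintro _ ⟨c, hc, rfl⟩
    obtain ⟨hx, hd, -⟩ := hA c hc
    exact ⟨(hB2 c hx).1.1, hd⟩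
  · rintro _ ⟨c, hc, rfl⟩ _ ⟨c', hc', rfl⟩
    exact hB8 c c' (hA c hc).1 (hA c' hc').1
  · intro j _ hj
    exact ⟨_, ⟨j, hj, rfl⟩, (hB2 j (hA j hj).1).2⟩
  · rintro _ ⟨c, hc, rfl⟩ Z hZ
    obtain ⟨hx, hd, i, g₁, hi, hg₁, hg₁c⟩ := hA c hc
    have hfin : (Bl S' (labC lab E) (Λ n) univ c).Finite := (hB2 c hx).1.1
    obtain ⟨t, htP, htF, j, hj, g₂, hg₂, hg₂i⟩ := hD n i hi
      (F ∪ NMD_T E (Z ∪ (D \ ⋃ t ∈ F, cp E t (E t)) ∪ Bl S' (labC lab E) (Λ n) univ c))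
      (hF.union (NMD_T_finite E ((hZ.union hDF).union hfin)))
    have hg₂' := h7 G M I T S lab Λ E S' hcp hL hEB hC n g₂ hg₂
    obtain ⟨-, hbl, a, ha, haj⟩ := hG3 t j hj
    have hg := hPm _ _ (hPm _ _ (hPi a ha) hg₂') hg₁
    set g := a⁻¹ * exC lab E g₂ * g₁ with hgd
    have hgc : g.1 c = Sum.inr ⟨(t, j), hj⟩ := by
      show a.1⁻¹ ((exC lab E g₂).1 (g₁.1 c)) = _
      rw [hg₁c]
      show a.1⁻¹ (Sum.inl (g₂.1 i)) = _
      rw [hg₂i, ← haj]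
      exact a.1.symm_apply_apply _
    have himg : g.1 '' Bl S' (labC lab E) (Λ n) univ c =
        cp E t (Bl S lab (Λ n) univ j) := by
      rw [← (hB5 g c hg.1 hx).2, hgc, hbl]
    have hnot : ∀ d ∈ g.1 '' Bl S' (labC lab E) (Λ n) univ c,
        d ∉ Z ∪ (D \ ⋃ t ∈ F, cp E t (E t)) ∪ Bl S' (labC lab E) (Λ n) univ c := by
      intro d hd hd'
      rw [himg] at hd
      exact htF (Or.inr (NMD_cp_T hd hd'))
    obtain ⟨s, hs, -⟩ := h4 G _ _ S' (labC lab E) hcp' (Λ n) univ _ g (hB2 c hx).1 hg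
      (Set.disjoint_left.2 fun d hd hd' => hnot d hd (Or.inr hd'))
    refine ⟨g.1 '' Bl S' (labC lab E) (Λ n) univ c, s, ?_, ?_, hs⟩
    · rw [himg]
      rintro _ ⟨j', hj', -, rfl⟩
      exact Or.inr ⟨t, htP, j', hj', hj', rfl⟩
    · rw [Set.disjoint_left]
      intro d hd hd'
      rcases hd' with hd' | hd'
      · exact hnot d hd (Or.inl (Or.inl hd'))
      · by_cases hU : d ∈ ⋃ t ∈ F, cp E t (E t)
        · simp only [mem_iUnion] at hU
          obtain ⟨t', ht', hdt'⟩ := hU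
          rw [himg] at hd
          refine htF (Or.inl ?_)
          rw [NMD_cp_eq hd hdt']
          exact ht'
        · exact hnot d hd (Or.inl (Or.inr ⟨hd', hU⟩))

end UNE
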