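import Pool.Agent.UNE.StC

/-!
# UNE: the infinity blocks of the substructures and their exchanges

Theorem `thm_NMG (h1 : St_GRA) (h2 : St_SWP) (h3 : St_DNA) (h4 : St_DNB) (h5 : St_EBI)
(h6 : St_CPC) (h7 : St_CPQ) (h8 : St_CPX) (h9 : St_NMD) : St_NMG`.
-/

set_option autoImplicit false
set_option linter.unusedVariables false

namespace UNE

open Set UN

variable {G : Sg} {M I T : Type} {S : Sys G M} {lab : M → Option I} {E : T → Set I}
  {S' : Sys G (MC lab E)}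

theorem NMG_cp_mem {t t' : T} {i : I} {h : i ∈ E t} {w : Set I}
    (hc : (Sum.inr ⟨(t, i), h⟩ : IC E) ∈ cp E t' w) : t = t' ∧ i ∈ w := by
  obtain ⟨j, hj, hjw, he⟩ := hc
  have h2 := Subtype.mk.inj (Sum.inr_injective he)
  rw [Prod.mk.injEq] at h2
  exact ⟨h2.1, h2.2 ▸ hjw⟩

theorem NMG_self {t : T} {i : I} (h : i ∈ E t) :
    (Sum.inr ⟨(t, i), h⟩ : IC E) ∈ cp E t (E t) := ⟨i, h, h, rfl⟩

theorem thm_NMG (h1 : St_GRA) (h2 : St_SWP) (h3 : St_DNA) (h4 : St_DNB) (h5 : St_EBI)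
    (h6 : St_CPC) (h7 : St_CPQ) (h8 : St_CPX) (h9 : St_NMD) : St_NMG := by
  intro G M I T S lab Λ E S' P hC hΛ hE hS hD
  have hC' : Cp S' (labC lab E) := h6 G M I T S lab Λ E S' hC hS
  set X := NP S lab Λ E P with hX
  obtain ⟨q1, q2⟩ := h7 G M I T S lab Λ E S' hC hΛ hE hS
  have hne : ∀ t, (E t).Nonempty := fun t => (h5 G M I S lab Λ univ hC hΛ (E t) (hE t)).2.1
  have hsubX : ∀ t ∈ P, cp E t (E t) ⊆ X := fun t ht c hc => Or.inr ⟨t, ht, hc⟩
  have hden : ∀ n, ∀ D : Set (IC E), D.Finite → D ⊆ X →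
      Den S' (labC lab E) (Λ n) X univ D := fun n D hDf hDX =>
    h9 G M I T S lab Λ E S' P hC hΛ hE hS hD n D ∅ hDX finite_empty (hDf.subset sdiff_subset)
  have hB : ∀ n, ∀ c ∈ X, (Gx S' (labC lab E) (Λ n) X c ↔ Gx S' (labC lab E) (Λ n) univ c) ∧
      (Gx S' (labC lab E) (Λ n) univ c →
        Bl S' (labC lab E) (Λ n) X c = Bl S' (labC lab E) (Λ n) univ c) := fun n =>
    (h4 G (MC lab E) (IC E) S' (labC lab E) hC' (Λ n) X univ (hden n)).2.2
  have hG : ∀ c ∈ X, Gi S' (labC lab E) Λ univ c → Gi S' (labC lab E) Λ X c ∧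
      Bi S' (labC lab E) Λ X c = Bi S' (labC lab E) Λ univ c := fun c hc hg =>
    ⟨fun n => (hB n c hc).1.2 (hg n), iUnion_congr fun n => (hB n c hc).2 (hg n)⟩
  have hG' : ∀ c ∈ X, Gi S' (labC lab E) Λ X c → Gi S' (labC lab E) Λ univ c :=
    fun c hc hg n => (hB n c hc).1.1 (hg n)
  refine ⟨?_, ?_⟩
  · ext w
    constructor
    · rintro ⟨c, hc, hg, rfl⟩
      have hg' := hG' c hc hg
      rw [(hG c hc hg').2]
      rcases hc with ⟨i, rfl, hi⟩ | ⟨t, ht, i, h, -, rfl⟩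
      · exact absurd ((q1 i).1 hg') hi
      · exact ⟨t, ht, (q2 t i h).2⟩
    · rintro ⟨t, ht, rfl⟩
      obtain ⟨i, hi⟩ := hne t
      have hc := hsubX t ht (NMG_self hi)
      obtain ⟨g1, g2⟩ := hG _ hc (q2 t i hi).1
      exact ⟨_, hc, g1, by rw [g2, (q2 t i hi).2]⟩
  · intro t ht t' ht' htt
    have hneq : cp E t (E t) ≠ cp E t' (E t') := by
      intro h
      obtain ⟨i, hi⟩ := hne t
      have hc := NMG_self hi
      rw [h] at hc
      exact htt (NMG_cp_mem hc).1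
    obtain ⟨x1, x2⟩ := h8 G M I T S lab Λ E S' hC hΛ hE hS t t' htt
    refine ⟨hneq, fun hx => x1 ?_, fun he => ?_⟩
    · rcases hx with hx | ⟨a, ha, hex⟩
      · exact absurd hx hneq
      · refine Or.inr ⟨a, fun n => ?_, hex⟩
        obtain ⟨s1, -⟩ := h2 G (MC lab E) (IC E) S' (labC lab E) hC' (Λ n) X
        have hsp := (s1 _ _ a ⟨ha n, hex⟩).2.2.2.1
        refine h3 G (MC lab E) (IC E) S' (labC lab E) hC' (Λ n) X univ
          (cp E t (E t) ∪ cp E t' (E t')) a ?_ (ha n) hsp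
        refine h9 G M I T S lab Λ E S' P hC hΛ hE hS hD n _ {t, t'}
          (union_subset (hsubX t ht) (hsubX t' ht')) (by simp) ?_
        have h10 : (cp E t (E t) ∪ cp E t' (E t')) \
            ⋃ s ∈ ({t, t'} : Set T), cp E s (E s) = ∅ := by
          rw [sdiff_eq_empty]
          rintro c (hc | hc)
          · exact mem_biUnion (x := t) (by simp) hc
          · exact mem_biUnion (x := t') (by simp) hc
        rw [h10]
        exact finite_empty
    · rcases x2 he with hx | ⟨a, ha, hex⟩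
      · exact absurd hx hneq
      · refine Or.inr ⟨a, fun n => ?_, hex⟩
        obtain ⟨s1, -⟩ := h2 G (MC lab E) (IC E) S' (labC lab E) hC' (Λ n) univ
        obtain ⟨-, -, -, -, g5, -⟩ := h1 G (MC lab E) (IC E) S' (labC lab E) hC' (Λ n) univ
        have hsp := (s1 _ _ a ⟨ha n, hex⟩).2.2.2.1
        exact g5 a X (subset_univ _) (ha n)
          (hsp.trans (union_subset (hsubX t ht) (hsubX t' ht')))

end UNE
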