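import Pool.Agent.UNE.StC

/-!
# UNE [NMZ]: the sizes of the classes
-/

set_option autoImplicit false
set_option linter.unusedVariables false

namespace UNE

open Set UN

theorem thm_NMZ (h1 : St_EQX) (h2 : St_NMG) : St_NMZ := by
  intro G M I S lab Λ E' E₀ S' hc hL hE' hE₀ hS' hne hne' hden m hm
  have hsym := (h1 G M I S lab Λ univ hc hL).1
  have hET : ∀ t, ET E' E₀ t ∈ IB S lab Λ univ := by
    rintro (c | c)
    · exact hE' c.1
    · exact hE₀ c.1
  have hPl : ∀ l s, (Sum.inl (l, s) : (ℕ × ℕ) ⊕ (ℕ × ℕ)) ∈ PT m := by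
    intro l s c hc'
    exact absurd hc' (by simp)
  have hPr : ∀ k s, s < m k → (Sum.inr (k, s) : (ℕ × ℕ) ⊕ (ℕ × ℕ)) ∈ PT m := by
    intro k s hs c hc'
    rw [← Sum.inr_injective hc']
    exact hs
  have hDse : Dse S lab Λ (ET E' E₀) (PT m) := by
    intro n i hi F hF
    obtain ⟨l, j, hj, hij⟩ := hden n i hi
    have h3 : ∃ s, (Sum.inl (l, s) : (ℕ × ℕ) ⊕ (ℕ × ℕ)) ∉ F := by
      by_contra h4
      push Not at h4
      have h5 : (univ : Set ℕ).Finite := by
        have h6 : ((fun s : ℕ => (Sum.inl (l, s) : (ℕ × ℕ) ⊕ (ℕ × ℕ))) ⁻¹' F).Finite := by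
          refine hF.preimage ?_
          intro a _ b _ hab
          have h7 := Sum.inl_injective hab
          exact (Prod.mk.inj h7).2
        refine h6.subset ?_
        intro s _
        exact h4 s
      exact infinite_univ h5
    obtain ⟨s, hs⟩ := h3
    exact ⟨Sum.inl (l, s), hPl l s, hs, j, hj, hij⟩
  obtain ⟨hIB, hcl⟩ := h2 G M I _ S lab Λ (ET E' E₀) S' (PT m) hc hL hET hS' hDse
  generalize hBX : NP S lab Λ (ET E' E₀) (PT m) = X at hIB hcl
  generalize hcps : (fun t => cp (ET E' E₀) t (ET E' E₀ t)) = C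
  have hC : ∀ t, cp (ET E' E₀) t (ET E' E₀ t) = C t := fun t => by rw [← hcps]
  simp only [hC] at hIB hcl
  have hmem : ∀ t ∈ PT m, C t ∈ IB S' (labC lab (ET E' E₀)) Λ X := by
    intro t ht
    rw [hIB]
    exact ⟨t, ht, rfl⟩
  have hinj : ∀ t ∈ PT m, ∀ t' ∈ PT m, C t = C t' → t = t' := by
    intro t ht t' ht' h
    by_contra hn
    exact (hcl t ht t' ht' hn).1 h
  -- classes of the first kind
  have hA : ∀ l s, ¬ (Cls S' (labC lab (ET E' E₀)) Λ X (C (Sum.inl (l, s)))).Finite := by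
    intro l s hfin
    have h3 : ∀ s' : ℕ, C (Sum.inl (l, s')) ∈
        Cls S' (labC lab (ET E' E₀)) Λ X (C (Sum.inl (l, s))) := by
      intro s'
      refine ⟨hmem _ (hPl l s'), ?_⟩
      by_cases hss : s = s'
      · rw [hss]
        exact Or.inl rfl
      · refine (hcl _ (hPl l s) _ (hPl l s') ?_).2.2 rfl
        intro h4
        exact hss (Prod.mk.inj (Sum.inl_injective h4)).2
    have h4 : Function.Injective fun s' : ℕ => C (Sum.inl (l, s')) := by
      intro a b hab
      exact (Prod.mk.inj (Sum.inl_injective (hinj _ (hPl l a) _ (hPl l b) hab))).2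
    exact infinite_of_injective_forall_mem h4 h3 hfin
  -- classes of the second kind
  have hB : ∀ k s, s < m k → Cls S' (labC lab (ET E' E₀)) Λ X (C (Sum.inr (k, s)))
      = (fun s' : ℕ => C (Sum.inr (k, s'))) '' (Finset.range (m k) : Set ℕ) := by
    intro k s hs
    ext w
    constructor
    · rintro ⟨hw, hq⟩
      rw [hIB] at hw
      obtain ⟨t', ht', rfl⟩ := hw
      by_cases htt : (Sum.inr (k, s) : (ℕ × ℕ) ⊕ (ℕ × ℕ)) = t'
      · subst htt
        exact ⟨s, by simpa using hs, rfl⟩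
      · have h3 := (hcl _ (hPr k s hs) t' ht' htt).2.1 hq
        rcases t' with ⟨l, s'⟩ | ⟨k', s'⟩
        · exact absurd (hsym _ _ h3) (hne' l k)
        · have h4 : k = k' := by
            by_contra h5
            exact hne k k' h5 h3
          subst h4
          exact ⟨s', by simpa using ht' (k, s') rfl, rfl⟩
    · rintro ⟨s', hs', rfl⟩
      have hs'' : s' < m k := by simpa using hs'
      refine ⟨hmem _ (hPr k s' hs''), ?_⟩
      by_cases hss : s = s'
      · rw [hss]
        exact Or.inl rfl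
      · refine (hcl _ (hPr k s hs) _ (hPr k s' hs'') ?_).2.2 rfl
        intro h4
        exact hss (Prod.mk.inj (Sum.inr_injective h4)).2
  have hB2 : ∀ k s, s < m k →
      (Cls S' (labC lab (ET E' E₀)) Λ X (C (Sum.inr (k, s)))).Finite ∧
      (Cls S' (labC lab (ET E' E₀)) Λ X (C (Sum.inr (k, s)))).ncard = m k := by
    intro k s hs
    rw [hB k s hs]
    refine ⟨(Finset.finite_toSet _).image _, ?_⟩
    rw [InjOn.ncard_image, ncard_coe_finset, Finset.card_range]
    intro a ha b hb hab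
    have ha' : a < m k := by simpa using ha
    have hb' : b < m k := by simpa using hb
    exact (Prod.mk.inj (Sum.inr_injective (hinj _ (hPr k a ha') _ (hPr k b hb') hab))).2
  ext n
  constructor
  · rintro ⟨w, hw, hfin, hcard⟩
    rw [hIB] at hw
    obtain ⟨t, ht, rfl⟩ := hw
    rcases t with ⟨l, s⟩ | ⟨k, s⟩
    · exact absurd hfin (hA l s)
    · exact ⟨k, by rw [← hcard, (hB2 k s (ht (k, s) rfl)).2]⟩
  · rintro ⟨k, rfl⟩
    have h0 : 0 < m k := hm k
    exact ⟨C (Sum.inr (k, 0)), hmem _ (hPr k 0 h0), (hB2 k 0 h0).1, (hB2 k 0 h0).2⟩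

end UNE
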