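import Pool.Agent.UNE.StB

/-!
# UNE, module PLM: placements are monotone
-/

set_option autoImplicit false
set_option linter.unusedVariables false

namespace UNE

open Set UN

theorem PLM_am {G : Sg} {M I : Type} {S : Sys G M} {lab : M → Option I} {Λ Λ' : Set G.Rl}
    {X : Set I} {a : Gp I M} (h : Λ ⊆ Λ') (ha : Am S lab Λ' X a) : Am S lab Λ X a :=
  ⟨ha.lb, ha.root, ha.out, ha.fn, fun R hR => ha.rel R (h hR)⟩

theorem PLM_gs {G : Sg} {M I : Type} {S : Sys G M} {lab : M → Option I} {Λ Λ' : Set G.Rl}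
    {X w : Set I} (h : Λ ⊆ Λ') (hw : Gs S lab Λ' X w) : Gs S lab Λ X w := by
  obtain ⟨h1, h2, h3⟩ := hw
  refine ⟨h1, h2, fun Z hZ => ?_⟩
  obtain ⟨w', a, h4, h5, h6⟩ := h3 Z hZ
  exact ⟨w', a, h4, PLM_am h h5, h6⟩

theorem PLM_bl {G : Sg} {M I : Type} {S : Sys G M} {lab : M → Option I} {Λ Λ' : Set G.Rl}
    {X : Set I} (h : Λ ⊆ Λ') (i : I) : Bl S lab Λ X i ⊆ Bl S lab Λ' X i :=
  fun _ hj w hw hi => hj w (PLM_gs h hw) hi

theorem thm_PLM : St_PLM := by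
  intro G M I T S lab Λ Λ' E Z Z' σ hΛ hZ hσ
  have hT : ∀ t, Tc S lab Λ E Z t ⊆ Tc S lab Λ' E Z' t := by
    rintro t j ⟨i, h, h1, h2⟩
    exact ⟨i, h, hZ h1, PLM_bl hΛ i h2⟩
  refine ⟨fun t => ⟨PLM_am hΛ (hσ.ph t).1, (hσ.ph t).2⟩, fun t j hj h => ?_, fun t t' htt => ?_⟩
  · exact hσ.off t j (hT t hj) (hZ h)
  · exact (hσ.dis t t' htt).mono (image_mono (hT t)) (image_mono (hT t'))

end UNE
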