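import Pool.Agent.UNE.StB

/-!
# UNE: two placements differ by an automorphism with finite support

Theorem `thm_PLU (h1 : St_GRA) (h2 : St_SWP) (h3 : St_PRD) (h4 : St_PLX) : St_PLU`.
-/

set_option autoImplicit false
set_option linter.unusedVariables false

namespace UNE

open Set UN

variable {G : Sg} {M I T : Type} {S : Sys G M} {lab : M → Option I} {Λ : Set G.Rl}
  {E : T → Set I} {Z : Set (IC E)}

theorem PLU_fix {a : Gp I M} {x : M} {i : I} (hx : lab x = some i) (hi : i ∉ Sp lab a) :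
    a.2 x = x := by
  by_contra h
  exact hi ⟨x, hx, h⟩

theorem PLU_finite (hZ : Z.Finite) : {t : T | (Tc S lab Λ E Z t).Nonempty}.Finite := by
  let f : IC E → Option T := Sum.elim (fun _ => none) (fun c => some c.1.1)
  have h1 : ((fun t : T => some t) ⁻¹' (f '' Z)).Finite :=
    (hZ.image f).preimage (fun t _ t' _ h => Option.some_injective _ h)
  refine h1.subset ?_
  rintro t ⟨j, i, h, hi, -⟩
  exact ⟨_, hi, rfl⟩

theorem PLU_claim (h1 : St_GRA) (h2 : St_SWP) (h3 : St_PRD) (hC : Cp S lab)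
    (hZ : Z.Finite) {σ τ : T → Gp I M} (hσ : Plc S lab Λ E Z σ) (hτ : Plc S lab Λ E Z τ)
    {W : T → Set I} {F : Set I} (hEx : ∀ t, Ex lab (Tc S lab Λ E Z t) (W t) (τ t))
    (hWF : ∀ t, Disjoint (W t) F) (hWW : ∀ t t', t ≠ t' → Disjoint (W t) (W t'))
    (hF1 : ∀ i, Sum.inl i ∈ Z → i ∈ F)
    (hF2 : ∀ t, (Tc S lab Λ E Z t).Nonempty → Sp lab (σ t) ⊆ F)
    (hF3 : ∀ t, (Tc S lab Λ E Z t).Nonempty → (σ t).1 '' Tc S lab Λ E Z t ⊆ F) :
    ∃ g, Ph S lab Λ univ g ∧ (∀ x i, lab x = some i → Sum.inl i ∈ Z → g.2 x = x) ∧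
      ∀ t x i, lab x = some i → i ∈ Tc S lab Λ E Z t → g.2 ((σ t).2 x) = (τ t).2 x := by
  obtain ⟨-, -, -, -, -, g6, -, -, g9, ⟨-, gm, gi⟩, -⟩ := h1 G M I S lab hC Λ univ
  obtain ⟨w1, -, -, -⟩ := h2 G M I S lab hC Λ univ
  let P : Type := {t : T // (Tc S lab Λ E Z t).Nonempty}
  have hP : Finite P := (PLU_finite hZ).to_subtype
  let s : P → Gp I M := fun t => σ t.1 * τ t.1 * (σ t.1)⁻¹
  have hs : ∀ t : P, Ph S lab Λ univ (s t) := fun t =>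
    gm _ _ (gm _ _ (hσ.ph t.1) (hτ.ph t.1)) (gi _ (hσ.ph t.1))
  -- elements of `W t` are fixed by `σ t`
  have hfix : ∀ t : P, ∀ i ∈ W t.1, i ∉ Sp lab (σ t.1) := fun t i hi h =>
    disjoint_left.1 (hWF t.1) hi (hF2 t.1 t.2 h)
  have hsp : ∀ t : P, Sp lab (s t) ⊆ (σ t.1).1 '' Tc S lab Λ E Z t.1 ∪ W t.1 := by
    intro t i hi
    obtain ⟨j, hj, rfl⟩ := g9 (τ t.1) (σ t.1) (hτ.ph t.1).1 (hσ.ph t.1).1 hi
    obtain ⟨-, -, -, h5, -⟩ := w1 _ _ _ ⟨(hτ.ph t.1).1, hEx t.1⟩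
    rcases h5 hj with h6 | h6
    · exact Or.inl ⟨j, h6, rfl⟩
    · right
      rw [(g6 _ (hσ.ph t.1).1).2.1 j (hfix t j h6)]
      exact h6
  have hdis : ∀ p p' : P, p ≠ p' → Disjoint (Sp lab (s p)) (Sp lab (s p')) := by
    intro p p' hpp
    have hne : p.1 ≠ p'.1 := fun h => hpp (Subtype.ext h)
    rw [disjoint_left]
    intro i hi hi'
    rcases hsp p hi with h5 | h5 <;> rcases hsp p' hi' with h6 | h6
    · exact disjoint_left.1 (hσ.dis _ _ hne) h5 h6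
    · exact disjoint_left.1 (hWF p'.1) h6 (hF3 p.1 p.2 h5)
    · exact disjoint_left.1 (hWF p.1) h5 (hF3 p'.1 p'.2 h6)
    · exact disjoint_left.1 (hWW _ _ hne) h5 h6
  obtain ⟨b, hb1, hb2, hb3⟩ := h3 G M I P S lab Λ univ s hC hP hs hdis
  refine ⟨b, hb1, ?_, ?_⟩
  · intro x i hx hi
    refine PLU_fix hx fun h => ?_
    obtain ⟨t, ht⟩ := mem_iUnion.1 (hb2 h)
    rcases hsp t ht with h5 | h5
    · obtain ⟨j, hj, hji⟩ := h5
      refine hσ.off t.1 j hj ?_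
      rw [hji]
      exact hi
    · exact disjoint_left.1 (hWF t.1) h5 (hF1 i hi)
  · intro t x i hx hi
    let t' : P := ⟨t, ⟨i, hi⟩⟩
    have hτW : (τ t).1 i ∈ W t := by
      rw [← (hEx t).img]
      exact ⟨i, hi, rfl⟩
    have hlτ : lab ((τ t).2 x) = some ((τ t).1 i) := by
      rw [(hτ.ph t).1.lb, hx]
      rfl
    have hlσ : lab ((σ t).2 x) = some ((σ t).1 i) := by
      rw [(hσ.ph t).1.lb, hx]
      rfl
    have hst : (s t').2 ((σ t).2 x) = (τ t).2 x := by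
      have h5 : (s t').2 ((σ t).2 x) = (σ t).2 ((τ t).2 ((σ t).2.symm ((σ t).2 x))) := rfl
      rw [h5, Equiv.symm_apply_apply]
      exact PLU_fix hlτ (hfix t' _ hτW)
    have hmem : (σ t).1 i ∈ Sp lab (s t') := by
      refine ⟨(σ t).2 x, hlσ, fun h5 => ?_⟩
      rw [hst] at h5
      rw [h5, hlσ] at hlτ
      have h6 := Option.some_injective _ hlτ
      rw [← h6] at hτW
      exact disjoint_left.1 (hWF t) hτW (hF3 t ⟨i, hi⟩ ⟨i, hi, rfl⟩)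
    rw [hb3 t' _ _ hlσ hmem, hst]

theorem thm_PLU (h1 : St_GRA) (h2 : St_SWP) (h3 : St_PRD) (h4 : St_PLX) : St_PLU := by
  intro G M I T S lab Λ E Z σ σ' hC hE hZ hσ hσ'
  have hTc : ∀ t, (Tc S lab Λ E Z t).Finite := by
    obtain ⟨τ, W, -, hW⟩ := h4 G M I T S lab Λ E Z ∅ hC hE hZ finite_empty
    intro t
    have h5 := (hW t).2.1
    rw [← (hW t).1.img] at h5
    exact h5.of_finite_image (τ t).1.injective.injOn
  let F : Set I := {i | Sum.inl i ∈ Z} ∪ ⋃ t ∈ {t : T | (Tc S lab Λ E Z t).Nonempty},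
    ((Sp lab (σ t) ∪ (σ t).1 '' Tc S lab Λ E Z t) ∪
      (Sp lab (σ' t) ∪ (σ' t).1 '' Tc S lab Λ E Z t))
  have hF : F.Finite := by
    refine Finite.union (hZ.preimage Sum.inl_injective.injOn) ?_
    refine Finite.biUnion (PLU_finite hZ) fun t _ => ?_
    exact ((hσ.ph t).2.union ((hTc t).image _)).union ((hσ'.ph t).2.union ((hTc t).image _))
  obtain ⟨τ, W, hτ, hW⟩ := h4 G M I T S lab Λ E Z F hC hE hZ hF
  have hsub : ∀ t, (Tc S lab Λ E Z t).Nonempty →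
      ((Sp lab (σ t) ∪ (σ t).1 '' Tc S lab Λ E Z t) ∪
      (Sp lab (σ' t) ∪ (σ' t).1 '' Tc S lab Λ E Z t)) ⊆ F := by
    intro t ht i hi
    exact Or.inr (mem_biUnion (x := t) ht hi)
  obtain ⟨g, hg1, hg2, hg3⟩ := PLU_claim h1 h2 h3 hC hZ hσ hτ (fun t => (hW t).1)
    (fun t => (hW t).2.2.1) (fun t => (hW t).2.2.2.2) (fun i hi => Or.inl hi)
    (fun t ht i hi => hsub t ht (Or.inl (Or.inl hi)))
    (fun t ht i hi => hsub t ht (Or.inl (Or.inr hi)))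
  obtain ⟨g', hg1', hg2', hg3'⟩ := PLU_claim h1 h2 h3 hC hZ hσ' hτ (fun t => (hW t).1)
    (fun t => (hW t).2.2.1) (fun t => (hW t).2.2.2.2) (fun i hi => Or.inl hi)
    (fun t ht i hi => hsub t ht (Or.inr (Or.inl hi)))
    (fun t ht i hi => hsub t ht (Or.inr (Or.inr hi)))
  obtain ⟨-, -, -, -, -, -, -, -, -, ⟨-, gm, gi⟩, -⟩ := h1 G M I S lab hC Λ univ
  refine ⟨g'⁻¹ * g, gm _ _ (gi _ hg1') hg1, ?_, ?_⟩
  · intro x i hx hi
    show g'.2.symm (g.2 x) = x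
    rw [hg2 x i hx hi, Equiv.symm_apply_eq]
    exact (hg2' x i hx hi).symm
  · intro t x i hx hi
    show g'.2.symm (g.2 ((σ t).2 x)) = (σ' t).2 x
    rw [hg3 t x i hx hi, Equiv.symm_apply_eq]
    exact (hg3' t x i hx hi).symm

end UNE
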