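import Pool.Agent.UNE.StB

/-!
# UNE, [PLX]: fresh placements
-/

set_option autoImplicit false
set_option linter.unusedVariables false

namespace UNE

open Set UN

variable {G : Sg} {M I T : Type} {S : Sys G M} {lab : M → Option I} {Λ : Set G.Rl}
  {E : T → Set I}

private theorem PLX_one : Am S lab Λ univ (1 : Gp I M) ∧ Sp lab (1 : Gp I M) = ∅ := by
  refine ⟨⟨fun x => ?_, fun x _ => rfl, fun x i _ _ => rfl, fun f x => rfl,
    fun R _ v _ => Iff.rfl⟩, ?_⟩
  · change lab x = (lab x).map id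
    rw [Option.map_id]
    rfl
  · rw [eq_empty_iff_forall_notMem]
    rintro i ⟨x, -, h⟩
    exact h rfl

private theorem PLX_ex_one : Ex lab (∅ : Set I) ∅ (1 : Gp I M) where
  dis := disjoint_empty _
  inv := mul_one 1
  img := image_empty _
  out := fun x i _ _ _ => rfl

private theorem PLX_sp {w w' : Set I} {a : Gp I M} (h : Ex lab w w' a) : Sp lab a ⊆ w ∪ w' := by
  rintro i ⟨x, hx, hne⟩
  by_contra h1
  rw [mem_union, not_or] at h1
  exact hne (h.out x i hx h1.1 h1.2)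

/-- the indices -/
private def PLX_T (Z : Set (IC E)) : Set T :=
  {t | ∃ (i : I) (h : i ∈ E t), (Sum.inr ⟨(t, i), h⟩ : IC E) ∈ Z}

private theorem PLX_T_fin {Z : Set (IC E)} (hZ : Z.Finite) : (PLX_T Z).Finite := by
  have h1 : PLX_T Z ⊆ ⋃ c ∈ Z, {t | ∃ (i : I) (h : i ∈ E t), c = Sum.inr ⟨(t, i), h⟩} := by
    rintro t ⟨i, h, hc⟩
    rw [mem_iUnion₂]
    exact ⟨_, hc, i, h, rfl⟩
  refine (hZ.biUnion fun c _ => ?_).subset h1
  refine Set.Subsingleton.finite ?_
  rintro t ⟨i, h, rfl⟩ t' ⟨i', h', he⟩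
  have h2 := Subtype.mk.inj (Sum.inr_injective he)
  rw [Prod.mk.injEq] at h2
  exact h2.1

private theorem PLX_Tc_fin (hBLK : St_BLK) (hC : Cp S lab) (hE : EB S lab Λ E) {Z : Set (IC E)}
    (hZ : Z.Finite) (t : T) : (Tc S lab Λ E Z t).Finite := by
  have h1 : Tc S lab Λ E Z t ⊆ ⋃ c ∈ Z, {j | ∃ (i : I) (h : i ∈ E t),
      c = Sum.inr ⟨(t, i), h⟩ ∧ j ∈ Bl S lab Λ univ i} := by
    rintro j ⟨i, h, hc, hj⟩
    rw [mem_iUnion₂]
    exact ⟨_, hc, i, h, rfl, hj⟩
  refine (hZ.biUnion fun c _ => ?_).subset h1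
  by_cases h2 : ∃ (i : I) (h : i ∈ E t), c = Sum.inr ⟨(t, i), h⟩
  · obtain ⟨i, h, rfl⟩ := h2
    have h3 := ((hBLK G M I S lab hC Λ univ).2.1 i (hE t i h).1).1.1
    refine h3.subset ?_
    rintro j ⟨i', h', he, hj⟩
    have h4 := Subtype.mk.inj (Sum.inr_injective he)
    rw [Prod.mk.injEq] at h4
    rw [h4.2]
    exact hj
  · refine Set.Finite.subset Set.finite_empty ?_
    rintro j ⟨i, h, he, -⟩
    exact absurd ⟨i, h, he⟩ h2

private theorem PLX_Tc_block (hBLK : St_BLK) (hC : Cp S lab) (hE : EB S lab Λ E)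
    {Z : Set (IC E)} (t : T) : ∀ j ∈ Tc S lab Λ E Z t, Gx S lab Λ univ j ∧
      Bl S lab Λ univ j ⊆ Tc S lab Λ E Z t := by
  rintro j ⟨i, h, hc, hj⟩
  obtain ⟨h1, h2⟩ := (hBLK G M I S lab hC Λ univ).2.2.1 i j (hE t i h).1 hj
  refine ⟨h1, fun j' hj' => ?_⟩
  rw [h2] at hj'
  exact ⟨i, h, hc, hj'⟩

private theorem PLX_Tc_empty {Z : Set (IC E)} {t : T} (ht : t ∉ PLX_T Z) :
    Tc S lab Λ E Z t = ∅ := by
  rw [eq_empty_iff_forall_notMem]
  rintro j ⟨i, h, hc, -⟩
  exact ht ⟨i, h, hc⟩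

/-- choice of the exchanges for finitely many indices -/
private theorem PLX_choose (hUBX : St_UBX) (hC : Cp S lab) (U : T → Set I)
    (hU : ∀ t, (U t).Finite)
    (hB : ∀ t, ∀ j ∈ U t, Gx S lab Λ univ j ∧ Bl S lab Λ univ j ⊆ U t) (F : Set I)
    (hF : F.Finite) (s : Finset T) :
    ∃ (σ : T → Gp I M) (W : T → Set I), ∀ t ∈ s, Sw S lab Λ univ (U t) (W t) (σ t) ∧
      (W t).Finite ∧ Disjoint (W t) F ∧ ∀ t' ∈ s, t ≠ t' → Disjoint (W t) (W t') := by
  classical
  induction s using Finset.induction_on with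
  | empty => exact ⟨fun _ => 1, fun _ => ∅, fun t ht => absurd ht (Finset.notMem_empty t)⟩
  | insert t₀ s hs ih =>
    obtain ⟨σ, W, h1⟩ := ih
    have hfin : (F ∪ ⋃ t ∈ s, W t).Finite :=
      hF.union (Set.Finite.biUnion s.finite_toSet fun t ht => (h1 t ht).2.1)
    obtain ⟨W₀, b, h2, h3, h4⟩ := hUBX G M I S lab Λ univ (U t₀) (F ∪ ⋃ t ∈ s, W t) hC
      (hU t₀) hfin (hB t₀)
    have h5 : Disjoint W₀ F := h2.mono_right subset_union_left
    have h6 : ∀ t ∈ s, Disjoint W₀ (W t) := fun t ht => h2.mono_right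
      ((subset_biUnion_of_mem (u := W) ht).trans subset_union_right)
    refine ⟨Function.update σ t₀ b, Function.update W t₀ W₀, fun t ht => ?_⟩
    rcases Finset.mem_insert.1 ht with rfl | hts
    · rw [Function.update_self, Function.update_self]
      refine ⟨h4, h3, h5, fun t' ht' hne => ?_⟩
      rw [Function.update_of_ne (Ne.symm hne)]
      rcases Finset.mem_insert.1 ht' with rfl | ht's
      · exact absurd rfl hne
      · exact h6 t' ht's
    · have hne₀ : t ≠ t₀ := fun h => hs (h ▸ hts)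
      rw [Function.update_of_ne hne₀, Function.update_of_ne hne₀]
      obtain ⟨k1, k2, k3, k4⟩ := h1 t hts
      refine ⟨k1, k2, k3, fun t' ht' hne => ?_⟩
      rcases Finset.mem_insert.1 ht' with rfl | ht's
      · rw [Function.update_self]
        exact (h6 t hts).symm
      · have hne' : t' ≠ t₀ := fun h => hs (h ▸ ht's)
        rw [Function.update_of_ne hne']
        exact k4 t' ht's hne

/-- [PLX] fresh placements -/
theorem thm_PLX (hBLK : St_BLK) (hUBX : St_UBX) : St_PLX := by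
  classical
  intro G M I T S lab Λ E Z F hC hE hZ hF
  have hT := PLX_T_fin hZ
  have hTc := PLX_Tc_fin hBLK hC hE hZ
  have hblk := PLX_Tc_block (Z := Z) hBLK hC hE
  -- the finite set to be avoided
  let F' : Set I := F ∪ (⋃ t ∈ PLX_T Z, Tc S lab Λ E Z t) ∪ {i | (Sum.inl i : IC E) ∈ Z}
  have hF' : F'.Finite := by
    refine (hF.union (hT.biUnion fun t _ => hTc t)).union ?_
    exact hZ.preimage Sum.inl_injective.injOn
  obtain ⟨σ, W, h⟩ := PLX_choose (S := S) (lab := lab) (Λ := Λ) hUBX hC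
    (fun t => Tc S lab Λ E Z t) hTc hblk F' hF' hT.toFinset
  have h' : ∀ t ∈ PLX_T Z, Sw S lab Λ univ (Tc S lab Λ E Z t) (W t) (σ t) ∧
      (W t).Finite ∧ Disjoint (W t) F' ∧ ∀ t' ∈ PLX_T Z, t ≠ t' → Disjoint (W t) (W t') :=
    fun t ht => by
      obtain ⟨k1, k2, k3, k4⟩ := h t (hT.mem_toFinset.2 ht)
      exact ⟨k1, k2, k3, fun t' ht' => k4 t' (hT.mem_toFinset.2 ht')⟩
  let σ' : T → Gp I M := fun t => if t ∈ PLX_T Z then σ t else 1
  let W' : T → Set I := fun t => if t ∈ PLX_T Z then W t else ∅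
  have hσ1 : ∀ t, t ∈ PLX_T Z → σ' t = σ t := fun t ht => if_pos ht
  have hσ2 : ∀ t, t ∉ PLX_T Z → σ' t = 1 := fun t ht => if_neg ht
  have hW1 : ∀ t, t ∈ PLX_T Z → W' t = W t := fun t ht => if_pos ht
  have hW2 : ∀ t, t ∉ PLX_T Z → W' t = ∅ := fun t ht => if_neg ht
  have hEx : ∀ t, Ex lab (Tc S lab Λ E Z t) (W' t) (σ' t) := by
    intro t
    by_cases ht : t ∈ PLX_T Z
    · rw [hσ1 t ht, hW1 t ht]
      exact (h' t ht).1.2
    · rw [hσ2 t ht, hW2 t ht, PLX_Tc_empty ht]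
      exact PLX_ex_one
  have hAm : ∀ t, Am S lab Λ univ (σ' t) := by
    intro t
    by_cases ht : t ∈ PLX_T Z
    · rw [hσ1 t ht]
      exact (h' t ht).1.1
    · rw [hσ2 t ht]
      exact PLX_one.1
  have hWf : ∀ t, (W' t).Finite := by
    intro t
    by_cases ht : t ∈ PLX_T Z
    · rw [hW1 t ht]
      exact (h' t ht).2.1
    · rw [hW2 t ht]
      exact Set.finite_empty
  have hWF : ∀ t, Disjoint (W' t) F' := by
    intro t
    by_cases ht : t ∈ PLX_T Z
    · rw [hW1 t ht]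
      exact (h' t ht).2.2.1
    · rw [hW2 t ht]
      exact empty_disjoint _
  have hWd : ∀ t t', t ≠ t' → Disjoint (W' t) (W' t') := by
    intro t t' hne
    by_cases ht : t ∈ PLX_T Z
    · by_cases ht' : t' ∈ PLX_T Z
      · rw [hW1 t ht, hW1 t' ht']
        exact (h' t ht).2.2.2 t' ht' hne
      · rw [hW2 t' ht']
        exact disjoint_empty _
    · rw [hW2 t ht]
      exact empty_disjoint _
  refine ⟨σ', W', ⟨fun t => ⟨hAm t, ?_⟩, fun t j hj hZj => ?_, fun t t' hne => ?_⟩,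
    fun t => ⟨hEx t, hWf t, (hWF t).mono_right ?_, fun t' => ?_, fun t' => hWd t t'⟩⟩
  · exact ((hTc t).union (hWf t)).subset (PLX_sp (hEx t))
  · have h1 : (σ' t).1 j ∈ W' t := by
      rw [← (hEx t).img]
      exact mem_image_of_mem _ hj
    exact disjoint_left.1 (hWF t) h1 (Or.inr hZj)
  · rw [(hEx t).img, (hEx t').img]
    exact hWd t t' hne
  · exact subset_union_left.trans subset_union_left
  · by_cases ht' : t' ∈ PLX_T Z
    · refine (hWF t).mono_right ?_
      refine (subset_biUnion_of_mem (u := fun t => Tc S lab Λ E Z t) ht').trans ?_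
      exact subset_union_right.trans subset_union_left
    · rw [PLX_Tc_empty ht']
      exact disjoint_empty _

end UNE
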