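import Pool.Agent.UNE.StA

/-!
# UNE: restriction of an involution to a set of components

Theorem `thm_RES : St_RES`.
-/

set_option autoImplicit false
set_option linter.unusedVariables false

namespace UNE

open Set UN

open Classical in
private theorem RES_one (G : Sg) (M I : Type) (S : Sys G M) (lab : M → Option I) (hC : Cp S lab)
    (X : Set I) (a : Gp I M) (Q : Set I) (ha : Am S lab ∅ X a) (haa : a * a = 1)
    (hQ : ∀ i, a.1 i ∈ Q ↔ i ∈ Q) :
    ∃ e : Gp I M, Am S lab ∅ X e ∧ e * e = 1 ∧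
      (∀ x i, lab x = some i → i ∈ Q → e.2 x = a.2 x) ∧
      (∀ x i, lab x = some i → i ∉ Q → e.2 x = x) ∧
      (∀ i ∈ Q, e.1 i = a.1 i) ∧ ∀ i ∉ Q, e.1 i = i := by
  have h1 : ∀ i, a.1 (a.1 i) = i := fun i => congrArg (fun c : Gp I M => c.1 i) haa
  have h2 : ∀ x, a.2 (a.2 x) = x := fun x => congrArg (fun c : Gp I M => c.2 x) haa
  have hi1 : Function.Involutive (fun i => if i ∈ Q then a.1 i else i) := by
    intro i
    show (if (if i ∈ Q then a.1 i else i) ∈ Q then a.1 (if i ∈ Q then a.1 i else i)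
      else (if i ∈ Q then a.1 i else i)) = i
    by_cases h : i ∈ Q
    · rw [if_pos h, if_pos ((hQ i).2 h), h1]
    · rw [if_neg h, if_neg h]
  have hi2 : Function.Involutive (fun x => if (∃ i ∈ Q, lab x = some i) then a.2 x else x) := by
    intro x
    show (if (∃ i ∈ Q, lab (if (∃ i ∈ Q, lab x = some i) then a.2 x else x) = some i) then
      a.2 (if (∃ i ∈ Q, lab x = some i) then a.2 x else x)
      else (if (∃ i ∈ Q, lab x = some i) then a.2 x else x)) = x
    by_cases h : ∃ i ∈ Q, lab x = some i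
    · have h' : ∃ i ∈ Q, lab (a.2 x) = some i := by
        obtain ⟨i, hi, hx⟩ := h
        exact ⟨a.1 i, (hQ i).2 hi, by rw [ha.lb, hx]; rfl⟩
      rw [if_pos h, if_pos h', h2]
    · rw [if_neg h, if_neg h]
  obtain ⟨e, he1, he2⟩ : ∃ e : Gp I M, (∀ i, e.1 i = if i ∈ Q then a.1 i else i) ∧
      ∀ x, e.2 x = if (∃ i ∈ Q, lab x = some i) then a.2 x else x :=
    ⟨(hi1.toPerm, hi2.toPerm), fun i => rfl, fun x => rfl⟩
  have hq : ∀ x i, lab x = some i → i ∈ Q → e.2 x = a.2 x := by
    intro x i hx hi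
    rw [he2, if_pos ⟨i, hi, hx⟩]
  have hnq : ∀ x i, lab x = some i → i ∉ Q → e.2 x = x := by
    intro x i hx hi
    rw [he2, if_neg]
    rintro ⟨j, hj, hxj⟩
    rw [hx] at hxj
    rw [Option.some.inj hxj] at hi
    exact hi hj
  have hr : ∀ x, lab x = none → e.2 x = x := by
    intro x hx
    rw [he2, if_neg]
    rintro ⟨j, -, hxj⟩
    rw [hx] at hxj
    exact Option.noConfusion rfl (heq_of_eq hxj)
  refine ⟨e, ⟨?_, hr, ?_, ?_, ?_⟩, ?_, hq, hnq, ?_, ?_⟩
  · intro x
    cases hx : lab x with
    | none =>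
      rw [hr x hx, hx]
      rfl
    | some i =>
      by_cases hi : i ∈ Q
      · rw [hq x i hx hi, ha.lb, hx]
        show some (a.1 i) = some (e.1 i)
        rw [he1, if_pos hi]
      · rw [hnq x i hx hi, hx]
        show some i = some (e.1 i)
        rw [he1, if_neg hi]
  · intro x i hx hi
    by_cases hiQ : i ∈ Q
    · rw [hq x i hx hiQ]
      exact ha.out x i hx hi
    · exact hnq x i hx hiQ
  · intro f x
    rcases hC.fn f x with h | h
    · rw [hr _ h]
      cases hx : lab x with
      | none => rw [hr x hx]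
      | some i =>
        by_cases hi : i ∈ Q
        · rw [hq x i hx hi, ← ha.fn, ha.root _ h]
        · rw [hnq x i hx hi]
    · cases hx : lab x with
      | none =>
        rw [hx] at h
        rw [hr _ h, hr x hx]
      | some i =>
        rw [hx] at h
        by_cases hi : i ∈ Q
        · rw [hq _ i h hi, hq x i hx hi, ha.fn]
        · rw [hnq _ i h hi, hnq x i hx hi]
  · intro R hR
    exact absurd hR (Set.notMem_empty R)
  · refine Prod.ext (Equiv.ext fun i => ?_) (Equiv.ext fun x => ?_)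
    · show e.1 (e.1 i) = i
      rw [he1 (e.1 i), he1 i]
      exact hi1 i
    · show e.2 (e.2 x) = x
      rw [he2 (e.2 x), he2 x]
      exact hi2 x
  · intro i hi
    rw [he1, if_pos hi]
  · intro i hi
    rw [he1, if_neg hi]

/-- [RES] restriction of an involution to a set of components -/
theorem thm_RES : St_RES := by
  intro G M I S lab hC X
  refine ⟨fun a Q ha haa hQ => RES_one G M I S lab hC X a Q ha haa hQ, ?_⟩
  intro Λ e he h
  refine ⟨he.lb, he.root, he.out, he.fn, ?_⟩
  intro R hR v hv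
  obtain ⟨b, hb, hbe⟩ := h R hR v hv
  have e1 : (fun k => e.2 (v k)) = fun k => b.2 (v k) := funext fun k => (hbe k).symm
  rw [e1]
  exact hb.rel R hR v hv

end UNE
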