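import Pool.Agent.UNE.StB

/-!
# UNE [RSX]: exchanges of finite sets restrict to unions of blocks
-/

set_option autoImplicit false
set_option linter.unusedVariables false

namespace UNE

open Set UN

theorem thm_RSX (hG : St_GRA) (hS : St_SWP) (hB : St_BLK) (hCN : St_CNJ) (hP : St_PRD) :
    St_RSX := by
  classical
  intro G M I S lab Λ X w w' Q a hC hwf hSw hQw hQb
  obtain ⟨s1, s2, -, -⟩ := hS G M I S lab hC Λ X
  obtain ⟨-, b2, -, -, -, -, -, b8⟩ := hB G M I S lab hC Λ X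
  obtain ⟨hw'f, hPha⟩ := s2 w w' a hwf hSw
  obtain ⟨-, -, -, -, -, ha1, ha11, ha22, -⟩ := s1 w w' a hSw
  have hdis := hSw.2.dis
  -- the set of the blocks
  let P : Type := {B : Set I // ∃ i ∈ Q, B = Bl S lab Λ X i}
  have hQf : Q.Finite := hwf.subset hQw
  have hPfin : Finite P := by
    have h1 : ((fun i => Bl S lab Λ X i) '' Q).Finite := hQf.image _
    refine (h1.subset ?_).to_subtype
    rintro B ⟨i, hi, rfl⟩
    exact ⟨i, hi, rfl⟩
  have hgs : ∀ B : P, Gs S lab Λ X B.1 := by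
    rintro ⟨B, i, hi, rfl⟩
    exact (b2 i (hQb i hi).1).1
  have hBQ : ∀ B : P, B.1 ⊆ Q := by
    rintro ⟨B, i, hi, rfl⟩
    exact (hQb i hi).2
  have haw : ∀ B : P, a.1 '' B.1 ⊆ w' := by
    rintro B _ ⟨i, hi, rfl⟩
    exact ha1 i (hQw (hBQ B hi))
  have hd : ∀ B : P, Disjoint (a.1 '' B.1) B.1 := by
    intro B
    rw [Set.disjoint_left]
    intro j hj hj'
    exact Set.disjoint_left.1 hdis (hQw (hBQ B hj')) (haw B hj)
  have ht : ∀ B : P, ∃ t, Sw S lab Λ X B.1 (a.1 '' B.1) t ∧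
      ∀ x i, lab x = some i → i ∈ B.1 → t.2 x = a.2 x := fun B =>
    hCN G M I S lab hC Λ X B.1 a (hgs B) hPha (hd B)
  choose t ht1 ht2 using ht
  have htS : ∀ B : P, Sp lab (t B) ⊆ B.1 ∪ a.1 '' B.1 := fun B => (s1 _ _ _ (ht1 B)).2.2.2.1
  have hne : ∀ B B' : P, B ≠ B' → Disjoint (Sp lab (t B)) (Sp lab (t B')) := by
    intro B B' hBB
    have h1 : Disjoint B.1 B'.1 := by
      obtain ⟨B, i, hi, rfl⟩ := B
      obtain ⟨B', j, hj, rfl⟩ := B'
      rcases b8 i j (hQb i hi).1 (hQb j hj).1 with h | h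
      · exact absurd (Subtype.ext h) hBB
      · exact h
    rw [Set.disjoint_left]
    intro j hj hj'
    rcases htS B hj with h2 | ⟨k, hk, rfl⟩
    · rcases htS B' hj' with h3 | h3
      · exact Set.disjoint_left.1 h1 h2 h3
      · exact Set.disjoint_left.1 hdis (hQw (hBQ B h2)) (haw B' h3)
    · rcases htS B' hj' with h3 | ⟨k', hk', h3⟩
      · exact Set.disjoint_left.1 hdis (hQw (hBQ B' h3)) (haw B ⟨k, hk, rfl⟩)
      · rw [a.1.injective h3] at hk'
        exact Set.disjoint_left.1 h1 hk hk'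
  obtain ⟨b, hbP, hbS, hb⟩ := hP G M I P S lab Λ X t hC hPfin
    (fun B => (s2 _ _ _ (hgs B).1 (ht1 B)).2) hne
  -- values on the blocks
  have hval : ∀ x i, lab x = some i → i ∈ Q → b.2 x = a.2 x := by
    intro x i hx hi
    let B : P := ⟨Bl S lab Λ X i, i, hi, rfl⟩
    have hiB : i ∈ B.1 := (b2 i (hQb i hi).1).2
    have h1 := ht2 B x i hx hiB
    have h2 : (t B).2 x ≠ x := by
      rw [h1]
      intro h3
      have h4 := hSw.1.lb x
      rw [h3, hx, Option.map_some] at h4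
      have h5 : a.1 i = i := (Option.some.inj h4).symm
      have h6 := ha1 i (hQw hi)
      rw [h5] at h6
      exact Set.disjoint_left.1 hdis (hQw hi) h6
    rw [hb B x i hx ⟨x, hx, h2⟩, h1]
  have hvalc : ∀ i ∈ Q, b.1 i = a.1 i := by
    intro i hi
    obtain ⟨y, hy⟩ := hC.ne i
    have h1 := hbP.1.lb y
    rw [hval y i hy hi, hSw.1.lb, hy] at h1
    exact (Option.some.inj h1).symm
  -- outside of the supports
  have hout : ∀ x i, lab x = some i → (∀ B : P, i ∉ Sp lab (t B)) → b.2 x = x := by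
    intro x i hx h
    by_contra h1
    obtain ⟨B, hB⟩ := Set.mem_iUnion.1 (hbS ⟨x, hx, h1⟩)
    exact h B hB
  have hbb : ∀ x, b.2 (b.2 x) = x := by
    intro x
    cases hx : lab x with
    | none => rw [hbP.1.root x hx, hbP.1.root x hx]
    | some i =>
      by_cases h : ∃ B : P, i ∈ Sp lab (t B)
      · obtain ⟨B, hB⟩ := h
        have h1 := hb B x i hx hB
        obtain ⟨-, -, -, -, -, -, -, htt, -⟩ := s1 _ _ _ (ht1 B)
        have h2 : lab ((t B).2 x) = some ((t B).1 i) := by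
          rw [(ht1 B).1.lb, hx]
          rfl
        have h3 : (t B).1 i ∈ Sp lab (t B) := by
          obtain ⟨y, hy, hy'⟩ := hB
          refine ⟨(t B).2 y, ?_, fun h => hy' ((t B).2.injective h)⟩
          rw [(ht1 B).1.lb, hy]
          rfl
        rw [h1, hb B _ _ h2 h3, htt]
      · have h1 := hout x i hx fun B hB => h ⟨B, hB⟩
        rw [h1, h1]
  have hbbc : ∀ i, b.1 (b.1 i) = i := by
    intro i
    obtain ⟨y, hy⟩ := hC.ne i
    have h1 := hbP.1.lb (b.2 y)
    rw [hbb y, hbP.1.lb, hy] at h1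
    exact (Option.some.inj h1).symm
  refine ⟨b, ⟨hbP.1, ⟨?_, ?_, ?_, ?_⟩⟩, hval, hvalc⟩
  · rw [Set.disjoint_left]
    rintro j hj ⟨k, hk, rfl⟩
    exact Set.disjoint_left.1 hdis (hQw hj) (ha1 k (hQw hk))
  · exact Prod.ext (Equiv.ext hbbc) (Equiv.ext hbb)
  · exact Set.image_congr hvalc
  · intro x i hx hi hi'
    refine hout x i hx fun B hB => ?_
    rcases htS B hB with h1 | ⟨k, hk, hk'⟩
    · exact hi (hBQ B h1)
    · exact hi' ⟨k, hBQ B hk, hk'⟩

end UNE
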