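import Pool.Agent.UNE.StA

/-!
# UNE [SWP]: exchanges
-/

set_option autoImplicit false
set_option linter.unusedVariables false

namespace UNE

open Set UN

theorem thm_SWP (hG : St_GRA) : St_SWP := by
  intro G M I S lab hC Λ X
  obtain ⟨gone, gmul, ginv, gsub, gY, gprop, gSm, gSi, gSc, gPh, gcom⟩ := hG G M I S lab hC Λ X
  have h1 : ∀ (w w' : Set I) (a : Gp I M), Ex lab w w' a → ∀ i, a.1 (a.1 i) = i := by
    intro w w' a h i
    have h2 := congrArg (fun g : Gp I M => g.1 i) h.inv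
    exact h2
  have h2 : ∀ (w w' : Set I) (a : Gp I M), Ex lab w w' a → ∀ x, a.2 (a.2 x) = x := by
    intro w w' a h x
    have h3 := congrArg (fun g : Gp I M => g.2 x) h.inv
    exact h3
  have h3 : ∀ (w w' : Set I) (a : Gp I M), Ex lab w w' a → Ex lab w' w a := by
    intro w w' a h
    refine ⟨h.dis.symm, h.inv, ?_, fun x i hx hi hi' => h.out x i hx hi' hi⟩
    rw [← h.img]
    ext j
    constructor
    · rintro ⟨_, ⟨k, hk, rfl⟩, rfl⟩
      rw [h1 w w' a h]
      exact hk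
    · intro hj
      exact ⟨a.1 j, ⟨j, hj, rfl⟩, h1 w w' a h j⟩
  have h4 : ∀ (w w' : Set I) (a : Gp I M), Ex lab w w' a → Sp lab a ⊆ w ∪ w' := by
    intro w w' a h i hi
    obtain ⟨x, hx, hax⟩ := hi
    by_contra hcon
    have h5 : i ∉ w := fun hh => hcon (Or.inl hh)
    have h6 : i ∉ w' := fun hh => hcon (Or.inr hh)
    exact hax (h.out x i hx h5 h6)
  have h5 : ∀ (w w' : Set I) (a : Gp I M), Sw S lab Λ X w w' a → w ⊆ X := by
    intro w w' a h i hi
    by_contra hcon
    have h6 := (gprop a h.1).1 i hcon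
    have h7 : a.1 i ∈ w' := by
      rw [← h.2.img]
      exact ⟨i, hi, rfl⟩
    rw [h6] at h7
    exact Set.disjoint_left.1 h.2.dis hi h7
  have h6 : ∀ (w w' : Set I) (a b : Gp I M), Sw S lab Λ X w w' a → Am S lab Λ X b →
      Sw S lab Λ X (b.1 '' w) (b.1 '' w') (b * a * b⁻¹) := by
    intro w w' a b h hb
    refine ⟨gmul _ _ (gmul _ _ hb h.1) (ginv _ hb), ?_, ?_, ?_, ?_⟩
    · exact (Set.disjoint_image_iff b.1.injective).2 h.2.dis
    · have h7 : b * a * b⁻¹ * (b * a * b⁻¹) = b * (a * a) * b⁻¹ := by group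
      rw [h7, h.2.inv, mul_one, mul_inv_cancel]
    · rw [← h.2.img]
      ext j
      constructor
      · rintro ⟨_, ⟨k, hk, rfl⟩, rfl⟩
        refine ⟨a.1 k, ⟨k, hk, rfl⟩, ?_⟩
        show b.1 (a.1 k) = b.1 (a.1 (b.1.symm (b.1 k)))
        rw [Equiv.symm_apply_apply]
      · rintro ⟨_, ⟨k, hk, rfl⟩, rfl⟩
        refine ⟨b.1 k, ⟨k, hk, rfl⟩, ?_⟩
        show b.1 (a.1 (b.1.symm (b.1 k))) = b.1 (a.1 k)
        rw [Equiv.symm_apply_apply]
    · intro x i hx hi hi'
      obtain ⟨y, hy⟩ : ∃ y, y = b.2.symm x := ⟨_, rfl⟩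
      have hly : lab y = some (b.1.symm i) := by
        have h7 := (ginv _ hb).lb x
        rw [hx] at h7
        rw [hy]
        exact h7
      have h8 : b.1.symm i ∉ w := fun hh => hi ⟨_, hh, b.1.apply_symm_apply i⟩
      have h9 : b.1.symm i ∉ w' := fun hh => hi' ⟨_, hh, b.1.apply_symm_apply i⟩
      have h10 := h.2.out y _ hly h8 h9
      show b.2 (a.2 (b.2.symm x)) = x
      rw [← hy, h10, hy, Equiv.apply_symm_apply]
  refine ⟨?_, ?_, h6, ?_⟩
  · intro w w' a h
    refine ⟨⟨h.1, h3 w w' a h.2⟩, h5 w w' a h, h5 w' w a ⟨h.1, h3 w w' a h.2⟩, h4 w w' a h.2,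
      ?_, ?_, h1 w w' a h.2, h2 w w' a h.2, ?_⟩
    · intro i hi hi'
      apply (gprop a h.1).2.1
      intro hh
      rcases h4 w w' a h.2 hh with hh | hh
      · exact hi hh
      · exact hi' hh
    · intro i hi
      rw [← h.2.img]
      exact ⟨i, hi, rfl⟩
    · exact inv_eq_of_mul_eq_one_right h.2.inv
  · intro w w' a hw h
    have hw' : w'.Finite := by
      rw [← h.2.img]
      exact hw.image _
    exact ⟨hw', h.1, (hw.union hw').subset (h4 w w' a h.2)⟩
  · intro w w' w'' s t hs ht hd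
    have h7 := h6 w w'' t s ht hs.1
    have h8 : s.1 '' w'' = w'' := by
      have h9 : ∀ i ∈ w'', s.1 i = i := by
        intro i hi
        apply (gprop s hs.1).2.1
        intro hh
        rcases h4 w w' s hs.2 hh with hh | hh
        · exact Set.disjoint_left.1 ht.2.dis hh hi
        · exact Set.disjoint_left.1 hd hh hi
      ext j
      constructor
      · rintro ⟨k, hk, rfl⟩
        rw [h9 k hk]
        exact hk
      · intro hj
        exact ⟨j, hj, h9 j hj⟩
    rw [hs.2.img, h8, inv_eq_of_mul_eq_one_right hs.2.inv] at h7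
    exact h7

end UNE
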