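import Pool.Agent.UNE.StB

/-!
# UNE: finite unions of blocks have exchanges off every finite set
-/

set_option autoImplicit false
set_option linter.unusedVariables false

namespace UNE

open Set UN

theorem thm_UBX (h1 : St_GRA) (h2 : St_SWP) (h3 : St_BLK) (h4 : St_PRD) : St_UBX := by
  intro G M I S lab Λ X U Z hC hU hZ hB
  obtain ⟨gr1, gr2, -, -, -, -, -, -, -, -, gr11⟩ := h1 G M I S lab hC Λ X
  have gr11' := fun a b => gr11 Λ X a b
  obtain ⟨sw1, sw2, -, -⟩ := h2 G M I S lab hC Λ X
  obtain ⟨bl1, bl2, bl3, -, -, -, -, bl8⟩ := h3 G M I S lab hC Λ X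
  have key : ∀ (n : ℕ) (U : Set I), U.Finite → U.ncard = n →
      (∀ i ∈ U, Gx S lab Λ X i ∧ Bl S lab Λ X i ⊆ U) → ∀ Z : Set I, Z.Finite →
      ∃ W b, Disjoint W Z ∧ W.Finite ∧ Sw S lab Λ X U W b := by
    intro n
    induction n using Nat.strong_induction_on with
    | _ n ih =>
      intro U hU hn hB Z hZ
      rcases U.eq_empty_or_nonempty with rfl | ⟨i, hi⟩
      · exact ⟨∅, 1, disjoint_bot_left, Set.finite_empty, gr1, disjoint_bot_left, one_mul 1,
          Set.image_empty _, fun x i _ _ _ => rfl⟩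
      · obtain ⟨hGi, hiB⟩ := bl2 i (hB i hi).1
        have hBU := (hB i hi).2
        obtain ⟨B, hBdef⟩ : ∃ B, B = Bl S lab Λ X i := ⟨_, rfl⟩
        rw [← hBdef] at hGi hiB hBU
        have hlt : (U \ B).ncard < n := by
          rw [← hn]
          apply Set.ncard_lt_ncard _ hU
          refine ⟨Set.sdiff_subset, fun h => ?_⟩
          exact (h hi).2 hiB
        obtain ⟨W', b, hW'Z, hW'f, hW'⟩ := ih _ hlt (U \ B) (hU.sdiff) rfl (by
          rintro j ⟨hjU, hjB⟩
          refine ⟨(hB j hjU).1, fun k hk => ⟨(hB j hjU).2 hk, fun hkB => ?_⟩⟩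
          rcases bl8 i j (hB i hi).1 (hB j hjU).1 with h | h
          · apply hjB
            rw [hBdef, h]
            exact (bl2 j (hB j hjU).1).2
          · rw [hBdef] at hkB
            exact Set.disjoint_left.1 h hkB hk) (Z ∪ U) (hZ.union hU)
        obtain ⟨W, a, hWZ, hWa⟩ := hGi.2.2 (Z ∪ U ∪ W') ((hZ.union hU).union hW'f)
        obtain ⟨-, -, -, hSa, haf, haw, -⟩ := sw1 _ _ _ hWa
        obtain ⟨-, -, -, hSb, hbf, hbw, -⟩ := sw1 _ _ _ hW'
        have hWf : W.Finite := (sw2 _ _ _ hGi.1 hWa).1
        -- membership facts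
        have m1 : ∀ k ∈ W, k ∉ U := fun k hk hkU =>
          Set.disjoint_left.1 hWZ hk (Or.inl (Or.inr hkU))
        have m2 : ∀ k ∈ W, k ∉ W' := fun k hk hkU => Set.disjoint_left.1 hWZ hk (Or.inr hkU)
        have m3 : ∀ k ∈ W', k ∉ U := fun k hk hkU => Set.disjoint_left.1 hW'Z hk (Or.inr hkU)
        have hdis : Disjoint (Sp lab a) (Sp lab b) := by
          rw [Set.disjoint_left]
          intro k hka hkb
          rcases hSa hka with h | h <;> rcases hSb hkb with h' | h'
          · exact h'.2 h
          · exact m3 k h' (hBU h)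
          · exact m1 k h h'.1
          · exact m2 k h h'
        have hcom : a * b = b * a := gr11' a b hWa.1 hW'.1 hdis
        refine ⟨W ∪ W', a * b, ?_, hWf.union hW'f, gr2 _ _ hWa.1 hW'.1, ?_, ?_, ?_, ?_⟩
        · rw [Set.disjoint_union_left]
          exact ⟨hWZ.mono_right (fun k hk => Or.inl (Or.inl hk)),
            hW'Z.mono_right (fun k hk => Or.inl hk)⟩
        · rw [Set.disjoint_right]
          rintro k (hk | hk)
          · exact m1 k hk
          · exact m3 k hk
        · calc a * b * (a * b) = a * (b * a) * b := by group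
            _ = (a * a) * (b * b) := by rw [← hcom]; group
            _ = 1 := by rw [hWa.2.inv, hW'.2.inv, one_mul]
        · have e1 : ∀ k ∈ B, (a * b).1 k = a.1 k := by
            intro k hk
            show a.1 (b.1 k) = a.1 k
            rw [hbf k (fun h => h.2 hk) (fun h => m3 k h (hBU hk))]
          have e2 : ∀ k ∈ U \ B, (a * b).1 k = b.1 k := by
            intro k hk
            show a.1 (b.1 k) = b.1 k
            have h5 := hbw k hk
            exact haf _ (fun h => m3 _ h5 (hBU h)) (fun h => m2 _ h h5)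
          have e3 : U = B ∪ (U \ B) := (Set.union_sdiff_cancel hBU).symm
          rw [e3, Set.image_union, Set.image_congr e1, Set.image_congr e2, hWa.2.img, hW'.2.img]
        · intro x k hk hkU hkW
          show a.2 (b.2 x) = x
          rw [hW'.2.out x k hk (fun h => hkU h.1) (fun h => hkW (Or.inr h)),
            hWa.2.out x k hk (fun h => hkU (hBU h)) (fun h => hkW (Or.inl h))]
  exact key _ U hU rfl hB Z hZ

end UNE

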