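import Pool.Agent.UNE.StB

/-!
# UNE, module XCE: exchanges of a set of components and its copy exist as permutations
-/

set_option autoImplicit false
set_option linter.unusedVariables false
set_option linter.unusedSimpArgs false

namespace UNE

open Set UN

open Classical in
/-- the exchange on the components -/
noncomputable def xceI {I T : Type} (E : T → Set I) (t : T) (w : Set I) (hw : w ⊆ E t) :
    IC E → IC E
  | .inl i => if h : i ∈ w then .inr ⟨(t, i), hw h⟩ else .inl i
  | .inr c => if c.1.1 = t ∧ c.1.2 ∈ w then .inl c.1.2 else .inr c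

open Classical in
/-- the exchange on the elements -/
noncomputable def xceM {M I T : Type} (lab : M → Option I) (E : T → Set I) (t : T) (w : Set I)
    (hw : w ⊆ E t) : MC lab E → MC lab E
  | .inl x => if h : ∃ i ∈ w, lab x = some i then
      .inr ⟨(t, x), ⟨h.choose, hw h.choose_spec.1, h.choose_spec.2⟩⟩ else .inl x
  | .inr c => if c.1.1 = t ∧ ∃ i ∈ w, lab c.1.2 = some i then .inl c.1.2 else .inr c

theorem xceI_inv {I T : Type} (E : T → Set I) (t : T) (w : Set I) (hw : w ⊆ E t) :
    Function.Involutive (xceI E t w hw) := by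
  rintro (i | ⟨⟨t', i⟩, hi⟩)
  · by_cases h : i ∈ w
    · simp [xceI, h]
    · simp [xceI, h]
  · by_cases h : t' = t ∧ i ∈ w
    · obtain ⟨rfl, h⟩ := h
      simp [xceI, h]
    · simp only [xceI]
      rw [if_neg h]
      simp only [xceI]
      rw [if_neg h]

theorem xceM_inv {M I T : Type} (lab : M → Option I) (E : T → Set I) (t : T) (w : Set I)
    (hw : w ⊆ E t) : Function.Involutive (xceM lab E t w hw) := by
  rintro (x | ⟨⟨t', x⟩, hx⟩)
  · by_cases h : ∃ i ∈ w, lab x = some i
    · simp only [xceM]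
      rw [dif_pos h]
      simp only [xceM]
      rw [if_pos ⟨rfl, h⟩]
    · simp only [xceM]
      rw [dif_neg h]
      simp only [xceM]
      rw [dif_neg h]
  · by_cases h : t' = t ∧ ∃ i ∈ w, lab x = some i
    · obtain ⟨rfl, h⟩ := h
      simp only [xceM]
      rw [if_pos ⟨rfl, h⟩]
      simp only [xceM]
      rw [dif_pos h]
    · simp only [xceM]
      rw [if_neg h]
      simp only [xceM]
      rw [if_neg h]

theorem thm_XCE : St_XCE := by
  intro M I T lab E t w hw
  refine ⟨((xceI_inv E t w hw).toPerm, (xceM_inv lab E t w hw).toPerm), ⟨?_, ?_, ?_, ?_, ?_⟩, ?_⟩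
  · refine Prod.ext ?_ ?_
    · exact Equiv.ext fun c => xceI_inv E t w hw c
    · exact Equiv.ext fun c => xceM_inv lab E t w hw c
  · intro i h hi
    show xceI E t w hw (.inl i) = _
    simp [xceI, hi]
  · intro i x h hi hx
    show xceM lab E t w hw (.inl x) = _
    simp only [xceM]
    rw [dif_pos ⟨i, hi, hx⟩]
  · rintro (i | ⟨⟨t', i⟩, hi⟩) h1 h2
    · show xceI E t w hw (.inl i) = _
      simp only [xceI]
      rw [dif_neg fun h => h1 ⟨i, h, rfl⟩]
    · show xceI E t w hw (.inr ⟨(t', i), hi⟩) = _
      simp only [xceI]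
      refine if_neg ?_
      rintro ⟨rfl, h⟩
      exact h2 ⟨i, hi, h, rfl⟩
  · rintro (x | ⟨⟨t', x⟩, hx⟩) h1
    · show xceM lab E t w hw (.inl x) = _
      simp only [xceM]
      refine dif_neg ?_
      rintro ⟨i, hi, hx⟩
      exact (h1 (.inl i) (by rw [labC_inl, hx]; rfl)).1 ⟨i, hi, rfl⟩
    · show xceM lab E t w hw (.inr ⟨(t', x), hx⟩) = _
      simp only [xceM]
      refine if_neg ?_
      rintro ⟨rfl, i, hi, hxi⟩
      have hE : i ∈ E t' := hw hi
      exact (h1 (.inr ⟨(t', i), hE⟩) (labC_inr lab E t' x i hx hxi hE)).2 ⟨i, hE, hi, rfl⟩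
  · rintro (x | ⟨⟨t', x⟩, hx⟩)
    · show labC lab E (xceM lab E t w hw (.inl x)) = (labC lab E (.inl x)).map (xceI E t w hw)
      rw [labC_inl]
      by_cases h : ∃ i ∈ w, lab x = some i
      · obtain ⟨i, hi, hxi⟩ := h
        have h' : ∃ i ∈ w, lab x = some i := ⟨i, hi, hxi⟩
        have e1 : xceM lab E t w hw (.inl x) = .inr ⟨(t, x), ⟨i, hw hi, hxi⟩⟩ := by
          simp only [xceM]
          rw [dif_pos h']
        rw [e1, labC_inr lab E t x i _ hxi (hw hi), hxi]
        show _ = some (xceI E t w hw (.inl i))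
        simp [xceI, hi]
      · have e1 : xceM lab E t w hw (.inl x) = .inl x := by
          simp only [xceM]
          rw [dif_neg h]
        rw [e1, labC_inl]
        rcases hx : lab x with _ | i
        · rfl
        · show some (Sum.inl i) = some (xceI E t w hw (.inl i))
          have hi : i ∉ w := fun hi => h ⟨i, hi, hx⟩
          simp [xceI, hi]
    · show labC lab E (xceM lab E t w hw (.inr ⟨(t', x), hx⟩)) =
        (labC lab E (.inr ⟨(t', x), hx⟩)).map (xceI E t w hw)
      obtain ⟨j, hj, hxj⟩ := id hx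
      rw [labC_inr lab E t' x j hx hxj hj]
      by_cases h : t' = t ∧ ∃ i ∈ w, lab x = some i
      · have e1 : xceM lab E t w hw (.inr ⟨(t', x), hx⟩) = .inl x := by
          simp only [xceM]
          rw [if_pos h]
        obtain ⟨rfl, i, hi, hxi⟩ := h
        have hij : j = i := Option.some_injective _ (hxj.symm.trans hxi)
        subst hij
        rw [e1, labC_inl, hxj]
        show some (Sum.inl j) = some (xceI E t' w hw (.inr ⟨(t', j), hj⟩))
        simp [xceI, hi]
      · have e1 : xceM lab E t w hw (.inr ⟨(t', x), hx⟩) = .inr ⟨(t', x), hx⟩ := by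
          simp only [xceM]
          rw [if_neg h]
        rw [e1, labC_inr lab E t' x j hx hxj hj]
        show _ = some (xceI E t w hw (.inr ⟨(t', j), hj⟩))
        have e2 : ¬ (t' = t ∧ j ∈ w) := fun h' => h ⟨h'.1, j, h'.2, hxj⟩
        simp only [xceI]
        rw [if_neg e2]

end UNE
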