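import Pool.Agent.UNE.BIN
import Pool.Agent.UNE.BLK
import Pool.Agent.UNE.CNJ
import Pool.Agent.UNE.CPC
import Pool.Agent.UNE.CPD
import Pool.Agent.UNE.CPE
import Pool.Agent.UNE.CPG
import Pool.Agent.UNE.CPI
import Pool.Agent.UNE.CPQ
import Pool.Agent.UNE.CPR
import Pool.Agent.UNE.CPS
import Pool.Agent.UNE.CPX
import Pool.Agent.UNE.CPY
import Pool.Agent.UNE.CS1
import Pool.Agent.UNE.CS2
import Pool.Agent.UNE.DCI
import Pool.Agent.UNE.DEX
import Pool.Agent.UNE.DMV
import Pool.Agent.UNE.DNA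
import Pool.Agent.UNE.DNB
import Pool.Agent.UNE.EBI
import Pool.Agent.UNE.ENI
import Pool.Agent.UNE.EQX
import Pool.Agent.UNE.FNI
import Pool.Agent.UNE.GRA
import Pool.Agent.UNE.INT
import Pool.Agent.UNE.ISA
import Pool.Agent.UNE.ISB
import Pool.Agent.UNE.ISC
import Pool.Agent.UNE.ISD
import Pool.Agent.UNE.LVI
import Pool.Agent.UNE.NMD
import Pool.Agent.UNE.NMG
import Pool.Agent.UNE.NMZ
import Pool.Agent.UNE.PLM
import Pool.Agent.UNE.PLU
import Pool.Agent.UNE.PLX
import Pool.Agent.UNE.PRD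
import Pool.Agent.UNE.RES
import Pool.Agent.UNE.RSX
import Pool.Agent.UNE.SWP
import Pool.Agent.UNE.UBX
import Pool.Agent.UNE.XCE
import Pool.Agent.UN.ALL
import Pool.Agent.UN.FZZ
import Pool.Agent.UN.CMX
import Pool.Agent.UN.VPX
import Pool.Agent.UN.IDC
import Pool.Agent.UN.FVS
import Pool.Agent.UN.SIZ
import Pool.Agent.UN.LAB
import Pool.Agent.UN.CPT
import Pool.Agent.UN.EXC
import Pool.Agent.UN.GDP
import Pool.Agent.UN.CLR
import Pool.Agent.UN.LVF
import Pool.Agent.UN.LVE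

/-!
# UNE: assembly

Vaught's conjecture for universal theories in countable languages with function symbols of arity at
most one and relation symbols of any arity.
-/

set_option autoImplicit false
set_option linter.unusedVariables false

namespace UNE

theorem all_SWP : St_SWP := thm_SWP thm_GRA

theorem all_BLK : St_BLK := thm_BLK thm_GRA all_SWP (thm_INT thm_GRA all_SWP thm_RES)

theorem all_CNJ : St_CNJ := thm_CNJ thm_GRA all_SWP

theorem all_DMV : St_DMV := thm_DMV thm_GRA all_SWP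

theorem all_DNA : St_DNA := thm_DNA thm_GRA all_DMV

theorem all_DNB : St_DNB := thm_DNB thm_GRA all_SWP all_BLK all_DMV all_DNA

theorem all_PRD : St_PRD := thm_PRD thm_GRA

theorem all_RSX : St_RSX := thm_RSX thm_GRA all_SWP all_BLK all_CNJ all_PRD

theorem all_PLX : St_PLX := thm_PLX all_BLK (thm_UBX thm_GRA all_SWP all_BLK all_PRD)

theorem all_CPY : St_CPY := thm_CPY all_PLX (thm_PLU thm_GRA all_SWP all_PRD all_PLX) thm_PLM

theorem all_CPI : St_CPI := thm_CPI all_PLX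

theorem all_CPR : St_CPR := thm_CPR all_PLX

theorem all_CPS : St_CPS := thm_CPS thm_XCE (thm_CPE all_SWP all_BLK all_RSX all_PLX)

theorem all_EBI : St_EBI := thm_EBI (thm_BIN all_BLK)

theorem all_EQX : St_EQX := thm_EQX all_SWP all_EBI

theorem all_ISA : St_ISA := thm_ISA thm_GRA

theorem all_ISB : St_ISB := thm_ISB all_SWP all_BLK all_ISA

theorem all_CPD : St_CPD := thm_CPD all_SWP all_BLK thm_CPC all_CPI all_CPS

theorem all_CPG : St_CPG := thm_CPG all_BLK all_DNB thm_CPC all_CPR all_CPS all_CPD all_ISB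

theorem all_CPQ : St_CPQ := thm_CPQ all_EBI all_CPG

theorem all_CPX : St_CPX := thm_CPX thm_GRA all_SWP all_EBI thm_CPC all_CPR all_CPS

theorem all_NMD : St_NMD :=
  thm_NMD thm_GRA all_SWP all_BLK all_CNJ all_EBI thm_CPC all_CPI all_CPG

theorem all_NMG : St_NMG :=
  thm_NMG thm_GRA all_SWP all_DNA all_DNB all_EBI thm_CPC all_CPQ all_CPX all_NMD

theorem all_CS2 : St_CS2 :=
  thm_CS2 thm_GRA all_EBI all_EQX all_CPY thm_CPC (thm_ISC all_ISA all_ISB all_EBI) thm_ISD
    (thm_NMZ all_EQX all_NMG) thm_DEX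

theorem all_CS1 : St_CS1 := thm_CS1 all_SWP all_EBI all_EQX

theorem all_CMX : UN.St_CMX := UN.thm_CMX UN.all_IPA (UN.thm_IPB UN.all_IPA) UN.all_CMP

theorem all_SIZ : UN.St_SIZ :=
  UN.thm_SIZ UN.all_CMP all_CMX (UN.thm_IDC UN.thm_FZZ all_CMX)
    (UN.thm_FVS (UN.thm_VPX UN.all_IPA UN.all_CMP all_CMX) all_CMX) UN.thm_FZZ

theorem all_CPT : UN.St_CPT := UN.thm_CPT UN.all_CMP

theorem all_EXC : UN.St_EXC := UN.thm_EXC UN.all_SWP all_CPT UN.all_CMP

theorem all_LVE : UN.St_LVE :=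
  UN.thm_LVE UN.all_COM UN.all_WLU UN.thm_LSK UN.all_ROT UN.all_CMP UN.all_CMC UN.thm_LAB all_CPT
    (UN.thm_LVF UN.all_DTT UN.all_CMP UN.all_CMC UN.all_FST all_SIZ all_CPT all_EXC
      (UN.thm_GDP all_EXC all_CPT UN.all_CMP) UN.thm_CLR)

theorem all_ENI : St_ENI := thm_ENI UN.thm_PGU (thm_LVI thm_GRA all_LVE) all_CS2 all_CS1

/-- the dichotomy for universal classes of systems with unary functions -/
theorem all_DCI : St_DCI := thm_DCI (UN.thm_KWM UN.thm_CHR) (UN.thm_LEV UN.thm_CHR) all_ENI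

/-- Vaught's conjecture for universal theories with unary functions -/
theorem all_FNI : St_FNI := thm_FNI (UN.thm_UTU UN.thm_QFL) all_DCI

end UNE
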