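import Pool.Agent.UNE.Defs

/-!
# UNE, statements A: good sets, blocks, dense sets of components

Every module proves `thm_XXX : St_XXX` in `Pool/Agent/UNE/XXX.lean`; statements used are taken as
hypotheses, e.g. `theorem thm_INT (h1 : St_GRA) (h2 : St_SWP) (h3 : St_RES) : St_INT`. In the
docstrings `a x` means `a.2 x` for elements and `a.1 i` for components, `K_w` is the set of the elements
with labels in `w`; `(a * b).2 x = a.2 (b.2 x)`.
-/

set_option autoImplicit false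
set_option linter.unusedVariables false

namespace UNE

open Set UN

/-- [GRA] (1 h; no other module) The group of automorphisms.

Proof. Let `Am a`. If `i ∉ X`, take `y` with `lab y = some i` (`Cp.ne`): `a y = y`, so
`some i = lab (a y) = some (a i)`: `a i = i`. So `a i ∈ X ↔ i ∈ X` (injectivity of `a.1`), and `a` maps
`Sx lab X` to itself. The same argument: if `i ∉ Sp lab a` then `a i = i`. Products: `lb`, `root`,
`fn` are clear, `out`: `b x = x`, `a x = x`, `rel`: first for `a` and the tuple `b v` (in `Sx lab X`), then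
for `b` and `v`. Inverses: `lb` for `a⁻¹` and `x`: apply `lb` of `a` to `y = a⁻¹ x`; `rel`: `rel` of `a` for
the tuple `a⁻¹ v`. Supports: `(a * b) x ≠ x` implies `b x ≠ x` or `a x ≠ x`. `a⁻¹ x ≠ x` iff `a x ≠ x`.
Conjugation: `b a b⁻¹ x ≠ x` iff `a y ≠ y` for `y = b⁻¹ x`, and the label of `x` is `b` (label of `y`);
the label of `x` is not `none` because otherwise `x` is fixed. Disjoint supports: let `lab x = some i`; if
`i ∈ Sp lab b` then `i ∉ Sp lab a`, `a x = x`; `lab (b x) = some (b i)` and `b i ∈ Sp lab b` (if `b y ≠ y`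
and `lab y = some i` then `b (b y) ≠ b y`), so `b i ∉ Sp lab a` and `a (b x) = b x = b (a x)`; symmetric
if `i ∈ Sp lab a`; if `i` is in none of them both sides are `x`. The same for components (`a i = i` for
`i ∉ Sp lab a`). -/
def St_GRA : Prop := ∀ (G : Sg) (M I : Type) (S : Sys G M) (lab : M → Option I), Cp S lab →
  ∀ (Λ : Set G.Rl) (X : Set I),
  Am S lab Λ X 1 ∧
  (∀ a b, Am S lab Λ X a → Am S lab Λ X b → Am S lab Λ X (a * b)) ∧
  (∀ a, Am S lab Λ X a → Am S lab Λ X a⁻¹) ∧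
  (∀ a, ∀ Λ' ⊆ Λ, Am S lab Λ X a → Am S lab Λ' X a) ∧
  (∀ a, ∀ Y ⊆ X, Am S lab Λ X a → Sp lab a ⊆ Y → Am S lab Λ Y a) ∧
  (∀ a, Am S lab Λ X a → (∀ i ∉ X, a.1 i = i) ∧ (∀ i ∉ Sp lab a, a.1 i = i) ∧
    (∀ i, a.1 i ∈ X ↔ i ∈ X) ∧ (∀ x, a.2 x ∈ Sx lab X ↔ x ∈ Sx lab X) ∧ Sp lab a ⊆ X) ∧
  (∀ a b, Sp lab (a * b) ⊆ Sp lab a ∪ Sp lab b) ∧
  (∀ a, Sp lab a⁻¹ = Sp lab a) ∧
  (∀ a b, Am S lab Λ X a → Am S lab Λ X b → Sp lab (b * a * b⁻¹) ⊆ b.1 '' Sp lab a) ∧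
  (Ph S lab Λ X 1 ∧ (∀ a b, Ph S lab Λ X a → Ph S lab Λ X b → Ph S lab Λ X (a * b)) ∧
    ∀ a, Ph S lab Λ X a → Ph S lab Λ X a⁻¹) ∧
  ∀ (Λ' : Set G.Rl) (X' : Set I) a b, Am S lab Λ X a → Am S lab Λ' X' b →
    Disjoint (Sp lab a) (Sp lab b) → a * b = b * a

/-- [SWP] (1 h; uses `St_GRA`) Exchanges.

Proof. `a * a = 1` gives `a (a x) = x`, `a (a i) = i`, `a⁻¹ = a`, `a.1 '' w' = w`. Outside of `w ∪ w'`
components are fixed: `Sp lab a ⊆ w ∪ w'` by `Ex.out` and [GRA]. `w ⊆ X`: if `i ∈ w`, `i ∉ X`, then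
`a i = i` ([GRA]) is in `w'`, against `Disjoint w w'`; `w'` by symmetry. (4) `b a b⁻¹` is an involution,
maps `b '' w` onto `b '' w'`; if `lab x = some i` with `i` not in these sets, `y = b⁻¹ x` has a label not
in `w`, `w'`, so `a y = y`. (5) is (4) for `t` and `b = s`: `s '' w = w'`, `s '' w'' = w''` because the
elements of `w''` are not in `w` (`Ex.dis` for `t`) and not in `w'`, and `s⁻¹ = s`. -/
def St_SWP : Prop := ∀ (G : Sg) (M I : Type) (S : Sys G M) (lab : M → Option I), Cp S lab →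
  ∀ (Λ : Set G.Rl) (X : Set I),
  (∀ w w' a, Sw S lab Λ X w w' a → Sw S lab Λ X w' w a ∧ w ⊆ X ∧ w' ⊆ X ∧
    Sp lab a ⊆ w ∪ w' ∧ (∀ i, i ∉ w → i ∉ w' → a.1 i = i) ∧ (∀ i ∈ w, a.1 i ∈ w') ∧
    (∀ i, a.1 (a.1 i) = i) ∧ (∀ x, a.2 (a.2 x) = x) ∧ a⁻¹ = a) ∧
  (∀ w w' a, w.Finite → Sw S lab Λ X w w' a → w'.Finite ∧ Ph S lab Λ X a) ∧
  (∀ w w' a b, Sw S lab Λ X w w' a → Am S lab Λ X b →
    Sw S lab Λ X (b.1 '' w) (b.1 '' w') (b * a * b⁻¹)) ∧
  ∀ w w' w'' s t, Sw S lab Λ X w w' s → Sw S lab Λ X w w'' t → Disjoint w' w'' →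
    Sw S lab Λ X w' w'' (s * t * s)

/-- [RES] (0.7 h; no other module) Restriction of an involution to a set `Q` of components.

Proof. `e.1` and `e.2` are the permutations given by the involutions `fun i => if i ∈ Q then a.1 i else i`
and `fun x => if (∃ i ∈ Q, lab x = some i) then a.2 x else x` (`Function.Involutive.toPerm`); they are
involutions because `Q` is invariant under `a.1`. `lb`, `root`, `out`, `fn` are checked by cases (for `fn`:
`lab (S.fn f x)` is `none`, then both sides are fixed (if `lab x ∈ Q`: `e (f x) = f x = a (f x) = f (a x)`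
because `a` fixes the root), or `lab x`). `rel` is empty for `Λ = ∅`. (2) Let `R ∈ Λ` and `v` be in
`Sx lab X`, take `b` for it: `S.rel R (e v) ↔ S.rel R (b v) ↔ S.rel R v`. -/
def St_RES : Prop := ∀ (G : Sg) (M I : Type) (S : Sys G M) (lab : M → Option I), Cp S lab →
  ∀ (X : Set I),
  (∀ (a : Gp I M) (Q : Set I), Am S lab ∅ X a → a * a = 1 → (∀ i, a.1 i ∈ Q ↔ i ∈ Q) →
    ∃ e : Gp I M, Am S lab ∅ X e ∧ e * e = 1 ∧
      (∀ x i, lab x = some i → i ∈ Q → e.2 x = a.2 x) ∧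
      (∀ x i, lab x = some i → i ∉ Q → e.2 x = x) ∧
      (∀ i ∈ Q, e.1 i = a.1 i) ∧ ∀ i ∉ Q, e.1 i = i) ∧
  ∀ (Λ : Set G.Rl) (e : Gp I M), Am S lab ∅ X e →
    (∀ R ∈ Λ, ∀ v : Fin (G.ar R) → M, (∀ k, v k ∈ Sx lab X) →
      ∃ b, Am S lab Λ X b ∧ ∀ k, b.2 (v k) = e.2 (v k)) → Am S lab Λ X e

/-- [INT] (2 h; uses `St_GRA`, `St_SWP`, `St_RES`) Intersection and difference of good sets.

Proof. Let `P = B ∩ B'` be nonempty. If `P = B` it is good. Let `Z` be finite. `B'` and `Z` are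
finite: take a partner `B₁`, `Sw B B₁ s`, with `B₁` off `Z ∪ B'`. Let `P₁ = s '' P ⊆ B₁`, `Q = P ∪ P₁`;
`Q` is invariant under `s` (an involution). [RES] gives `e` = restriction of `s` to `Q`. Claim:
`Am Λ X e`. By [RES] (2) let a tuple `v` in `Sx lab X` be given, `V` the finite set of the labels of
its elements. Take `Sw B' C t` with `C` off `B ∪ B₁ ∪ V`, and `Sw B' C' t'` with `C'` off
`B ∪ B₁ ∪ V ∪ C`. Let `c = s * t * s * t`, `c' = s * t' * s * t'` (`∈ Am`). Computation of `c`: for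
`y ∈ K_P`: `c y = s t s (t y) = s t (t y) = s y` (`t y ∈ K_C`, fixed by `s`, as `C` is off `B ∪ B₁`);
`c (s y) = s t s (s y) = s (t y) = t y` (`s y ∈ K_{B₁}` is fixed by `t`: `B₁` is off `B'` and `C`);
`c (t y) = s t s y = s s y = y` (`s y ∈ K_{B₁}` is fixed by `t`). For `y ∈ K_{B \ P}`: fixed by `t`
(`B \ P` is off `B'` and `C`): `c y = s t s y = s s y = y`, `c (s y) = s t s (s y) = s t y = s y`. For `y`
in `K_{B' \ P}`: `t y ∈ K_C` is fixed by `s`: `c y = s t t y = s y = y` (`B' \ P` is off `B`, `B₁`);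
`c (t y) = s t s y = s t y = t y`. All other elements are fixed by `s` and `t`. So `c` is the `3`-cycle
`y ↦ s y ↦ t y ↦ y` for `y ∈ K_P`, and the identity elsewhere; `c'` with `t'` in place of `t`. Let
`b = c * c'⁻¹ * c`. For `y ∈ K_P`: `c y = s y`, `c'⁻¹ (s y) = y`, `c y = s y`: `b y = s y`.
`b (s y)`: `c (s y) = t y`, `c'⁻¹ (t y) = t y` (`C` is off `C'` and off `P`, `P₁`), `c (t y) = y`. If `x` is
not in `K_P`, `K_{P₁}`, `K_C`, `K_{C'}`, then `c`, `c'` fix it. So `b` agrees with `e` outside of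
`K_C ∪ K_{C'}`, in particular on the elements of `v` (labels in `V`). So `Am e`; `Ex lab P P₁ e`
(disjoint because `P ⊆ B`, `P₁ ⊆ B₁`); `P₁` is off `Z`: `P` is good.
Difference: let `D = B \ B'` be nonempty, `P` nonempty (otherwise `D = B`), `s`, `B₁`, `e` as above. `s * e` is
in `Am`; it is `s` on `K_D`, `K_{s '' D}` and the identity elsewhere (on `K_P`: `s (e y) = s (s y) = y`),
so `Ex lab D (s '' D) (s * e)`, `s '' D ⊆ B₁` is off `Z`. -/
def St_INT : Prop := ∀ (G : Sg) (M I : Type) (S : Sys G M) (lab : M → Option I), Cp S lab →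
  ∀ (Λ : Set G.Rl) (X B B' : Set I), Gs S lab Λ X B → Gs S lab Λ X B' →
  ((B ∩ B').Nonempty → Gs S lab Λ X (B ∩ B')) ∧ ((B \ B').Nonempty → Gs S lab Λ X (B \ B'))

/-- [BLK] (1.2 h; uses `St_GRA`, `St_SWP`, `St_INT`) Blocks.

Proof. Good sets are contained in `X` ([SWP], with `Z = ∅`). (1) Let `i` be good, `B` a good set
containing `i` with the smallest number of elements (`Set.ncard`). For every good `B' ∋ i` the set
`B ∩ B'` is good ([INT]) and contains `i`, so `B ∩ B' = B`. Hence `Bl i = B`. (2) Let `j ∈ Bl i`. `Bl i` is good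
and contains `j`, so `j` is good and `Bl j ⊆ Bl i`. If `i ∉ Bl j`, then `Bl i \ Bl j` is good ([INT]) and
contains `i`, so `Bl i ⊆ Bl i \ Bl j`, but `j ∈ Bl i`, `j ∈ Bl j`: contradiction. So `i ∈ Bl j` and
`Bl i ⊆ Bl j`. (3) `Gs B → Gs (a '' B)`: for `Z` finite take a partner `B₁` of `B` off `a⁻¹ '' Z`, conjugate by
`a` ([SWP] (3)): `Sw (a '' B) (a '' B₁)`, and `a '' B₁` is off `Z`. Then `Bl (a i) = a '' Bl i` (apply the
first part also to `a⁻¹`). (4) Exchanges of level `Λ` are exchanges of level `Λ' ⊆ Λ` ([GRA]), so good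
sets of level `Λ` are good of level `Λ'`, and `Bl Λ' i ⊆ Bl Λ i` (the latter is good of level `Λ'`).
(5) A good set `B` is the union of the blocks of its elements. -/
def St_BLK : Prop := ∀ (G : Sg) (M I : Type) (S : Sys G M) (lab : M → Option I), Cp S lab →
  ∀ (Λ : Set G.Rl) (X : Set I),
  (∀ B, Gs S lab Λ X B → B ⊆ X) ∧
  (∀ i, Gx S lab Λ X i → Gs S lab Λ X (Bl S lab Λ X i) ∧ i ∈ Bl S lab Λ X i) ∧
  (∀ i j, Gx S lab Λ X i → j ∈ Bl S lab Λ X i →
    Gx S lab Λ X j ∧ Bl S lab Λ X j = Bl S lab Λ X i) ∧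
  (∀ a B, Am S lab Λ X a → Gs S lab Λ X B → Gs S lab Λ X (a.1 '' B)) ∧
  (∀ a i, Am S lab Λ X a → Gx S lab Λ X i →
    Gx S lab Λ X (a.1 i) ∧ Bl S lab Λ X (a.1 i) = a.1 '' Bl S lab Λ X i) ∧
  (∀ Λ' ⊆ Λ, (∀ B, Gs S lab Λ X B → Gs S lab Λ' X B) ∧
    ∀ i, Gx S lab Λ X i → Gx S lab Λ' X i ∧ Bl S lab Λ' X i ⊆ Bl S lab Λ X i) ∧
  (∀ B, Gs S lab Λ X B → ∀ i ∈ B, Bl S lab Λ X i ⊆ B) ∧
  ∀ i j, Gx S lab Λ X i → Gx S lab Λ X j →
    (Bl S lab Λ X i = Bl S lab Λ X j ∨ Disjoint (Bl S lab Λ X i) (Bl S lab Λ X j))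

/-- [CNJ] (1 h; uses `St_GRA`, `St_SWP`) Conjugate good sets can be exchanged.

Proof. Take a partner `B''` of `B`, `Sw B B'' s`, off the finite set `Sp lab a ∪ B ∪ a '' B`. Let
`t = a * s * a⁻¹`: `Sw (a '' B) (a '' B'')` by [SWP] (3), and `a '' B'' = B''` (`a` fixes the components outside
of its support). So `Sw B'' (a '' B) t` and `Sw B'' B s` ([SWP], symmetry); by [SWP] (4) the exchange
`s * t * s` satisfies `Sw B (a '' B) (s * t * s)`. For `x ∈ K_B`: `s x ∈ K_{B''}`, `a⁻¹ (s x) = s x`,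
`t (s x) = a (s (s x)) = a x`, and `s (a x) = a x` because `a '' B` is disjoint from `B` and `B''`. -/
def St_CNJ : Prop := ∀ (G : Sg) (M I : Type) (S : Sys G M) (lab : M → Option I), Cp S lab →
  ∀ (Λ : Set G.Rl) (X B : Set I) (a : Gp I M), Gs S lab Λ X B → Ph S lab Λ X a →
  Disjoint (a.1 '' B) B →
  ∃ t, Sw S lab Λ X B (a.1 '' B) t ∧ ∀ x i, lab x = some i → i ∈ B → t.2 x = a.2 x

/-- [BIN] (0.8 h; uses `St_BLK`) Infinity blocks.

Proof. `Λ n` is increasing, so `Bl (Λ n) i` is increasing in `n` for `i` good at all levels ([BLK] (6)).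
Let `j ∈ Bi i`, `j ∈ Bl (Λ n) i`. For `m ≥ n`: `j ∈ Bl (Λ m) i`, so `j` is good at the level `m` and
`Bl (Λ m) j = Bl (Λ m) i` ([BLK] (3)); for `m < n` `j` is good at the level `m` ([BLK] (6)). The union over
`m ≥ n` is the same as the union over all `m`. Countable: a countable union of finite sets.
`Bi i ∩ Bi j ≠ ∅`: common element `k`, `Bi i = Bi k = Bi j`. Last part: for `j ∈ Bi i` the block
`Bl (Λ n) j` is contained in `Bi j = Bi i`. -/
def St_BIN : Prop := ∀ (G : Sg) (M I : Type) (S : Sys G M) (lab : M → Option I), Cp S lab →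
  ∀ (Λ : ℕ → Set G.Rl), Lvl Λ → ∀ (X : Set I) (i : I), Gi S lab Λ X i →
  i ∈ Bi S lab Λ X i ∧ (Bi S lab Λ X i).Countable ∧ Bi S lab Λ X i ⊆ X ∧
  (∀ j ∈ Bi S lab Λ X i, Gi S lab Λ X j ∧ Bi S lab Λ X j = Bi S lab Λ X i) ∧
  (∀ j, Gi S lab Λ X j →
    (Bi S lab Λ X i = Bi S lab Λ X j ∨ Disjoint (Bi S lab Λ X i) (Bi S lab Λ X j))) ∧
  (∀ n, ∀ j ∈ Bi S lab Λ X i, Bl S lab (Λ n) X j ⊆ Bi S lab Λ X i) ∧
  ∀ m n, m ≤ n → Bl S lab (Λ m) X i ⊆ Bl S lab (Λ n) X i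

/-- [DMV] (1 h; uses `St_GRA`, `St_SWP`) Moving finitely many components into a dense set.

Proof. Let `BB` be the family of `Den.cov`. Claim: for all finite sets `Z ⊆ Y` and `W ⊆ Z` with `W ∩ X = ∅`
there is `g` with `Ph Y g`, `g j ∈ X` for `j ∈ W`, and every `i ∈ Sp lab g` is either in a set `B ∈ BB` which
meets `W`, or in `X`, not in `D`, not in `Z`. Induction on the number of elements of `W`. `W = ∅`: `g = 1`.
Otherwise take `j ∈ W`, `j ∈ B ∈ BB` and `Sw B w' a` (in `Y`) with `w' ⊆ X` off `Z ∪ D`. Let `g'` be given by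
the induction hypothesis for `Z ∪ w'` and `W \ B`. `g := g' * a`. For `j' ∈ W ∩ B`: `a j' ∈ w'`, which is in `X`
and in `Z ∪ w'`, so not in `Sp lab g'` (sets of `BB` are disjoint from `X`), `g j' = a j' ∈ X`. For
`j' ∈ W \ B`: `j'` is not in `B`, not in `w' ⊆ X`, so `a j' = j'`, `g j' = g' j' ∈ X`. Supports: [GRA],
`Sp lab a ⊆ B ∪ w'`. For the statement take `W = {j ∈ Z | j ∉ X}`: `Sp lab g` is disjoint from `D` and from
`Z ∩ X` because the sets of `BB` are disjoint from `X ⊇ D`; components of `Z ∩ X` are fixed. -/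
def St_DMV : Prop := ∀ (G : Sg) (M I : Type) (S : Sys G M) (lab : M → Option I), Cp S lab →
  ∀ (Λ : Set G.Rl) (X Y D Z : Set I), Den S lab Λ X Y D → Z.Finite → Z ⊆ Y →
  ∃ g, Ph S lab Λ Y g ∧ (∀ i ∈ Z, g.1 i ∈ X) ∧ Disjoint (Sp lab g) D ∧
    ∀ i ∈ Z, i ∈ X → i ∉ Sp lab g ∧ g.1 i = i

/-- [DNA] (1 h; uses `St_GRA`, `St_DMV`) Automorphisms of a dense set extend.

Proof. `lb`, `root`, `fn` are the same for `X` and `Y`; `out`: `i ∉ Y` implies `i ∉ X`. `rel`: let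
`R ∈ Λ`, `v` in `Sx lab Y`, `Z` the set of the labels of its elements (`⊆ Y`, finite). [DMV] gives `g`; its
support is disjoint from `D ⊇ Sp lab a`, so `g * a = a * g` ([GRA]). `g v` and `a (g v)` are in `Sx lab X`
([GRA]). So `S.rel R (a v) ↔ S.rel R (g (a v))` (`a v` is in `Sx lab Y`, `Am Y g`)
`↔ S.rel R (a (g v)) ↔ S.rel R (g v)` (`Am X a`) `↔ S.rel R v`. -/
def St_DNA : Prop := ∀ (G : Sg) (M I : Type) (S : Sys G M) (lab : M → Option I), Cp S lab →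
  ∀ (Λ : Set G.Rl) (X Y D : Set I) (a : Gp I M), Den S lab Λ X Y D → Am S lab Λ X a →
  Sp lab a ⊆ D → Am S lab Λ Y a

/-- [DNB] (1.2 h; uses `St_GRA`, `St_SWP`, `St_BLK`, `St_DMV`, `St_DNA`) Good sets and blocks of a dense
set.

Proof. (1) `→`: [DNA] with `D = Sp lab a` (finite, `⊆ X` by [GRA]). `←`: [GRA] (5). (2) `w ⊆ X` finite.
`→`: exchanges in `X` are exchanges in `Y` by (1) (their supports are finite, [SWP]). `←`: let `Z` be
finite, `w'` a partner of `w` in `Y` off `Z`, exchange `s`. [DMV] for `D = w ∪ (Z ∩ X)` (`⊆ X`, finite) and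
the finite set `w ∪ w' ⊆ Y`: `g` fixes `w` and `w' ∩ X` and moves `w'` into `X`. `g s g⁻¹` is an exchange of
`g '' w = w` and `g '' w' ⊆ X` ([SWP] (3)), with support in `X`, so an exchange in `X` ([GRA] (5)). It is off
`Z`: an element of `g '' w'` is either in `w' ∩ X`, off `Z`, or it is `g j`, `j ∈ w' \ X`; then `g j ≠ j`
(`g j ∈ X`), so `g j ∈ Sp lab g` (otherwise `g (g j) = g j`), which is disjoint from `D ⊇ Z ∩ X`.
(3) Let `i ∈ X` be good in `Y`, `BB` the family of `Den X Y ∅`. All `B ∈ BB` are good in `Y` if they are not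
empty (the partners in `cov`). `Bl Y i ⊆ X`: if `j ∈ Bl Y i`, `j ∉ X` (`j ∈ Y`), `j ∈ B ∈ BB`, then
`i ∈ Bl Y i = Bl Y j ⊆ B` ([BLK]), against `Disjoint B X`. By (2) `Bl Y i` is good in `X`; so `i` is good in `X`
and `Bl X i ⊆ Bl Y i`; `Bl X i` is good in `Y` by (2), so `Bl Y i ⊆ Bl X i`. If `i ∈ X` is good in `X`, then
it is good in `Y` by (2). -/
def St_DNB : Prop := ∀ (G : Sg) (M I : Type) (S : Sys G M) (lab : M → Option I), Cp S lab →
  ∀ (Λ : Set G.Rl) (X Y : Set I), (∀ D : Set I, D.Finite → D ⊆ X → Den S lab Λ X Y D) →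
  (∀ a, Ph S lab Λ X a ↔ Ph S lab Λ Y a ∧ Sp lab a ⊆ X) ∧
  (∀ w, w.Finite → w ⊆ X → (Gs S lab Λ X w ↔ Gs S lab Λ Y w)) ∧
  ∀ i ∈ X, (Gx S lab Λ X i ↔ Gx S lab Λ Y i) ∧
    (Gx S lab Λ Y i → Bl S lab Λ X i = Bl S lab Λ Y i)

end UNE
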