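import Pool.Agent.UNE.DefsB
import Pool.Agent.UNE.StA

/-!
# UNE, statements B: copies of unions of blocks

Paper: /team-store/VC_endgame_helper34.md, section 3. Every module proves `thm_XXX : St_XXX` in
`Pool/Agent/UNE/XXX.lean`; statements used are taken as hypotheses (also the statements `St_GRA`,
`St_SWP`, `St_BLK`, .. of `StA.lean`; a module may use any statement of `StA.lean` as a further
hypothesis, even if it is not named in the docstring). In the docstrings `a x` means `a.2 x` for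
elements and `a.1 i` for components; `K_w` is the set of the elements with labels in `w`. If
`lab x = some i` then `lab (a x) = some (a i)`; `a` maps `Sp lab a` onto itself; words:
`a (S.w l x) = S.w l (a x)`.
-/

set_option autoImplicit false
set_option linter.unusedVariables false

namespace UNE

open Set UN

/-- [PRD] (0.5 h; uses `St_GRA`) Products of automorphisms with disjoint supports.

Proof. Induction on the finite set `{p | p ∈ F}`, `F : Finset P` (for the family restricted to `F`),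
start `b = 1`. Step: `b * a p`. For `lab x = some i`, `i ∈ Sp lab (a p)`: `(a p).2 x` is in the
component `(a p).1 i ∈ Sp lab (a p)`, which is not in `Sp lab b`, so `b.2 ((a p).2 x) = (a p).2 x`; for
`i ∈ Sp lab (a p')`, `p' ∈ F`: `i ∉ Sp lab (a p)`, so `(a p).2 x = x`. The support of the product is in
the union. -/
def St_PRD : Prop := ∀ (G : Sg) (M I P : Type) (S : Sys G M) (lab : M → Option I) (Λ : Set G.Rl)
  (X : Set I) (a : P → Gp I M), Cp S lab → Finite P → (∀ p, Ph S lab Λ X (a p)) →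
  (∀ p p', p ≠ p' → Disjoint (Sp lab (a p)) (Sp lab (a p'))) →
  ∃ b, Ph S lab Λ X b ∧ Sp lab b ⊆ ⋃ p, Sp lab (a p) ∧
    ∀ p x i, lab x = some i → i ∈ Sp lab (a p) → b.2 x = (a p).2 x

/-- [RSX] (1 h; uses `St_GRA`, `St_SWP`, `St_BLK`, `St_CNJ`, `St_PRD`) Exchanges of finite sets
restrict to unions of blocks.

Proof. Let `P` be the finite set of the blocks `Bl i`, `i ∈ Q`: pairwise disjoint ([BLK]), finite, good,
with union `Q`. For `B ∈ P`: `B ⊆ w`, `a '' B ⊆ w'`, so `a '' B` is disjoint from `B`; `a` is in `Ph`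
([SWP]). [CNJ] gives `t B` with `Sw B (a '' B) (t B)` and `t B = a` on `K_B`. `Sp (t B) ⊆ B ∪ a '' B`
([SWP]); for different blocks these sets are disjoint (`a.1` is injective, `w` and `w'` are disjoint).
`St_PRD` gives `b`. (1) For `x ∈ K_B`: `b x = a x`: `t B x = a x` is in `K_w'`, so it is not `x` and the
component of `x` is in `Sp (t B)`; so `b x = t B x`. Hence `b.1 = a.1` on `Q` (`Cp.ne`, `lb`), `b '' Q =
a '' Q`. (2) `b * b = 1`: let `lab x = some i`; if `i ∈ Sp (t B)` then `b x = t B x` has its component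
in `Sp (t B)`, so `b (b x) = t B (t B x) = x`; if `i` is in no `Sp (t B)`, then `i ∉ Sp b`, `b x = x`;
on components by `Cp.ne`. (3) `out`: `i ∉ Q`, `i ∉ a '' Q` is in no `Sp (t B)`. -/
def St_RSX : Prop := ∀ (G : Sg) (M I : Type) (S : Sys G M) (lab : M → Option I) (Λ : Set G.Rl)
  (X w w' Q : Set I) (a : Gp I M), Cp S lab → w.Finite → Sw S lab Λ X w w' a → Q ⊆ w →
  (∀ i ∈ Q, Gx S lab Λ X i ∧ Bl S lab Λ X i ⊆ Q) →
  ∃ b, Sw S lab Λ X Q (a.1 '' Q) b ∧ (∀ x i, lab x = some i → i ∈ Q → b.2 x = a.2 x) ∧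
    ∀ i ∈ Q, b.1 i = a.1 i

/-- [UBX] (0.8 h; uses `St_GRA`, `St_SWP`, `St_BLK`, `St_PRD`) Finite unions of blocks have exchanges
off every finite set.

Proof. Let `P` be the finite set of the blocks `Bl i`, `i ∈ U`; they are pairwise disjoint with union
`U`, all are good and finite. By induction on the number of blocks choose for every block `B ∈ P` an
exchange `a B` of `B` with `W B`, `W B` disjoint from `Z`, `U` and the sets `W B'` chosen before (all
these sets are finite). `Sp lab (a B) ⊆ B ∪ W B`. `St_PRD` gives `b`, `W := ⋃ W B`. `b * b = 1`: for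
`lab x = some i`, if `i ∈ Sp lab (a B)` then `b.2 x = (a B).2 x` is in a component in `Sp lab (a B)`
again, so `b.2 (b.2 x) = x`; otherwise `b.2 x = x`; on components by `Cp.ne` (`lb`). `b.1 '' U = W`: if
`i ∈ B`, `lab x = some i` (`Cp.ne`), then `b.2 x = (a B).2 x` (also if `i ∉ Sp lab (a B)`: impossible,
as `(a B).1 i ∈ W B` is different from `i`). -/
def St_UBX : Prop := ∀ (G : Sg) (M I : Type) (S : Sys G M) (lab : M → Option I) (Λ : Set G.Rl)
  (X U Z : Set I), Cp S lab → U.Finite → Z.Finite →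
  (∀ i ∈ U, Gx S lab Λ X i ∧ Bl S lab Λ X i ⊆ U) →
  ∃ W b, Disjoint W Z ∧ W.Finite ∧ Sw S lab Λ X U W b

/-- [PLX] (0.8 h; uses `St_BLK`, `St_UBX`) Fresh placements: exchanges of the sets `Tc Z t` with sets `W t`
which are disjoint from each other, from `F`, and from the sets `Tc Z t'`.

Proof. `Tc Z t` is finite (finitely many `(t, i)` in `Z`; blocks of good components are finite), and
empty for all but finitely many `t`; it is a union of blocks (`EB`; `j ∈ Bl i` implies
`Bl j = Bl i`). Let `F' := F ∪ ⋃ t, Tc Z t ∪ {i | Sum.inl i ∈ Z}`, finite. For the finitely many `t`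
with `Tc Z t ≠ ∅` choose by induction (`Finset.induction_on`, or an enumeration) exchanges `σ t` of
`Tc Z t` with `W t`, disjoint from `F'` and the earlier `W t'` (`St_UBX`, `X = univ`). For the other `t`:
`σ t := 1`, `W t := ∅`. `Plc`: `(σ t).1 '' Tc Z t = W t`. -/
def St_PLX : Prop := ∀ (G : Sg) (M I T : Type) (S : Sys G M) (lab : M → Option I) (Λ : Set G.Rl)
  (E : T → Set I) (Z : Set (IC E)) (F : Set I), Cp S lab → EB S lab Λ E → Z.Finite → F.Finite →
  ∃ (σ : T → Gp I M) (W : T → Set I), Plc S lab Λ E Z σ ∧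
    ∀ t, Ex lab (Tc S lab Λ E Z t) (W t) (σ t) ∧ (W t).Finite ∧ Disjoint (W t) F ∧
      (∀ t', Disjoint (W t) (Tc S lab Λ E Z t')) ∧ ∀ t', t ≠ t' → Disjoint (W t) (W t')

/-- [PLU] (1.2 h; uses `St_GRA`, `St_SWP`, `St_PRD`, `St_PLX`) Two placements of `Z` differ by an automorphism with finite
support which fixes the components of `M` in `Z`.

Proof. The set `P` of the `t` with `Tc Z t ≠ ∅` is finite. Let `F` be the union of the `i` with
`Sum.inl i ∈ Z`, of `Sp lab (σ t)`, `Sp lab (σ' t)`, `(σ t).1 '' Tc Z t`, `(σ' t).1 '' Tc Z t` for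
`t ∈ P`; it is finite. Let `τ`, `W` be given by `St_PLX` for `F`. Claim for `σ` and `τ`: there is `g` in
`Ph` which fixes the elements of the components of `M` in `Z` and with
`g.2 ((σ t).2 x) = (τ t).2 x` for all `t`, `lab x = some i`, `i ∈ Tc Z t`; the same for `σ'`, and the
result is `g'⁻¹ * g`. Proof of the claim: for `t ∈ P` let `s t := σ t * τ t * (σ t)⁻¹`. Its support is
contained in `(σ t).1 '' (Tc Z t ∪ W t) = (σ t).1 '' Tc Z t ∪ W t` (`W t` is not in the support of
`σ t`). These sets are disjoint for different `t` (`Plc.dis`, `W t` is disjoint from `F`). For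
`x` in a component in `Tc Z t`: `(s t).2 ((σ t).2 x) = (σ t).2 ((τ t).2 x) = (τ t).2 x`, as `(τ t).2 x` is in
a component in `W t`. `St_PRD` gives `g`; if `(σ t).2 x` is in a component which is not in the support of
`s t`, then `(s t).2 ((σ t).2 x) = (σ t).2 x` would be in `W t`, impossible. `g` fixes the elements of the
components of `M` in `Z`: they are not in `(σ t).1 '' Tc Z t` (`Plc.off`) and not in `W t`. -/
def St_PLU : Prop := ∀ (G : Sg) (M I T : Type) (S : Sys G M) (lab : M → Option I) (Λ : Set G.Rl)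
  (E : T → Set I) (Z : Set (IC E)) (σ σ' : T → Gp I M), Cp S lab → EB S lab Λ E → Z.Finite →
  Plc S lab Λ E Z σ → Plc S lab Λ E Z σ' →
  ∃ g, Ph S lab Λ univ g ∧ (∀ x i, lab x = some i → Sum.inl i ∈ Z → g.2 x = x) ∧
    ∀ t x i, lab x = some i → i ∈ Tc S lab Λ E Z t → g.2 ((σ t).2 x) = (σ' t).2 x

/-- [PLM] (0.5 h; no other module; `Am` for `Λ'` implies `Am` for `Λ ⊆ Λ'`) Placements are
monotone: a placement at a higher level and of a larger set is a placement.

Proof. `Gs` at `Λ'` implies `Gs` at `Λ`, so `Bl S lab Λ univ i ⊆ Bl S lab Λ' univ i`. Hence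
`Tc Λ Z t ⊆ Tc Λ' Z' t` for `Z ⊆ Z'`. `Ph` for `Λ'` implies `Ph` for `Λ`. -/
def St_PLM : Prop := ∀ (G : Sg) (M I T : Type) (S : Sys G M) (lab : M → Option I)
  (Λ Λ' : Set G.Rl) (E : T → Set I) (Z Z' : Set (IC E)) (σ : T → Gp I M), Λ ⊆ Λ' → Z ⊆ Z' →
  Plc S lab Λ' E Z' σ → Plc S lab Λ E Z σ

/-- [CPY] (1.2 h; uses `St_PLX`, `St_PLU`, `St_PLM`) The extension by the copies.

Proof. `S'.fn f (Sum.inl x) := Sum.inl (S.fn f x)`, `S'.fn f (Sum.inr ⟨(t, x), h⟩) := Sum.inr ⟨(t, S.fn
f x), _⟩` if `∃ j ∈ E t, lab (S.fn f x) = some j` (classical), and `Sum.inl (S.fn f x)` otherwise; if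
`lab x = some i`, `i ∈ E t`, then by `Cp.fn` `lab (S.fn f x)` is `none` or `some i`.
`S'.rel R v := ∃ n σ, R ∈ Λ n ∧ Plc S lab (Λ n) E (Zv v) σ ∧ S.rel R fun k => pm lab E σ (v k)`, where
`Zv v := {c | ∃ k, labC lab E (v k) = some c}` (finite).
`pl`: let `R ∈ Λ n`, `σ` a placement of `Z` at level `n`, `v k ∈ Sx (labC lab E) Z`, so `Zv v ⊆ Z` and
`σ` is a placement of `Zv v` (`St_PLM`). From right to left: definition. From left to right: let
`m, σ'` be a witness, `l := min m n`; both are placements of `Zv v` at the level `l`, but we need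
`R ∈ Λ l`: `Λ l` is `Λ m` or `Λ n` (`Lvl.mono`), fine. `St_PLU` at level `l` for `σ'`, `σ` gives `g`, and
`g.2 (pm lab E σ' (v k)) = pm lab E σ (v k)`: if `v k = Sum.inl x` with `lab x = some i` then
`Sum.inl i ∈ Zv v`; if `lab x = none` then `g.2 x = x` (`Am.root`); if `v k = Sum.inr ⟨(t, x), h⟩`,
`lab x = some i`, then `i ∈ Tc Zv t` (`i ∈ Bl i`; `labC_inr`). `Am.rel` for `g` (all elements are in
`Sx lab univ`).
Member of the class, by `IsU.loc`: the universe is not empty (`IsU.ne` for `S`). Let `v : Fin n → MC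
lab E` and a finite set `Δ` of atoms be given. There is `m` with all relation symbols of the atoms in
`Δ` in `Λ m` (`Lvl.all`, `Lvl.mono`). Let `Z := Zv v`, `σ` a placement of `Z` at level `m` (`St_PLX`).
Then `pm lab E σ (S'.w l y) = S.w l (pm lab E σ y)` and `S'.w l y ∈ Sx (labC lab E) Z` for all words `l`
and `y ∈ Sx (labC lab E) Z` (induction on `l`; `fl`, `fn`, `fr`; `Am.fn`, and `Am.root` in the case
`fn`). `pm lab E σ` is injective on `Sx (labC lab E) Z`: `off`, `dis`, and `lb` (an element of the root or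
of a component `i`, `Sum.inl i ∈ Z`, is not in a component of `(σ t).1 '' Tc Z t`; elements of the
root are fixed by `σ t`). So `Tr S' v a ↔ Tr S (pm lab E σ ∘ v) a` for `a ∈ Δ`, and the member is
`S`. -/
def St_CPY : Prop := ∀ (G : Sg) (U : ∀ M : Type, Sys G M → Prop) (M I T : Type) (S : Sys G M)
  (lab : M → Option I) (Λ : ℕ → Set G.Rl) (E : T → Set I), IsU U → U M S → Cp S lab → Lvl Λ →
  (∀ n, EB S lab (Λ n) E) → ∃ S' : Sys G (MC lab E), Cpy S lab Λ E S' ∧ U (MC lab E) S'

/-- [CPC] (0.5 h; no other module) The components of the extension.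

Proof. `fn`: by cases; for `Sum.inr ⟨(t, x), h⟩`, `lab x = some i`, `Cp.fn` for `S` and `fn`, `fr`,
`labC_inr`. `ne`: `Cp.ne`. `ctb`: `labC_some_inl`, `labC_some_inr` (images of the countable sets
`{x | lab x = some i}`). `con`: map the path in `M` (`Relation.ReflTransGen.lift`; for the copies use
induction on the path, all its elements are in the component `i`: `Adj` implies equal labels by
`Cp.fn`). -/
def St_CPC : Prop := ∀ (G : Sg) (M I T : Type) (S : Sys G M) (lab : M → Option I)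
  (Λ : ℕ → Set G.Rl) (E : T → Set I) (S' : Sys G (MC lab E)), Cp S lab → Cpy S lab Λ E S' →
  Cp S' (labC lab E)

/-- [CPI] (1 h; uses `St_PLX`) Automorphisms of `S` with finite support extend by the identity on the
copies.

Proof. `lb`, `root`, `out`, `fn` by cases (`exC`; for `fn` on `Sum.inr`: `S'.fn f` of a copy is a copy, or
an element of the root, which is fixed). `rel`: let `R ∈ Λ n`, `v`; `Z :=` the set of the components of
the `v k`, `Z' := Z ∪ {c | ∃ i, c = Sum.inl (a.1 i), Sum.inl i ∈ Z}` (finite), `F := Sp lab a ∪ {i |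
Sum.inl i ∈ Z'}`. `St_PLX` for `Z'`, `F`: `σ`, `W`. Then `pm lab E σ ((exC a).2 (v k)) = a.2 (pm lab E σ
(v k))`: for `v k = Sum.inl x` clear; for `v k = Sum.inr ⟨(t, x), h⟩`: `(σ t).2 x` is in a component in
`W t`, not in `Sp lab a`. `Cpy.pl` for `Z'` and both tuples, `Am.rel` for `a`. Support: `Sp (exC a) =
Sum.inl '' Sp a`. -/
def St_CPI : Prop := ∀ (G : Sg) (M I T : Type) (S : Sys G M) (lab : M → Option I)
  (Λ : ℕ → Set G.Rl) (E : T → Set I) (S' : Sys G (MC lab E)), Cp S lab → Lvl Λ →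
  (∀ n, EB S lab (Λ n) E) → Cpy S lab Λ E S' → ∀ (n : ℕ) (a : Gp I M),
  Ph S lab (Λ n) univ a → Ph S' (labC lab E) (Λ n) univ (exC lab E a)

/-- [CPR] (0.8 h; uses `St_PLX`) Automorphisms of the extension which are the identity on the copies
come from `S`.

Proof. Let `a` be an automorphism with `Am S' .. (range Sum.inl)`. It is the identity on the elements
`Sum.inr c` (`Am.out`), so `a.2` maps `range Sum.inl` onto itself (permutation), `a.2 (Sum.inl x) =
Sum.inl (s x)` for a permutation `s` of `M`; on components: `a.1 (Sum.inr c) = Sum.inr c` (`lb` and an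
element of the component, `Cp.ne`), so `a.1 (Sum.inl i) = Sum.inl (r i)`. `b := (r, s)`. `Am S ..`: `lb`,
`root` by injectivity of `Sum.inl`; `fn` by `Cpy.fl`; `rel`: for `v : Fin _ → M` apply `Am.rel` to
`Sum.inl ∘ v`, and `Cpy.pl` for the finite set `Z` of the components `Sum.inl i` of the `v k` and
`a.2 (v k)` and any placement of `Z` (`St_PLX`; `pm` is the identity on `M`): `S'.rel R (Sum.inl ∘ v) ↔
S.rel R v`. `a = exC b`. -/
def St_CPR : Prop := ∀ (G : Sg) (M I T : Type) (S : Sys G M) (lab : M → Option I)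
  (Λ : ℕ → Set G.Rl) (E : T → Set I) (S' : Sys G (MC lab E)), Cp S lab → Lvl Λ →
  (∀ n, EB S lab (Λ n) E) → Cpy S lab Λ E S' →
  (∀ (n : ℕ) (a : Gp (IC E) (MC lab E)),
    Am S' (labC lab E) (Λ n) (range (Sum.inl : I → IC E)) a →
      ∃ b, a = exC lab E b ∧ Am S lab (Λ n) univ b) ∧
  ∀ (n : ℕ) (R : G.Rl) (v : Fin (G.ar R) → M), S'.rel R (Sum.inl ∘ v) ↔ S.rel R v

/-- [XCE] (0.4 h; no other module) Exchanges of a set of components and its copy exist as
permutations.

Proof. `w ⊆ E t`. `a.2`: `Sum.inl x ↦ Sum.inr ⟨(t, x), _⟩` if `lab x = some i` with `i ∈ w`, otherwise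
`Sum.inl x`; `Sum.inr ⟨(t', x), h⟩ ↦ Sum.inl x` if `t' = t` and `lab x = some i` with `i ∈ w`, otherwise
the same (classical); an involution. `a.1` in the same way. -/
def St_XCE : Prop := ∀ (M I T : Type) (lab : M → Option I) (E : T → Set I) (t : T) (w : Set I),
  w ⊆ E t → ∃ a, XC lab E t w a ∧ ∀ x, labC lab E (a.2 x) = (labC lab E x).map a.1

/-- [CPE] (1.3 h; uses `St_SWP`, `St_BLK`, `St_RSX`, `St_PLX`) The exchange of a union of blocks and
its copy is an automorphism.

Proof. `a` is an involution. `root`, `out` from `oe`; `fn`: by cases: for `Sum.inl x` in a component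
`i ∈ w`: `S.fn f x` is in the same component or in the root (`Cp.fn`), use `fl`, `fn`, `fr`; similarly
for the copies. `rel`: let `R ∈ Λ n`, `v`, `Z₀` the set of the components of the `v k`, `Z := Z₀ ∪ a ''
Z₀`, and let `Q` be the union of the blocks `Bl S lab (Λ n) univ i`, `i ∈ w`, with
`Sum.inr ⟨(t, i), _⟩ ∈ Z` (by `cm` this is the same as `Sum.inl i ∈ Z`). `Q` is finite, `Q ⊆ w`, `Q ⊆
Tc Z t`; an element `j` of `Tc Z t` which is not in `Q` is not in `w` (`j ∈ Bl i`, `i ∉ w`; if `j ∈ w`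
then `i ∈ Bl j ⊆ w` by [BLK] (3)). Let `F := Q ∪ {i | Sum.inl i ∈ Z}` and `σ`, `W` given by `St_PLX`
for `Z`, `F`. `σ t` is an exchange of the finite sets `Tc Z t` and `W t`; `St_RSX` gives an exchange
`b` of `Q` and `σ t '' Q` which agrees with `σ t` on `K_Q`. Then `pm σ (a (v k)) = b (pm σ (v k))`
for all `k`:
(1) `v k = Sum.inl x`, `lab x = some i`, `i ∈ w`: left `σ t x`, right `b x = σ t x`, as `i ∈ Q`.
(2) `v k = Sum.inl x`, `i ∉ w` or `x` in the root: both are `x`: `i ∉ Q`, and `i ∉ W t ⊇ σ t '' Q` as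
`F` contains it.
(3) `v k = Sum.inr ⟨(t, x), _⟩`, `i ∈ w` (so `i ∈ Q`): left `x`, right `b (σ t x) = b (b x) = x`.
(4) `v k = Sum.inr ⟨(t, x), _⟩`, `i ∉ w`: both are `σ t x`, as its component `σ t i ∈ W t` is not in
`Q ⊆ F`, and not in `σ t '' Q` (`i ∉ Q`).
(5) `v k = Sum.inr ⟨(t', x), _⟩`, `t' ≠ t`: both are `σ t' x`, in a component in `W t'`, which is disjoint
from `Q ⊆ F` and from `W t ⊇ σ t '' Q`.
`Cpy.pl` for `Z` and both tuples, and `Am.rel` for `b`. -/
def St_CPE : Prop := ∀ (G : Sg) (M I T : Type) (S : Sys G M) (lab : M → Option I)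
  (Λ : ℕ → Set G.Rl) (E : T → Set I) (S' : Sys G (MC lab E)), Cp S lab → Lvl Λ →
  (∀ n, EB S lab (Λ n) E) → Cpy S lab Λ E S' → ∀ (n : ℕ) (t : T) (w : Set I)
  (a : Gp (IC E) (MC lab E)), w ⊆ E t → (∀ i ∈ w, Bl S lab (Λ n) univ i ⊆ w) →
  XC lab E t w a → (∀ x, labC lab E (a.2 x) = (labC lab E x).map a.1) →
  Am S' (labC lab E) (Λ n) univ a

end UNE
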