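import Pool.Agent.UNE.DefsC
import Pool.Agent.UNE.StB

/-!
# UNE, statements C: uncountably many and countably many classes of infinity blocks

Paper: /team-store/VC_endgame_helper34.md, sections 3, 4, 5. Every module proves `thm_XXX : St_XXX` in
`Pool/Agent/UNE/XXX.lean`; statements used are taken as hypotheses (a module may use any statement of
`StA.lean` and `StB.lean` as a further hypothesis, even if it is not named in the docstring).
Conventions as in `StA.lean`, `StB.lean`: `a x` means `a.2 x` for elements, `a.1 i` for components,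
`K_w` is the set of the elements with labels in `w`. `Isx`, `Isx.symm`, `Sx_fn`, `Sx_w`, `eI`, `gM`,
`Sx_range_inl` are in `DefsC.lean`. For a fixed exchange `a` with `Am .. (Λ n) .. a` for all `n`: `Sw` at
all levels.
-/

set_option autoImplicit false
set_option linter.unusedVariables false

namespace UNE

open Set UN Pool.Agent.Helper5.DU Pool.Agent.Helper6.Str Pool.Agent.Helper79.VC

/-! ## Isomorphisms -/

/-- [ISA] (1.2 h; uses `St_GRA`) Isomorphisms transfer automorphisms.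

Proof. `a` maps `X` onto itself and `Sx lab X` onto itself ([GRA] (6)). `b.1 j := e (a (e.symm j))` for
`j ∈ Y = e.target`, `j` otherwise; `b.2 y := g (a (g.symm y))` for `y ∈ Sx lab₂ Y`, `y` otherwise; they are
permutations (the inverses are given in the same way by `a⁻¹`; make a private lemma for one
`PartialEquiv`). `lb`: for `y = g x`: `lab₂ (g (a x)) = (lab (a x)).map e = some (e (a i))` if `lab x =
some i`. `root`: if `lab₂ y = none` then `y ∈ Sx lab₂ Y`, `y = g x`, `lab x = none` (`Isx.lb`), `a x = x`.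
`out`: `y` is not in `Sx lab₂ Y`. `fn`: by cases `y ∈ Sx lab₂ Y` (`Sx_fn`, `Isx.fn`); for
`y ∉ Sx lab₂ Y`: `S₂.fn f y` is in the root or not in `Sx lab₂ Y`, fixed in both cases. `rel`: `v k =
g (x k)`, `Isx.rel` twice and `Am.rel` for `a`. Last part: `e` is injective on `X`; `b * b = 1` on
`Y` and `Sx lab₂ Y` and outside; `out`: if `lab₂ y = some j`, `j ∈ Y`, then `y = g x`, `lab x = some i`,
`j = e i`, `i ∉ w`, `i ∉ w'`. -/
def St_ISA : Prop := ∀ (G : Sg) (M N I J : Type) (S : Sys G M) (lab : M → Option I) (X : Set I)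
  (S₂ : Sys G N) (lab₂ : N → Option J) (Y : Set J) (e : PartialEquiv I J) (g : PartialEquiv M N),
  Cp S lab → Cp S₂ lab₂ → Isx S lab X S₂ lab₂ Y e g → ∀ a : Gp I M, Am S lab ∅ X a →
  ∃ b : Gp J N, (∀ Λ, Am S lab Λ X a → Am S₂ lab₂ Λ Y b) ∧
    (∀ i ∈ X, b.1 (e i) = e (a.1 i)) ∧ (∀ x ∈ Sx lab X, b.2 (g x) = g (a.2 x)) ∧
    ∀ w w', w ⊆ X → w' ⊆ X → Ex lab w w' a → Ex lab₂ (e '' w) (e '' w') b

/-- [ISB] (1.2 h; uses `St_SWP`, `St_BLK`, `St_ISA`) Isomorphisms transfer good sets and blocks.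

Proof. By `Isx.symm` it is enough to show the implications from left to right (for `w ⊆ X`:
`e.symm '' (e '' w) = w`). Let `Gs S lab Λ X w`, `Z ⊆ J` finite. There is a partner `w'` of `w` off
`e.symm '' Z`, exchange `a`; `w' ⊆ X` ([SWP]); `St_ISA` gives `b` with `Sw S₂ lab₂ Λ Y (e '' w) (e '' w')
b`. `e '' w'` is off `Z`: `e i ∈ Z`, `i ∈ w' ⊆ X` would imply `i = e.symm (e i) ∈ e.symm '' Z`. Blocks:
good sets are contained in `X` and in `Y` ([BLK] (1)), so `e '' ·` is a bijection of the good sets of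
`X` containing `i` and the good sets of `Y` containing `e i`. The block is the smallest good set
containing `i` ([BLK] (2)). -/
def St_ISB : Prop := ∀ (G : Sg) (M N I J : Type) (S : Sys G M) (lab : M → Option I) (X : Set I)
  (S₂ : Sys G N) (lab₂ : N → Option J) (Y : Set J) (e : PartialEquiv I J) (g : PartialEquiv M N),
  Cp S lab → Cp S₂ lab₂ → Isx S lab X S₂ lab₂ Y e g → ∀ Λ : Set G.Rl,
  (∀ w ⊆ X, (Gs S lab Λ X w ↔ Gs S₂ lab₂ Λ Y (e '' w))) ∧
  ∀ i ∈ X, (Gx S lab Λ X i ↔ Gx S₂ lab₂ Λ Y (e i)) ∧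
    (Gx S lab Λ X i → Bl S₂ lab₂ Λ Y (e i) = e '' Bl S lab Λ X i)

/-- [EBI] (0.4 h; uses `St_BIN`) Infinity blocks.

Proof. [BIN], `w = Bi i`. -/
def St_EBI : Prop := ∀ (G : Sg) (M I : Type) (S : Sys G M) (lab : M → Option I)
  (Λ : ℕ → Set G.Rl) (X : Set I), Cp S lab → Lvl Λ → ∀ w ∈ IB S lab Λ X,
  w.Countable ∧ w.Nonempty ∧ w ⊆ X ∧
  (∀ i ∈ w, Gi S lab Λ X i ∧ Bi S lab Λ X i = w ∧ ∀ n, Bl S lab (Λ n) X i ⊆ w) ∧
  ∀ w' ∈ IB S lab Λ X, w = w' ∨ Disjoint w w'

/-- [EQX] (0.5 h; uses `St_SWP`, `St_EBI`) Exchangeable infinity blocks: symmetry and transitivity.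

Proof. Symmetry: [SWP] (1) at all levels. Second part: if `w₁ = w₂` clear, if `w₁ = w₃` symmetry, if
`w₂ = w₃` clear; otherwise `w₂` and `w₃` are disjoint, and for the exchanges `s` of `w₁`, `w₂` and `t` of
`w₁`, `w₃` the product `s * t * s` exchanges `w₂` and `w₃` at all levels ([SWP] (4)). -/
def St_EQX : Prop := ∀ (G : Sg) (M I : Type) (S : Sys G M) (lab : M → Option I)
  (Λ : ℕ → Set G.Rl) (X : Set I), Cp S lab → Lvl Λ →
  (∀ w₁ w₂, Eqx S lab Λ X w₁ w₂ → Eqx S lab Λ X w₂ w₁) ∧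
  ∀ w₁ ∈ IB S lab Λ X, ∀ w₂ ∈ IB S lab Λ X, ∀ w₃ ∈ IB S lab Λ X, Eqx S lab Λ X w₁ w₂ →
    Eqx S lab Λ X w₁ w₃ → Eqx S lab Λ X w₂ w₃

/-- [ISC] (1.2 h; uses `St_ISA`, `St_ISB`, `St_EBI`) The sizes of the classes are invariant.

Proof. By `Isx.symm` it is enough to show `Siz S lab Λ X ⊆ Siz S₂ lab₂ Λ Y`. (1) For `i ∈ X`: `Gi S lab Λ X
i ↔ Gi S₂ lab₂ Λ Y (e i)`, and then `Bi S₂ lab₂ Λ Y (e i) = e '' Bi S lab Λ X i` (`St_ISB`). So `e '' ·` maps
`IB S lab Λ X` to `IB S₂ lab₂ Λ Y`, and every member of `IB S₂ lab₂ Λ Y` is `e '' w` for some `w ∈ IB S lab Λ X`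
(`e : X → Y` is surjective). (2) `Eqx S lab Λ X w w' → Eqx S₂ lab₂ Λ Y (e '' w) (e '' w')` for
`w, w' ⊆ X`: `St_ISA` (one `b` for all levels; `Am` for `Λ n` implies `Am` for `∅`); the converse by
`Isx.symm` (`e.symm '' (e '' w) = w`). (3) So `Cls S₂ lab₂ Λ Y (e '' w)` is the image of `Cls S lab Λ X w` under
`w ↦ e '' w`, which is injective on the subsets of `X`; the finiteness and the number of elements
are the same (`Set.InjOn.ncard_image`, `Set.Finite.image`, `Set.Finite.of_finite_image`). -/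
def St_ISC : Prop := ∀ (G : Sg) (M N I J : Type) (S : Sys G M) (lab : M → Option I) (X : Set I)
  (S₂ : Sys G N) (lab₂ : N → Option J) (Y : Set J) (e : PartialEquiv I J) (g : PartialEquiv M N),
  Cp S lab → Cp S₂ lab₂ → Isx S lab X S₂ lab₂ Y e g → ∀ Λ : ℕ → Set G.Rl, Lvl Λ →
  Siz S lab Λ X = Siz S₂ lab₂ Λ Y

/-- [ISD] (1.2 h; no other module) Isomorphisms over the generators of the root respect the
components.

Proof. `Eqv` gives for elements of `Sx lab X`: `(g x = S.w l (g y)) ↔ (x = S.w l y)` (the atom `.eq ([],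
0) (l, 1)`), and for `y ∈ Sx lab X`, `f`: `g (S.fn f y) = S.fn f (g y)` (`Sx_fn`; the atom `.eq ([], 0)
([f], 1)` at the elements `S.fn f y` and `y`), and the same for relations (`.rel R fun k => ([], k)`).
(1) `g` is the identity on the root: an element of the root is `S.w l (q c)`, and `q c` is in the
root (`Gn S (q c) (q c)`). So `g x` is in the root iff `x` is (if `g x = r` is in the root then
`g r = r`, `x = r`).
(2) If `x`, `y ∈ Sx lab X` are in the same component, then `g x`, `g y` are in the same component: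
`Cp.con` gives a path; all its elements are in this component (`Adj` implies equal labels by
`Cp.fn`), so in `Sx lab X`; by induction on the path; for `Adj S lab x y` the images are outside of the
root and one is a value of a function at the other, `Cp.fn`. The same for `g.symm`.
(3) Choose for every `i ∈ X` an element `x` with `lab x = some i` (`Cp.ne`), and let `γ i` be the
component of `g x`; `γ i ∈ Y` as `g x ∈ Sx lab Y`. By (2) `lab (g x) = some (γ i)` for all `x` in the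
component `i`; `γ` is a bijection of `X` and `Y` (the inverse is given by `g.symm`). `e :=` the partial
equivalence of `γ` (`Set.BijOn.toPartialEquiv` or by hand), `h` the one of `g` extended by
`h x := x` outside of `Sx lab X` (by hand: `toFun x := if hx : x ∈ Sx lab X then g ⟨x, hx⟩ else x`,
`invFun` in the same way with `g.symm`, `source := Sx lab X`, `target := Sx lab Y`). -/
def St_ISD : Prop := ∀ (G : Sg) (M I Q : Type) (S : Sys G M) (lab : M → Option I) (q : Q → M)
  (X Y : Set I) (g : Sx lab X ≃ Sx lab Y), Cp S lab → Nonempty I →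
  (∀ x, lab x = none ↔ ∃ c, Gn S (q c) x) →
  (∀ c (h : q c ∈ Sx lab X), (g ⟨q c, h⟩ : M) = q c) →
  Eqv S (fun x : Sx lab X => (x : M)) S (fun x : Sx lab X => (g x : M)) →
  ∃ (e : PartialEquiv I I) (h : PartialEquiv M M), Isx S lab X S lab Y e h

/-! ## Copies: good sets, blocks, infinity blocks -/

/-- [CPS] (0.5 h; uses `St_XCE`, `St_CPE`) The exchange of a union of blocks and its copy.

Proof. `a` from `St_XCE`. `Ex`: `dis`: `Sum.inl` and `Sum.inr`; `img`: `XC.cm` (`w ⊆ E t`); `out`: `XC.oe`.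
`a (Sum.inr ⟨(t, i), h⟩) = Sum.inl i` by `XC.inv` and `XC.cm`. `Am` by `St_CPE`. -/
def St_CPS : Prop := ∀ (G : Sg) (M I T : Type) (S : Sys G M) (lab : M → Option I)
  (Λ : ℕ → Set G.Rl) (E : T → Set I) (S' : Sys G (MC lab E)), Cp S lab → Lvl Λ →
  (∀ n, EB S lab (Λ n) E) → Cpy S lab Λ E S' → ∀ (t : T) (w : Set I), w ⊆ E t →
  ∃ a : Gp (IC E) (MC lab E),
    (∀ i (h : i ∈ E t), i ∈ w →
      a.1 (Sum.inl i) = Sum.inr ⟨(t, i), h⟩ ∧ a.1 (Sum.inr ⟨(t, i), h⟩) = Sum.inl i) ∧
    ∀ n, (∀ i ∈ w, Bl S lab (Λ n) univ i ⊆ w) →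
      Sw S' (labC lab E) (Λ n) univ (Sum.inl '' w) (cp E t w) a

/-- [CPD] (1.2 h; uses `St_SWP`, `St_BLK`, `St_CPC`, `St_CPI`, `St_CPS`) The original is dense in the
extension.

Proof. `BB := {B | ∃ t, ∃ i ∈ E t, B = cp E t (Bl S lab (Λ n) univ i)}`. These sets are finite
(`Bl i` is finite, [BLK]), disjoint from `range Sum.inl`, equal or disjoint (different `t`, or [BLK] (8))
and cover all copies (`i ∈ Bl i`). Partners: let `B = cp E t (Bl i)` and let `Z` be finite. There are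
`w'`, `s` with `Sw S lab (Λ n) univ (Bl i) w' s` and `w'` off `{j | Sum.inl j ∈ Z ∪ D}` (finite). `s` is in
`Ph` ([SWP] (2)), so by `St_CPI` `exC lab E s` is an exchange of `Sum.inl '' Bl i` and `Sum.inl '' w'` in `S'`
(`Ex` for `exC` by cases). `St_CPS` for `w := Bl i ⊆ E t` (`j ∈ Bl i → Bl j = Bl i`) gives the exchange `e` of
`Sum.inl '' Bl i` and `cp E t (Bl i)`. [SWP] (4) for `S'` (`Cp` by `St_CPC`): `e * exC lab E s * e`
exchanges `cp E t (Bl i)` and `Sum.inl '' w'`. -/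
def St_CPD : Prop := ∀ (G : Sg) (M I T : Type) (S : Sys G M) (lab : M → Option I)
  (Λ : ℕ → Set G.Rl) (E : T → Set I) (S' : Sys G (MC lab E)), Cp S lab → Lvl Λ →
  (∀ n, EB S lab (Λ n) E) → Cpy S lab Λ E S' → ∀ (n : ℕ) (D : Set (IC E)), D.Finite →
  D ⊆ range Sum.inl → Den S' (labC lab E) (Λ n) (range Sum.inl) univ D

/-- [CPG] (1.3 h; uses `St_BLK`, `St_DNB`, `St_CPC`, `St_CPR`, `St_CPS`, `St_CPD`, `St_ISB`) Good sets
and blocks of the extension.

Proof. `Isx S lab univ S' (labC lab E) (range Sum.inl) (eI E) (gM lab E)`: `labC_inl`, `Cpy.fl`,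
`St_CPR` (second part), `Sx_range_inl`. So `St_ISB` compares `univ` in `S` with `range Sum.inl` in `S'`, and
`St_DNB` (with `St_CPD`) compares `range Sum.inl` with `univ` in `S'`. This gives (1) and (2) (`Gs` in `S` or
in `S'` implies that the sets are finite). (3) Let `a` be as in `St_CPS` for `w := Bl i`: `a` is in `Ph` for
`S'` (`w` is finite), `a (Sum.inl i) = Sum.inr ⟨(t, i), h⟩`; so this component is good and its block is
`a '' Bl S' (Sum.inl i) = a '' (Sum.inl '' Bl i) = cp E t (Bl i)` ([BLK] (5), (2), `Ex.img`). -/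
def St_CPG : Prop := ∀ (G : Sg) (M I T : Type) (S : Sys G M) (lab : M → Option I)
  (Λ : ℕ → Set G.Rl) (E : T → Set I) (S' : Sys G (MC lab E)), Cp S lab → Lvl Λ →
  (∀ n, EB S lab (Λ n) E) → Cpy S lab Λ E S' → ∀ n : ℕ,
  (∀ w, Gs S lab (Λ n) univ w ↔ Gs S' (labC lab E) (Λ n) univ (Sum.inl '' w)) ∧
  (∀ i, (Gx S' (labC lab E) (Λ n) univ (Sum.inl i) ↔ Gx S lab (Λ n) univ i) ∧
    (Gx S lab (Λ n) univ i →
      Bl S' (labC lab E) (Λ n) univ (Sum.inl i) = Sum.inl '' Bl S lab (Λ n) univ i)) ∧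
  ∀ t i (h : i ∈ E t), Gx S' (labC lab E) (Λ n) univ (Sum.inr ⟨(t, i), h⟩) ∧
    Bl S' (labC lab E) (Λ n) univ (Sum.inr ⟨(t, i), h⟩) = cp E t (Bl S lab (Λ n) univ i) ∧
    Cj S' (labC lab E) (Λ n) univ (Sum.inr ⟨(t, i), h⟩) (Sum.inl i)

/-- [CPQ] (0.5 h; uses `St_EBI`, `St_CPG`) Infinity blocks of the extension.

Proof. `EB` at all levels by `St_EBI`. (1) `St_CPG` (2). (2) `St_CPG` (3) at all levels; the infinity
block is `⋃ n, cp E t (Bl S lab (Λ n) univ i) = cp E t (Bi S lab Λ univ i) = cp E t (E t)`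
(`St_EBI`). -/
def St_CPQ : Prop := ∀ (G : Sg) (M I T : Type) (S : Sys G M) (lab : M → Option I)
  (Λ : ℕ → Set G.Rl) (E : T → Set I) (S' : Sys G (MC lab E)), Cp S lab → Lvl Λ →
  (∀ t, E t ∈ IB S lab Λ univ) → Cpy S lab Λ E S' →
  (∀ i, Gi S' (labC lab E) Λ univ (Sum.inl i) ↔ Gi S lab Λ univ i) ∧
  ∀ t i (h : i ∈ E t), Gi S' (labC lab E) Λ univ (Sum.inr ⟨(t, i), h⟩) ∧
    Bi S' (labC lab E) Λ univ (Sum.inr ⟨(t, i), h⟩) = cp E t (E t)

/-- [CPX] (1.3 h; uses `St_GRA`, `St_SWP`, `St_EBI`, `St_CPC`, `St_CPR`, `St_CPS`) Exchangeable copies.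

Proof. `St_EBI`: `EB` at all levels, and `E t` is a union of blocks of every level. Let `a`, `a'` be the
exchanges of `Sum.inl '' E t`, `cp E t (E t)` and of `Sum.inl '' E t'`, `cp E t' (E t')` (`St_CPS`), at all
levels. (1) The two copies are different (not empty, `t ≠ t'`). Let `s` be an exchange of them, at all
levels. If `E t = E t'` we are done, otherwise `E t` and `E t'` are disjoint. Let `c := a' * a`,
`s' := c * s * c⁻¹`. `c '' cp E t (E t) = a' '' (Sum.inl '' E t) = Sum.inl '' E t` and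
`c '' cp E t' (E t') = a' '' cp E t' (E t') = Sum.inl '' E t'` (components outside of the two sets of an
exchange are fixed, [SWP] (1)). [SWP] (3): `s'` exchanges `Sum.inl '' E t` and `Sum.inl '' E t'` at all
levels; its support is in `range Sum.inl`, so `Am S' .. (range Sum.inl) s'` ([GRA] (5)), and `St_CPR` at
the level `0` gives `b` with `s' = exC lab E b`; at the level `n` it gives `b'` with `s' = exC lab E b'`
and `Am S lab (Λ n) univ b'`; `b' = b` as `exC lab E` is injective (`Sum.inl` is). `Ex lab (E t) (E t')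
b` from `Ex` for `exC lab E b`. (2) If `E t = E t'`: [SWP] (4): `a * a' * a`. -/
def St_CPX : Prop := ∀ (G : Sg) (M I T : Type) (S : Sys G M) (lab : M → Option I)
  (Λ : ℕ → Set G.Rl) (E : T → Set I) (S' : Sys G (MC lab E)), Cp S lab → Lvl Λ →
  (∀ t, E t ∈ IB S lab Λ univ) → Cpy S lab Λ E S' → ∀ t t', t ≠ t' →
  (Eqx S' (labC lab E) Λ univ (cp E t (E t)) (cp E t' (E t')) →
    Eqx S lab Λ univ (E t) (E t')) ∧
  (E t = E t' → Eqx S' (labC lab E) Λ univ (cp E t (E t)) (cp E t' (E t')))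

/-! ## Case 2 -/

/-- [NMD] (1.5 h; uses `St_GRA`, `St_SWP`, `St_BLK`, `St_CNJ`, `St_EBI`, `St_CPC`, `St_CPI`, `St_CPG`)
The substructures `NP` are dense in the extension.

Proof. Write `X := NP S lab Λ E P`, `Bl c` for the blocks of `S'` in `univ` at the level `Λ n`.
`BB := {B | ∃ c ∉ X, B = Bl c}`. A component `c ∉ X` is `Sum.inl i` with `Gi S lab Λ univ i`, then
`Bl c = Sum.inl '' Bl i` and `Bl i ⊆ Bi i` consists of components with `Gi` (`St_EBI` for `Bi i`); or it
is `Sum.inr ⟨(t, i), h⟩` with `t ∉ P`, then `Bl c = cp E t (Bl i)` (`St_CPG`). In both cases `c` is good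
(so `Bl c` is finite, `c ∈ Bl c`), and `Bl c` is disjoint from `X`. Equal or disjoint: [BLK] (8).
Partners: let `c ∉ X`, `Z` finite. There are `i` with `Gi S lab Λ univ i` and `g₁` in `Ph` with `g₁ c =
Sum.inl i` (`g₁ = 1`, or `St_CPG` (3); `i ∈ E t` implies `Gi` by `St_EBI`). Let `F'` be `F` together with
the `t` such that `Z`, `D \ ⋃ t ∈ F, cp E t (E t)` or `Bl c` contains a component `Sum.inr ⟨(t, _), _⟩`;
it is finite. `Dse` gives `t ∈ P`, `t ∉ F'`, `j ∈ E t`, `g₂` in `Ph` for `S` with `g₂ i = j`. `exC lab E g₂`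
is in `Ph` (`St_CPI`), and `St_CPG` (3) (and the inverse) gives `g₃` in `Ph` with `g₃ (Sum.inl j) =
Sum.inr ⟨(t, j), _⟩`. So `g := g₃ * exC lab E g₂ * g₁` is in `Ph`, `g c = Sum.inr ⟨(t, j), _⟩`, and
`g '' Bl c = Bl (g c) = cp E t (Bl j)` ([BLK] (5)) is disjoint from `Bl c`, `Z` and `D`, contained in `X`.
[CNJ] for the good set `Bl c` gives the exchange. -/
def St_NMD : Prop := ∀ (G : Sg) (M I T : Type) (S : Sys G M) (lab : M → Option I)
  (Λ : ℕ → Set G.Rl) (E : T → Set I) (S' : Sys G (MC lab E)) (P : Set T), Cp S lab → Lvl Λ →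
  (∀ t, E t ∈ IB S lab Λ univ) → Cpy S lab Λ E S' → Dse S lab Λ E P →
  ∀ (n : ℕ) (D : Set (IC E)) (F : Set T), D ⊆ NP S lab Λ E P → F.Finite →
  (D \ ⋃ t ∈ F, cp E t (E t)).Finite →
  Den S' (labC lab E) (Λ n) (NP S lab Λ E P) univ D

/-- [NMG] (1.3 h; uses `St_GRA`, `St_SWP`, `St_DNA`, `St_DNB`, `St_EBI`, `St_CPC`, `St_CPQ`, `St_CPX`,
`St_NMD`) The infinity blocks of the substructures and their exchanges.

Proof. Write `X := NP S lab Λ E P`. `St_DNB` at every level (`St_NMD` with `F = ∅`): for `c ∈ X`: `Gi S'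
.. X c ↔ Gi S' .. univ c`, and then `Bi S' .. X c = Bi S' .. univ c`. (1) For `c = Sum.inl i ∈ X` (so
`¬ Gi S lab Λ univ i`; copies are not `Sum.inl`) `c` is not good at all levels (`St_CPQ`). For
`c = Sum.inr ⟨(t, i), h⟩`, `t ∈ P`: `Gi` and `Bi = cp E t (E t)` (`St_CPQ`). `E t` is not empty.
(2) Let `Eqx .. X (cp E t (E t)) (cp E t' (E t'))`. The two sets are different; let `a` be the exchange,
`Sp a ⊆ D := cp E t (E t) ∪ cp E t' (E t') ⊆ X` ([SWP]). `St_NMD` with `F := {t, t'}` and `St_DNA` at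
every level: `Am S' .. univ a`. `St_CPX`. (3) `St_CPX` gives an exchange in `univ` with support in `X`;
[GRA] (5). -/
def St_NMG : Prop := ∀ (G : Sg) (M I T : Type) (S : Sys G M) (lab : M → Option I)
  (Λ : ℕ → Set G.Rl) (E : T → Set I) (S' : Sys G (MC lab E)) (P : Set T), Cp S lab → Lvl Λ →
  (∀ t, E t ∈ IB S lab Λ univ) → Cpy S lab Λ E S' → Dse S lab Λ E P →
  IB S' (labC lab E) Λ (NP S lab Λ E P) = {w | ∃ t ∈ P, w = cp E t (E t)} ∧
  ∀ t ∈ P, ∀ t' ∈ P, t ≠ t' →
    cp E t (E t) ≠ cp E t' (E t') ∧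
    (Eqx S' (labC lab E) Λ (NP S lab Λ E P) (cp E t (E t)) (cp E t' (E t')) →
      Eqx S lab Λ univ (E t) (E t')) ∧
    (E t = E t' →
      Eqx S' (labC lab E) Λ (NP S lab Λ E P) (cp E t (E t)) (cp E t' (E t')))

/-- [NMZ] (1 h; uses `St_EQX`, `St_NMG`) The sizes of the classes.

Proof. `E := ET E' E₀`, `P := PT m`. All `E t` are in `IB`. `Dse`: for `i` with `Gi` and `F` finite take
`l`, `j ∈ E' l`, and `t := Sum.inl (l, s) ∉ F` for a suitable `s`; `t ∈ P`. By `St_NMG` the infinity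
blocks are the sets `cp E t (E t)`, `t ∈ P`, different for different `t`. The class of
`cp E t (E t)`, `t = Sum.inl (l, s)`, contains all `cp E t' (E t')`, `t' = Sum.inl (l, s')`; it is
infinite. The class of `cp E t (E t)`, `t = Sum.inr (k, s)`, consists of the sets for `t' = Sum.inr (k,
s')`, `s' < m k`: they are in the class (`E t = E t'`), and if the set for `t' ∈ P`, `t' ≠ t` is in the
class, then `Eqx S lab Λ univ (E t) (E t')`, so `t'` is not `Sum.inl _` (`St_EQX`, symmetry) and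
`t' = Sum.inr (k, _)`. So it has `m k` elements (it is the image of `Finset.range (m k)` under an
injective map). As `1 ≤ m k` every `k` occurs. -/
def St_NMZ : Prop := ∀ (G : Sg) (M I : Type) (S : Sys G M) (lab : M → Option I)
  (Λ : ℕ → Set G.Rl) (E' E₀ : ℕ → Set I) (S' : Sys G (MC lab (ET E' E₀))), Cp S lab → Lvl Λ →
  (∀ l, E' l ∈ IB S lab Λ univ) → (∀ k, E₀ k ∈ IB S lab Λ univ) →
  Cpy S lab Λ (ET E' E₀) S' →
  (∀ j k, j ≠ k → ¬ Eqx S lab Λ univ (E₀ j) (E₀ k)) →
  (∀ l k, ¬ Eqx S lab Λ univ (E' l) (E₀ k)) →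
  (∀ n i, Gi S lab Λ univ i → ∃ l, ∃ j ∈ E' l, Cj S lab (Λ n) univ i j) →
  ∀ m : ℕ → ℕ, (∀ k, 1 ≤ m k) →
  Siz S' (labC lab (ET E' E₀)) Λ (NP S lab Λ (ET E' E₀) (PT m)) = range m

/-- [DEX] (0.7 h; no other module; uses `dec2U` in `UNE/DEC2.lean`) Decoding for members of any size.

Proof. Let `Y := ⋃ f, X f`, countable and closed, `N := ↥Y`, `S₁ : Sys G N` the restriction of `S` to
`Y` (`S₁.fn f y := ⟨S.fn f y, _⟩`, `S₁.rel R v := S.rel R fun k => (v k : M)`). `S₁.w l y = S.w l y` in `M`, so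
`Tr S₁ v a ↔ Tr S (fun i => (v i : M)) a`; `U N S₁` by `IsU.loc` (the member `S` with the same tuple;
`N` is not empty, `X f` is infinite). `dec2U` for `S₁`, `q₁ c := ⟨q c, _⟩`, `X₁ f := {y | (y : M) ∈ X f}`
(infinite, closed). Its isomorphism `X₁ f ≃ X₁ f'` gives the isomorphism `X f ≃ X f'`. -/
def St_DEX : Prop := ∀ (G : Sg) (U : ∀ M : Type, Sys G M → Prop) (M Q : Type) (S : Sys G M)
  (q : Q → M) (X : (ℕ → Bool) → Set M), IsU U → Scat (KU U) → U M S → Finite Q →
  (⋃ f, X f).Countable → (∀ f, (X f).Infinite ∧ range q ⊆ X f ∧ Cl S (X f)) →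
  (∀ x, IsClopen {f | x ∈ X f}) →
  ∃ f f', f ≠ f' ∧ ∃ g : X f ≃ X f', (∀ c (h : q c ∈ X f), (g ⟨q c, h⟩ : M) = q c) ∧
    Eqv S (fun x : X f => (x : M)) S (fun x : X f => (g x : M))

/-- [CS2] (2 h; uses `St_GRA`, `St_EBI`, `St_EQX`, `St_CPY`, `St_CPC`, `St_ISC`, `St_ISD`, `St_NMZ`,
`St_DEX`) There are countably many classes of infinity blocks.

Proof. If no component is good at all levels, take `𝒦 := ∅`. Otherwise:
(1) `E' : ℕ → Set I` with `E' l ∈ IB` and the density of `St_NMZ`: for every `n` and every `j ∈ K n` which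
is conjugate to a component `i` with `Gi` choose such an `i n j`; the infinity blocks `Bi (i n j)` are
countably many (at least one); if `i` has `Gi` then `Cj i j` for some `j ∈ K n` (`Gi` implies `Gx` at
the level `n`), `i n j` is conjugate to `j`, so to `i` (`Ph` is a group), and `i n j ∈ Bi (i n j)`.
(2) Suppose the statement is false. Then for every countable `𝒦 ⊆ IB` there is `w ∈ IB` with
`¬ Eqx w' w` for all `w' ∈ 𝒦`. By recursion (or `exists_seq_of_forall_finset_exists`, used for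
`𝒦 = range E' ∪` the finite set) choose `E₀ k ∈ IB` with `¬ Eqx (E' l) (E₀ k)` for all `l`,
`¬ Eqx (E₀ j) (E₀ k)` for `j < k`; for `j > k` by symmetry (`St_EQX`).
(3) `E := ET E' E₀`; `EB` by `St_EBI`; `St_CPY` gives `S'` in the class. For `f : ℕ → Bool` let
`m f k := 2 * k + 1 + (if f k then 1 else 0)`, `X f := Sx (labC lab E) (NP S lab Λ E (PT (m f)))`.
`q' := Sum.inl ∘ q`. `St_DEX` for `S'`, `q'`, `X`: the union of the `X f` is countable: it is contained in
the union of the root (`Sum.inl x` with `lab x = none`; countable: `cl_countable` and `Gn`, `G.Fn` is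
countable and `Q` finite), the `Sum.inl x` in components `i` with `¬ Gi` (countably many by (R1), the
components are countable), and the copies (`T` and all `E t` are countable, `Cp.ctb`). `X f` is
closed (`Sx_fn`, `St_CPC`), contains `range q'` (root), infinite: an element of the copy
`Sum.inl (0, s)` for every `s`. Clopen: for `x` in the root or `x = Sum.inl y` the set is `∅` or `univ`;
for `x` in the copy `t = Sum.inl _` it is `univ`; for `t = Sum.inr (k, s)` it is `{f | s < m f k}`, the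
preimage of a set under `f ↦ f k` (`isClopen` by continuity of the evaluation, discrete).
(4) `f ≠ f'` and `g` as in `St_DEX`; `St_ISD` for `S'`, `labC lab E`, `q'` (root: `labC_none`, `Cpy.fl`,
words), so `St_ISC` gives `Siz` for `f` = `Siz` for `f'`; by `St_NMZ` `range (m f) = range (m f')`, so
`f = f'` (`2 * k + 1 + (if f k ..) = 2 * j + 1 + (if f' j ..)` implies `k = j`): contradiction. -/
def St_CS2 : Prop := ∀ (G : Sg) (U : ∀ M : Type, Sys G M → Prop) (M I Q : Type) (S : Sys G M)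
  (lab : M → Option I) (Λ : ℕ → Set G.Rl) (q : Q → M), Countable G.Fn → IsU U →
  Scat (KU U) → U M S → Cp S lab → Lvl Λ → Finite Q →
  (∀ x, lab x = none ↔ ∃ c, Gn S (q c) x) →
  (∀ n, {i | ¬ Gx S lab (Λ n) univ i}.Countable) →
  (∀ n, ∃ K : Set I, K.Countable ∧
    ∀ i, Gx S lab (Λ n) univ i → ∃ j ∈ K, Cj S lab (Λ n) univ i j) →
  ∃ KK : Set (Set I), KK.Countable ∧ KK ⊆ IB S lab Λ univ ∧
    ∀ w ∈ IB S lab Λ univ, ∃ w' ∈ KK, Eqx S lab Λ univ w' w

/-! ## Case 1 and the final theorem -/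

/-- [CS1] (1.5 h; uses `St_SWP`, `St_EBI`, `St_EQX`; compare `St_END` in `UN/StE.lean`) Countably many
classes of infinity blocks.

Proof. Suppose `NoCtblType (WS S)`. For every `w ∈ KK` choose a countable set `KK w` of infinity blocks
`w'` with `Eqx w w'` which is the set of all such `w'` if it is countable, and infinite otherwise
(`Set.Infinite.natEmbedding`, `Set.Countable`). Let `X` be the set of the `i` with `¬ Gi`
together with the elements of the members of `KK w`, `w ∈ KK`: countable (`St_EBI`).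
`A := Sx lab X` is countable (root, `Cp.ctb`). We show that `A` contradicts `NoCtblType`: let `F ⊆ A` be
finite, `c : M`. If `c ∈ A` take `d := c` (`BFR.refl`). Otherwise `lab c = some i`, `i ∉ X`, so `Gi i`;
`E := Bi i ∈ IB`, `Eqx w E` for some `w ∈ KK`, and `E ∉ KK w` (`i ∈ E`, `i ∉ X`). So the class of `w` is
uncountable and `KK w` is infinite. Its members are pairwise disjoint (`St_EBI`), so one of them, `E'`,
contains no label of an element of `F`. `Eqx E E'` (`St_EQX`), `E ≠ E'`: exchange `a` of `E` and `E'` at all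
levels. `σ := a.2` is an automorphism of `S` (`Lvl.all`: all relations), so `Eqv S id S σ`, `RelIso (WS S)
(WS S) σ`, and `σ` fixes the elements of `F`: their labels are in `X`, `E ∩ X = ∅`: if `j ∈ E ∩ X`, then
`Gi j` (`St_EBI`), so `j` is in a member `w'` of some `KK w₁`, `w' = E` (not disjoint), and `i ∈ w' ⊆ X`,
contradiction; and their labels are not in `E'`. `d := a c` is in the component `a i ∈ E' ⊆ X`, so in
`A`. `BFR (WS S) (WS S) univ univ γ (insert (c, d) (id on F))` for all `γ` by `BFR.of_relIso`. -/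
def St_CS1 : Prop := ∀ (G : Sg) (M I : Type) (S : Sys G M) (lab : M → Option I)
  (Λ : ℕ → Set G.Rl), Cp S lab → Lvl Λ → {x | lab x = none}.Countable →
  {i | ¬ Gi S lab Λ univ i}.Countable →
  (∃ KK : Set (Set I), KK.Countable ∧ KK ⊆ IB S lab Λ univ ∧
    ∀ w ∈ IB S lab Λ univ, ∃ w' ∈ KK, Eqx S lab Λ univ w' w) →
  ¬ NoCtblType (WS S)

/-- the interface: components and levels of the members of the class -/
def St_LVU : Prop := ∀ (G : Sg) (U : ∀ M : Type, Sys G M → Prop), Countable G.Fn →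
  Countable G.Rl → IsU U → Scat (KU U) → Pg U → ∀ (M : Type) (S : Sys G M), U M S →
  ∃ (I Q : Type) (lab : M → Option I) (q : Q → M) (Λ : ℕ → Set G.Rl), Finite Q ∧ Cp S lab ∧
    Lvl Λ ∧ (∀ x, lab x = none ↔ ∃ c, Gn S (q c) x) ∧
    (∀ n, {i | ¬ Gx S lab (Λ n) univ i}.Countable) ∧
    ∀ n, ∃ K : Set I, K.Countable ∧
      ∀ i, Gx S lab (Λ n) univ i → ∃ j ∈ K, Cj S lab (Λ n) univ i j

/-- [ENI] (0.3 h; uses `UN.St_PGU`, `St_LVU`, `St_CS2`, `St_CS1`) The members of a scattered universal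
class are not large.

Proof. `Pg U` by `St_PGU`. `{i | ¬ Gi}` is the union of the sets `{i | ¬ Gx (Λ n)}`. The root is
countable (`cl_countable`, or `List G.Fn` is countable and `Q` is finite). -/
def St_ENI : Prop := ∀ (G : Sg) (U : ∀ M : Type, Sys G M → Prop), Countable G.Fn →
  Countable G.Rl → IsU U → Scat (KU U) → ∀ (M : Type) (S : Sys G M), U M S →
  ¬ NoCtblType (WS S)

/-- [DCI] (0.2 h; uses `UN.St_KWM`, `UN.St_LEV`, `St_ENI`) The dichotomy for universal classes.

Proof. As `UN/DCH.lean`. -/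
def St_DCI : Prop := ∀ (G : Sg) (U : ∀ M : Type, Sys G M → Prop), Countable G.Fn →
  Countable G.Rl → IsU U → CtblK (KU U) ∨ PerfK (KU U)

/-- [FNI] (0.3 h; uses `UN.St_UTU`, `St_DCI`) The theorem for universal theories, in the form of
`S14759`.

Proof. As `UN/FNU.lean`. -/
def St_FNI : Prop := ∀ (L : FirstOrder.Language.{0, 0}), Countable L.Symbols →
  (∀ n, IsEmpty (L.Functions (n + 2))) → ∀ T : L.Theory,
  (∀ φ ∈ T, FirstOrder.Language.BoundedFormula.IsUniversal φ) →
      (∃ g : ℕ → L.Structure ℕ, ∀ S : L.Structure ℕ,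
          @FirstOrder.Language.Theory.Model L ℕ S T →
            ∃ n : ℕ, Nonempty (@FirstOrder.Language.Equiv L ℕ ℕ S (g n))) ∨
      (∃ f : (ℕ → Bool) → L.Structure ℕ,
          (∀ x : ℕ → Bool, @FirstOrder.Language.Theory.Model L ℕ (f x) T) ∧
          (∀ x y : ℕ → Bool,
              Nonempty (@FirstOrder.Language.Equiv L ℕ ℕ (f x) (f y)) → x = y) ∧
          (∀ (n : ℕ) (R : L.Relations n) (a : Fin n → ℕ),
              IsClopen {x : ℕ → Bool | @FirstOrder.Language.Structure.RelMap L ℕ (f x) n R a}) ∧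
          (∀ (n : ℕ) (F : L.Functions n) (a : Fin n → ℕ) (b : ℕ),
              IsOpen {x : ℕ → Bool | @FirstOrder.Language.Structure.funMap L ℕ (f x) n F a = b}))

end UNE
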