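import Pool.Agent.UNE.StA

/-!
# UNE: infinity blocks

Theorem `thm_BIN (h : St_BLK) : St_BIN`.
-/

set_option autoImplicit false
set_option linter.unusedVariables false

namespace UNE

open Set UN

variable {G : Sg} {M I : Type} {S : Sys G M} {lab : M → Option I}

theorem BIN_mono (h : St_BLK) (hC : Cp S lab) {Λ : ℕ → Set G.Rl} (hΛ : Lvl Λ) {X : Set I} {i : I}
    (hi : Gi S lab Λ X i) (m n : ℕ) (hmn : m ≤ n) :
    Bl S lab (Λ m) X i ⊆ Bl S lab (Λ n) X i := by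
  obtain ⟨-, -, -, -, -, h6, -⟩ := h G M I S lab hC (Λ n) X
  exact ((h6 (Λ m) (hΛ.mono m n hmn)).2 i (hi n)).2

theorem BIN_key (h : St_BLK) (hC : Cp S lab) {Λ : ℕ → Set G.Rl} (hΛ : Lvl Λ) {X : Set I} {i : I}
    (hi : Gi S lab Λ X i) {j : I} (hj : j ∈ Bi S lab Λ X i) :
    Gi S lab Λ X j ∧ Bi S lab Λ X j = Bi S lab Λ X i := by
  obtain ⟨n, hn⟩ := mem_iUnion.1 hj
  have hA : ∀ m, n ≤ m → Gx S lab (Λ m) X j ∧ Bl S lab (Λ m) X j = Bl S lab (Λ m) X i := by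
    intro m hm
    obtain ⟨-, -, h3, -⟩ := h G M I S lab hC (Λ m) X
    exact h3 i j (hi m) (BIN_mono h hC hΛ hi n m hm hn)
  have hB : Gi S lab Λ X j := by
    intro m
    rcases le_total n m with hm | hm
    · exact (hA m hm).1
    · obtain ⟨-, -, -, -, -, h6, -⟩ := h G M I S lab hC (Λ n) X
      exact ((h6 (Λ m) (hΛ.mono m n hm)).2 j (hA n le_rfl).1).1
  refine ⟨hB, ?_⟩
  ext k
  constructor
  · intro hk
    obtain ⟨m, hm⟩ := mem_iUnion.1 hk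
    refine mem_iUnion.2 ⟨max m n, ?_⟩
    rw [← (hA (max m n) (le_max_right _ _)).2]
    exact BIN_mono h hC hΛ hB m _ (le_max_left _ _) hm
  · intro hk
    obtain ⟨m, hm⟩ := mem_iUnion.1 hk
    refine mem_iUnion.2 ⟨max m n, ?_⟩
    rw [(hA (max m n) (le_max_right _ _)).2]
    exact BIN_mono h hC hΛ hi m _ (le_max_left _ _) hm

theorem thm_BIN (h : St_BLK) : St_BIN := by
  intro G M I S lab hC Λ hΛ X i hi
  have h2 : ∀ n, Gs S lab (Λ n) X (Bl S lab (Λ n) X i) ∧ i ∈ Bl S lab (Λ n) X i := by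
    intro n
    obtain ⟨-, h2, -⟩ := h G M I S lab hC (Λ n) X
    exact h2 i (hi n)
  refine ⟨mem_iUnion.2 ⟨0, (h2 0).2⟩, ?_, ?_, fun j hj => BIN_key h hC hΛ hi hj, ?_, ?_,
    BIN_mono h hC hΛ hi⟩
  · exact countable_iUnion fun n => (h2 n).1.1.countable
  · refine iUnion_subset fun n => ?_
    obtain ⟨h1, -⟩ := h G M I S lab hC (Λ n) X
    exact h1 _ (h2 n).1
  · intro j hj
    by_cases hd : Disjoint (Bi S lab Λ X i) (Bi S lab Λ X j)
    · exact Or.inr hd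
    · left
      obtain ⟨k, hk1, hk2⟩ := not_disjoint_iff.1 hd
      rw [← (BIN_key h hC hΛ hi hk1).2, (BIN_key h hC hΛ hj hk2).2]
  · intro n j hj k hk
    rw [← (BIN_key h hC hΛ hi hj).2]
    exact mem_iUnion.2 ⟨n, hk⟩

end UNE
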