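import Pool.Agent.UNE.StA

/-!
# UNE: automorphisms of a dense set extend

Theorem `thm_DNA (h1 : St_GRA) (h2 : St_DMV) : St_DNA`.
-/

set_option autoImplicit false
set_option linter.unusedVariables false

namespace UNE

open Set UN

/-- [DNA] automorphisms of a dense set extend -/
theorem thm_DNA (h1 : St_GRA) (h2 : St_DMV) : St_DNA := by
  intro G M I S lab hC Λ X Y D a hden ha hsp
  obtain ⟨-, -, -, -, -, -, -, -, -, -, hcomm⟩ := h1 G M I S lab hC Λ Y
  obtain ⟨-, -, -, -, -, hX, -⟩ := h1 G M I S lab hC Λ X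
  obtain ⟨ha1, -, ha2, -, -⟩ := hX a ha
  refine ⟨ha.lb, ha.root, fun x i hx hi => ha.out x i hx fun h => hi (hden.sub h), ha.fn, ?_⟩
  intro R hR v hv
  have hZf : {i : I | ∃ k, lab (v k) = some i}.Finite := by
    have h3 : {i : I | ∃ k, lab (v k) = some i} ⊆ ⋃ k, {i : I | lab (v k) = some i} := by
      rintro i ⟨k, hk⟩
      exact mem_iUnion.2 ⟨k, hk⟩
    refine (finite_iUnion fun k => ?_).subset h3
    refine Set.Subsingleton.finite ?_
    intro i hi j hj
    have hi' : lab (v k) = some i := hi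
    have hj' : lab (v k) = some j := hj
    rw [hi'] at hj'
    exact Option.some.inj hj'
  have hZY : {i : I | ∃ k, lab (v k) = some i} ⊆ Y := by
    rintro i ⟨k, hk⟩
    exact hv k i hk
  obtain ⟨g, hg, hgX, hgD, -⟩ := h2 G M I S lab hC Λ X Y D _ hden hZf hZY
  have hga : g * a = a * g := hcomm Λ X g a hg.1 ha (hgD.mono_right hsp)
  have hga' : ∀ x, g.2 (a.2 x) = a.2 (g.2 x) := by
    intro x
    have h3 := congrArg (fun c : Gp I M => c.2 x) hga
    exact h3
  -- the tuple `a v`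
  have hav : ∀ k, a.2 (v k) ∈ Sx lab Y := by
    intro k i hi
    rw [ha.lb] at hi
    obtain ⟨j, hj, hji⟩ := Option.map_eq_some_iff.1 hi
    have hjY := hv k j hj
    by_cases hjX : j ∈ X
    · rw [← hji]
      exact hden.sub ((ha2 j).2 hjX)
    · rw [← hji, ha1 j hjX]
      exact hjY
  have hgv : ∀ k, g.2 (v k) ∈ Sx lab X := by
    intro k i hi
    rw [hg.1.lb] at hi
    obtain ⟨j, hj, hji⟩ := Option.map_eq_some_iff.1 hi
    rw [← hji]
    exact hgX j ⟨k, hj⟩
  rw [← hg.1.rel R hR (fun k => a.2 (v k)) hav, ← hg.1.rel R hR v hv,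
    ← ha.rel R hR (fun k => g.2 (v k)) hgv]
  have e : (fun k => g.2 (a.2 (v k))) = fun k => a.2 (g.2 (v k)) := by
    funext k
    exact hga' (v k)
  rw [e]

end UNE
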