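import Pool.Agent.UNE.Defs
import Pool.Agent.UN.StA

/-!
# UNE, definitions B: copies of unions of blocks

For sets `E t` of components (`t : T`) we add a copy of the components in `E t` for every `t`. The new
system has the universe `MC lab E` and the components `IC E`.
-/

set_option autoImplicit false
set_option linter.unusedVariables false

namespace UNE

open Set UN

variable {G : Sg} {M N I J T : Type}

/-- the elements: the elements of `M`, and a copy of every element of `E t` for every `t` -/
abbrev MC (lab : M → Option I) (E : T → Set I) : Type :=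
  M ⊕ {c : T × M // ∃ i ∈ E c.1, lab c.2 = some i}

/-- the components: the components of `M`, and the copies -/
abbrev IC (E : T → Set I) : Type := I ⊕ {c : T × I // c.2 ∈ E c.1}

/-- the components of the elements -/
noncomputable def labC (lab : M → Option I) (E : T → Set I) : MC lab E → Option (IC E)
  | .inl x => (lab x).map Sum.inl
  | .inr c => some (.inr ⟨(c.1.1, c.2.choose), c.2.choose_spec.1⟩)

theorem labC_inl (lab : M → Option I) (E : T → Set I) (x : M) :
    labC lab E (.inl x) = (lab x).map Sum.inl := rfl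

theorem labC_inr (lab : M → Option I) (E : T → Set I) (t : T) (x : M) (i : I)
    (h : ∃ j ∈ E t, lab x = some j) (hi : lab x = some i) (hE : i ∈ E t) :
    labC lab E (.inr ⟨(t, x), h⟩) = some (.inr ⟨(t, i), hE⟩) := by
  have h1 : h.choose = i := Option.some_injective _ (h.choose_spec.2.symm.trans hi)
  show some (Sum.inr _) = _
  congr 3
  exact Prod.ext rfl h1

theorem labC_none (lab : M → Option I) (E : T → Set I) (x : MC lab E) :
    labC lab E x = none ↔ ∃ y, x = .inl y ∧ lab y = none := by
  rcases x with x | c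
  · rw [labC_inl]
    constructor
    · intro h
      exact ⟨x, rfl, Option.map_eq_none_iff.1 h⟩
    · rintro ⟨y, hy, hy'⟩
      rw [Sum.inl_injective hy, hy']
      rfl
  · constructor
    · intro h
      exact absurd h (by simp [labC])
    · rintro ⟨y, hy, -⟩
      exact absurd hy (by simp)

theorem labC_some_inl (lab : M → Option I) (E : T → Set I) (x : MC lab E) (i : I) :
    labC lab E x = some (.inl i) ↔ ∃ y, x = .inl y ∧ lab y = some i := by
  rcases x with x | c
  · rw [labC_inl, Option.map_eq_some_iff]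
    constructor
    · rintro ⟨j, hj, hij⟩
      exact ⟨x, rfl, by rw [hj, Sum.inl_injective hij]⟩
    · rintro ⟨y, hy, hy'⟩
      exact ⟨i, by rw [Sum.inl_injective hy, hy'], rfl⟩
  · constructor
    · intro h
      exact absurd h (by simp [labC])
    · rintro ⟨y, hy, -⟩
      exact absurd hy (by simp)

theorem labC_some_inr (lab : M → Option I) (E : T → Set I) (x : MC lab E) (t : T) (i : I)
    (hE : i ∈ E t) : labC lab E x = some (.inr ⟨(t, i), hE⟩) ↔
      ∃ y h, x = .inr ⟨(t, y), h⟩ ∧ lab y = some i := by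
  rcases x with x | c
  · constructor
    · intro h
      rw [labC_inl, Option.map_eq_some_iff] at h
      obtain ⟨j, -, hj⟩ := h
      exact absurd hj (by simp)
    · rintro ⟨y, h, hy, -⟩
      exact absurd hy (by simp)
  · obtain ⟨⟨t', y⟩, j, hj, hyj⟩ := c
    rw [labC_inr lab E t' y j ⟨j, hj, hyj⟩ hyj hj]
    constructor
    · intro h
      have h1 := Sum.inr_injective (Option.some_injective _ h)
      have h2 := Subtype.mk.inj h1
      rw [Prod.mk.injEq] at h2
      obtain ⟨rfl, rfl⟩ := h2
      exact ⟨y, ⟨j, hj, hyj⟩, rfl, hyj⟩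
    · rintro ⟨y', h, hy, hy'⟩
      have h2 := Subtype.mk.inj (Sum.inr_injective hy)
      rw [Prod.mk.injEq] at h2
      obtain ⟨rfl, rfl⟩ := h2
      rw [hyj] at hy'
      obtain rfl := Option.some_injective _ hy'
      rfl

/-- `E` consists of unions of blocks at the level `Λ`: the components in `E t` are good and their
blocks are contained in `E t`. -/
def EB (S : Sys G M) (lab : M → Option I) (Λ : Set G.Rl) (E : T → Set I) : Prop :=
  ∀ t, ∀ i ∈ E t, Gx S lab Λ univ i ∧ Bl S lab Λ univ i ⊆ E t

/-- the union of the blocks in `E t` whose copies meet `Z` -/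
def Tc (S : Sys G M) (lab : M → Option I) (Λ : Set G.Rl) (E : T → Set I) (Z : Set (IC E))
    (t : T) : Set I :=
  {j | ∃ (i : I) (h : i ∈ E t), (Sum.inr ⟨(t, i), h⟩ : IC E) ∈ Z ∧ j ∈ Bl S lab Λ univ i}

/-- the map of a placement: the identity on `M`, the copy `t` is moved by `σ t` -/
def pm (lab : M → Option I) (E : T → Set I) (σ : T → Gp I M) : MC lab E → M
  | .inl x => x
  | .inr c => (σ c.1.1).2 c.1.2

/-- Placements of the finite set `Z` of components at the level `Λ`: automorphisms `σ t` with finite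
support; the images of the sets `Tc Z t` are disjoint from each other and from the components of
`M` in `Z`. -/
structure Plc (S : Sys G M) (lab : M → Option I) (Λ : Set G.Rl) (E : T → Set I) (Z : Set (IC E))
    (σ : T → Gp I M) : Prop where
  ph : ∀ t, Ph S lab Λ univ (σ t)
  off : ∀ t, ∀ j ∈ Tc S lab Λ E Z t, Sum.inl ((σ t).1 j) ∉ Z
  dis : ∀ t t', t ≠ t' → Disjoint ((σ t).1 '' Tc S lab Λ E Z t) ((σ t').1 '' Tc S lab Λ E Z t')

/-- `S'` is the extension of `S` by the copies: functions inside the copies, and the atoms at every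
level are those of the placements. -/
structure Cpy (S : Sys G M) (lab : M → Option I) (Λ : ℕ → Set G.Rl) (E : T → Set I)
    (S' : Sys G (MC lab E)) : Prop where
  fl : ∀ f x, S'.fn f (.inl x) = .inl (S.fn f x)
  fn : ∀ f t x h, lab (S.fn f x) = none → S'.fn f (.inr ⟨(t, x), h⟩) = .inl (S.fn f x)
  fr : ∀ f t x h h', S'.fn f (.inr ⟨(t, x), h⟩) = .inr ⟨(t, S.fn f x), h'⟩
  pl : ∀ (n : ℕ) (Z : Set (IC E)) (σ : T → Gp I M), Z.Finite → Plc S lab (Λ n) E Z σ →
    ∀ R ∈ Λ n, ∀ v : Fin (G.ar R) → MC lab E, (∀ k, v k ∈ Sx (labC lab E) Z) →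
      (S'.rel R v ↔ S.rel R fun k => pm lab E σ (v k))

/-- the extension of an automorphism by the identity on the copies -/
def exC (lab : M → Option I) (E : T → Set I) (a : Gp I M) : Gp (IC E) (MC lab E) :=
  (Equiv.sumCongr a.1 1, Equiv.sumCongr a.2 1)

/-- the copy `t` of a set of components -/
def cp (E : T → Set I) (t : T) (w : Set I) : Set (IC E) :=
  {c | ∃ (i : I) (h : i ∈ E t), i ∈ w ∧ c = Sum.inr ⟨(t, i), h⟩}

/-- the exchange of the set `w` of components and its copy `t` -/
structure XC (lab : M → Option I) (E : T → Set I) (t : T) (w : Set I)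
    (a : Gp (IC E) (MC lab E)) : Prop where
  inv : a * a = 1
  cm : ∀ i (h : i ∈ E t), i ∈ w → a.1 (Sum.inl i) = Sum.inr ⟨(t, i), h⟩
  el : ∀ i x (h : ∃ j ∈ E t, lab x = some j), i ∈ w → lab x = some i →
    a.2 (Sum.inl x) = Sum.inr ⟨(t, x), h⟩
  oc : ∀ c, c ∉ Sum.inl '' w → c ∉ cp E t w → a.1 c = c
  oe : ∀ x, (∀ c, labC lab E x = some c → c ∉ Sum.inl '' w ∧ c ∉ cp E t w) → a.2 x = x

/-- `w` and `w'` are equal or exchanged by an automorphism of all levels of the structure on
`X` -/
def Eqx (S : Sys G M) (lab : M → Option I) (Λ : ℕ → Set G.Rl) (X : Set I) (w w' : Set I) : Prop :=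
  w = w' ∨ ∃ a, (∀ n, Am S lab (Λ n) X a) ∧ Ex lab w w' a

/-- the infinity blocks -/
def IB (S : Sys G M) (lab : M → Option I) (Λ : ℕ → Set G.Rl) (X : Set I) : Set (Set I) :=
  {w | ∃ i ∈ X, Gi S lab Λ X i ∧ w = Bi S lab Λ X i}

/-- the class of an infinity block -/
def Cls (S : Sys G M) (lab : M → Option I) (Λ : ℕ → Set G.Rl) (X : Set I) (w : Set I) :
    Set (Set I) := {w' | w' ∈ IB S lab Λ X ∧ Eqx S lab Λ X w w'}

/-- the finite sizes of the classes of infinity blocks -/
def Siz (S : Sys G M) (lab : M → Option I) (Λ : ℕ → Set G.Rl) (X : Set I) : Set ℕ :=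
  {k | ∃ w ∈ IB S lab Λ X, (Cls S lab Λ X w).Finite ∧ (Cls S lab Λ X w).ncard = k}

end UNE
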