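import Pool.Agent.UNE.DefsB

/-!
# UNE, definitions C: isomorphisms, the structures of case 2
-/

set_option autoImplicit false
set_option linter.unusedVariables false

namespace UNE

open Set UN

variable {G : Sg} {M N I J T : Type}

theorem Sx_fn {S : Sys G M} {lab : M → Option I} (hc : Cp S lab) (X : Set I) (f : G.Fn) (x : M)
    (hx : x ∈ Sx lab X) : S.fn f x ∈ Sx lab X := by
  intro i hi
  rcases hc.fn f x with h | h
  · rw [h] at hi
    exact absurd hi (by simp)
  · exact hx i (by rw [← h]; exact hi)

theorem Sx_w {S : Sys G M} {lab : M → Option I} (hc : Cp S lab) (X : Set I) (l : List G.Fn) (x : M)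
    (hx : x ∈ Sx lab X) : S.w l x ∈ Sx lab X := by
  induction l with
  | nil => exact hx
  | cons f l ih => exact Sx_fn hc X f _ ih

/-- `e` and `g` are an isomorphism of the structures on the components in `X` and in `Y` (all
functions and relations) -/
structure Isx (S : Sys G M) (lab : M → Option I) (X : Set I) (S₂ : Sys G N)
    (lab₂ : N → Option J) (Y : Set J) (e : PartialEquiv I J) (g : PartialEquiv M N) : Prop where
  es : e.source = X
  et : e.target = Y
  gs : g.source = Sx lab X
  gt : g.target = Sx lab₂ Y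
  lb : ∀ x ∈ Sx lab X, lab₂ (g x) = (lab x).map e
  fn : ∀ f, ∀ x ∈ Sx lab X, g (S.fn f x) = S₂.fn f (g x)
  rel : ∀ R, ∀ v : Fin (G.ar R) → M, (∀ k, v k ∈ Sx lab X) →
    (S₂.rel R (fun k => g (v k)) ↔ S.rel R v)

theorem Isx.symm {S : Sys G M} {lab : M → Option I} {X : Set I} {S₂ : Sys G N}
    {lab₂ : N → Option J} {Y : Set J} {e : PartialEquiv I J} {g : PartialEquiv M N}
    (h : Isx S lab X S₂ lab₂ Y e g) (hc : Cp S lab) : Isx S₂ lab₂ Y S lab X e.symm g.symm := by
  have h1 : ∀ y ∈ Sx lab₂ Y, g.symm y ∈ Sx lab X := by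
    intro y hy
    rw [← h.gs]
    exact g.map_target (by rw [h.gt]; exact hy)
  have h2 : ∀ y ∈ Sx lab₂ Y, g (g.symm y) = y := by
    intro y hy
    exact g.right_inv (by rw [h.gt]; exact hy)
  refine ⟨h.et, h.es, h.gt, h.gs, ?_, ?_, ?_⟩
  · intro y hy
    have h3 := h.lb _ (h1 y hy)
    rw [h2 y hy] at h3
    rw [h3, Option.map_map]
    rcases hl : lab (g.symm y) with _ | i
    · rfl
    · have hi : i ∈ e.source := by
        rw [h.es]
        exact h1 y hy i hl
      show some i = some (e.symm (e i))
      rw [e.left_inv hi]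
  · intro f y hy
    have h3 := h.fn f _ (h1 y hy)
    rw [h2 y hy] at h3
    rw [← h3]
    exact g.left_inv (by rw [h.gs]; exact Sx_fn hc X f _ (h1 y hy))
  · intro R v hv
    have h3 := h.rel R (fun k => g.symm (v k)) fun k => h1 _ (hv k)
    have h4 : (fun k => g (g.symm (v k))) = v := funext fun k => h2 _ (hv k)
    rw [h4] at h3
    exact h3.symm

/-- the embedding of the components in the components of the extension by copies -/
def eI (E : T → Set I) : PartialEquiv I (IC E) where
  toFun := Sum.inl
  invFun := Sum.elim id fun c => c.1.2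
  source := univ
  target := range Sum.inl
  map_source' := fun i _ => ⟨i, rfl⟩
  map_target' := fun _ _ => mem_univ _
  left_inv' := fun _ _ => rfl
  right_inv' := by
    rintro _ ⟨i, rfl⟩
    rfl

/-- the embedding of the elements in the extension by copies -/
def gM (lab : M → Option I) (E : T → Set I) : PartialEquiv M (MC lab E) where
  toFun := Sum.inl
  invFun := Sum.elim id fun c => c.1.2
  source := univ
  target := range Sum.inl
  map_source' := fun i _ => ⟨i, rfl⟩
  map_target' := fun _ _ => mem_univ _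
  left_inv' := fun _ _ => rfl
  right_inv' := by
    rintro _ ⟨i, rfl⟩
    rfl

theorem eI_apply (E : T → Set I) (i : I) : eI E i = Sum.inl i := rfl

theorem gM_apply (lab : M → Option I) (E : T → Set I) (x : M) : gM lab E x = Sum.inl x := rfl

theorem Sx_range_inl (lab : M → Option I) (E : T → Set I) :
    Sx (labC lab E) (range Sum.inl) = range Sum.inl := by
  ext x
  constructor
  · intro hx
    rcases x with x | c
    · exact ⟨x, rfl⟩
    · obtain ⟨i, hi⟩ := hx _ rfl
      exact absurd hi (by simp)
  · rintro ⟨y, rfl⟩ c hc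
    rw [labC_inl, Option.map_eq_some_iff] at hc
    obtain ⟨i, -, rfl⟩ := hc
    exact ⟨i, rfl⟩

/-- the components which are not good at some level, and the copies in `P` -/
def NP (S : Sys G M) (lab : M → Option I) (Λ : ℕ → Set G.Rl) (E : T → Set I) (P : Set T) :
    Set (IC E) :=
  {c | (∃ i, c = Sum.inl i ∧ ¬ Gi S lab Λ univ i) ∨ ∃ t ∈ P, c ∈ cp E t (E t)}

/-- the infinity blocks `E t`, `t ∈ P`, are dense: at every level every component which is good at all
levels is conjugate to a component in `E t` for infinitely many `t ∈ P` -/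
def Dse (S : Sys G M) (lab : M → Option I) (Λ : ℕ → Set G.Rl) (E : T → Set I) (P : Set T) : Prop :=
  ∀ n i, Gi S lab Λ univ i → ∀ F : Set T, F.Finite → ∃ t ∈ P, t ∉ F ∧
    ∃ j ∈ E t, Cj S lab (Λ n) univ i j

/-- countably many copies of every `E' l` and of every `E₀ k` -/
def ET (E' E₀ : ℕ → Set I) : (ℕ × ℕ) ⊕ (ℕ × ℕ) → Set I :=
  Sum.elim (fun c => E' c.1) fun c => E₀ c.1

/-- all copies of the `E' l` and `m k` copies of `E₀ k` -/
def PT (m : ℕ → ℕ) : Set ((ℕ × ℕ) ⊕ (ℕ × ℕ)) := {t | ∀ c, t = Sum.inr c → c.2 < m c.1}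

end UNE
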