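import Pool.Agent.UNE.StB

/-!
# UNE [PRD]: products of automorphisms with disjoint supports
-/

set_option autoImplicit false
set_option linter.unusedVariables false

namespace UNE

open Set UN

private theorem PRD_fix {M I : Type} {lab : M → Option I} {b : Gp I M} {x : M} {i : I}
    (hx : lab x = some i) (hi : i ∉ Sp lab b) : b.2 x = x := by
  by_contra h
  exact hi ⟨x, hx, h⟩

private theorem PRD_mem {G : Sg} {M I : Type} {S : Sys G M} {lab : M → Option I} {Λ : Set G.Rl}
    {X : Set I} {a : Gp I M} (ha : Am S lab Λ X a) {i : I} (hi : i ∈ Sp lab a) :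
    a.1 i ∈ Sp lab a := by
  obtain ⟨y, hy, hne⟩ := hi
  refine ⟨a.2 y, ?_, fun h => hne (a.2.injective h)⟩
  rw [ha.lb, hy]
  rfl

/-- Products of automorphisms with disjoint supports. -/
theorem thm_PRD (h1 : St_GRA) : St_PRD := by
  classical
  intro G M I P S lab Λ X a hCp hP ha hdis
  obtain ⟨-, -, -, -, -, -, hmulSp, -, -, ⟨hone, hmul, -⟩, -⟩ := h1 G M I S lab hCp Λ X
  have hSp1 : Sp lab (1 : Gp I M) = ∅ := by
    ext i
    simp only [mem_empty_iff_false, iff_false]
    rintro ⟨x, -, hx⟩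
    exact hx rfl
  have key : ∀ F : Finset P, ∃ b, Ph S lab Λ X b ∧ (∀ i ∈ Sp lab b, ∃ p ∈ F, i ∈ Sp lab (a p)) ∧
      ∀ p ∈ F, ∀ x i, lab x = some i → i ∈ Sp lab (a p) → b.2 x = (a p).2 x := by
    intro F
    induction F using Finset.induction_on with
    | empty =>
      refine ⟨1, hone, fun i hi => ?_, fun p hp => absurd hp (Finset.notMem_empty _)⟩
      rw [hSp1] at hi
      exact absurd hi (notMem_empty _)
    | insert p₀ F hp₀ ih =>
      obtain ⟨b, hb, hbS, hbE⟩ := ih
      refine ⟨b * a p₀, hmul _ _ hb (ha p₀), fun i hi => ?_, fun p hp x i hx hi => ?_⟩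
      · rcases hmulSp _ _ hi with h | h
        · obtain ⟨p, hp, hpi⟩ := hbS i h
          exact ⟨p, Finset.mem_insert_of_mem hp, hpi⟩
        · exact ⟨p₀, Finset.mem_insert_self _ _, h⟩
      · have e : (b * a p₀).2 x = b.2 ((a p₀).2 x) := rfl
        rw [e]
        rcases Finset.mem_insert.1 hp with rfl | hpF
        · have h2 : lab ((a p).2 x) = some ((a p).1 i) := by
            rw [(ha p).1.lb, hx]
            rfl
          have h3 := PRD_mem (ha p).1 hi
          refine PRD_fix h2 fun h4 => ?_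
          obtain ⟨p', hp', h5⟩ := hbS _ h4
          have h6 : p ≠ p' := by
            rintro rfl
            exact hp₀ hp'
          exact disjoint_left.1 (hdis p p' h6) h3 h5
        · have h6 : p ≠ p₀ := fun h => hp₀ (h ▸ hpF)
          have h7 : i ∉ Sp lab (a p₀) := fun h => disjoint_left.1 (hdis p p₀ h6) hi h
          rw [PRD_fix hx h7]
          exact hbE p hpF x i hx hi
  have := Fintype.ofFinite P
  obtain ⟨b, hb, hbS, hbE⟩ := key Finset.univ
  refine ⟨b, hb, fun i hi => ?_, fun p x i hx hi => hbE p (Finset.mem_univ _) x i hx hi⟩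
  obtain ⟨p, -, hp⟩ := hbS i hi
  exact mem_iUnion.2 ⟨p, hp⟩

end UNE
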